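import Pool.Agent.SYS.UP.EvD

/-!
# SYS-UP-RchC: the explored regions are connected (induction on the steps; fillings by `fil_cn`)
-/

namespace SYS.UP

open SST Part Num

private theorem rc_facts {D : Type} [Finite D] {S : Part D} {x y : D} (hx : x ∈ S.B) (hy : y ∈ S.B) {u v : List D}
    (hw : S.hw x = x :: (u ++ y :: v)) : ∀ d, d ∈ u ∨ d ∈ v → d ∈ (S.glue x y hx hy).B := by
  have hn := hw_nodup S hx
  rw [hw, List.nodup_cons] at hn
  obtain ⟨hn1, hn2⟩ := hn
  have hxy : x ≠ y := by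
    rintro rfl
    exact hn1 (by simp)
  have hn3 := List.nodup_middle.1 hn2
  rw [List.nodup_cons] at hn3
  intro d hd
  have hd1 : d ∈ S.hw x := by
    rw [hw]
    rcases hd with hd | hd
    · simp [hd]
    · simp [hd]
  rw [glue_B S hx hy hxy]
  refine ⟨((mem_hw S hx).1 hd1).1, ?_⟩
  rintro (rfl | h)
  · apply hn1
    rcases hd with hd | hd
    · simp [hd]
    · simp [hd]
  · have hdy : d = y := h
    subst hdy
    apply hn3.1
    rcases hd with hd | hd
    · simp [hd]
    · simp [hd]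

private theorem rc_hun {D : Type} [Finite D] {G : Part D} {z : D} (hz : z ∈ G.B) {u : List D} (h : G.hw z = u) :
    G.HUn {d | d ∈ u} := by
  refine ⟨fun d hd => ?_, fun d hd e he hde => ?_⟩
  · have hd' : d ∈ u := hd
    rw [← h] at hd'
    exact ((mem_hw G hz).1 hd').1
  · have hd' : d ∈ u := hd
    rw [← h] at hd'
    show e ∈ u
    rw [← h, mem_hw G hz]
    exact ⟨he, ((mem_hw G hz).1 hd').2.trans hde⟩

private theorem rc_fill {D : Type} [Finite D] {G S' : Part D} {c : List D} {a : ℕ} (hG : G.Con)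
    (hH : c ≠ [] → G.HUn {d | d ∈ c}) (h : G.DiscFill S' c a) : S'.Con := by
  rcases h with ⟨_, _, rfl⟩ | ⟨hne, V, _, h⟩
  · exact hG
  · obtain ⟨z1, w1, rfl⟩ := List.exists_cons_of_ne_nil hne
    intro d hd e he
    obtain ⟨d', hd', hdd⟩ := fil_cn (hH hne) h ⟨z1, by simp⟩ hd
    obtain ⟨e', he', hee⟩ := fil_cn (hH hne) h ⟨z1, by simp⟩ he
    exact cn_trans hdd (cn_trans (cn_sub h.sub hd' (hG d' hd' e' he')) (cn_symm hee))

theorem st_con {D : Type} [Finite D] {S S' : Part D} {x z : D} {s : Stp} (h : S.St x s S' z) (hS : S.Con) : S'.Con := by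
  cases s with
  | T =>
    obtain ⟨t0, t1, t2, hx, h0, h1, h2, h01, h12, h20, rfl, _⟩ := h
    exact con_face S hx h0 h1 h2 h01 h12 h20 hS
  | L k a =>
    obtain ⟨y, u, v, w, hx, hy, hw, _, _, hD⟩ := h
    refine rc_fill (con_glue S hx hy hS) (fun hne => ?_) hD
    obtain ⟨z1, w1, rfl⟩ := List.exists_cons_of_ne_nil hne
    exact rc_hun (rc_facts hx hy hw z1 (Or.inr (by simp))) (hw_glue_split_right S hx hy hw rfl)
  | R k a =>
    obtain ⟨y, u, v, w, hx, hy, hw, _, _, hD⟩ := h
    refine rc_fill (con_glue S hx hy hS) (fun hne => ?_) hD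
    obtain ⟨z1, w1, rfl⟩ := List.exists_cons_of_ne_nil hne
    exact rc_hun (rc_facts hx hy hw z1 (Or.inl (by simp))) (hw_glue_split_left S hx hy hw rfl)

theorem rch_con {D : Type} [Finite D] {ρ : List Stp → ℕ} {h : List Stp} {S S' : Part D} {x x' : D} {w : List Stp}
    (hr : Rch ρ h S x w S' x') (hS : S.Con) : S'.Con := by
  induction w generalizing h S x with
  | nil =>
    obtain ⟨rfl, rfl⟩ := hr
    exact hS
  | cons s w ih =>
    obtain ⟨S₁, z, hst, hr⟩ := hr
    exact ih hr (st_con hst hS)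

theorem con_src {D : Type} [Finite D] {T : Tri D} {y : D} {S1 : Part D} (h : Src emp T y S1) : S1.Con := by
  classical
  obtain ⟨_, t1, t2, h0, h1, h2, h01, h12, h20, rfl⟩ := h
  set S1 := (emp : Part D).newTri y t1 t2 h0 h1 h2 h01 h12 h20 with hS1
  have hf0 : S1.f y = t1 := by
    show ((emp : Part D).f * cyc3 y t1 t2) y = t1
    rw [Equiv.Perm.mul_apply, cyc3, Equiv.Perm.mul_apply, Equiv.swap_apply_of_ne_of_ne h01 h20.symm, Equiv.swap_apply_left]
    rfl
  have hf1 : S1.f t1 = t2 := by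
    show ((emp : Part D).f * cyc3 y t1 t2) t1 = t2
    rw [Equiv.Perm.mul_apply, cyc3, Equiv.Perm.mul_apply, Equiv.swap_apply_left, Equiv.swap_apply_of_ne_of_ne h20 h12.symm]
    rfl
  have c1 : S1.Cn y t1 := by
    have := cn_f S1 y
    rwa [hf0] at this
  have c2 : S1.Cn y t2 := by
    have := cn_f S1 t1
    rw [hf1] at this
    exact cn_trans c1 this
  have key : ∀ d ∈ S1.R, S1.Cn y d := by
    intro d hd
    rw [hS1, newTri_R] at hd
    rcases hd with hd | hd | hd | hd
    · exact absurd rfl hd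
    · rw [hd]; exact cn_refl _ _
    · rw [hd]; exact c1
    · rw [hd]; exact c2
  intro d hd e he
  exact cn_trans (cn_symm (key d hd)) (key e he)

end SYS.UP
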