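import Pool.Agent.SYS.UP.Main
import Pool.Agent.SYS.T1

/-!
# SYS-UP-MainF: the upper bound along the filter `Fth`, in the form of `SYS.sepLim`
-/

namespace SYS.UP

open SST Filter Topology

theorem up_ps {θ x : ℝ} (h : Num.Par θ x) (ε : ℝ) (hε : 0 < ε) :
    Tendsto (PS (1 / x + ε)) (Num.Fth θ) (𝓝 1) := by
  classical
  have h2 := (up_trn h hε).const_sub 1
  rw [sub_zero] at h2
  refine h2.congr' ?_
  have h1 : ∀ᶠ p in Num.Fth θ, 1 ≤ p.1 := by
    have h4 : Tendsto (fun p : ℕ × ℕ => p.1) (Num.Fth θ) atTop := tendsto_comap.mono_left inf_le_left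
    exact h4.eventually (eventually_ge_atTop 1)
  filter_upwards [nu_pos_ev h, h1] with p hn hn1
  have hpos : (0 : ℝ) < ((Trn p.1 p.2).ncard : ℝ) := by
    rcases Nat.eq_zero_or_pos (Trn p.1 p.2).ncard with h0 | h0
    · exfalso
      rw [SST.nu] at hn
      simp only [h0, Nat.cast_zero, zero_div, lt_irrefl] at hn
    · exact_mod_cast h0
  unfold PS
  rw [frac_sep hn1, eq_div_iff hpos.ne', sub_mul, one_mul, div_mul_cancel₀ _ hpos.ne']
  have h3 : {T : Tri (Fin (6 * p.1)) | T ∈ Trn p.1 p.2 ∧ T.HasSep ((1 / x + ε) * Real.log p.1)}.ncard +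
      {T : Tri (Fin (6 * p.1)) | T ∈ Trn p.1 p.2 ∧ ¬ T.HasSep ((1 / x + ε) * Real.log p.1)}.ncard =
        (Trn p.1 p.2).ncard := by
    rw [← Set.ncard_union_eq ?_ (Set.toFinite _) (Set.toFinite _)]
    · congr 1
      ext T
      simp only [Set.mem_union, Set.mem_setOf_eq]
      tauto
    · rw [Set.disjoint_left]
      rintro T ⟨-, a⟩ ⟨-, b⟩
      exact b a
  rw [← h3]
  push_cast
  ring

end SYS.UP
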