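import Pool.Agent.SYS.UP.EvD

/-!
# SYS-UP-SepC: number of triangulations in which the gate separates the two other holes

Union bound over the splittings of the triangles and of the genus of the filling of the component behind the
first new hole (`fil_of_hc`, `fil_euler`, `typ_fill`, `fil2_card`).
-/

namespace SYS.UP

open SST Part Num

variable {n g : ℕ}

private theorem sc_nn (P : Multiset ℕ) (F g : ℕ) : 0 ≤ muG P F g := by
  unfold muG
  split_ifs
  · exact_mod_cast SYS.A.muP_nonneg P F _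
  · exact le_rfl

private theorem sc_union {α ι : Type} [Finite α] (I : Finset ι) (M : ι → Set α) (c : ι → ℝ)
    (h : ∀ i ∈ I, (((M i).ncard : ℕ) : ℝ) ≤ c i) :
    (((⋃ i ∈ I, M i).ncard : ℕ) : ℝ) ≤ ∑ i ∈ I, c i := by
  classical
  induction I using Finset.induction_on with
  | empty => simp
  | insert i I hi ih =>
    rw [Finset.set_biUnion_insert, Finset.sum_insert hi]
    have h1 : (((M i ∪ ⋃ j ∈ I, M j).ncard : ℕ) : ℝ) ≤ (M i).ncard + (⋃ j ∈ I, M j).ncard := by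
      exact_mod_cast Set.ncard_union_le _ _
    have h2 := h i (Finset.mem_insert_self i I)
    have h3 := ih fun j hj => h j (Finset.mem_insert_of_mem hj)
    linarith

/-- the hidden component behind `a`, `b` has `F1` triangles and genus `g1` -/
private def scM (G : Part (Fin (6 * n))) (g : ℕ) (a b : Fin (6 * n)) (s F1 g1 : ℕ) :
    Set (Tri (Fin (6 * n))) :=
  {T | T ∈ G.Ext g ∧ ∃ V1, 2 * V1 + 4 * g1 + 4 = 4 + F1 + s ∧
    ∃ S', G.FillBy S' {d | d ∈ G.B ∧ ∃ e ∈ [a, b], G.s.SameCycle e d} F1 V1 ∧ S'.Le T ∧ S'.HConn T}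

private theorem sc_count {G : Part (Fin (6 * n))} {a b c d : Fin (6 * n)}
    {p1 p2 p3 p4 F1 F2 g1 g2 : ℕ}
    (hG : G.Typ ([a, b] ++ [c, d]) ([p1, p2] ++ [p3, p4]) (F1 + F2) 2)
    (hc : ∀ e ∈ [a, b], ∃ e' ∈ [c, d], G.Cn e e') (hg : g + 1 = g1 + g2 + 2) :
    (((scM G g a b (p1 + p2) F1 g1).ncard : ℕ) : ℝ) ≤
      ((3 * (F1 + F2)).factorial : ℝ) * (muG {p1, p2} F1 g1 * muG {p3, p4} F2 g2) := by
  by_cases hV : ∃ V1, 2 * V1 + 4 * g1 + 4 = 4 + F1 + (p1 + p2)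
  · obtain ⟨V1, hV1⟩ := hV
    have h1 := fil2_card (g := g) (V1 := V1) (g1 := g1) (g2 := g2) hG rfl (by simp) (by simp)
      (by
        simp only [List.length_cons, List.length_nil, List.sum_cons, List.sum_nil]
        omega) hc hg
    have h2 : scM G g a b (p1 + p2) F1 g1 = {T | T ∈ G.Ext g ∧
        ∃ S', G.FillBy S' {d | d ∈ G.B ∧ ∃ e ∈ [a, b], G.s.SameCycle e d} F1 V1 ∧ S'.Le T ∧
          S'.HConn T} := by
      ext T
      constructor
      · rintro ⟨hT, V, hV, S', h3, h4, h5⟩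
        have h6 : V = V1 := by omega
        rw [h6] at h3
        exact ⟨hT, S', h3, h4, h5⟩
      · rintro ⟨hT, S', h3, h4, h5⟩
        exact ⟨hT, V1, hV1, S', h3, h4, h5⟩
    rw [h2, h1, mul_assoc]
    exact le_rfl
  · have h2 : scM G g a b (p1 + p2) F1 g1 = ∅ := by
      ext T
      constructor
      · rintro ⟨hT, V, hV', h3⟩
        exact absurd ⟨V, hV'⟩ hV
      · intro h
        exact absurd h (Set.notMem_empty T)
    rw [h2, Set.ncard_empty, Nat.cast_zero]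
    exact mul_nonneg (Nat.cast_nonneg _) (mul_nonneg (sc_nn _ _ _) (sc_nn _ _ _))

private theorem sc_same {G : Part (Fin (6 * n))} {T : Tri (Fin (6 * n))} {d e : Fin (6 * n)}
    (hd : d ∈ G.B) (he : e ∈ G.B) (h : G.s.SameCycle d e) : G.Hc T d e :=
  hc_hole hd ((mem_hw G hd).2 ⟨he, h⟩)

private theorem sc_mem {G : Part (Fin (6 * n))} {T : Tri (Fin (6 * n))} {a b c d : Fin (6 * n)}
    {p1 p2 p3 p4 F : ℕ} (hG : G.Typ ([a, b] ++ [c, d]) ([p1, p2] ++ [p3, p4]) F 2)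
    (hc : ∀ e ∈ [a, b], ∃ e' ∈ [c, d], G.Cn e e') (hT : T ∈ G.Ext g) (hab : G.Hc T a b)
    (hcd : G.Hc T c d) (hac : ¬ G.Hc T a c) (hX : ∀ e ∈ G.X, G.Hc T a e ∨ G.Hc T c e) :
    ∃ F1 F2 g1 g2 : ℕ, F1 + F2 = F ∧ g1 + g2 = g - 1 ∧ T ∈ scM G g a b (p1 + p2) F1 g1 := by
  have hLe : G.Le T := hT.2
  have haB : a ∈ G.B := hG.hl.1 a (by simp)
  have hbB : b ∈ G.B := hG.hl.1 b (by simp)
  have hcB : c ∈ G.B := hG.hl.1 c (by simp)
  have hdB : d ∈ G.B := hG.hl.1 d (by simp)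
  obtain ⟨F1, V, hf⟩ := fil_of_hc hLe haB
  have hset : G.B ∩ G.HC T a = {d | d ∈ G.B ∧ ∃ e ∈ [a, b], G.s.SameCycle e d} := by
    ext e
    constructor
    · rintro ⟨he, -, hae⟩
      obtain ⟨r, hr, hs⟩ := hG.hl.2.2 e he
      have hr' : r = a ∨ r = b ∨ r = c ∨ r = d := by simpa using hr
      rcases hr' with h | h | h | h
      · exact ⟨he, a, by simp, by rw [← h]; exact hs⟩
      · exact ⟨he, b, by simp, by rw [← h]; exact hs⟩
      · exfalso
        rw [h] at hs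
        exact hac (hc_trans hae (hc_symm (sc_same hcB he hs)))
      · exfalso
        rw [h] at hs
        exact hac (hc_trans hae (hc_symm (hc_trans hcd (sc_same hdB he hs))))
    · rintro ⟨he, r, hr, hs⟩
      have hr' : r = a ∨ r = b := by simpa using hr
      rcases hr' with h | h
      · rw [h] at hs
        exact ⟨he, Or.inr he, sc_same haB he hs⟩
      · rw [h] at hs
        exact ⟨he, Or.inr he, hc_trans hab (sc_same hbB he hs)⟩
  rw [hset] at hf
  have hpw : [a, b].Pairwise (fun d e => ¬ G.s.SameCycle d e) :=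
    (List.pairwise_append.1 hG.hl.2.1).1
  obtain ⟨k, hk⟩ := fil_euler (l1 := [a, b]) (by simp) hpw
    (fun e he => hG.hl.1 e (List.mem_append_left _ he)) hf
  have hper : G.per a = p1 ∧ G.per b = p2 := by
    have h1 := hG.per
    simp only [List.cons_append, List.nil_append, List.map_cons, List.map_nil,
      List.cons.injEq] at h1
    exact ⟨h1.1, h1.2.1⟩
  have hk' : 2 * V + 4 * k + 4 = 4 + F1 + (p1 + p2) := by
    simp only [List.map_cons, List.map_nil, List.length_cons, List.length_nil, List.sum_cons,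
      List.sum_nil, hper.1, hper.2] at hk
    omega
  have hF : F1 ≤ F := by
    have h1 := hf.R
    have h2 := hG.vol
    have h3 : (G.fill T hLe a).R.ncard ≤ Nat.card (Fin (6 * n)) := by
      rw [← Set.ncard_univ]
      exact Set.ncard_le_ncard (Set.subset_univ _) (Set.toFinite _)
    omega
  obtain ⟨F2, hF2⟩ := Nat.exists_eq_add_of_le hF
  have hconn : (G.fill T hLe a).HConn T := by
    have key : ∀ e, e ∈ (G.fill T hLe a).X → G.Hc T c e := by
      intro e he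
      rw [X_fill] at he
      exact (hX e he.1).resolve_left fun h => he.2 ⟨he.1, h⟩
    intro e he e' he'
    exact (hc_fill hLe a he he').2 (hc_trans (hc_symm (key e he)) (key e' he'))
  rw [hF2] at hG
  have htyp := typ_fill (κ := k + 1) hG rfl (by simp) (by simp) hf (by
    simp only [List.length_cons, List.length_nil, List.sum_cons, List.sum_nil]
    omega) hc (by omega)
  have hle := typ_le htyp ⟨hT.1, fill_le hLe a⟩ hconn
  exact ⟨F1, F2, k, g - 1 - k, hF2.symm, by omega, hT, V, hk', _, hf, fill_le hLe a, hconn⟩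

private theorem sc_bound {G : Part (Fin (6 * n))} {a b c d : Fin (6 * n)} {p1 p2 p3 p4 F : ℕ}
    (hG : G.Typ ([a, b] ++ [c, d]) ([p1, p2] ++ [p3, p4]) F 2)
    (hc : ∀ e ∈ [a, b], ∃ e' ∈ [c, d], G.Cn e e') (hg : 1 ≤ g) :
    (({T | ∃ F1 F2 g1 g2 : ℕ, F1 + F2 = F ∧ g1 + g2 = g - 1 ∧
      T ∈ scM G g a b (p1 + p2) F1 g1}.ncard : ℕ) : ℝ) ≤
      ((3 * F).factorial : ℝ) * SepS {p1, p2} {p3, p4} F (g - 1) := by
  classical
  have h1 := sc_union (α := Tri (Fin (6 * n)))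
    (Finset.HasAntidiagonal.antidiagonal F ×ˢ Finset.HasAntidiagonal.antidiagonal (g - 1))
    (fun i => scM G g a b (p1 + p2) i.1.1 i.2.1)
    (fun i => ((3 * F).factorial : ℝ) *
      (muG {p1, p2} i.1.1 i.2.1 * muG {p3, p4} i.1.2 i.2.2)) (by
      intro i hi
      rw [Finset.mem_product, Finset.HasAntidiagonal.mem_antidiagonal,
        Finset.HasAntidiagonal.mem_antidiagonal] at hi
      have h2 := sc_count (g := g) (F1 := i.1.1) (F2 := i.1.2) (g1 := i.2.1) (g2 := i.2.2)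
        (by rw [hi.1]; exact hG) hc (by omega)
      rw [hi.1] at h2
      exact h2)
  have h2 : {T | ∃ F1 F2 g1 g2 : ℕ, F1 + F2 = F ∧ g1 + g2 = g - 1 ∧
      T ∈ scM G g a b (p1 + p2) F1 g1} ⊆
      ⋃ i ∈ Finset.HasAntidiagonal.antidiagonal F ×ˢ Finset.HasAntidiagonal.antidiagonal (g - 1),
        scM G g a b (p1 + p2) i.1.1 i.2.1 := by
    rintro T ⟨F1, F2, g1, g2, e1, e2, e3⟩
    refine Set.mem_iUnion₂.2 ⟨((F1, F2), (g1, g2)), ?_, e3⟩
    rw [Finset.mem_product, Finset.HasAntidiagonal.mem_antidiagonal,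
      Finset.HasAntidiagonal.mem_antidiagonal]
    exact ⟨e1, e2⟩
  have h3 : (({T | ∃ F1 F2 g1 g2 : ℕ, F1 + F2 = F ∧ g1 + g2 = g - 1 ∧
      T ∈ scM G g a b (p1 + p2) F1 g1}.ncard : ℕ) : ℝ) ≤
      (((⋃ i ∈ Finset.HasAntidiagonal.antidiagonal F ×ˢ Finset.HasAntidiagonal.antidiagonal (g - 1),
        scM G g a b (p1 + p2) i.1.1 i.2.1).ncard : ℕ) : ℝ) := by
    exact_mod_cast Set.ncard_le_ncard h2 (Set.toFinite _)
  refine h3.trans (h1.trans (le_of_eq ?_))
  unfold SepS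
  rw [Finset.sum_product, Finset.mul_sum]
  refine Finset.sum_congr rfl fun f _ => ?_
  rw [Finset.mul_sum]

/-- the elements of the set of `sep_le` are in one of two sets -/
private theorem sc_cover {S : Part (Fin (6 * n))} {T : Tri (Fin (6 * n))}
    {x y z z' zu zv : Fin (6 * n)} {u v : List (Fin (6 * n))} {q1 q2 q3 q4 F : ℕ}
    (hx : x ∈ S.B) (hy : y ∈ S.B) (hw : S.hw x = x :: (zu :: u ++ y :: zv :: v))
    (hA : (S.glue x y hx hy).Typ ([zu, z] ++ [zv, z']) ([q3, q1] ++ [q4, q2]) F 2)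
    (hB : (S.glue x y hx hy).Typ ([zu, z'] ++ [zv, z]) ([q3, q2] ++ [q4, q1]) F 2)
    (hcA : ∀ e ∈ [zu, z], ∃ e' ∈ [zv, z'], (S.glue x y hx hy).Cn e e')
    (hcB : ∀ e ∈ [zu, z'], ∃ e' ∈ [zv, z], (S.glue x y hx hy).Cn e e')
    (hT : T ∈ S.Ext g) (hcn : S.HConn T) (hTx : T.a x = y)
    (hnc : ¬ (S.glue x y hx hy).HConn T)
    (h1 : ∃ d ∈ [z, z'], ∃ e ∈ zu :: u, (S.glue x y hx hy).Hc T e d)
    (h2 : ∃ d ∈ [z, z'], ∃ e ∈ zv :: v, (S.glue x y hx hy).Hc T e d) :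
    (∃ F1 F2 g1 g2 : ℕ, F1 + F2 = F ∧ g1 + g2 = g - 1 ∧
      T ∈ scM (S.glue x y hx hy) g zu z (q3 + q1) F1 g1) ∨
    (∃ F1 F2 g1 g2 : ℕ, F1 + F2 = F ∧ g1 + g2 = g - 1 ∧
      T ∈ scM (S.glue x y hx hy) g zu z' (q3 + q2) F1 g1) := by
  have hTG : T ∈ (S.glue x y hx hy).Ext g := ⟨hT.1, glue_le S hx hy hT.2 hTx⟩
  have hzuB : zu ∈ (S.glue x y hx hy).B := hA.hl.1 zu (by simp)
  have hzvB : zv ∈ (S.glue x y hx hy).B := hA.hl.1 zv (by simp)
  have hu : ∀ e ∈ zu :: u, (S.glue x y hx hy).Hc T zu e := by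
    intro e he
    refine hc_hole hzuB ?_
    rw [hw_glue_split_left S hx hy (u := zu :: u) (v := zv :: v) hw rfl]
    exact he
  have hv : ∀ e ∈ zv :: v, (S.glue x y hx hy).Hc T zv e := by
    intro e he
    refine hc_hole hzvB ?_
    rw [hw_glue_split_right S hx hy (u := zu :: u) (v := zv :: v) hw rfl]
    exact he
  have hsplit : ∀ d ∈ (S.glue x y hx hy).X, ∀ e ∈ (S.glue x y hx hy).X,
      (S.glue x y hx hy).Hc T d e ∨
      ((S.glue x y hx hy).Hc T zu d ∧ (S.glue x y hx hy).Hc T zv e) ∨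
      ((S.glue x y hx hy).Hc T zv d ∧ (S.glue x y hx hy).Hc T zu e) := by
    intro d hd e he
    have hXS : ∀ d, d ∈ (S.glue x y hx hy).X → d ∈ S.X := by
      intro d hd
      rcases hd with h | h
      · rw [glue_R] at h
        exact Or.inl h
      · right
        have hxy : x ≠ y := by
          have hn := hw_nodup S hx
          rw [hw, List.nodup_cons] at hn
          intro h3
          exact hn.1 (by rw [h3]; simp)
        rw [glue_B S hx hy hxy] at h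
        exact h.1
    rcases (hc_glue_split hT.2 hx hy hTx hw hd he).1 (hcn d (hXS d hd) e (hXS e he)) with
      h | ⟨⟨r, hr, h3⟩, r', hr', h4⟩ | ⟨⟨r, hr, h3⟩, r', hr', h4⟩
    · exact Or.inl h
    · exact Or.inr (Or.inl ⟨hc_trans (hu r hr) h3, hc_trans (hv r' hr') h4⟩)
    · exact Or.inr (Or.inr ⟨hc_trans (hv r hr) h3, hc_trans (hu r' hr') h4⟩)
  have hne : ¬ (S.glue x y hx hy).Hc T zu zv := by
    intro h
    apply hnc
    intro d hd e he
    rcases hsplit d hd e he with h3 | ⟨h3, h4⟩ | ⟨h3, h4⟩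
    · exact h3
    · exact hc_trans (hc_symm h3) (hc_trans h h4)
    · exact hc_trans (hc_symm h3) (hc_trans (hc_symm h) h4)
  have hX : ∀ e ∈ (S.glue x y hx hy).X,
      (S.glue x y hx hy).Hc T zu e ∨ (S.glue x y hx hy).Hc T zv e := by
    intro e he
    rcases hsplit zu (Or.inr hzuB) e he with h | ⟨-, h⟩ | ⟨h, -⟩
    · exact Or.inl h
    · exact Or.inr h
    · exact absurd (hc_symm h) hne
  obtain ⟨d1, hd1, e1, he1, h5⟩ := h1
  obtain ⟨d2, hd2, e2, he2, h6⟩ := h2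
  have h7 := hc_trans (hu e1 he1) h5
  have h8 := hc_trans (hv e2 he2) h6
  have hd1' : d1 = z ∨ d1 = z' := by simpa using hd1
  have hd2' : d2 = z ∨ d2 = z' := by simpa using hd2
  rcases hd1' with r1 | r1
  · rcases hd2' with r2 | r2
    · rw [r1] at h7
      rw [r2] at h8
      exact absurd (hc_trans h7 (hc_symm h8)) hne
    · rw [r1] at h7
      rw [r2] at h8
      exact Or.inl (sc_mem hA hcA hTG h7 h8 hne hX)
  · rcases hd2' with r2 | r2
    · rw [r1] at h7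
      rw [r2] at h8
      exact Or.inr (sc_mem hB hcB hTG h7 h8 hne hX)
    · rw [r1] at h7
      rw [r2] at h8
      exact absurd (hc_trans h7 (hc_symm h8)) hne

theorem sep_le {S : Part (Fin (6 * n))} {x z z' : Fin (6 * n)} {p q1 q2 q3 q4 F : ℕ}
    (hS : S.Typ [x, z, z'] [p, q1, q2] F 1) (hg : 1 ≤ g) (hC : S.Cn z z') (h3 : 1 ≤ q3) (h4 : 1 ≤ q4) (hp : q3 + q4 + 2 = p) :
    (({T | T ∈ S.Ext g ∧ S.HConn T ∧ ∃ u v, S.Sep T x u v ∧ u.length = q3 ∧ v.length = q4 ∧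
      ∀ (hx : x ∈ S.B) (hy : T.a x ∈ S.B), (∃ d ∈ [z, z'], ∃ e ∈ u, (S.glue x (T.a x) hx hy).Hc T e d) ∧
        ∃ d ∈ [z, z'], ∃ e ∈ v, (S.glue x (T.a x) hx hy).Hc T e d}.ncard : ℕ) : ℝ) ≤
      ((3 * F).factorial : ℝ) * (SepS {q3, q1} {q4, q2} F (g - 1) + SepS {q3, q2} {q4, q1} F (g - 1)) := by
  have hx : x ∈ S.B := hS.hl.1 x List.mem_cons_self
  have hper : S.per x = p := by
    have h5 := hS.per
    rw [List.map_cons] at h5
    exact (List.cons.inj h5).1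
  have hlen := hw_length S hx
  obtain ⟨w, hw⟩ := hw_cons S hx
  rw [hw, List.length_cons, hper] at hlen
  obtain ⟨u, y, v, hwu, hu, hv⟩ : ∃ u y v, w = u ++ y :: v ∧ u.length = q3 ∧ v.length = q4 := by
    have h5 : (w.drop q3).length = q4 + 1 := by
      rw [List.length_drop]
      omega
    cases hd : w.drop q3 with
    | nil =>
      rw [hd, List.length_nil] at h5
      omega
    | cons y v =>
      refine ⟨w.take q3, y, v, ?_, ?_, ?_⟩
      · rw [← hd, List.take_append_drop]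
      · rw [List.length_take]
        omega
      · rw [hd, List.length_cons] at h5
        omega
  subst hwu
  have hy : y ∈ S.B := ((mem_hw S hx).1 (by rw [hw]; simp)).1
  obtain ⟨zu, u', rfl⟩ : ∃ z u', u = z :: u' := by
    cases u with
    | nil =>
      rw [List.length_nil] at hu
      omega
    | cons z u' => exact ⟨z, u', rfl⟩
  obtain ⟨zv, v', rfl⟩ : ∃ z v', v = z :: v' := by
    cases v with
    | nil =>
      rw [List.length_nil] at hv
      omega
    | cons z v' => exact ⟨z, v', rfl⟩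
  have hG := typ_ns hS hx hy hw
  rw [← List.length_cons (a := zu), ← List.length_cons (a := zv), hu, hv] at hG
  have hpers := hG.per
  simp only [List.map_cons, List.map_nil, List.cons.injEq] at hpers
  obtain ⟨m1, m2, m3, m4, -⟩ := hpers
  have hA : (S.glue x y hx hy).Typ ([zu, z] ++ [zv, z']) ([q3, q1] ++ [q4, q2]) F 2 := by
    have h5 := typ_perm hG (l' := [zu, z, zv, z'])
      (List.Perm.cons zu (List.Perm.swap z zv [z']))
    simp only [List.map_cons, List.map_nil, m1, m2, m3, m4] at h5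
    exact h5
  have hB : (S.glue x y hx hy).Typ ([zu, z'] ++ [zv, z]) ([q3, q2] ++ [q4, q1]) F 2 := by
    have h5 := typ_perm hG (l' := [zu, z', zv, z])
      (List.Perm.cons zu ((List.Perm.cons zv (List.Perm.swap z' z [])).trans
        (List.Perm.swap z' zv [z])))
    simp only [List.map_cons, List.map_nil, m1, m2, m3, m4] at h5
    exact h5
  have hsub : S.Sub (S.glue x y hx hy) := glue_sub S hx hy
  have hzu := (mem_hw S hx).1 (show zu ∈ S.hw x by rw [hw]; simp)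
  have hzv := (mem_hw S hx).1 (show zv ∈ S.hw x by rw [hw]; simp)
  have hcu : (S.glue x y hx hy).Cn zu zv :=
    cn_sub hsub hzu.1.1 (cn_of_same (hzu.2.symm.trans hzv.2))
  have hzB : z ∈ S.B := hS.hl.1 z (by simp)
  have hcz : (S.glue x y hx hy).Cn z z' := cn_sub hsub hzB.1 hC
  have hcA : ∀ e ∈ [zu, z], ∃ e' ∈ [zv, z'], (S.glue x y hx hy).Cn e e' := by
    intro e he
    have he' : e = zu ∨ e = z := by simpa using he
    rcases he' with h5 | h5
    · exact ⟨zv, by simp, by rw [h5]; exact hcu⟩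
    · exact ⟨z', by simp, by rw [h5]; exact hcz⟩
  have hcB : ∀ e ∈ [zu, z'], ∃ e' ∈ [zv, z], (S.glue x y hx hy).Cn e e' := by
    intro e he
    have he' : e = zu ∨ e = z' := by simpa using he
    rcases he' with h5 | h5
    · exact ⟨zv, by simp, by rw [h5]; exact hcu⟩
    · exact ⟨z, by simp, by rw [h5]; exact cn_symm hcz⟩
  have hsubset : {T | T ∈ S.Ext g ∧ S.HConn T ∧ ∃ u v, S.Sep T x u v ∧ u.length = q3 ∧
      v.length = q4 ∧
      ∀ (hx : x ∈ S.B) (hy : T.a x ∈ S.B), (∃ d ∈ [z, z'], ∃ e ∈ u, (S.glue x (T.a x) hx hy).Hc T e d) ∧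
        ∃ d ∈ [z, z'], ∃ e ∈ v, (S.glue x (T.a x) hx hy).Hc T e d} ⊆
      {T | ∃ F1 F2 g1 g2 : ℕ, F1 + F2 = F ∧ g1 + g2 = g - 1 ∧
        T ∈ scM (S.glue x y hx hy) g zu z (q3 + q1) F1 g1} ∪
      {T | ∃ F1 F2 g1 g2 : ℕ, F1 + F2 = F ∧ g1 + g2 = g - 1 ∧
        T ∈ scM (S.glue x y hx hy) g zu z' (q3 + q2) F1 g1} := by
    rintro T ⟨hT, hcn, u0, v0, ⟨-, -, hw0, hx0, hy0, hn0, -, -⟩, hu0, hv0, hh⟩
    rw [hw] at hw0
    have e1 := (List.cons.inj hw0).2
    obtain ⟨e2, e3⟩ := List.append_inj e1 (hu.trans hu0.symm)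
    obtain ⟨e4, e5⟩ := List.cons.inj e3
    obtain ⟨h5, h6⟩ := hh hx0 hy0
    have hgl : S.glue x (T.a x) hx0 hy0 = S.glue x y hx hy := by
      have : ∀ (y' : Fin (6 * n)) (hy' : y' ∈ S.B), y = y' →
          S.glue x y' hx0 hy' = S.glue x y hx hy := by
        rintro _ _ rfl
        rfl
      exact this _ hy0 e4
    rw [hgl, ← e2] at h5
    rw [hgl, ← e5] at h6
    rw [hgl] at hn0
    exact sc_cover hx hy hw hA hB hcA hcB hT hcn e4.symm hn0 h5 h6
  have hcard : (({T | T ∈ S.Ext g ∧ S.HConn T ∧ ∃ u v, S.Sep T x u v ∧ u.length = q3 ∧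
      v.length = q4 ∧
      ∀ (hx : x ∈ S.B) (hy : T.a x ∈ S.B), (∃ d ∈ [z, z'], ∃ e ∈ u, (S.glue x (T.a x) hx hy).Hc T e d) ∧
        ∃ d ∈ [z, z'], ∃ e ∈ v, (S.glue x (T.a x) hx hy).Hc T e d}.ncard : ℕ) : ℝ) ≤
      (({T | ∃ F1 F2 g1 g2 : ℕ, F1 + F2 = F ∧ g1 + g2 = g - 1 ∧
        T ∈ scM (S.glue x y hx hy) g zu z (q3 + q1) F1 g1}.ncard : ℕ) : ℝ) +
      (({T | ∃ F1 F2 g1 g2 : ℕ, F1 + F2 = F ∧ g1 + g2 = g - 1 ∧
        T ∈ scM (S.glue x y hx hy) g zu z' (q3 + q2) F1 g1}.ncard : ℕ) : ℝ) := by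
    exact_mod_cast (Set.ncard_le_ncard hsubset (Set.toFinite _)).trans (Set.ncard_union_le _ _)
  refine hcard.trans ?_
  rw [mul_add]
  exact add_le_add (sc_bound hA hcA hg) (sc_bound hB hcB hg)

end SYS.UP
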