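import Pool.Agent.SYS.UP.Def2
import Pool.Agent.SYS.Lib.Evt
import Pool.Agent.SYS.Lib.PtwB
import Pool.Agent.SYS.UT.Run

/-!
# Project SYS, block UP: the events in a triangulation.  DO NOT CHANGE.

`Rn S T y w S' x'`: the exploration of `T` from a new source `y` outside the region `S` (the triangle of `y` is added to `S`, gate `y`, trivial rule) reads the numeric word `w`; it is at the
region `S'` with gate `x'` (hidden part connected).  `Nsr`: the gate is glued inside its hole, `S0` = region after the gluing, `z`, `z'` first darts of the two new holes.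
`Ev T x t S0 z z'`: the event of type `t` happens at `x`.
-/

namespace SYS.UP

open SST Part Num

/-- The rule of stage 1. -/
def r0 (_ : List Stp) : ℕ := 0

/-- `S'` = `S` with the triangle of `y`. -/
def Src {D : Type} [Finite D] (S : Part D) (T : Tri D) (y : D) (S' : Part D) : Prop :=
  S'.Le T ∧ ∃ t1 t2 h0 h1 h2 h01 h12 h20, S' = S.newTri y t1 t2 h0 h1 h2 h01 h12 h20

def Rn {D : Type} [Finite D] (S : Part D) (T : Tri D) (y : D) (w : List Stp) (S' : Part D) (x' : D) : Prop :=
  ∃ S1, Src S T y S1 ∧ Rch r0 [] S1 y w S' x' ∧ S'.Le T ∧ S'.HConn T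

/-- Splitting of the hole of `x` with connected complement; perimeters `q1`, `q2`. -/
def Nsr {D : Type} [Finite D] (S : Part D) (T : Tri D) (x : D) (q1 q2 : ℕ) (S0 : Part D) (z z' : D) : Prop :=
  ∃ (u v : List D) (hx : x ∈ S.B) (hy : T.a x ∈ S.B), S.hw x = x :: ((z :: u) ++ T.a x :: z' :: v) ∧
    u.length + 1 = q1 ∧ v.length + 1 = q2 ∧ S0 = S.glue x (T.a x) hx hy ∧ S0.Le T ∧ S0.HConn T

def Ev {D : Type} [Finite D] (T : Tri D) (x : D) (t : Et) (S0 : Part D) (z z' : D) : Prop :=
  ∃ S' x', Rn emp T x t.2.2 S' x' ∧ Nsr S' T x' t.1 t.2.1 S0 z z'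

/-- One of the events of the set happens at `x`. -/
def EvX {D : Type} [Finite D] (S : Finset Et) (T : Tri D) (x : D) : Prop := ∃ t ∈ S, ∃ S0 z z', Ev T x t S0 z z'

/-- The regions after the events of type `t`. -/
structure Reg {n : ℕ} (t : Et) (S0 : Part (Fin (6 * n))) (z z' : Fin (6 * n)) : Prop where
  typ : S0.Typ [z, z'] [t.1, t.2.1] (2 * n - vE t) 1
  con : S0.Con

end SYS.UP
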