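import Pool.Agent.SYS.UP.Defs
import Pool.Agent.SYS.BD.Cru
import Pool.Agent.SYS.BD.MgO
import Pool.Agent.SYS.RB.Rpl
import Pool.Agent.SYS.PL.Law

/-!
# SYS-UP-Inp: inputs of block UP from the blocks BD, RB (only citations)
-/

namespace SYS.UP

open SYS.Num Real Filter Topology Finset

theorem lw {x : ℝ} (hx : 0 < x) : Lw x :=
  ⟨hx, AA_gt x, AA_lt x, yy_pos x, dr_pos hx, qq_nonneg x, mass hx, mean hx, expm hx⟩

theorem muG_nil {m : ℕ} (hm : 1 ≤ m) (g : ℕ) : muG 0 (2 * m) g = SST.nu m g := muG_nu m g hm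

theorem muG_ubc {P : Multiset ℕ} (hP : ∀ p ∈ P, 1 ≤ p) (F g : ℕ) :
    muG P F g ≤ (3 * ((F : ℝ) + P.sum)) ^ Multiset.card P * SST.nu ((F + P.sum) / 2) g := by
  rcases Nat.eq_zero_or_pos (F + P.sum) with h | h
  · have h1 : F = 0 := by omega
    have h2 : P.sum = 0 := by omega
    have h3 : P = 0 := by
      refine Multiset.eq_zero_of_forall_notMem fun p hp => ?_
      have h4 := Multiset.single_le_sum (fun _ _ => Nat.zero_le _) p hp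
      have h5 := hP p hp
      omega
    subst h1
    subst h3
    rw [muG_zero_zero]
    exact mul_nonneg (by positivity) (RB.nu_nn _ _)
  · have h1 := UBC P hP F g h
    rw [Nat.cast_add] at h1
    exact h1

theorem Par_pos {θ x : ℝ} (h : Par θ x) : 0 < x := h.2.2.1

/-- Ratio theorem. -/
theorem nu_rat {θ x : ℝ} (h : Par θ x) :
    Tendsto (fun p : ℕ × ℕ => SST.nu (p.1 - 1) p.2 / SST.nu p.1 p.2) (Num.Fth θ) (𝓝 (yy x)) :=
  RB.rat_n h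

theorem nu_rat_g {θ x : ℝ} (h : Par θ x) :
    Tendsto (fun p : ℕ × ℕ => (p.1 : ℝ) ^ 2 * SST.nu p.1 (p.2 - 1) / SST.nu p.1 p.2) (Num.Fth θ)
      (𝓝 (chi x)) :=
  RB.rat_g h

/-- RAT+. -/
theorem nu_tail {θ x : ℝ} (h : Par θ x) {ε : ℝ} (hε : 0 < ε) (j : ℕ) :
    ∃ K : ℝ, 0 < K ∧ ∀ᶠ p in Num.Fth θ, ∀ l ≤ p.1,
      (p.1 : ℝ) ^ (2 * j) * SST.nu (p.1 - l) (p.2 - j) ≤
        K * ((1 + ε) * yy x) ^ l * SST.nu p.1 p.2 :=
  RB.rat_pow h hε j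

theorem no_mass {ε : ℝ} (hε : 0 < ε) : ∃ K N : ℕ, ∀ n ≥ N, ∀ g,
    RB.WW K n g ≤ ε * RB.tt (n + 1) g :=
  RB.no_mass RB.gj ε hε

theorem Fth_eq (θ : ℝ) : Num.Fth θ = RB.Fth θ := rfl

end SYS.UP
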