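import Pool.Agent.SYS.UP.Inp
import Pool.Agent.SYS.RB.Win

/-!
# SYS-UP-Nus: shifts of `nu`, a priori bound for `Rt`

`p = (n, g) → Fth θ`.
PROOF.
* `nu_pos_ev`: `2 g + 1 ≤ n` eventually (`RB.gap`, `RB.fst_atTop`), `SST.nu_pos` (see `RB/Pos.lean`: `RB.tt_pos`, `RB.tt_succ`).
* `Par.theta`: `Par θ x` contains `0 < θ < 1/2`, `0 < x`.
* `nu_sh`: `j = 0`: for `l : ℕ` induction on `l`: `nu (n-(l+1)) g/nu n g = (nu (n-1-l) g/nu (n-1) g) * (nu (n-1) g/nu n g)`; the first factor is the statement for `l` composed with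
  `sh (-1) 0` (`RB.tendsto_sh`), limits `y^l`, `y` (`nu_rat`).  Negative `l`: the inverse: `nu (n+l) g/nu n g` is the inverse of the ratio for `l` at `sh l 0 p` (`y > 0`: `(lw h.2.2.1).y_pos`).
  `j → j+1`: `n^(2j+2) nu (n-l) (g-1-j)/nu n g = (n^(2j) nu (n-l) ((g-1)-j)/nu n (g-1)) * (n^2 nu n (g-1)/nu n g)`, first factor composed with `sh 0 (-1)`
  (same `n`), second `nu_rat_g`.  (`sh a b p` equals `(p.1 + a, p.2 + b)` eventually: `RB.ge_ev`, `RB.ge_ev'`; `Tendsto.congr'`.)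
* `Rt_nn`: `muG_nonneg`, `RB.nu_nn`.
* `Rt_bd`: `muG_ubc` with `F = 2 n - v` (`toNat` exact for large `n`): `(F + |P|)/2 = n - l` with the constant `l = -((|P| - v)/2)` (`Int.ediv`), `3 (F + |P|) ≤ C n`;
  `nu_sh` gives the bound.
-/

namespace SYS.UP

open SYS.Num Real Filter Topology

theorem nu_nn (n g : ℕ) : 0 ≤ SST.nu n g := RB.nu_nn n g

theorem nu_pos_ev {θ x : ℝ} (h : Par θ x) : ∀ᶠ p in Num.Fth θ, 0 < SST.nu p.1 p.2 := by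
  obtain ⟨δ, hδ0, _, hδ⟩ := RB.gap h.2.1
  have h1 : ∀ᶠ p in RB.Fth θ, 0 < SST.nu (p : ℕ × ℕ).1 p.2 := by
    filter_upwards [hδ, RB.ge_ev θ 1] with p hp hp1
    have hp1' : (1 : ℝ) ≤ (p.1 : ℝ) := by exact_mod_cast hp1
    have h2 : 0 < δ * (p.1 : ℝ) := by positivity
    have h3 : 2 * (p.2 : ℝ) < (p.1 : ℝ) := by linarith
    have h4 : 2 * p.2 < p.1 := by exact_mod_cast h3
    have h5 : 0 < RB.tt (p.1 + 1) p.2 := RB.tt_pos (by omega)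
    rw [RB.tt_succ hp1] at h5
    have h6 : (0 : ℝ) < (3 * p.1 + 2) * (6 * p.1) := by positivity
    exact pos_of_mul_pos_right h5 h6.le
  exact h1

private theorem sh1 (p : ℕ × ℕ) : RB.sh (-1) 0 p = (p.1 - 1, p.2) := by
  unfold RB.sh
  refine Prod.ext ?_ ?_
  · show ((p.1 : ℤ) + -1).toNat = p.1 - 1
    omega
  · show ((p.2 : ℤ) + 0).toNat = p.2
    omega

private theorem sh2 (p : ℕ × ℕ) : RB.sh 0 (-1) p = (p.1, p.2 - 1) := by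
  unfold RB.sh
  refine Prod.ext ?_ ?_
  · show ((p.1 : ℤ) + 0).toNat = p.1
    omega
  · show ((p.2 : ℤ) + -1).toNat = p.2 - 1
    omega

private theorem sh3 (m : ℕ) (p : ℕ × ℕ) : RB.sh m 0 p = (p.1 + m, p.2) := by
  unfold RB.sh
  refine Prod.ext ?_ ?_
  · show ((p.1 : ℤ) + (m : ℤ)).toNat = p.1 + m
    omega
  · show ((p.2 : ℤ) + 0).toNat = p.2
    omega

private theorem tsh {θ x : ℝ} (h : Par θ x) (a b : ℤ) :
    Tendsto (RB.sh a b) (Num.Fth θ) (Num.Fth θ) := RB.tendsto_sh h.1 a b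

private theorem nu_a {θ x : ℝ} (h : Par θ x) (l : ℕ) :
    Tendsto (fun p : ℕ × ℕ => SST.nu (p.1 - l) p.2 / SST.nu p.1 p.2) (Num.Fth θ)
      (𝓝 (yy x ^ l)) := by
  induction l with
  | zero =>
    rw [pow_zero]
    refine tendsto_const_nhds.congr' ?_
    filter_upwards [nu_pos_ev h] with p hp
    rw [Nat.sub_zero, div_self hp.ne']
  | succ l ih =>
    have h1 := (ih.comp (tsh h (-1) 0)).mul (nu_rat h)
    rw [← pow_succ] at h1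
    refine h1.congr' ?_
    have h2 := (tsh h (-1) 0).eventually (nu_pos_ev h)
    filter_upwards [h2] with p hp
    rw [sh1] at hp
    have hp' : 0 < SST.nu (p.1 - 1) p.2 := hp
    show (SST.nu ((RB.sh (-1) 0 p).1 - l) (RB.sh (-1) 0 p).2 /
      SST.nu (RB.sh (-1) 0 p).1 (RB.sh (-1) 0 p).2) * (SST.nu (p.1 - 1) p.2 / SST.nu p.1 p.2) =
      SST.nu (p.1 - (l + 1)) p.2 / SST.nu p.1 p.2
    rw [sh1]
    show (SST.nu (p.1 - 1 - l) p.2 / SST.nu (p.1 - 1) p.2) *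
      (SST.nu (p.1 - 1) p.2 / SST.nu p.1 p.2) = SST.nu (p.1 - (l + 1)) p.2 / SST.nu p.1 p.2
    have h3 : p.1 - 1 - l = p.1 - (l + 1) := by omega
    rw [div_mul_div_cancel₀ hp'.ne', h3]

private theorem nu_b {θ x : ℝ} (h : Par θ x) (m : ℕ) :
    Tendsto (fun p : ℕ × ℕ => SST.nu (p.1 + m) p.2 / SST.nu p.1 p.2) (Num.Fth θ)
      (𝓝 ((yy x ^ m)⁻¹)) := by
  have hy : yy x ^ m ≠ 0 := (pow_pos (lw h.2.2.1).y_pos m).ne'
  have h1 := ((nu_a h m).comp (tsh h m 0)).inv₀ hy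
  refine h1.congr' (Eventually.of_forall fun p => ?_)
  show (SST.nu ((RB.sh m 0 p).1 - m) (RB.sh m 0 p).2 /
    SST.nu (RB.sh m 0 p).1 (RB.sh m 0 p).2)⁻¹ = _
  rw [sh3, inv_div]
  show SST.nu (p.1 + m) p.2 / SST.nu (p.1 + m - m) p.2 = _
  rw [Nat.add_sub_cancel]

theorem nu_sh {θ x : ℝ} (h : Par θ x) (l : ℤ) (j : ℕ) :
    Tendsto (fun p : ℕ × ℕ => SST.nu ((p.1 : ℤ) - l).toNat (p.2 - j) * (p.1 : ℝ) ^ (2 * j) /
      SST.nu p.1 p.2) (Num.Fth θ) (𝓝 (yy x ^ l * chi x ^ j)) := by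
  induction j with
  | zero =>
    rw [pow_zero, mul_one]
    rcases Int.eq_nat_or_neg l with ⟨m, rfl | rfl⟩
    · rw [zpow_natCast]
      refine (nu_a h m).congr fun p => ?_
      have h1 : ((p.1 : ℤ) - (m : ℤ)).toNat = p.1 - m := by omega
      rw [h1, Nat.mul_zero, pow_zero, mul_one, Nat.sub_zero]
    · rw [zpow_neg, zpow_natCast]
      refine (nu_b h m).congr fun p => ?_
      have h1 : ((p.1 : ℤ) - -(m : ℤ)).toNat = p.1 + m := by omega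
      rw [h1, Nat.mul_zero, pow_zero, mul_one, Nat.sub_zero]
  | succ j ih =>
    have h1 := (ih.comp (tsh h 0 (-1))).mul (nu_rat_g h)
    rw [mul_assoc, ← pow_succ] at h1
    refine h1.congr' ?_
    have h2 := (tsh h 0 (-1)).eventually (nu_pos_ev h)
    filter_upwards [h2, nu_pos_ev h] with p hp hp0
    rw [sh2] at hp
    have hp' : 0 < SST.nu p.1 (p.2 - 1) := hp
    show (SST.nu (((RB.sh 0 (-1) p).1 : ℤ) - l).toNat ((RB.sh 0 (-1) p).2 - j) *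
      ((RB.sh 0 (-1) p).1 : ℝ) ^ (2 * j) / SST.nu (RB.sh 0 (-1) p).1 (RB.sh 0 (-1) p).2) *
      ((p.1 : ℝ) ^ 2 * SST.nu p.1 (p.2 - 1) / SST.nu p.1 p.2) = _
    rw [sh2]
    show (SST.nu ((p.1 : ℤ) - l).toNat (p.2 - 1 - j) * (p.1 : ℝ) ^ (2 * j) /
      SST.nu p.1 (p.2 - 1)) * ((p.1 : ℝ) ^ 2 * SST.nu p.1 (p.2 - 1) / SST.nu p.1 p.2) = _
    have h3 : p.2 - 1 - j = p.2 - (j + 1) := by omega
    have h4 : 2 * (j + 1) = 2 * j + 2 := by ring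
    rw [h3, h4, pow_add]
    field_simp

theorem Rt_nn (P : Multiset ℕ) (v : ℤ) (j : ℕ) (p : ℕ × ℕ) : 0 ≤ Rt P v j p := by
  unfold Rt
  exact div_nonneg (mul_nonneg (muG_nonneg _ _ _) (pow_nonneg (Nat.cast_nonneg _) _))
    (mul_nonneg (pow_nonneg (Nat.cast_nonneg _) _) (nu_nn _ _))

theorem Rt_bd {θ x : ℝ} (h : Par θ x) {P : Multiset ℕ} (hP : ∀ p ∈ P, 1 ≤ p) (v : ℤ) (j : ℕ) :
    ∃ C : ℝ, 0 ≤ C ∧ ∀ᶠ p in Num.Fth θ, Rt P v j p ≤ C := by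
  obtain ⟨l, hl⟩ : ∃ l : ℤ, l = -(((P.sum : ℤ) - v) / 2) := ⟨_, rfl⟩
  obtain ⟨C1, hC1⟩ : ∃ C1 : ℝ, C1 = 3 * (2 + (v.natAbs : ℝ) + (P.sum : ℝ)) := ⟨_, rfl⟩
  have hC0 : 0 ≤ C1 := by
    rw [hC1]
    positivity
  refine ⟨C1 ^ Multiset.card P * (|yy x ^ l * chi x ^ j| + 1), by positivity, ?_⟩
  have h1 := (nu_sh h l j).eventually_lt_const
    (show yy x ^ l * chi x ^ j < |yy x ^ l * chi x ^ j| + 1 by
      have := le_abs_self (yy x ^ l * chi x ^ j)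
      linarith)
  have hge : ∀ᶠ p in Num.Fth θ, v.natAbs + 1 ≤ (p : ℕ × ℕ).1 := RB.ge_ev θ (v.natAbs + 1)
  filter_upwards [h1, hge, nu_pos_ev h] with p hp1 hp2 hp3
  have hn : (1 : ℝ) ≤ (p.1 : ℝ) := by
    have : 1 ≤ p.1 := by omega
    exact_mod_cast this
  have hn0 : (0 : ℝ) < (p.1 : ℝ) := by linarith
  have e1 : ((2 * (p.1 : ℤ) - v).toNat + P.sum) / 2 = ((p.1 : ℤ) - l).toNat := by
    rw [hl]
    omega
  have e2 : (((2 * (p.1 : ℤ) - v).toNat : ℕ) : ℝ) + (P.sum : ℝ) ≤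
      (2 + (v.natAbs : ℝ) + (P.sum : ℝ)) * p.1 := by
    have a1 : (2 * (p.1 : ℤ) - v).toNat ≤ 2 * p.1 + v.natAbs := by omega
    have a2 : (((2 * (p.1 : ℤ) - v).toNat : ℕ) : ℝ) ≤ 2 * (p.1 : ℝ) + (v.natAbs : ℝ) := by
      exact_mod_cast a1
    have a3 : (v.natAbs : ℝ) ≤ (v.natAbs : ℝ) * p.1 :=
      le_mul_of_one_le_right (Nat.cast_nonneg _) hn
    have a4 : (P.sum : ℝ) ≤ (P.sum : ℝ) * p.1 := le_mul_of_one_le_right (Nat.cast_nonneg _) hn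
    linarith
  have e3 : (3 * ((((2 * (p.1 : ℤ) - v).toNat : ℕ) : ℝ) + (P.sum : ℝ))) ^ Multiset.card P ≤
      (C1 * p.1) ^ Multiset.card P := by
    refine pow_le_pow_left₀ (by positivity) ?_ _
    rw [hC1]
    linarith
  have e4 := muG_ubc hP ((2 * (p.1 : ℤ) - v).toNat) (p.2 - j)
  rw [e1] at e4
  have e5 : muG P ((2 * (p.1 : ℤ) - v).toNat) (p.2 - j) ≤
      (C1 * p.1) ^ Multiset.card P * SST.nu ((p.1 : ℤ) - l).toNat (p.2 - j) :=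
    e4.trans (mul_le_mul_of_nonneg_right e3 (nu_nn _ _))
  have e6 : (0 : ℝ) < (p.1 : ℝ) ^ Multiset.card P * SST.nu p.1 p.2 := by positivity
  unfold Rt
  rw [div_le_iff₀ e6]
  rw [div_lt_iff₀ hp3] at hp1
  have e7 : (0 : ℝ) ≤ (p.1 : ℝ) ^ (2 * j) := by positivity
  have e8 : (0 : ℝ) ≤ (C1 * p.1) ^ Multiset.card P := by positivity
  calc muG P ((2 * (p.1 : ℤ) - v).toNat) (p.2 - j) * (p.1 : ℝ) ^ (2 * j)
      ≤ (C1 * p.1) ^ Multiset.card P * SST.nu ((p.1 : ℤ) - l).toNat (p.2 - j) *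
        (p.1 : ℝ) ^ (2 * j) := mul_le_mul_of_nonneg_right e5 e7
    _ = (C1 * p.1) ^ Multiset.card P * (SST.nu ((p.1 : ℤ) - l).toNat (p.2 - j) *
        (p.1 : ℝ) ^ (2 * j)) := by ring
    _ ≤ (C1 * p.1) ^ Multiset.card P * ((|yy x ^ l * chi x ^ j| + 1) * SST.nu p.1 p.2) :=
        mul_le_mul_of_nonneg_left hp1.le e8
    _ = C1 ^ Multiset.card P * (|yy x ^ l * chi x ^ j| + 1) *
        ((p.1 : ℝ) ^ Multiset.card P * SST.nu p.1 p.2) := by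
        rw [mul_pow]
        ring

end SYS.UP
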