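import Pool.Agent.SYS.UP.Hh
import Pool.Agent.SYS.UP.Inp

/-!
# SYS-UP-Mm: the numbers `mm p` and the series `∑_a W k a z^a`
-/

namespace SYS.UP

open SYS.Num Real Finset

theorem zz_pos {x : ℝ} (h : Lw x) : 0 < zz x := by
  unfold zz
  exact Real.sqrt_pos.2 h.y_pos

theorem zz_sq {x : ℝ} (h : Lw x) : zz x ^ 2 = yy x := by
  unfold zz
  exact Real.sq_sqrt h.y_pos.le

private theorem mmA_pos {x : ℝ} (h : Lw x) : 0 < AA x := by
  have := h.A_half
  linarith

theorem qq_zz {x : ℝ} (h : Lw x) (k a : ℕ) :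
    qq x k a = W k a * zz x ^ (a + k + 2) / AA x ^ (k + 2) := by
  unfold qq
  by_cases he : Even (a + k)
  · have h1 : 2 * ((a + k) / 2) = a + k := Nat.two_mul_div_two_of_even he
    have h2 : yy x ^ (1 + (a + k) / 2) = zz x ^ (a + k + 2) := by
      rw [← zz_sq h, ← pow_mul]
      congr 1
      omega
    rw [h2, mul_comm (W k a)]
  · have h1 : W k a = 0 := by
      unfold W
      exact muG_odd (by rwa [Multiset.sum_singleton]) 0
    rw [h1, mul_zero, zero_mul]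

theorem sum_W {x : ℝ} (h : Lw x) (k : ℕ) :
    ∑' a, W k a * zz x ^ (a + k + 2) = AA x ^ (k + 2) * qk x k := by
  have hA := mmA_pos h
  unfold qk
  rw [← tsum_mul_left]
  refine tsum_congr fun a => ?_
  rw [qq_zz h]
  field_simp

/-- Convergence a little beyond `z`. -/
theorem summable_W {x : ℝ} (h : Lw x) :
    ∃ ρ : ℝ, 1 < ρ ∧ ∀ k, Summable fun a => W k a * (ρ * zz x) ^ a := by
  obtain ⟨δ, hδ, hs⟩ := h.expo
  have hA := mmA_pos h
  have hz := zz_pos h
  refine ⟨exp δ, Real.one_lt_exp_iff.2 hδ, fun k => ?_⟩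
  have h1 : Summable fun a : ℕ => qq x k a * exp (δ * ((k : ℝ) + (a : ℝ))) := hs.prod_factor k
  obtain ⟨c, hc⟩ : ∃ c : ℝ, c = zz x ^ (k + 2) / AA x ^ (k + 2) * exp (δ * k) := ⟨_, rfl⟩
  have hc0 : c ≠ 0 := by
    rw [hc]
    positivity
  have h2 : (fun a : ℕ => qq x k a * exp (δ * ((k : ℝ) + (a : ℝ)))) =
      fun a : ℕ => (W k a * (exp δ * zz x) ^ a) * c := by
    funext a
    have e1 : exp (δ * ((k : ℝ) + (a : ℝ))) = exp (δ * k) * exp δ ^ a := by
      rw [← Real.exp_nat_mul, ← Real.exp_add]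
      congr 1
      ring
    rw [qq_zz h, e1, hc, mul_pow, show a + k + 2 = a + (k + 2) by ring, pow_add]
    ring
  rw [h2] at h1
  exact (summable_mul_right_iff hc0).1 h1

theorem mm_one (x : ℝ) : mm x 1 = 1 := by
  unfold mm
  rw [Nat.sub_self, pow_zero, one_mul]
  simp only [hh]

theorem mm_two {x : ℝ} (h : Lw x) : mm x 2 = 1 := by
  have h1 := hh_step h (k := 1) (le_refl _)
  have h2 : hh x 1 = 1 := by simp only [hh]
  unfold mm
  simp only [Nat.reduceAdd, Nat.reduceSub, range_zero, sum_empty, mul_zero, sub_zero, h2] at h1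
  rw [show 2 - 1 = 1 from rfl, pow_one, h1]

theorem mm_three {x : ℝ} (h : Lw x) : mm x 3 = 1 := by
  have h1 := hh_step h (k := 2) (by norm_num)
  have h0 := mm_two h
  unfold mm at h0 ⊢
  simp only [Nat.reduceAdd, Nat.reduceSub, range_zero, sum_empty, mul_zero, sub_zero] at h1
  rw [show 2 - 1 = 1 from rfl, pow_one] at h0
  rw [show 3 - 1 = 2 from rfl, sq, mul_assoc, h1, h0]

theorem mm_step {x : ℝ} (h : Lw x) {p : ℕ} (hp : 3 ≤ p) :
    mm x (p + 1) = mm x p -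
      2 * ∑ k ∈ range (p - 2), (∑' a, W k a * zz x ^ (a + k + 2)) * mm x (p - 2 - k) := by
  have h1 := hh_step h (k := p) (by omega)
  obtain ⟨q, rfl⟩ : ∃ q, p = q + 1 := ⟨p - 1, by omega⟩
  have e1 : mm x (q + 1 + 1) = AA x ^ q * (AA x * hh x (q + 1 + 1)) := by
    unfold mm
    rw [Nat.add_sub_cancel, pow_succ]
    ring
  have e2 : mm x (q + 1) = AA x ^ q * hh x (q + 1) := by
    unfold mm
    rw [Nat.add_sub_cancel]
  rw [e1, h1, e2, mul_sub, mul_left_comm, Finset.mul_sum]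
  congr 2
  refine Finset.sum_congr rfl fun k hk => ?_
  have hk' : k < q + 1 - 2 := Finset.mem_range.1 hk
  rw [sum_W h]
  unfold mm
  have e3 : q = (k + 2) + (q + 1 - 2 - k - 1) := by omega
  calc AA x ^ q * (qk x k * hh x (q + 1 - 2 - k))
      = AA x ^ ((k + 2) + (q + 1 - 2 - k - 1)) * (qk x k * hh x (q + 1 - 2 - k)) := by
        rw [← e3]
    _ = _ := by
        rw [pow_add]
        ring

theorem mm_ge {x : ℝ} (h : Lw x) {p : ℕ} (hp : 1 ≤ p) : AA x ^ (p - 1) ≤ mm x p := by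
  have h1 := hh_ge h hp
  have hA := mmA_pos h
  unfold mm
  have h2 : 0 < AA x ^ (p - 1) := pow_pos hA _
  nlinarith

theorem mm_le {x : ℝ} (h : Lw x) {p : ℕ} (hp : 1 ≤ p) : mm x p ≤ AA x ^ p / dr x := by
  have h1 := hh_le h p
  have hA := mmA_pos h
  unfold mm
  calc AA x ^ (p - 1) * hh x p ≤ AA x ^ (p - 1) * (AA x / dr x) :=
        mul_le_mul_of_nonneg_left h1 (pow_pos hA _).le
    _ = AA x ^ p / dr x := by
        rw [mul_div_assoc', ← pow_succ, Nat.sub_add_cancel hp]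

theorem mm_pos {x : ℝ} (h : Lw x) {p : ℕ} (hp : 1 ≤ p) : 0 < mm x p :=
  lt_of_lt_of_le (pow_pos (mmA_pos h) _) (mm_ge h hp)

end SYS.UP
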