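import Pool.Agent.SYS.UP.Def2
import Pool.Agent.SYS.UP.Mm
import Pool.Agent.SYS.PL.RwC

/-!
# SYS-UP-Wrd: finiteness of the sets of words, weights

PROOF.
* `wda_fin`: let `w` be a word with `WOk s w`, `wvol w ≤ V`.  The number of letters `T` is at most `V`; every prefix has perimeter `≤ s + V` (each `T` adds one, the other steps lower the perimeter);
  every `L`, `R` lowers the perimeter by at least 2, and the perimeter stays `≥ 0`, so their number is at most `s + V`; so `w.length ≤ s + 2 V`.  All letters are in the finite set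
  `{T} ∪ {L k a, R k a : k ≤ s + V, a ≤ V}`.  Lists of bounded length over a finite set are finite: `List.finite_length_le` (for a finite type; use the subtype of the letters and `List.map`), or
  induction on the length bound.
* `mem_WdA`, `mem_EvF`: from finiteness (`Set.Finite.mem_toFinset`).
* `PRW_z`: `Num.PRW_eq` (in `PL/RwA`) rewritten with `zpow` (`zz x = √y > 0`, `A > 0`).
* `par_E`: `Num.word_par`-type parity: if `wE t ≠ 0` then `vE t + t.1 + t.2.1` is even.  Induction on the word: a factor `W k a ≠ 0` has `a + k` even (`Num.W_odd`), so every step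
  preserves the parity of `wvol + wend`; the same for a word (`par_w`).
* `vis`: `Num.visits` with `ε = 0`.
-/

namespace SYS.UP

open SYS.Num Real Finset

private theorem wr_len {w : List Stp} : ∀ {s : ℕ}, WOk s w → w.length + wend s w ≤ s + 2 * wvol w := by
  induction w with
  | nil =>
    intro s _
    rw [wend_nil, wvol_nil, List.length_nil]
    omega
  | cons t w ih =>
    intro s h
    obtain ⟨h1, h2⟩ := (WOk_cons s t w).1 h
    have h3 := ih h2
    rw [wend_cons, wvol_cons, List.length_cons]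
    cases t with
    | T =>
      have e1 : Stp.nx s Stp.T = s + 1 := rfl
      have e2 : Stp.vol Stp.T = 1 := rfl
      rw [e1] at h3 ⊢
      rw [e2]
      omega
    | L k a =>
      have e0 : k + 3 ≤ s := h1
      have e1 : Stp.nx s (Stp.L k a) = s - (k + 2) := rfl
      have e2 : Stp.vol (Stp.L k a) = a := rfl
      rw [e1] at h3 ⊢
      rw [e2]
      omega
    | R k a =>
      have e0 : k + 3 ≤ s := h1
      have e1 : Stp.nx s (Stp.R k a) = s - (k + 2) := rfl
      have e2 : Stp.vol (Stp.R k a) = a := rfl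
      rw [e1] at h3 ⊢
      rw [e2]
      omega

/-- The letters. -/
private def wrB (N V : ℕ) : Set Stp :=
  {Stp.T} ∪ (Set.image2 Stp.L (Set.Iic N) (Set.Iic V) ∪ Set.image2 Stp.R (Set.Iic N) (Set.Iic V))

private theorem wrB_fin (N V : ℕ) : (wrB N V).Finite :=
  (Set.finite_singleton _).union (((Set.finite_Iic N).image2 _ (Set.finite_Iic V)).union
    ((Set.finite_Iic N).image2 _ (Set.finite_Iic V)))

private theorem wr_let {N V : ℕ} {w : List Stp} : ∀ {s : ℕ}, WOk s w → s + wvol w ≤ N → wvol w ≤ V →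
    ∀ t ∈ w, t ∈ wrB N V := by
  induction w with
  | nil =>
    intro s _ _ _ t ht
    exact absurd ht List.not_mem_nil
  | cons t w ih =>
    intro s h hN hV u hu
    obtain ⟨h1, h2⟩ := (WOk_cons s t w).1 h
    rw [wvol_cons] at hN hV
    cases t with
    | T =>
      have e1 : Stp.nx s Stp.T = s + 1 := rfl
      have e2 : Stp.vol Stp.T = 1 := rfl
      rw [e1] at h2
      rw [e2] at hN hV
      rcases List.mem_cons.1 hu with h3 | h3
      · rw [h3]
        exact Or.inl rfl
      · exact ih h2 (by omega) (by omega) u h3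
    | L k a =>
      have e0 : k + 3 ≤ s := h1
      have e1 : Stp.nx s (Stp.L k a) = s - (k + 2) := rfl
      have e2 : Stp.vol (Stp.L k a) = a := rfl
      rw [e1] at h2
      rw [e2] at hN hV
      rcases List.mem_cons.1 hu with h3 | h3
      · rw [h3]
        exact Or.inr (Or.inl ⟨k, Set.mem_Iic.2 (by omega), a, Set.mem_Iic.2 (by omega), rfl⟩)
      · exact ih h2 (by omega) (by omega) u h3
    | R k a =>
      have e0 : k + 3 ≤ s := h1
      have e1 : Stp.nx s (Stp.R k a) = s - (k + 2) := rfl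
      have e2 : Stp.vol (Stp.R k a) = a := rfl
      rw [e1] at h2
      rw [e2] at hN hV
      rcases List.mem_cons.1 hu with h3 | h3
      · rw [h3]
        exact Or.inr (Or.inr ⟨k, Set.mem_Iic.2 (by omega), a, Set.mem_Iic.2 (by omega), rfl⟩)
      · exact ih h2 (by omega) (by omega) u h3

private theorem wr_lists {B : Set Stp} (hB : B.Finite) (n : ℕ) :
    {w : List Stp | w.length ≤ n ∧ ∀ t ∈ w, t ∈ B}.Finite := by
  induction n with
  | zero =>
    refine (Set.finite_singleton ([] : List Stp)).subset fun w hw => ?_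
    exact List.length_eq_zero_iff.1 (Nat.le_zero.1 hw.1)
  | succ n ih =>
    refine ((Set.finite_singleton ([] : List Stp)).union (hB.image2 List.cons ih)).subset fun w hw => ?_
    obtain ⟨h1, h2⟩ := hw
    cases w with
    | nil => exact Or.inl rfl
    | cons t w =>
      rw [List.length_cons] at h1
      exact Or.inr ⟨t, h2 t List.mem_cons_self, w,
        ⟨by omega, fun u hu => h2 u (List.mem_cons_of_mem _ hu)⟩, rfl⟩

theorem wda_fin (s V : ℕ) : {w : List Stp | WOk s w ∧ wvol w ≤ V}.Finite := by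
  refine (wr_lists (wrB_fin (s + V) V) (s + 2 * V)).subset fun w hw => ?_
  obtain ⟨h1, h2⟩ := hw
  have h3 := wr_len h1
  exact ⟨by omega, wr_let h1 (by omega) h2⟩

theorem mem_WdA {s V : ℕ} {w : List Stp} : w ∈ WdA s V ↔ WOk s w ∧ wvol w ≤ V := by
  unfold WdA
  rw [dif_pos (wda_fin s V), Set.Finite.mem_toFinset]
  exact Iff.rfl

theorem mem_EvF {a V : ℕ} {t : Et} : t ∈ EvF a V ↔
    GoodE t ∧ a ≤ t.1 ∧ t.1 ≤ 2 * a ∧ a ≤ t.2.1 ∧ t.2.1 ≤ 2 * a ∧ wvol t.2.2 ≤ V := by
  classical
  unfold EvF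
  rw [Finset.mem_filter, Finset.mem_product, Finset.mem_product, Finset.mem_Icc, Finset.mem_Icc, mem_WdA]
  constructor
  · rintro ⟨⟨⟨h1, h2⟩, ⟨h3, h4⟩, -, h5⟩, h6⟩
    exact ⟨h6, h1, h2, h3, h4, h5⟩
  · rintro ⟨h6, h1, h2, h3, h4, h5⟩
    exact ⟨⟨⟨h1, h2⟩, ⟨h3, h4⟩, h6.2.2.1, h5⟩, h6⟩

theorem wend_le {s : ℕ} {w : List Stp} (h : WOk s w) : wend s w ≤ s + wvol w := by
  induction w generalizing s with
  | nil =>
    rw [wend_nil]
    omega
  | cons t w ih =>
    obtain ⟨h1, h2⟩ := (WOk_cons s t w).1 h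
    have h3 := ih h2
    rw [wend_cons, wvol_cons]
    cases t with
    | T =>
      have e1 : Stp.nx s Stp.T = s + 1 := rfl
      have e2 : Stp.vol Stp.T = 1 := rfl
      rw [e1] at h3 ⊢
      rw [e2]
      omega
    | L k a =>
      have e1 : Stp.nx s (Stp.L k a) = s - (k + 2) := rfl
      rw [e1] at h3 ⊢
      omega
    | R k a =>
      have e1 : Stp.nx s (Stp.R k a) = s - (k + 2) := rfl
      rw [e1] at h3 ⊢
      omega

/-- `PRW = wwt 1 W * z^(vol + s - end) * A^(end - s)`. -/
theorem PRW_z {x : ℝ} (h : Lw x) {s : ℕ} {w : List Stp} (hw : WOk s w) :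
    PRW x w = wwt 1 W w * zz x ^ ((wvol w : ℤ) + s - wend s w) * AA x ^ ((wend s w : ℤ) - s) := by
  have hA : 0 < AA x := by
    have := h.A_half
    linarith
  have hz : 0 < zz x := zz_pos h
  have key := PRW_eq x s w hw
  change PRW x w * AA x ^ s * zz x ^ wend s w = wwt 1 W w * AA x ^ wend s w * zz x ^ (wvol w + s) at key
  have e1 : zz x ^ ((wvol w : ℤ) + s - wend s w) = zz x ^ (wvol w + s) / zz x ^ wend s w := by
    rw [zpow_sub₀ hz.ne', zpow_natCast, ← Nat.cast_add, zpow_natCast]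
  have e2 : AA x ^ ((wend s w : ℤ) - s) = AA x ^ wend s w / AA x ^ s := by
    rw [zpow_sub₀ hA.ne', zpow_natCast, zpow_natCast]
  rw [e1, e2]
  have hA' : AA x ^ s ≠ 0 := by positivity
  have hz' : zz x ^ wend s w ≠ 0 := by positivity
  field_simp
  linarith

theorem PRW_nn {x : ℝ} (h : Lw x) (w : List Stp) : 0 ≤ PRW x w := by
  have hA : 0 ≤ AA x := by
    have := h.A_half
    linarith
  exact wwt_nonneg hA h.q_nn w

theorem par_w {s : ℕ} {w : List Stp} (h : WOk s w) (h0 : wwt 1 W w ≠ 0) : Even (wvol w + wend s w + s) := by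
  induction w generalizing s with
  | nil =>
    rw [wend_nil, wvol_nil, Nat.zero_add]
    exact ⟨s, rfl⟩
  | cons t w ih =>
    obtain ⟨h1, h2⟩ := (WOk_cons s t w).1 h
    rw [wwt_cons] at h0
    have h3 := ih h2 (right_ne_zero_of_mul h0)
    have h4 : t.wt 1 W ≠ 0 := left_ne_zero_of_mul h0
    rw [wend_cons, wvol_cons]
    rw [Nat.even_iff] at h3 ⊢
    cases t with
    | T =>
      have e1 : Stp.nx s Stp.T = s + 1 := rfl
      have e2 : Stp.vol Stp.T = 1 := rfl
      rw [e1] at h3 ⊢
      rw [e2]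
      omega
    | L k a =>
      have e0 : k + 3 ≤ s := h1
      have e1 : Stp.nx s (Stp.L k a) = s - (k + 2) := rfl
      have e2 : Stp.vol (Stp.L k a) = a := rfl
      have e3 : Even (a + k) := by
        by_contra hc
        exact h4 (W_odd hc)
      rw [Nat.even_iff] at e3
      rw [e1] at h3 ⊢
      rw [e2]
      omega
    | R k a =>
      have e0 : k + 3 ≤ s := h1
      have e1 : Stp.nx s (Stp.R k a) = s - (k + 2) := rfl
      have e2 : Stp.vol (Stp.R k a) = a := rfl
      have e3 : Even (a + k) := by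
        by_contra hc
        exact h4 (W_odd hc)
      rw [Nat.even_iff] at e3
      rw [e1] at h3 ⊢
      rw [e2]
      omega

theorem par_E {t : Et} (h : GoodE t) (h0 : wE t ≠ 0) : Even (vE t + t.1 + t.2.1) := by
  have h1 := par_w h.2.2.1 h0
  rw [h.2.2.2] at h1
  unfold vE
  rw [Nat.even_iff] at h1 ⊢
  omega

/-- Number of visits. -/
theorem vis {x : ℝ} (hx : 0 < x) : ∃ C : ℝ, 0 < C ∧ ∀ (s e : ℕ) (S : Finset (List Stp)),
    (∀ w ∈ S, WOk s w ∧ wend s w = e) → ∑ w ∈ S, PRW x w ≤ C := by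
  obtain ⟨C, c, ε₀, hC, hc, hε₀, h⟩ := visits hx
  refine ⟨C, hC, fun s e S hS => ?_⟩
  have h1 := h 0 le_rfl hε₀.le s e S hS
  have h2 : ∑ w ∈ S, PRW x w * exp (0 * wvol w) = ∑ w ∈ S, PRW x w := by
    refine Finset.sum_congr rfl fun w _ => ?_
    rw [zero_mul, exp_zero, mul_one]
  rw [h2] at h1
  have h3 : exp (C * 0 * ((e - s : ℕ) : ℝ) - c * ((s - e : ℕ) : ℝ)) ≤ 1 := by
    rw [Real.exp_le_one_iff]
    have : 0 ≤ c * ((s - e : ℕ) : ℝ) := by positivity
    linarith
  calc ∑ w ∈ S, PRW x w ≤ _ := h1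
    _ ≤ C * 1 := mul_le_mul_of_nonneg_left h3 hC.le
    _ = C := mul_one C

end SYS.UP
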