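import Pool.Agent.SYS.UP.Wrd
import Pool.Agent.SYS.BD.Hist
import Pool.Agent.SYS.BD.Cru

/-!
# SYS-UP-Ann: planar annuli

Exponential tail of the discs from `Lw.expo`; annuli by `hist` for the words of `hitting` from perimeter 3, `muG_three`, `one`, `two`.
-/

namespace SYS.UP

open SYS.Num Real Finset

theorem disc_tail {x : ℝ} (h : Lw x) : ∃ C ρ : ℝ, 0 < C ∧ 0 < ρ ∧ ρ < 1 ∧ ∀ k N : ℕ,
    ∑ a ∈ range N, (a : ℝ) * W k a * zz x ^ (a + k) ≤ C * (AA x * ρ) ^ k := by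
  obtain ⟨δ, hδ, hs⟩ := h.expo
  have hz := zz_pos h
  have hA : 0 < AA x := by
    have := h.A_half
    linarith
  set M : ℝ := ∑' t : ℕ × ℕ, qq x t.1 t.2 * exp (δ * (t.1 + t.2)) with hM
  have hG0 : ∀ t : ℕ × ℕ, 0 ≤ qq x t.1 t.2 * exp (δ * (t.1 + t.2)) := fun t =>
    mul_nonneg (h.q_nn _ _) (Real.exp_pos _).le
  have hM0 : 0 ≤ M := tsum_nonneg hG0
  refine ⟨AA x ^ 2 * M / (δ * zz x ^ 2) + 1, exp (-δ), by positivity, Real.exp_pos _,
    by rw [Real.exp_lt_one_iff]; linarith, fun k N => ?_⟩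
  have hterm : ∀ a ∈ range N, (a : ℝ) * W k a * zz x ^ (a + k) ≤
      AA x ^ (k + 2) / (δ * zz x ^ 2) * exp (-δ) ^ k * (qq x k a * exp (δ * (k + a))) := by
    intro a _
    have e1 : exp (-δ) ^ k * exp (δ * ((k : ℝ) + a)) = exp (δ * a) := by
      rw [← Real.exp_nat_mul, ← Real.exp_add]
      congr 1
      ring
    have e2 : δ * a ≤ exp (δ * a) := by
      have := Real.add_one_le_exp (δ * a)
      linarith
    have e3 : AA x ^ (k + 2) / (δ * zz x ^ 2) * exp (-δ) ^ k * (qq x k a * exp (δ * (k + a))) =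
        W k a * zz x ^ (a + k) * (exp (δ * a) / δ) := by
      rw [← e1, qq_zz h]
      field_simp
      ring
    rw [e3]
    have e4 : (a : ℝ) ≤ exp (δ * a) / δ := by
      rw [le_div_iff₀ hδ]
      linarith
    have e5 : 0 ≤ W k a * zz x ^ (a + k) := mul_nonneg (W_nonneg k a) (by positivity)
    nlinarith [mul_le_mul_of_nonneg_left e4 e5]
  have hsum : ∑ a ∈ range N, qq x k a * exp (δ * ((k : ℝ) + a)) ≤ M := by
    have h1 := hs.sum_le_tsum (({k} : Finset ℕ) ×ˢ range N) (fun t _ => hG0 t)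
    rw [Finset.sum_product, Finset.sum_singleton] at h1
    exact h1
  calc ∑ a ∈ range N, (a : ℝ) * W k a * zz x ^ (a + k) ≤
        ∑ a ∈ range N, AA x ^ (k + 2) / (δ * zz x ^ 2) * exp (-δ) ^ k *
          (qq x k a * exp (δ * (k + a))) := Finset.sum_le_sum hterm
    _ = AA x ^ (k + 2) / (δ * zz x ^ 2) * exp (-δ) ^ k *
          ∑ a ∈ range N, qq x k a * exp (δ * ((k : ℝ) + a)) := by
        rw [Finset.mul_sum]
    _ ≤ AA x ^ (k + 2) / (δ * zz x ^ 2) * exp (-δ) ^ k * M :=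
        mul_le_mul_of_nonneg_left hsum (by positivity)
    _ = AA x ^ 2 * M / (δ * zz x ^ 2) * (AA x * exp (-δ)) ^ k := by
        rw [mul_pow]
        ring
    _ ≤ _ := by
        refine mul_le_mul_of_nonneg_right ?_ (by positivity)
        linarith

private theorem ann_fub (T : Finset (List Stp)) {V N : ℕ} (hV : ∀ w ∈ T, wvol w ≤ V) {a b : ℕ → ℝ}
    {z : ℝ} (hz : 0 < z) (ha : ∀ f, 0 ≤ a f)
    (hb : ∀ F, ∑ w ∈ T.filter (fun w => wvol w ≤ F), wwt 1 W w * a (F - wvol w) ≤ b F) :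
    (∑ w ∈ T, wwt 1 W w * z ^ wvol w) * ∑ f ∈ range N, z ^ f * a f ≤
      ∑ F ∈ range (N + V), z ^ F * b F := by
  have hw0 : ∀ w, 0 ≤ wwt 1 W w := fun w => wwt_nonneg zero_le_one W_nonneg w
  calc (∑ w ∈ T, wwt 1 W w * z ^ wvol w) * ∑ f ∈ range N, z ^ f * a f
      = ∑ w ∈ T, ∑ f ∈ range N, wwt 1 W w * z ^ wvol w * (z ^ f * a f) := by
        rw [Finset.sum_mul_sum]
    _ ≤ ∑ w ∈ T, ∑ F ∈ range (N + V), (if wvol w ≤ F then
          z ^ F * (wwt 1 W w * a (F - wvol w)) else 0) := by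
        refine Finset.sum_le_sum (fun w hw => ?_)
        have hinj : Set.InjOn (fun f => f + wvol w) (range N : Set ℕ) := fun f _ f' _ hf => by
          simp only at hf
          omega
        have e1 : ∑ f ∈ range N, wwt 1 W w * z ^ wvol w * (z ^ f * a f) =
            ∑ F ∈ (range N).image (fun f => f + wvol w), (if wvol w ≤ F then
              z ^ F * (wwt 1 W w * a (F - wvol w)) else 0) := by
          rw [Finset.sum_image hinj]
          refine Finset.sum_congr rfl (fun f _ => ?_)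
          rw [if_pos (Nat.le_add_left _ _), Nat.add_sub_cancel, pow_add]
          ring
        rw [e1]
        refine Finset.sum_le_sum_of_subset_of_nonneg ?_ (fun F _ _ => ?_)
        · intro F hF
          rw [Finset.mem_image] at hF
          obtain ⟨f, hf, rfl⟩ := hF
          rw [Finset.mem_range] at hf ⊢
          have := hV w hw
          omega
        · split_ifs
          · have := hw0 w
            have := ha (F - wvol w)
            positivity
          · exact le_rfl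
    _ = ∑ F ∈ range (N + V), z ^ F * ∑ w ∈ T.filter (fun w => wvol w ≤ F),
          wwt 1 W w * a (F - wvol w) := by
        rw [Finset.sum_comm]
        refine Finset.sum_congr rfl (fun F _ => ?_)
        rw [Finset.mul_sum, Finset.sum_filter]
    _ ≤ ∑ F ∈ range (N + V), z ^ F * b F :=
        Finset.sum_le_sum (fun F _ => mul_le_mul_of_nonneg_left (hb F) (by positivity))

private theorem ann_three {x : ℝ} (h : Lw x) : ∃ C ρ : ℝ, 0 < C ∧ 0 < ρ ∧ ρ < 1 ∧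
    ∀ q₁ q₃ N : ℕ, 3 ≤ q₁ → 1 ≤ q₃ →
      ∑ f ∈ range N, muG {q₃, q₁} f 0 * (zz x ^ (f + q₃ + q₁) / AA x ^ (q₃ + q₁)) ≤
        C * ρ ^ q₃ := by
  obtain ⟨C, ρ, hC, hρ, hρ1, hdt⟩ := disc_tail h
  obtain ⟨c₀, C₀, hc₀, hhit⟩ := hitting h.x_pos
  have hz := zz_pos h
  have hA : 0 < AA x := by
    have := h.A_half
    linarith
  refine ⟨3 * C * zz x ^ 2 / (c₀ * AA x ^ 3), ρ, by positivity, hρ, hρ1, fun q₁ q₃ N hq hq3 => ?_⟩
  obtain ⟨S, hPF, hS, hSc⟩ := hhit 3 q₁ (by norm_num) hq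
  set V : ℕ := C₀ * (q₁ - 3 + 1) with hV
  set z : ℝ := zz x with hzz
  set a : ℕ → ℝ := fun f => muG {q₃, q₁} f 0 with ha
  set b : ℕ → ℝ := fun F => 3 * ((F : ℝ) + 1) * W q₃ (F + 1) with hb
  have hcomm : ({q₃, q₁} : Multiset ℕ) = q₁ ::ₘ {q₃} := Multiset.pair_comm q₃ q₁
  have hbound : ∀ F, ∑ w ∈ S.filter (fun w => wvol w ≤ F), wwt 1 W w * a (F - wvol w) ≤ b F := by
    intro F
    have h1 := hist 3 (by norm_num) {q₃} F 0 (Or.inl (Multiset.singleton_ne_zero q₃))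
      (S.filter (fun w => wvol w ≤ F))
      (fun u hu w hw => hPF u (Finset.mem_filter.1 hu).1 w (Finset.mem_filter.1 hw).1)
      (fun w hw => ⟨(hS w (Finset.mem_filter.1 hw).1).1.1, (Finset.mem_filter.1 hw).2⟩)
    rw [muG_three] at h1
    refine le_trans (le_of_eq ?_) h1
    refine Finset.sum_congr rfl (fun w hw => ?_)
    have h2 : wend 3 w = q₁ := (hS w (Finset.mem_filter.1 hw).1).1.2.1
    simp only [ha]
    rw [h2, hcomm]
  have hfub := ann_fub S (V := V) (N := N) (a := a) (fun w hw => (hS w hw).2) hz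
    (fun f => muG_nonneg _ _ _) hbound
  have hWz : c₀ * (z ^ (q₁ - 3) / AA x ^ (q₁ - 3)) ≤ ∑ w ∈ S, wwt 1 W w * z ^ wvol w := by
    have h1 : ∀ w ∈ S, wwt 1 W w * z ^ wvol w =
        PRW x w * (z ^ (q₁ - 3) / AA x ^ (q₁ - 3)) := by
      intro w hw
      have h2 : wend 3 w = q₁ := (hS w hw).1.2.1
      rw [PRW_z h (hS w hw).1.1, h2]
      obtain ⟨d, rfl⟩ := Nat.exists_eq_add_of_le hq
      have e1 : ((wvol w : ℤ) + (3 : ℕ) - ((3 + d : ℕ) : ℤ)) = (wvol w : ℤ) - (d : ℕ) := by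
        push_cast
        ring
      have e2 : (((3 + d : ℕ) : ℤ) - (3 : ℕ)) = ((d : ℕ) : ℤ) := by
        push_cast
        ring
      rw [e1, e2, zpow_sub₀ hz.ne', zpow_natCast, zpow_natCast, zpow_natCast,
        show 3 + d - 3 = d by omega]
      field_simp
    rw [Finset.sum_congr rfl h1, ← Finset.sum_mul]
    exact mul_le_mul_of_nonneg_right hSc (by positivity)
  have hX0 : 0 ≤ ∑ f ∈ range N, z ^ f * a f := Finset.sum_nonneg (fun f _ =>
    mul_nonneg (by positivity) (muG_nonneg _ _ _))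
  have hright : (∑ F ∈ range (N + V), z ^ F * b F) * z ^ (q₃ + 1) ≤
      3 * (C * (AA x * ρ) ^ q₃) := by
    have h1 := hdt q₃ (N + V + 1)
    rw [Finset.sum_range_succ'] at h1
    have h2 : (∑ F ∈ range (N + V), z ^ F * b F) * z ^ (q₃ + 1) =
        3 * ∑ F ∈ range (N + V), ((F + 1 : ℕ) : ℝ) * W q₃ (F + 1) * z ^ (F + 1 + q₃) := by
      rw [Finset.sum_mul, Finset.mul_sum]
      refine Finset.sum_congr rfl (fun F _ => ?_)
      simp only [hb]
      push_cast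
      ring
    rw [h2]
    refine mul_le_mul_of_nonneg_left ?_ (by norm_num)
    refine le_trans ?_ h1
    simp
  have hmain : c₀ * (z ^ (q₁ - 3) / AA x ^ (q₁ - 3)) * (∑ f ∈ range N, z ^ f * a f) *
      z ^ (q₃ + 1) ≤ 3 * (C * (AA x * ρ) ^ q₃) := by
    refine le_trans ?_ hright
    refine mul_le_mul_of_nonneg_right ?_ (by positivity)
    exact (mul_le_mul_of_nonneg_right hWz hX0).trans hfub
  have hleft : ∑ f ∈ range N, muG {q₃, q₁} f 0 * (z ^ (f + q₃ + q₁) / AA x ^ (q₃ + q₁)) =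
      (c₀ * (z ^ (q₁ - 3) / AA x ^ (q₁ - 3)) * (∑ f ∈ range N, z ^ f * a f) * z ^ (q₃ + 1)) *
        (z ^ 2 / (c₀ * AA x ^ (q₃ + 3))) := by
    obtain ⟨d, rfl⟩ := Nat.exists_eq_add_of_le hq
    have e1 : ∀ X : ℝ, (c₀ * (z ^ (3 + d - 3) / AA x ^ (3 + d - 3)) * X * z ^ (q₃ + 1)) *
        (z ^ 2 / (c₀ * AA x ^ (q₃ + 3))) = X * (z ^ (q₃ + (3 + d)) / AA x ^ (q₃ + (3 + d))) := by
      intro X
      rw [show 3 + d - 3 = d by omega]
      field_simp
      ring
    rw [e1, Finset.sum_mul]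
    refine Finset.sum_congr rfl (fun f _ => ?_)
    simp only [ha]
    rw [show f + q₃ + (3 + d) = f + (q₃ + (3 + d)) by omega, pow_add z f]
    ring
  rw [hleft]
  calc _ ≤ 3 * (C * (AA x * ρ) ^ q₃) * (z ^ 2 / (c₀ * AA x ^ (q₃ + 3))) :=
        mul_le_mul_of_nonneg_right hmain (by positivity)
    _ = 3 * C * z ^ 2 / (c₀ * AA x ^ 3) * ρ ^ q₃ := by
        rw [mul_pow, pow_add]
        field_simp

theorem ann {x : ℝ} (h : Lw x) : ∃ C ρ : ℝ, 0 < C ∧ 0 < ρ ∧ ρ < 1 ∧ ∀ q₁ q₃ N : ℕ, 1 ≤ q₁ → 1 ≤ q₃ →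
    ∑ f ∈ range N, muG {q₃, q₁} f 0 * (zz x ^ (f + q₃ + q₁) / AA x ^ (q₃ + q₁)) ≤ C * ρ ^ q₃ := by
  obtain ⟨C, ρ, hC, hρ, hρ1, h3⟩ := ann_three h
  have hz := zz_pos h
  have hA : 0 < AA x := by
    have := h.A_half
    linarith
  have hm0 : ∀ (P : Multiset ℕ) (f : ℕ), 0 ≤ muG P f 0 := fun P f => muG_nonneg _ _ _
  refine ⟨C * (1 + AA x ^ 2 / zz x ^ 2 + AA x / zz x ^ 2), ρ, by positivity, hρ, hρ1,
    fun q₁ q₃ N hq hq3 => ?_⟩
  have hρq : 0 < ρ ^ q₃ := pow_pos hρ q₃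
  have hk1 : 0 < AA x ^ 2 / zz x ^ 2 := by positivity
  have hk2 : 0 < AA x / zz x ^ 2 := by positivity
  have hB : 0 < C * ρ ^ q₃ := mul_pos hC hρq
  rcases Nat.lt_or_ge q₁ 3 with hlt | hge
  · rcases Nat.lt_or_ge q₁ 2 with hlt' | hge'
    · have : q₁ = 1 := by omega
      subst this
      have h1 : ∑ f ∈ range N, muG {q₃, 1} f 0 * (zz x ^ (f + q₃ + 1) / AA x ^ (q₃ + 1)) ≤
          AA x ^ 2 / zz x ^ 2 * ∑ f ∈ range N, muG {q₃, 3} f 0 *
            (zz x ^ (f + q₃ + 3) / AA x ^ (q₃ + 3)) := by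
        rw [Finset.mul_sum]
        refine Finset.sum_le_sum (fun f _ => ?_)
        have e1 : muG {q₃, 1} f 0 ≤ muG {q₃, 3} f 0 := by
          rw [show ({q₃, 1} : Multiset ℕ) = 1 ::ₘ {q₃} from Multiset.pair_comm q₃ 1,
            show ({q₃, 3} : Multiset ℕ) = 3 ::ₘ {q₃} from Multiset.pair_comm q₃ 3]
          exact two 1 {q₃} f 0
        have e2 : AA x ^ 2 / zz x ^ 2 * (muG {q₃, 3} f 0 *
            (zz x ^ (f + q₃ + 3) / AA x ^ (q₃ + 3))) =
            muG {q₃, 3} f 0 * (zz x ^ (f + q₃ + 1) / AA x ^ (q₃ + 1)) := by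
          rw [show f + q₃ + 3 = f + q₃ + 1 + 2 by omega, show q₃ + 3 = q₃ + 1 + 2 by omega,
            pow_add _ (f + q₃ + 1), pow_add _ (q₃ + 1)]
          field_simp
        rw [e2]
        exact mul_le_mul_of_nonneg_right e1 (by positivity)
      have h2 := h3 3 q₃ N le_rfl hq3
      have h4 := mul_le_mul_of_nonneg_left h2 hk1.le
      nlinarith [mul_pos hB hk1, mul_pos hB hk2]
    · have : q₁ = 2 := by omega
      subst this
      have h1 : ∑ f ∈ range N, muG {q₃, 2} f 0 * (zz x ^ (f + q₃ + 2) / AA x ^ (q₃ + 2)) ≤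
          AA x / zz x ^ 2 * ∑ f ∈ range (N + 1), muG {q₃, 3} f 0 *
            (zz x ^ (f + q₃ + 3) / AA x ^ (q₃ + 3)) := by
        rw [Finset.sum_range_succ' _ N, mul_add, Finset.mul_sum]
        refine le_add_of_le_of_nonneg ?_ ?_
        · refine Finset.sum_le_sum (fun f _ => ?_)
          have e1 : muG {q₃, 2} f 0 ≤ muG {q₃, 3} (f + 1) 0 := by
            rw [show ({q₃, 2} : Multiset ℕ) = 2 ::ₘ {q₃} from Multiset.pair_comm q₃ 2,
              show ({q₃, 3} : Multiset ℕ) = 3 ::ₘ {q₃} from Multiset.pair_comm q₃ 3]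
            exact one 2 (by norm_num) {q₃} f 0
          have e2 : AA x / zz x ^ 2 * (muG {q₃, 3} (f + 1) 0 *
              (zz x ^ (f + 1 + q₃ + 3) / AA x ^ (q₃ + 3))) =
              muG {q₃, 3} (f + 1) 0 * (zz x ^ (f + q₃ + 2) / AA x ^ (q₃ + 2)) := by
            rw [show f + 1 + q₃ + 3 = f + q₃ + 2 + 2 by omega, show q₃ + 3 = q₃ + 2 + 1 by omega,
              pow_add _ (f + q₃ + 2), pow_succ _ (q₃ + 2)]
            field_simp
          rw [e2]
          exact mul_le_mul_of_nonneg_right e1 (by positivity)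
        · have := hm0 {q₃, 3} 0
          positivity
      have h2 := h3 3 q₃ (N + 1) le_rfl hq3
      have h4 := mul_le_mul_of_nonneg_left h2 hk2.le
      nlinarith [mul_pos hB hk1, mul_pos hB hk2]
  · have h2 := h3 q₁ q₃ N hge hq3
    nlinarith [mul_pos hB hk1, mul_pos hB hk2]

end SYS.UP
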