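import Pool.Agent.SYS.UP.EvD

/-!
# SYS-UP-CylE: transfer of counts, with a second coordinate
-/

namespace SYS.UP

open SST Part Num

variable {n g : ℕ} {E : Type} [Finite E]

section

open Classical

private theorem cyle_fib_le {α β : Type} [Finite α] [Finite β] (A : Set α) (B : Set β)
    (r : α → β → Prop) (hex : ∀ a ∈ A, ∃ b ∈ B, r a b) (c : ℝ)
    (hc : ∀ b ∈ B, (({a | a ∈ A ∧ r a b}.ncard : ℕ) : ℝ) ≤ c) :
    ((A.ncard : ℕ) : ℝ) ≤ B.ncard * c := by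
  have := Fintype.ofFinite B
  let f : (Σ b : B, {a // a ∈ A ∧ r a b.1}) → A := fun x => ⟨x.2.1, x.2.2.1⟩
  have hf : Function.Surjective f := by
    rintro ⟨a, ha⟩
    obtain ⟨b, hb, hr⟩ := hex a ha
    exact ⟨⟨⟨b, hb⟩, ⟨a, ha, hr⟩⟩, rfl⟩
  have h1 : A.ncard ≤ ∑ b : B, Nat.card {a // a ∈ A ∧ r a b.1} := by
    rw [← Nat.card_coe_set_eq, ← Nat.card_sigma]
    exact Nat.card_le_card_of_surjective f hf
  have h2 : ((A.ncard : ℕ) : ℝ) ≤ ((∑ b : B, Nat.card {a // a ∈ A ∧ r a b.1} : ℕ) : ℝ) := by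
    exact_mod_cast h1
  refine h2.trans ?_
  rw [Nat.cast_sum]
  have h3 : ∀ b ∈ (Finset.univ : Finset B), ((Nat.card {a // a ∈ A ∧ r a b.1} : ℕ) : ℝ) ≤ c :=
    fun b _ => hc b.1 b.2
  refine (Finset.sum_le_sum h3).trans (le_of_eq ?_)
  rw [Finset.sum_const, nsmul_eq_mul, Finset.card_univ, ← Nat.card_eq_fintype_card,
    Nat.card_coe_set_eq]

private theorem cyle_W {k a V : ℕ} (h : 2 * V = 2 + a + k) :
    Num.W k a = ((mu (fun _ : Fin 1 => k) a V : ℚ) : ℝ) := by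
  have h1 : mu (fun _ : Fin 1 => k) a V = (A.muP {k} a).coeff V := by
    rw [A.mu_eq _ a V (Or.inl ⟨0⟩)]
    rfl
  rw [h1]
  have h2 : Even (a + ({k} : Multiset ℕ).sum) ∧
      4 * 0 + 2 * Multiset.card ({k} : Multiset ℕ) ≤ 4 + a + ({k} : Multiset ℕ).sum := by
    rw [Multiset.sum_singleton, Multiset.card_singleton]
    exact ⟨⟨V - 1, by omega⟩, by omega⟩
  unfold Num.W Num.muG
  rw [if_pos h2, Multiset.sum_singleton, Multiset.card_singleton]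
  have h3 : (4 + a + k - 4 * 0 - 2 * 1) / 2 = V := by omega
  rw [h3]

private theorem cyle_W_odd {k a : ℕ} (h : ¬ ∃ V, 2 * V = 2 + a + k) : Num.W k a = 0 := by
  unfold Num.W Num.muG
  rw [if_neg]
  rintro ⟨⟨c, hc⟩, -⟩
  rw [Multiset.sum_singleton] at hc
  exact h ⟨c + 1, by omega⟩

private theorem cyle_W_nn (k a : ℕ) : 0 ≤ Num.W k a := by
  by_cases h : ∃ V, 2 * V = 2 + a + k
  · obtain ⟨V, hV⟩ := h
    rw [cyle_W hV]
    have : (0 : ℚ) ≤ mu (fun _ : Fin 1 => k) a V := by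
      unfold mu
      split_ifs <;> positivity
    exact_mod_cast this
  · rw [cyle_W_odd h]

private theorem cyle_compl {D : Type} [Finite D] {S : Part D} {F : ℕ}
    (hv : S.R.ncard + 3 * F = Nat.card D) : S.Rᶜ.ncard = 3 * F := by
  have h1 := Set.ncard_add_ncard_compl S.R
  omega

private theorem cyle_ne {D : Type} {Y : Set D} (e : Fin 3 ↪ Y) {i j : Fin 3} (h : i ≠ j) :
    (e i : D) ≠ e j := fun h' => h (e.injective (Subtype.ext h'))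

private def cyle_mk {D : Type} {Y : Set D} (t0 t1 t2 : D) (h0 : t0 ∈ Y) (h1 : t1 ∈ Y) (h2 : t2 ∈ Y)
    (h01 : t0 ≠ t1) (h12 : t1 ≠ t2) (h20 : t2 ≠ t0) : Fin 3 ↪ Y where
  toFun := ![⟨t0, h0⟩, ⟨t1, h1⟩, ⟨t2, h2⟩]
  inj' := by
    have k01 : (⟨t0, h0⟩ : Y) ≠ ⟨t1, h1⟩ := fun h => h01 (congrArg Subtype.val h)
    have k12 : (⟨t1, h1⟩ : Y) ≠ ⟨t2, h2⟩ := fun h => h12 (congrArg Subtype.val h)
    have k20 : (⟨t2, h2⟩ : Y) ≠ ⟨t0, h0⟩ := fun h => h20 (congrArg Subtype.val h)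
    intro i j h
    fin_cases i <;> fin_cases j
    · rfl
    · exact absurd h k01
    · exact absurd h k20.symm
    · exact absurd h k01.symm
    · rfl
    · exact absurd h k12
    · exact absurd h k20
    · exact absurd h k12.symm
    · rfl

private theorem cyle_emb_card {D : Type} [Finite D] {S : Part D} {F : ℕ}
    (hv : S.R.ncard + 3 * F = Nat.card D) :
    Nat.card (Fin 3 ↪ ↥(S.Rᶜ)) = (3 * F).descFactorial 3 := by
  have := Fintype.ofFinite ↥(S.Rᶜ)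
  rw [Nat.card_eq_fintype_card, Fintype.card_embedding_eq, Fintype.card_fin,
    ← Nat.card_eq_fintype_card, Nat.card_coe_set_eq, cyle_compl hv]

private noncomputable def cyle_nt {D : Type} (S : Part D) (e : Fin 3 ↪ ↥(S.Rᶜ)) : Part D :=
  S.newTri (e 0) (e 1) (e 2) (e 0).2 (e 1).2 (e 2).2 (cyle_ne e (by decide))
    (cyle_ne e (by decide)) (cyle_ne e (by decide))

private theorem cyle_fact {F v : ℕ} (hv : v ≤ F) :
    (((3 * F).descFactorial (3 * v) : ℕ) : ℝ) * ((3 * (F - v)).factorial : ℝ) =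
      ((3 * F).factorial : ℝ) := by
  have h1 := Nat.factorial_mul_descFactorial (n := 3 * F) (k := 3 * v) (by omega)
  have h2 : 3 * F - 3 * v = 3 * (F - v) := by omega
  rw [h2] at h1
  rw [← h1]
  push_cast
  ring

private theorem cyle_cyc0 {D : Type} {t0 t1 t2 : D} (h01 : t0 ≠ t1) (h20 : t2 ≠ t0) :
    cyc3 t0 t1 t2 t0 = t1 := by
  unfold cyc3
  rw [Equiv.Perm.mul_apply, Equiv.swap_apply_of_ne_of_ne h01 h20.symm, Equiv.swap_apply_left]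

private theorem cyle_cyc1 {D : Type} {t0 t1 t2 : D} (h12 : t1 ≠ t2) (h20 : t2 ≠ t0) :
    cyc3 t0 t1 t2 t1 = t2 := by
  unfold cyc3
  rw [Equiv.Perm.mul_apply, Equiv.swap_apply_left, Equiv.swap_apply_of_ne_of_ne h20 h12.symm]

private theorem cyle_le_f {D : Type} {S : Part D} {t0 t1 t2 : D} (h0 : t0 ∉ S.R) (h1 : t1 ∉ S.R)
    (h2 : t2 ∉ S.R) (h01 : t0 ≠ t1) (h12 : t1 ≠ t2) (h20 : t2 ≠ t0) {T : Tri D}
    (h : (S.newTri t0 t1 t2 h0 h1 h2 h01 h12 h20).Le T) : T.f t0 = t1 ∧ T.f t1 = t2 := by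
  have f0 : (S.newTri t0 t1 t2 h0 h1 h2 h01 h12 h20).f t0 = t1 := by
    show S.f (cyc3 t0 t1 t2 t0) = t1
    rw [cyle_cyc0 h01 h20]
    exact not_not.1 h1
  have f1 : (S.newTri t0 t1 t2 h0 h1 h2 h01 h12 h20).f t1 = t2 := by
    show S.f (cyc3 t0 t1 t2 t1) = t2
    rw [cyle_cyc1 h12 h20]
    exact not_not.1 h2
  constructor
  · rw [h.1 t0 (by rw [f0]; exact h01.symm), f0]
  · rw [h.1 t1 (by rw [f1]; exact h12.symm), f1]

private theorem cyle_hconn {D : Type} [Finite D] {S : Part D} {t0 t1 t2 : D} (h0 : t0 ∉ S.R)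
    (h1 : t1 ∉ S.R) (h2 : t2 ∉ S.R) (h01 : t0 ≠ t1) (h12 : t1 ≠ t2) (h20 : t2 ≠ t0) {T : Tri D}
    (h : (S.newTri t0 t1 t2 h0 h1 h2 h01 h12 h20).Le T) :
    (S.newTri t0 t1 t2 h0 h1 h2 h01 h12 h20).HConn T ↔ S.HConn T := by
  have hS : S.Le T := sub_le (newTri_sub S h0 h1 h2 h01 h12 h20) h
  have hX : (S.newTri t0 t1 t2 h0 h1 h2 h01 h12 h20).X = S.X := by
    ext d
    show (d ∉ (S.newTri t0 t1 t2 h0 h1 h2 h01 h12 h20).R ∨
      d ∈ (S.newTri t0 t1 t2 h0 h1 h2 h01 h12 h20).B) ↔ (d ∉ S.R ∨ d ∈ S.B)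
    rw [newTri_R, newTri_B]
    constructor
    · rintro (h3 | h3 | h3)
      · exact Or.inl fun h4 => h3 (Or.inl h4)
      · exact Or.inr h3
      · left
        rw [Set.mem_insert_iff, Set.mem_insert_iff, Set.mem_singleton_iff] at h3
        rcases h3 with rfl | rfl | rfl
        · exact h0
        · exact h1
        · exact h2
    · rintro (h3 | h3)
      · by_cases h4 : d ∈ ({t0, t1, t2} : Set D)
        · exact Or.inr (Or.inr h4)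
        · left
          rintro (h5 | h5)
          · exact h3 h5
          · exact h4 h5
      · exact Or.inr (Or.inl h3)
  obtain ⟨e1, e2⟩ := cyle_le_f h0 h1 h2 h01 h12 h20 h
  subst e1
  subst e2
  unfold HConn
  rw [hX]
  have hh := fun d e => hc_newTri hS h0 h1 h2 d e
  constructor
  · intro h3 d hd e he
    exact (hh d e).1 (h3 d hd e he)
  · intro h3 d hd e he
    exact (hh d e).2 (h3 d hd e he)

end

theorem cylE_le {ρ : List Stp → ℕ} {h w : List Stp} {S : Part (Fin (6 * n))} {x : Fin (6 * n)} {l : List (Fin (6 * n))}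
    {p : ℕ} {P : List ℕ} {F κ : ℕ} (hS : S.Typ (x :: l) (p :: P) F κ)
    (Z : Tri (Fin (6 * n)) → Part (Fin (6 * n)) → Fin (6 * n) → E → Prop) {c : ℝ} (hc : 0 ≤ c)
    (hZ : ∀ S' x', Rch ρ h S x w S' x' → (({q : Tri (Fin (6 * n)) × E | q.1 ∈ S'.Ext g ∧ S'.HConn q.1 ∧
      Z q.1 S' x' q.2}.ncard : ℕ) : ℝ) ≤ ((3 * (F - wvol w)).factorial : ℝ) * c) :
    (({q : Tri (Fin (6 * n)) × E | q.1 ∈ S.Ext g ∧ ∃ S' x', Rch ρ h S x w S' x' ∧ S'.Le q.1 ∧ S'.HConn q.1 ∧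
      Z q.1 S' x' q.2}.ncard : ℕ) : ℝ) ≤ ((3 * F).factorial : ℝ) * wwt 1 Num.W w * c := by
  have hnn : 0 ≤ wwt 1 Num.W w := wwt_nonneg zero_le_one cyle_W_nn w
  by_cases hex : ∃ S' x', Rch ρ h S x w S' x'
  · obtain ⟨S₀, x₀, h₀⟩ := hex
    obtain ⟨hw, F', hF', -⟩ := rch_typ hS h₀
    have hv : wvol w ≤ F := by omega
    have hA := cyle_fib_le
      {q : Tri (Fin (6 * n)) × E | q.1 ∈ S.Ext g ∧ ∃ S' x', Rch ρ h S x w S' x' ∧ S'.Le q.1 ∧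
        S'.HConn q.1 ∧ Z q.1 S' x' q.2}
      {q : Part (Fin (6 * n)) × Fin (6 * n) | Rch ρ h S x w q.1 q.2}
      (fun t q => q.1.Le t.1 ∧ q.1.HConn t.1 ∧ Z t.1 q.1 q.2 t.2) ?_
      (((3 * (F - wvol w)).factorial : ℝ) * c) ?_
    · refine hA.trans (le_of_eq ?_)
      rw [rch_card hS hw, ← cyle_fact hv]
      ring
    · rintro t ⟨-, S', x', h1, h2⟩
      exact ⟨(S', x'), h1, h2⟩
    · rintro ⟨S', x'⟩ hb
      have hb' : Rch ρ h S x w S' x' := hb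
      refine le_trans ?_ (hZ S' x' hb')
      have : {a | a ∈ {q : Tri (Fin (6 * n)) × E | q.1 ∈ S.Ext g ∧ ∃ S' x', Rch ρ h S x w S' x' ∧
          S'.Le q.1 ∧ S'.HConn q.1 ∧ Z q.1 S' x' q.2} ∧ S'.Le a.1 ∧ S'.HConn a.1 ∧ Z a.1 S' x' a.2} ⊆
          {q : Tri (Fin (6 * n)) × E | q.1 ∈ S'.Ext g ∧ S'.HConn q.1 ∧ Z q.1 S' x' q.2} := by
        rintro q ⟨⟨h1, -⟩, h2, h3, h4⟩
        exact ⟨⟨h1.1, h2⟩, h3, h4⟩
      exact_mod_cast Set.ncard_le_ncard this (Set.toFinite _)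
  · have h1 : {q : Tri (Fin (6 * n)) × E | q.1 ∈ S.Ext g ∧ ∃ S' x', Rch ρ h S x w S' x' ∧
        S'.Le q.1 ∧ S'.HConn q.1 ∧ Z q.1 S' x' q.2} = ∅ := by
      ext T
      constructor
      · rintro ⟨-, S', x', h1, -⟩
        exact absurd ⟨S', x', h1⟩ hex
      · intro h1
        exact h1.elim
    rw [h1, Set.ncard_empty]
    have : 0 ≤ ((3 * F).factorial : ℝ) * wwt 1 Num.W w * c := by positivity
    simpa using this

theorem srcE_le {S : Part (Fin (6 * n))} {l : List (Fin (6 * n))} {P : List ℕ} {F κ : ℕ} (hS : S.Typ l P (F + 1) κ)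
    (Z : Tri (Fin (6 * n)) → Part (Fin (6 * n)) → Fin (6 * n) → E → Prop) {c : ℝ} (hc : 0 ≤ c)
    (hZ : ∀ t0 t1 t2 h0 h1 h2 h01 h12 h20, (({q : Tri (Fin (6 * n)) × E |
      q.1 ∈ (S.newTri t0 t1 t2 h0 h1 h2 h01 h12 h20).Ext g ∧ (S.newTri t0 t1 t2 h0 h1 h2 h01 h12 h20).HConn q.1 ∧
        Z q.1 (S.newTri t0 t1 t2 h0 h1 h2 h01 h12 h20) t0 q.2}.ncard : ℕ) : ℝ) ≤ ((3 * F).factorial : ℝ) * c) :
    (({q : Tri (Fin (6 * n)) × Fin (6 * n) × E | q.1 ∈ S.Ext g ∧ S.HConn q.1 ∧ ∃ S', Src S q.1 q.2.1 S' ∧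
      Z q.1 S' q.2.1 q.2.2}.ncard : ℕ) : ℝ) ≤ ((3 * (F + 1)).factorial : ℝ) * c := by
  have _ := hc
  have hA := cyle_fib_le
    {q : Tri (Fin (6 * n)) × Fin (6 * n) × E | q.1 ∈ S.Ext g ∧ S.HConn q.1 ∧ ∃ S', Src S q.1 q.2.1 S' ∧
      Z q.1 S' q.2.1 q.2.2}
    (Set.univ : Set (Fin 3 ↪ ↥(S.Rᶜ)))
    (fun q e => q.2.1 = e 0 ∧ (cyle_nt S e).Le q.1 ∧ Z q.1 (cyle_nt S e) q.2.1 q.2.2) ?_
    (((3 * F).factorial : ℝ) * c) ?_
  · rw [Set.ncard_univ, cyle_emb_card hS.vol] at hA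
    have h1 := cyle_fact (F := F + 1) (v := 1) (by omega)
    rw [Nat.add_sub_cancel, Nat.mul_one] at h1
    rw [← h1, mul_assoc]
    exact hA
  · rintro ⟨T, t0, z⟩ ⟨-, -, S', ⟨h3, t1, t2, h0, h1, h2, h01, h12, h20, rfl⟩, h4⟩
    exact ⟨cyle_mk t0 t1 t2 h0 h1 h2 h01 h12 h20, Set.mem_univ _, rfl, h3, h4⟩
  · intro e _
    refine le_trans (le_of_eq ?_) (hZ (e 0) (e 1) (e 2) (e 0).2 (e 1).2 (e 2).2
      (cyle_ne e (by decide)) (cyle_ne e (by decide)) (cyle_ne e (by decide)))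
    have h1 : {q | q ∈ {q : Tri (Fin (6 * n)) × Fin (6 * n) × E | q.1 ∈ S.Ext g ∧ S.HConn q.1 ∧
        ∃ S', Src S q.1 q.2.1 S' ∧ Z q.1 S' q.2.1 q.2.2} ∧
        (q.2.1 = e 0 ∧ (cyle_nt S e).Le q.1 ∧ Z q.1 (cyle_nt S e) q.2.1 q.2.2)} =
        (fun q : Tri (Fin (6 * n)) × E => (q.1, (e 0 : Fin (6 * n)), q.2)) ''
          {q | q.1 ∈ (cyle_nt S e).Ext g ∧ (cyle_nt S e).HConn q.1 ∧ Z q.1 (cyle_nt S e) (e 0) q.2} := by
      ext q
      constructor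
      · rintro ⟨⟨k1, k2, -⟩, k3, k4, k5⟩
        rw [k3] at k5
        exact ⟨(q.1, q.2.2), ⟨⟨k1.1, k4⟩, (cyle_hconn _ _ _ _ _ _ k4).2 k2, k5⟩,
          Prod.ext rfl (Prod.ext k3.symm rfl)⟩
      · rintro ⟨⟨T, z⟩, ⟨k1, k2, k3⟩, rfl⟩
        refine ⟨⟨⟨k1.1, sub_le (newTri_sub S _ _ _ _ _ _) k1.2⟩, (cyle_hconn _ _ _ _ _ _ k1.2).1 k2,
          cyle_nt S e, ⟨k1.2, e 1, e 2, (e 0).2, (e 1).2, (e 2).2, cyle_ne e (by decide),
          cyle_ne e (by decide), cyle_ne e (by decide), rfl⟩, k3⟩, rfl, k1.2, k3⟩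
    rw [h1, Set.ncard_image_of_injective _ ?_]
    · rfl
    · intro a b hab
      have h2 : (a.1, (e 0 : Fin (6 * n)), a.2) = (b.1, (e 0 : Fin (6 * n)), b.2) := hab
      have h3 := Prod.ext_iff.1 h2
      exact Prod.ext h3.1 (Prod.ext_iff.1 h3.2).2

end SYS.UP
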