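import Pool.Agent.SYS.UP.Defs

/-!
# Project SYS, block UP: numerical sums of the second moment.  DO NOT CHANGE.

An event of stage 1 is described by `t = (q₁, q₂, w) : Et`: numeric word `w` from perimeter `3` to `q₁ + q₂ + 2`, then the hole is split
into holes of perimeters `q₁`, `q₂` with connected complement.  `vE t` = number of triangles, `wE t` = number of the corresponding words of discs.
`X1` = first moment; `OO`, `MM`, `NN`, `SS` = the parts of the second moment (source inside the first region; merge; both events disjoint; separation between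
the two holes of the first region).
-/

namespace SYS.UP

open SYS.Num Real Filter Topology Finset

/-- Types of the events of stage 1. -/
abbrev Et : Type := ℕ × ℕ × List Stp

def GoodE (t : Et) : Prop := 1 ≤ t.1 ∧ 1 ≤ t.2.1 ∧ WOk 3 t.2.2 ∧ wend 3 t.2.2 = t.1 + t.2.1 + 2

open Classical in
/-- All words from `s` with at most `V` triangles. -/
noncomputable def WdA (s V : ℕ) : Finset (List Stp) :=
  if h : {w : List Stp | WOk s w ∧ wvol w ≤ V}.Finite then h.toFinset else ∅

open Classical in
noncomputable def EvF (a V : ℕ) : Finset Et :=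
  (Icc a (2 * a) ×ˢ Icc a (2 * a) ×ˢ WdA 3 V).filter GoodE

noncomputable def wE (t : Et) : ℝ := wwt 1 W t.2.2

def vE (t : Et) : ℕ := 1 + wvol t.2.2

/-- First moment. -/
noncomputable def X1 (S : Finset Et) (p : ℕ × ℕ) : ℝ :=
  ∑ t ∈ S, wE t * muG {t.1, t.2.1} (2 * p.1 - vE t) (p.2 - 1)

/-- Its limit divided by `nu`. -/
noncomputable def eE (x : ℝ) (S : Finset Et) : ℝ :=
  ∑ t ∈ S, wE t * Lc x {t.1, t.2.1} (vE t) 1

/-- The second source is in the region of the first event. -/
noncomputable def OO (S : Finset Et) (p : ℕ × ℕ) : ℝ :=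
  ∑ t ∈ S, 3 * (vE t : ℝ) * (wE t * muG {t.1, t.2.1} (2 * p.1 - vE t) (p.2 - 1))

/-- The second exploration is glued to the first region. -/
noncomputable def MM (S : Finset Et) (U : Finset (List Stp)) (p : ℕ × ℕ) : ℝ :=
  ∑ t ∈ S, ∑ w ∈ U, wE t * wwt 1 W w *
    (t.1 * muG {wend 3 w + t.1 - 2, t.2.1} (2 * p.1 - (vE t + (1 + wvol w))) (p.2 - 1) +
      t.2.1 * muG {wend 3 w + t.2.1 - 2, t.1} (2 * p.1 - (vE t + (1 + wvol w))) (p.2 - 1))

/-- Two disjoint events. -/
noncomputable def NN (S S' : Finset Et) (p : ℕ × ℕ) : ℝ :=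
  ∑ t ∈ S, ∑ t' ∈ S', wE t * wE t' *
    muG {t'.1, t'.2.1, t.1, t.2.1} (2 * p.1 - (vE t + vE t')) (p.2 - 2)

/-- The second event separates the two holes of the first region. -/
noncomputable def SS (S S' : Finset Et) (p : ℕ × ℕ) : ℝ :=
  ∑ t ∈ S, ∑ t' ∈ S', wE t * wE t' *
    (SepS {t'.1, t.1} {t'.2.1, t.2.1} (2 * p.1 - (vE t + vE t')) (p.2 - 1) +
      SepS {t'.1, t.2.1} {t'.2.1, t.1} (2 * p.1 - (vE t + vE t')) (p.2 - 1))

/-- Bound for the number of pairs, `S` = first event, `S'` = second event, `U` = the words of its exploration. -/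
noncomputable def PB (S S' : Finset Et) (U : Finset (List Stp)) (p : ℕ × ℕ) : ℝ :=
  OO S p + MM S U p + NN S S' p + SS S S' p

/-- The scales. -/
def sc (i : ℕ) : ℕ := 2 * 4 ^ i

/-- The events of scale `i` (`C0` = bound for volume / scale). -/
noncomputable def ES (C0 i : ℕ) : Finset Et := EvF (sc i) (C0 * sc i)

end SYS.UP
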