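import Pool.Agent.SYS.Num.Defs

/-!
# Project SYS, block UP (upper bound), numerical part: definitions.  DO NOT CHANGE.

`x > 0` is the parameter of `Par θ x`, `y = yy x`, `z = √y`, `A = AA x`.
* `hh` is the harmonic function of the random walk killed below perimeter 1 (`hh 1 = 1`), `mm p = A ^ (p-1) * hh p`.
* `Lc x P v j` is the limit of `muG P (2n - v) (g - j) * n ^ (2j) / (n ^ #P * nu n g)`.
* `Wds s e V`: words from perimeter `s` to perimeter `e` with at most `V` triangles.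
-/

namespace SYS.UP

open SYS.Num Real Filter Topology

/-- Limit of `n² nu n (g-1)/nu n g`. -/
noncomputable def chi (x : ℝ) : ℝ := 4 / 9 * sinh x ^ 2 * (cosh x ^ 2 + 2) ^ 2 / cosh x ^ 2

noncomputable def zz (x : ℝ) : ℝ := √(yy x)

/-- Probability that a disc of perimeter `k` is swallowed on a given side. -/
noncomputable def qk (x : ℝ) (k : ℕ) : ℝ := ∑' a, qq x k a

/-- Harmonic function. -/
noncomputable def hh (x : ℝ) : ℕ → ℝ
  | 0 => 0
  | 1 => 1
  | k + 2 => (hh x (k + 1) - 2 * ∑ i : Fin (k - 1), qk x i * hh x (k - 1 - i)) / AA x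

noncomputable def mm (x : ℝ) (p : ℕ) : ℝ := AA x ^ (p - 1) * hh x p

/-- The constant of `FIN`. -/
noncomputable def Lc (x : ℝ) (P : Multiset ℕ) (v : ℤ) (j : ℕ) : ℝ :=
  (6 * yy x) ^ Multiset.card P * chi x ^ j * (P.map (mm x)).prod * zz x ^ (v - (P.sum : ℤ))

/-- The normalised number of maps. -/
noncomputable def Rt (P : Multiset ℕ) (v : ℤ) (j : ℕ) (p : ℕ × ℕ) : ℝ :=
  muG P ((2 * (p.1 : ℤ) - v).toNat) (p.2 - j) * (p.1 : ℝ) ^ (2 * j) /
    ((p.1 : ℝ) ^ Multiset.card P * SST.nu p.1 p.2)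

/-- `FIN` holds for `P`. -/
def FinAt (θ x : ℝ) (P : Multiset ℕ) : Prop :=
  ∀ (v : ℤ) (j : ℕ), Even (v + P.sum) → Tendsto (Rt P v j) (Num.Fth θ) (𝓝 (Lc x P v j))

/-- Facts on the law of the steps. -/
structure Lw (x : ℝ) : Prop where
  x_pos : 0 < x
  A_half : 1 / 2 < AA x
  A_lt : AA x < 1
  y_pos : 0 < yy x
  d_pos : 0 < dr x
  q_nn : ∀ k a, 0 ≤ qq x k a
  mass : HasSum (fun t : ℕ × ℕ => qq x t.1 t.2) ((1 - AA x) / 2)
  mean : HasSum (fun t : ℕ × ℕ => ((t.1 : ℝ) + 2) * qq x t.1 t.2) ((AA x - dr x) / 2)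
  expo : ∃ δ : ℝ, 0 < δ ∧ Summable fun t : ℕ × ℕ => qq x t.1 t.2 * exp (δ * (t.1 + t.2))

/-- Words from perimeter `s` to perimeter `e` with at most `V` triangles. -/
noncomputable def Wds (s e V : ℕ) : Finset (List Stp) :=
  open Classical in
  if h : {w : List Stp | WOk s w ∧ wend s w = e ∧ wvol w ≤ V}.Finite then h.toFinset else ∅

/-- Sum over the splittings of the triangles and of the genus. -/
noncomputable def SepS (P P' : Multiset ℕ) (F g : ℕ) : ℝ :=
  ∑ f ∈ Finset.HasAntidiagonal.antidiagonal F, ∑ h ∈ Finset.HasAntidiagonal.antidiagonal g, muG P f.1 h.1 * muG P' f.2 h.2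

/-- The terms of `SepS` in which no side is a disc. -/
noncomputable def SepR (P P' : Multiset ℕ) (F g : ℕ) : ℝ :=
  ∑ f ∈ Finset.HasAntidiagonal.antidiagonal F,
    ∑ h ∈ (Finset.HasAntidiagonal.antidiagonal g).filter (fun h => ¬ (Multiset.card P = 1 ∧ h.1 = 0) ∧
      ¬ (Multiset.card P' = 1 ∧ h.2 = 0)), muG P f.1 h.1 * muG P' f.2 h.2

end SYS.UP
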