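import Pool.Agent.SYS.UP.Nus
import Pool.Agent.SYS.UP.Mm

/-!
# SYS-UP-Dom: domination of the sum over the swallowed discs

PROOF of `Rt_dom`.  `P` with entries `≥ 1`, `k = #P`, `F = 2n - v - a` (`toNat`), `a ≤ 2n - v`.  `muG_ubc`: `muG P F (g-j) ≤ (3 (F + |P|))^k nu ((F + |P|)/2) (g-j)`; `3 (F + |P|) ≤ C n`.
Put `s = (|P| - v)` and choose a constant `c : ℕ` with `|s| + 2 ≤ 2 c`; `M = n + c` and `(F + |P|)/2 = M - l` with `l = M - (2n - v - a + |P|)/2`, `l ≤ M`, `2 l ≥ a + (2c - s) ≥ a`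
(and `2 l ≤ a + 2c - s + 1`).  `nu_tail` (for `ε`, `j`) at the point `sh c 0 p = (n + c, g)` (`RB.tendsto_sh`) gives
`(n+c)^(2j) nu (M - l) (g-j) ≤ K ((1+ε) y)^l nu (n+c) g`; `nu (n+c) g ≤ C nu n g` (`nu_sh`), `n ≤ n + c`.  If `(1+ε) y ≤ 1` then `((1+ε) y)^l ≤ (√((1+ε) y))^a = (√(1+ε) z)^a`
because `2 l ≥ a`; we may assume `(1+ε) y ≤ 1` by making `ε` smaller (`y < 1`: `y = yy x = cosh x/(4 rr³) ≤ 1/4`, `yy_lt`).  As `√(1+ε) ≤ 1 + ε`, and for given `ρ > 1` there is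
such an `ε` with `√(1+ε) ≤ ρ`, the bound is `Rt P (v + a) j p ≤ K' (ρ z)^a`, for all `a` with `a ≤ 2n - v`.
-/

namespace SYS.UP

open SYS.Num Real Filter Topology

theorem yy_lt {x : ℝ} (hx : 0 < x) : yy x < 1 / 4 := by
  have _ := hx
  have h1 : 1 ≤ cosh x := one_le_cosh x
  have h2 : cosh x < rr x := by
    unfold rr
    rw [Real.lt_sqrt (by linarith)]
    linarith
  have h3 : 0 < rr x := by linarith
  have h4 : cosh x < rr x ^ 3 := by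
    have h5 : 1 < rr x := by linarith
    have h6 : rr x ≤ rr x ^ 3 := by nlinarith [mul_pos h3 h3]
    linarith
  unfold yy
  rw [div_lt_div_iff₀ (by positivity) (by norm_num)]
  linarith

theorem Rt_dom {θ x : ℝ} (h : Par θ x) {P : Multiset ℕ} (hP : ∀ p ∈ P, 1 ≤ p) (v : ℤ) (j : ℕ)
    {ρ : ℝ} (hρ : 1 < ρ) :
    ∃ K : ℝ, 0 ≤ K ∧ ∀ᶠ p in Num.Fth θ, ∀ a : ℕ, (a : ℤ) ≤ 2 * (p.1 : ℤ) - v →
      Rt P (v + a) j p ≤ K * (ρ * zz x) ^ a := by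
  have hx : 0 < x := Par_pos h
  have hy : 0 < yy x := (lw hx).y_pos
  have hy4 : yy x < 1 / 4 := yy_lt hx
  set ε : ℝ := min (ρ ^ 2 - 1) 3 with hεd
  have hε : 0 < ε := lt_min (by nlinarith) (by norm_num)
  have hε1 : 1 + ε ≤ ρ ^ 2 := by linarith [min_le_left (ρ ^ 2 - 1) (3 : ℝ)]
  have hε2 : ε ≤ 3 := min_le_right _ _
  set c : ℕ := v.natAbs + P.sum with hc
  set w : ℝ := √((1 + ε) * yy x) with hw
  have hw0 : 0 ≤ w := sqrt_nonneg _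
  have hwsq : w ^ 2 = (1 + ε) * yy x := Real.sq_sqrt (by positivity)
  have hw1 : w ≤ 1 := by
    have : w ^ 2 ≤ 1 := by rw [hwsq]; nlinarith
    nlinarith
  have hz0 : 0 ≤ zz x := sqrt_nonneg _
  have hzsq : zz x ^ 2 = yy x := Real.sq_sqrt hy.le
  have hwz : w ≤ ρ * zz x := by
    refine Real.sqrt_le_iff.2 ⟨by positivity, ?_⟩
    rw [mul_pow, hzsq]
    exact mul_le_mul_of_nonneg_right hε1 hy.le
  obtain ⟨K, hK, hev⟩ := nu_tail h hε j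
  have hev1 : ∀ᶠ p in Num.Fth θ, ∀ l ≤ (RB.sh (c : ℤ) 0 p).1,
      ((RB.sh (c : ℤ) 0 p).1 : ℝ) ^ (2 * j) *
        SST.nu ((RB.sh (c : ℤ) 0 p).1 - l) ((RB.sh (c : ℤ) 0 p).2 - j) ≤
        K * ((1 + ε) * yy x) ^ l * SST.nu (RB.sh (c : ℤ) 0 p).1 (RB.sh (c : ℤ) 0 p).2 :=
    (RB.tendsto_sh h.1 (c : ℤ) 0).eventually hev
  have hsh := nu_sh h (-(c : ℤ)) 0
  have hev2 := hsh.eventually_lt_const (lt_add_one (yy x ^ (-(c : ℤ)) * chi x ^ 0))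
  set C' : ℝ := yy x ^ (-(c : ℤ)) * chi x ^ 0 + 1 with hC'
  have hC'0 : 0 ≤ C' := by positivity
  refine ⟨9 ^ Multiset.card P * (K * C'), by positivity, ?_⟩
  filter_upwards [hev1, hev2, nu_pos_ev h, RB.ge_ev θ (c + 1)] with p h1 h2 h3 h4 a ha
  have hs1 : (RB.sh (c : ℤ) 0 p).1 = p.1 + c := by
    show ((p.1 : ℤ) + (c : ℤ)).toNat = p.1 + c
    omega
  have hs2 : (RB.sh (c : ℤ) 0 p).2 = p.2 := by
    show ((p.2 : ℤ) + 0).toNat = p.2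
    omega
  rw [hs1, hs2] at h1
  have hn : (0 : ℝ) < (p.1 : ℝ) := by exact_mod_cast (by omega : 0 < p.1)
  have h2' : SST.nu (p.1 + c) p.2 ≤ C' * SST.nu p.1 p.2 := by
    have e1 : ((p.1 : ℤ) - -(c : ℤ)).toNat = p.1 + c := by omega
    rw [e1] at h2
    simp only [mul_zero, pow_zero, mul_one, Nat.sub_zero] at h2
    rw [div_lt_iff₀ h3] at h2
    exact h2.le
  set F : ℕ := (2 * (p.1 : ℤ) - (v + a)).toNat with hF
  have hFs : F + P.sum ≤ 3 * p.1 := by omega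
  have hl1 : (F + P.sum) / 2 ≤ p.1 + c := by omega
  obtain ⟨l, hl⟩ : ∃ l, l = p.1 + c - (F + P.sum) / 2 := ⟨_, rfl⟩
  have hl2 : a ≤ 2 * l := by omega
  have hl3 : p.1 + c - l = (F + P.sum) / 2 := by omega
  have hl4 : l ≤ p.1 + c := by omega
  have h5 := h1 l hl4
  rw [hl3] at h5
  have h6 := muG_ubc hP F (p.2 - j)
  have h7 : ((1 + ε) * yy x) ^ l ≤ (ρ * zz x) ^ a := by
    calc ((1 + ε) * yy x) ^ l = w ^ (2 * l) := by rw [pow_mul, hwsq]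
      _ ≤ w ^ a := pow_le_pow_of_le_one hw0 hw1 hl2
      _ ≤ (ρ * zz x) ^ a := pow_le_pow_left₀ hw0 hwz a
  have h8 : (p.1 : ℝ) ^ (2 * j) ≤ ((p.1 + c : ℕ) : ℝ) ^ (2 * j) := by
    refine pow_le_pow_left₀ hn.le ?_ _
    push_cast
    linarith [Nat.cast_nonneg (α := ℝ) c]
  have h9 : (3 * ((F : ℝ) + P.sum)) ^ Multiset.card P ≤ (9 * (p.1 : ℝ)) ^ Multiset.card P := by
    refine pow_le_pow_left₀ (by positivity) ?_ _
    have h11 : ((F + P.sum : ℕ) : ℝ) ≤ ((3 * p.1 : ℕ) : ℝ) := by exact_mod_cast hFs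
    rw [Nat.cast_add, Nat.cast_mul, Nat.cast_ofNat] at h11
    linarith
  have h10 : 0 ≤ SST.nu ((F + P.sum) / 2) (p.2 - j) := nu_nn _ _
  unfold Rt
  rw [div_le_iff₀ (by positivity), ← hF]
  calc muG P F (p.2 - j) * (p.1 : ℝ) ^ (2 * j)
      ≤ ((9 * (p.1 : ℝ)) ^ Multiset.card P * SST.nu ((F + P.sum) / 2) (p.2 - j)) *
        (p.1 : ℝ) ^ (2 * j) :=
        mul_le_mul_of_nonneg_right (h6.trans (mul_le_mul_of_nonneg_right h9 h10)) (by positivity)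
    _ ≤ (9 * (p.1 : ℝ)) ^ Multiset.card P *
        (((p.1 + c : ℕ) : ℝ) ^ (2 * j) * SST.nu ((F + P.sum) / 2) (p.2 - j)) := by
        rw [mul_assoc]
        refine mul_le_mul_of_nonneg_left ?_ (by positivity)
        rw [mul_comm]
        exact mul_le_mul_of_nonneg_right h8 h10
    _ ≤ (9 * (p.1 : ℝ)) ^ Multiset.card P *
        (K * (ρ * zz x) ^ a * (C' * SST.nu p.1 p.2)) := by
        refine mul_le_mul_of_nonneg_left (h5.trans ?_) (by positivity)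
        exact mul_le_mul (mul_le_mul_of_nonneg_left h7 hK.le) h2' (nu_nn _ _) (by positivity)
    _ = 9 ^ Multiset.card P * (K * C') * (ρ * zz x) ^ a *
        ((p.1 : ℝ) ^ Multiset.card P * SST.nu p.1 p.2) := by
        rw [mul_pow]
        ring

end SYS.UP
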