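import Pool.Agent.SYS.UP.FinT

/-!
# SYS-UP-Fin: THEOREM FIN
-/

namespace SYS.UP

open SYS.Num Real Filter Topology

/-- `muG P (2n - v) (g - j) * n^(2j) / (n^#P * nu n g) → Lc x P v j`. -/
theorem fin {θ x : ℝ} (h : Par θ x) (P : Multiset ℕ) (hP : ∀ p ∈ P, 1 ≤ p) : FinAt θ x P := by
  induction P using Multiset.induction_on with
  | empty => exact fin_zero h
  | cons p Q ih =>
    have hQ : ∀ q ∈ Q, 1 ≤ q := fun q hq => hP q (Multiset.mem_cons_of_mem hq)
    have hfQ := ih hQ
    have key : ∀ p, ∀ r, 1 ≤ r → r ≤ p → FinAt θ x (r ::ₘ Q) := by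
      intro p
      induction p with
      | zero => intro r h1 h2; omega
      | succ p ihp =>
        intro r h1 h2
        rcases Nat.lt_or_ge r (p + 1) with h3 | h3
        · exact ihp r h1 (by omega)
        · obtain rfl : r = p + 1 := by omega
          rcases Nat.lt_or_ge p 3 with h4 | h4
          · interval_cases p
            · exact fin_one h hQ hfQ
            · exact fin_two h hfQ
            · exact fin_three h hfQ
          · exact fin_succ h hQ h4 ihp
    exact key p p (hP p (Multiset.mem_cons_self _ _)) le_rfl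

/-- The limit of the ratio with natural numbers. -/
theorem fin_nat {θ x : ℝ} (h : Par θ x) {P : Multiset ℕ} (hP : ∀ p ∈ P, 1 ≤ p) (v j : ℕ)
    (hv : Even (v + P.sum)) : Tendsto (fun p : ℕ × ℕ => muG P (2 * p.1 - v) (p.2 - j) *
      (p.1 : ℝ) ^ (2 * j) / ((p.1 : ℝ) ^ Multiset.card P * SST.nu p.1 p.2)) (Num.Fth θ)
      (𝓝 (Lc x P v j)) := by
  have h1 := fin h P hP (v : ℤ) j (by exact_mod_cast hv)
  refine h1.congr fun p => ?_
  have h2 : (2 * (p.1 : ℤ) - (v : ℤ)).toNat = 2 * p.1 - v := by omega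
  rw [Rt, h2]

end SYS.UP
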