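import Pool.Agent.SYS.UP.Lcw
import Pool.Agent.SYS.UP.Fin

/-!
# SYS-UP-Eec: the first moment
-/

namespace SYS.UP

open SYS.Num Real Filter Topology Finset

theorem chi_pos {x : ℝ} (hx : 0 < x) : 0 < chi x := by
  have h1 : 0 < sinh x := Real.sinh_pos_iff.2 hx
  have h2 : 0 < cosh x := Real.cosh_pos x
  unfold chi
  positivity

private theorem x1_term {θ x : ℝ} (h : Par θ x) {t : Et} (ht : GoodE t) :
    Tendsto (fun p : ℕ × ℕ => wE t * muG {t.1, t.2.1} (2 * p.1 - vE t) (p.2 - 1) / SST.nu p.1 p.2) (Num.Fth θ)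
      (𝓝 (wE t * Lc x {t.1, t.2.1} (vE t) 1)) := by
  by_cases h0 : wE t = 0
  · simp only [h0, zero_mul, zero_div]
    exact tendsto_const_nhds
  · have hs : (({t.1, t.2.1} : Multiset ℕ)).sum = t.1 + t.2.1 := by simp
    have hc : Multiset.card ({t.1, t.2.1} : Multiset ℕ) = 2 := by simp
    have hP : ∀ p ∈ ({t.1, t.2.1} : Multiset ℕ), 1 ≤ p := by
      intro p hp
      have h1 : p = t.1 ∨ p = t.2.1 := by simpa using hp
      rcases h1 with rfl | rfl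
      · exact ht.1
      · exact ht.2.1
    have hE : Even (vE t + (({t.1, t.2.1} : Multiset ℕ)).sum) := by
      rw [hs, ← Nat.add_assoc]
      exact par_E ht h0
    have h1 := (fin_nat h hP (vE t) 1 hE).const_mul (wE t)
    refine h1.congr' ?_
    have h2 : ∀ᶠ p in RB.Fth θ, 1 ≤ (p : ℕ × ℕ).1 := RB.ge_ev θ 1
    rw [← Fth_eq] at h2
    filter_upwards [h2] with p hp
    have hp' : (p.1 : ℝ) ≠ 0 := by
      have : 0 < p.1 := hp
      exact_mod_cast this.ne'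
    rw [hc, mul_one, mul_div_assoc (wE t), mul_comm (muG {t.1, t.2.1} (2 * p.1 - vE t) (p.2 - 1)) ((p.1 : ℝ) ^ 2),
      mul_div_mul_left _ _ (pow_ne_zero 2 hp')]

theorem x1_lim {θ x : ℝ} (h : Par θ x) {S : Finset Et} (hS : ∀ t ∈ S, GoodE t) :
    Tendsto (fun p : ℕ × ℕ => X1 S p / SST.nu p.1 p.2) (Num.Fth θ) (𝓝 (eE x S)) := by
  have h1 : (fun p : ℕ × ℕ => X1 S p / SST.nu p.1 p.2) = fun p : ℕ × ℕ =>
      ∑ t ∈ S, wE t * muG {t.1, t.2.1} (2 * p.1 - vE t) (p.2 - 1) / SST.nu p.1 p.2 := by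
    funext p
    rw [X1, Finset.sum_div]
  rw [h1, eE]
  exact tendsto_finsetSum S fun t ht => x1_term h (hS t ht)

theorem eE_eq {x : ℝ} (h : Lw x) {S : Finset Et} (hS : ∀ t ∈ S, GoodE t) :
    eE x S = ∑ t ∈ S, 36 * yy x ^ 2 * chi x / AA x * (hh x t.1 * hh x t.2.1) * PRW x t.2.2 := by
  rw [eE]
  exact Finset.sum_congr rfl fun t ht => lc_one h (hS t ht)

private theorem ev_good {a V : ℕ} {t : Et} (ht : t ∈ EvF a V) : GoodE t := (mem_EvF.1 ht).1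

open Classical in
private theorem ev_sum (x : ℝ) (a V : ℕ) (f : Et → ℝ) : ∑ t ∈ EvF a V, f t =
    ∑ q₁ ∈ Icc a (2 * a), ∑ q₂ ∈ Icc a (2 * a), ∑ w ∈ (WdA 3 V).filter (fun w => GoodE (q₁, q₂, w)), f (q₁, q₂, w) := by
  have _ := x
  unfold EvF
  rw [Finset.sum_filter, Finset.sum_product]
  refine Finset.sum_congr rfl fun q₁ _ => ?_
  rw [Finset.sum_product]
  refine Finset.sum_congr rfl fun q₂ _ => ?_
  rw [Finset.sum_filter]

theorem eE_up {x : ℝ} (h : Lw x) : ∃ C : ℝ, 0 < C ∧ ∀ a V : ℕ, 1 ≤ a → eE x (EvF a V) ≤ C * a ^ 2 := by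
  classical
  obtain ⟨C, hC, hv⟩ := vis h.x_pos
  have hchi := chi_pos h.x_pos
  have hA : 0 < AA x := by linarith [h.A_half]
  have hd := h.d_pos
  have hy := h.y_pos
  refine ⟨36 * yy x ^ 2 * chi x / AA x * ((AA x / dr x) * (AA x / dr x)) * (4 * C), by positivity, ?_⟩
  intro a V ha
  rw [eE_eq h (fun t ht => ev_good ht)]
  have h1 : ∀ t ∈ EvF a V, 36 * yy x ^ 2 * chi x / AA x * (hh x t.1 * hh x t.2.1) * PRW x t.2.2 ≤
      36 * yy x ^ 2 * chi x / AA x * ((AA x / dr x) * (AA x / dr x)) * PRW x t.2.2 := by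
    intro t ht
    have hg := ev_good ht
    have e1 := hh_le h t.1
    have e2 := hh_le h t.2.1
    have e3 := hh_ge h hg.1
    have e4 := hh_ge h hg.2.1
    have e5 := PRW_nn h t.2.2
    refine mul_le_mul_of_nonneg_right (mul_le_mul_of_nonneg_left ?_ (by positivity)) e5
    exact mul_le_mul e1 e2 (by linarith) (by positivity)
  refine (Finset.sum_le_sum h1).trans ?_
  rw [← Finset.mul_sum, mul_assoc _ (4 * C)]
  refine mul_le_mul_of_nonneg_left ?_ (by positivity)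
  rw [ev_sum x]
  have h2 : ∀ q₁ ∈ Icc a (2 * a), ∀ q₂ ∈ Icc a (2 * a),
      ∑ w ∈ (WdA 3 V).filter (fun w => GoodE (q₁, q₂, w)), PRW x ((q₁, q₂, w) : Et).2.2 ≤ C := by
    intro q₁ _ q₂ _
    refine hv 3 (q₁ + q₂ + 2) _ ?_
    intro w hw
    have h3 := (Finset.mem_filter.1 hw).2
    exact ⟨h3.2.2.1, h3.2.2.2⟩
  refine (Finset.sum_le_sum fun q₁ hq₁ => Finset.sum_le_sum fun q₂ hq₂ => h2 q₁ hq₁ q₂ hq₂).trans ?_
  rw [Finset.sum_const, Finset.sum_const, Nat.card_Icc, nsmul_eq_mul, nsmul_eq_mul]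
  have h4 : ((2 * a + 1 - a : ℕ) : ℝ) ≤ 2 * a := by
    have : 2 * a + 1 - a ≤ 2 * a := by omega
    exact_mod_cast this
  have h5 : (0 : ℝ) ≤ ((2 * a + 1 - a : ℕ) : ℝ) := Nat.cast_nonneg _
  calc ((2 * a + 1 - a : ℕ) : ℝ) * (((2 * a + 1 - a : ℕ) : ℝ) * C) ≤ (2 * a) * ((2 * a) * C) := by gcongr
    _ = 4 * C * a ^ 2 := by ring

theorem eE_low {x : ℝ} (h : Lw x) : ∃ (c : ℝ) (C0 : ℕ), 0 < c ∧ ∀ a V : ℕ, 1 ≤ a → C0 * a ≤ V →
    c * a ^ 2 ≤ eE x (EvF a V) := by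
  classical
  obtain ⟨c₀, C₀, hc₀, hhit⟩ := hitting h.x_pos
  have hchi := chi_pos h.x_pos
  have hA : 0 < AA x := by linarith [h.A_half]
  have hy := h.y_pos
  refine ⟨36 * yy x ^ 2 * chi x / AA x * c₀, 4 * C₀, by positivity, ?_⟩
  intro a V ha hV
  rw [eE_eq h (fun t ht => ev_good ht)]
  have h1 : ∀ t ∈ EvF a V, 36 * yy x ^ 2 * chi x / AA x * PRW x t.2.2 ≤
      36 * yy x ^ 2 * chi x / AA x * (hh x t.1 * hh x t.2.1) * PRW x t.2.2 := by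
    intro t ht
    have hg := ev_good ht
    have e3 := hh_ge h hg.1
    have e4 := hh_ge h hg.2.1
    have e5 := PRW_nn h t.2.2
    refine mul_le_mul_of_nonneg_right ?_ e5
    refine le_mul_of_one_le_right (by positivity) ?_
    nlinarith
  refine le_trans ?_ (Finset.sum_le_sum h1)
  rw [← Finset.mul_sum, mul_assoc _ c₀]
  refine mul_le_mul_of_nonneg_left ?_ (by positivity)
  rw [ev_sum x]
  have h2 : ∀ q₁ ∈ Icc a (2 * a), ∀ q₂ ∈ Icc a (2 * a), c₀ ≤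
      ∑ w ∈ (WdA 3 V).filter (fun w => GoodE (q₁, q₂, w)), PRW x ((q₁, q₂, w) : Et).2.2 := by
    intro q₁ hq₁ q₂ hq₂
    rw [Finset.mem_Icc] at hq₁ hq₂
    obtain ⟨S, -, hS, hc⟩ := hhit 3 (q₁ + q₂ + 2) (by norm_num) (by omega)
    refine hc.trans (Finset.sum_le_sum_of_subset_of_nonneg ?_ ?_)
    · intro w hw
      obtain ⟨hF, hvol⟩ := hS w hw
      rw [Finset.mem_filter, mem_WdA]
      refine ⟨⟨hF.1, ?_⟩, ⟨by show 1 ≤ q₁; omega, by show 1 ≤ q₂; omega, hF.1, hF.2.1⟩⟩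
      refine hvol.trans (le_trans ?_ hV)
      have e1 : q₁ + q₂ + 2 - 3 + 1 ≤ 4 * a := by omega
      calc C₀ * (q₁ + q₂ + 2 - 3 + 1) ≤ C₀ * (4 * a) := Nat.mul_le_mul_left _ e1
        _ = 4 * C₀ * a := by ring
    · intro w _ _
      exact PRW_nn h w
  refine le_trans ?_ (Finset.sum_le_sum fun q₁ hq₁ => Finset.sum_le_sum fun q₂ hq₂ => h2 q₁ hq₁ q₂ hq₂)
  rw [Finset.sum_const, Finset.sum_const, Nat.card_Icc, nsmul_eq_mul, nsmul_eq_mul]
  have h4 : (a : ℝ) ≤ ((2 * a + 1 - a : ℕ) : ℝ) := by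
    have : a ≤ 2 * a + 1 - a := by omega
    exact_mod_cast this
  calc c₀ * (a : ℝ) ^ 2 = (a : ℝ) * (a * c₀) := by ring
    _ ≤ ((2 * a + 1 - a : ℕ) : ℝ) * (((2 * a + 1 - a : ℕ) : ℝ) * c₀) := by gcongr

end SYS.UP
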