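import Pool.Agent.SYS.UP.EvD

/-!
# SYS-UP-NsE: transfer of counts for the splitting of the hole

At most one region: the darts `y, z, z'`, `u, v` are determined by `S.hw x` and `q1`.
-/

namespace SYS.UP

open SST Part Num

variable {n g : ℕ} {E : Type} [Finite E]

theorem nsE_le {S : Part (Fin (6 * n))} {x : Fin (6 * n)} {l : List (Fin (6 * n))} {P : List ℕ} {q1 q2 F κ : ℕ}
    (hS : S.Typ (x :: l) ((q1 + q2 + 2) :: P) F κ) (h1 : 1 ≤ q1) (h2 : 1 ≤ q2)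
    (Z : Tri (Fin (6 * n)) → Part (Fin (6 * n)) → Fin (6 * n) → Fin (6 * n) → E → Prop) {c : ℝ} (hc : 0 ≤ c)
    (hZ : ∀ (y z z' : Fin (6 * n)) (u v : List (Fin (6 * n))) (hx : x ∈ S.B) (hy : y ∈ S.B),
      S.hw x = x :: ((z :: u) ++ y :: z' :: v) → u.length + 1 = q1 → v.length + 1 = q2 →
      (({q : Tri (Fin (6 * n)) × E | q.1 ∈ (S.glue x y hx hy).Ext g ∧ (S.glue x y hx hy).HConn q.1 ∧
        Z q.1 (S.glue x y hx hy) z z' q.2}.ncard : ℕ) : ℝ) ≤ c) :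
    (({q : Tri (Fin (6 * n)) × E | q.1 ∈ S.Ext g ∧ S.HConn q.1 ∧ ∃ S0 z z', Nsr S q.1 x q1 q2 S0 z z' ∧
      Z q.1 S0 z z' q.2}.ncard : ℕ) : ℝ) ≤ c := by
  rcases Set.eq_empty_or_nonempty {q : Tri (Fin (6 * n)) × E | q.1 ∈ S.Ext g ∧ S.HConn q.1 ∧
      ∃ S0 z z', Nsr S q.1 x q1 q2 S0 z z' ∧ Z q.1 S0 z z' q.2} with h | ⟨⟨T0, e0⟩, h⟩
  · rw [h, Set.ncard_empty]
    exact_mod_cast hc
  · obtain ⟨_, _, _, z0, z0', ⟨u0, v0, hx, hy, hw0, hu0, hv0, _, _, _⟩, _⟩ := h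
    refine le_trans ?_ (hZ (T0.a x) z0 z0' u0 v0 hx hy hw0 hu0 hv0)
    rw [Nat.cast_le]
    refine Set.ncard_le_ncard ?_ (Set.toFinite _)
    rintro ⟨T, e⟩ ⟨hT, _, S0, z, z', ⟨u, v, hx', hy', hw, hu, hv, hS0, hL, hC⟩, hZT⟩
    have e1 : (z :: u) ++ T.a x :: z' :: v = (z0 :: u0) ++ T0.a x :: z0' :: v0 :=
      (List.cons.inj (hw.symm.trans hw0)).2
    have hlen : (z :: u).length = (z0 :: u0).length := by
      rw [List.length_cons, List.length_cons]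
      omega
    obtain ⟨e3, e4⟩ := List.append_inj e1 hlen
    have e5 : z = z0 := (List.cons.inj e3).1
    have e6 : T.a x = T0.a x := (List.cons.inj e4).1
    have e7 : z' = z0' := (List.cons.inj (List.cons.inj e4).2).1
    have e8 : S0 = S.glue x (T0.a x) hx hy := by
      rw [hS0]
      have key : ∀ (y : Fin (6 * n)) (hy'' : y ∈ S.B), y = T0.a x →
          S.glue x y hx' hy'' = S.glue x (T0.a x) hx hy := by
        rintro y _ rfl
        rfl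
      exact key _ hy' e6
    rw [e8] at hL hC
    rw [e5, e7, e8] at hZT
    exact ⟨⟨hT.1, hL⟩, hC, hZT⟩

end SYS.UP
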