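import Pool.Agent.SYS.UP.CylE
import Pool.Agent.SYS.UP.NsE
import Pool.Agent.SYS.UP.RchC
import Pool.Agent.SYS.BD.Mg

/-!
# SYS-UP-EvE: transfer for the events
-/

namespace SYS.UP

open SST Part Num

variable {n g : ℕ} {E : Type} [Finite E]

private theorem emp_hconn {D : Type} [Finite D] {T : Tri D} (h : T.Conn) : (emp : Part D).HConn T := by
  have hX : ∀ d : D, d ∈ (emp : Part D).X ∧ d ∉ (emp : Part D).R := fun d => by
    have : d ∉ (emp : Part D).R := fun hd => absurd rfl hd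
    exact ⟨Or.inl this, this⟩
  intro d _ e _
  have h1 := h {e | (emp : Part D).Hc T d e} ⟨d, Relation.EqvGen.refl d⟩ (fun k hk =>
    ⟨Relation.EqvGen.trans _ _ _ hk (Relation.EqvGen.rel _ _ ⟨(hX k).1, Or.inl rfl⟩),
      Relation.EqvGen.trans _ _ _ hk (Relation.EqvGen.rel _ _
        ⟨(hX k).1, Or.inr (Or.inl ⟨(hX k).2, rfl⟩)⟩)⟩)
  have h2 : e ∈ {e | (emp : Part D).Hc T d e} := by
    rw [h1]
    exact Set.mem_univ e
  exact h2

/-- Transfer for the events of type `t`. -/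
theorem evE_le (hn : 1 ≤ n) {t : Et} (ht : GoodE t) (hv : vE t ≤ 2 * n)
    (Z : Tri (Fin (6 * n)) → Part (Fin (6 * n)) → Fin (6 * n) → Fin (6 * n) → E → Prop) {c : ℝ} (hc : 0 ≤ c)
    (hZ : ∀ S0 z z', Reg t S0 z z' → (({q : Tri (Fin (6 * n)) × E | q.1 ∈ S0.Ext g ∧ S0.HConn q.1 ∧
      Z q.1 S0 z z' q.2}.ncard : ℕ) : ℝ) ≤ ((3 * (2 * n - vE t)).factorial : ℝ) * c) :
    (({q : Tri (Fin (6 * n)) × Fin (6 * n) × E | q.1 ∈ Trn n g ∧ ∃ S0 z z', Ev q.1 q.2.1 t S0 z z' ∧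
      Z q.1 S0 z z' q.2.2}.ncard : ℕ) : ℝ) ≤ ((6 * n).factorial : ℝ) * wE t * c := by
  obtain ⟨hq1, hq2, hok, hwend⟩ := ht
  obtain ⟨F, hF⟩ : ∃ F, F + 1 = 2 * n := ⟨2 * n - 1, by omega⟩
  have hemp : (emp : Part (Fin (6 * n))).Typ [] [] (F + 1) 0 := by
    rw [hF]
    exact typ_emp hn
  have hfin : ((6 * n).factorial : ℝ) = ((3 * (F + 1)).factorial : ℝ) := by
    rw [hF]
    congr 2
    ring
  have hw0 : 0 ≤ wE t := wwt_nonneg zero_le_one W_nonneg _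
  rw [hfin, mul_assoc]
  refine le_trans ?_ (srcE_le (g := g) (E := E) hemp (fun T S1 y e => ∃ S' x', Rch r0 [] S1 y t.2.2 S' x' ∧
    S'.Le T ∧ S'.HConn T ∧ ∃ S0 z z', Nsr S' T x' t.1 t.2.1 S0 z z' ∧ Z T S0 z z' e)
    (mul_nonneg hw0 hc) ?_)
  · refine Nat.cast_le.2 (Set.ncard_le_ncard ?_ (Set.toFinite _))
    rintro ⟨T, y, e⟩ ⟨hT, S0, z, z', ⟨S', x', ⟨S1, hsrc, hr, hle, hcn⟩, hns⟩, hz⟩
    exact ⟨⟨hT, emp_le T⟩, emp_hconn hT.1, S1, hsrc, S', x', hr, hle, hcn, S0, z, z', hns, hz⟩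
  · intro t0 t1 t2 h0 h1 h2 h01 h12 h20
    rcases Set.eq_empty_or_nonempty {q : Tri (Fin (6 * n)) × E |
      q.1 ∈ ((emp : Part (Fin (6 * n))).newTri t0 t1 t2 h0 h1 h2 h01 h12 h20).Ext g ∧
      ((emp : Part (Fin (6 * n))).newTri t0 t1 t2 h0 h1 h2 h01 h12 h20).HConn q.1 ∧
        ∃ S' x', Rch r0 [] ((emp : Part (Fin (6 * n))).newTri t0 t1 t2 h0 h1 h2 h01 h12 h20) t0 t.2.2 S' x' ∧
        S'.Le q.1 ∧ S'.HConn q.1 ∧ ∃ S0 z z', Nsr S' q.1 x' t.1 t.2.1 S0 z z' ∧ Z q.1 S0 z z' q.2}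
      with hemp' | ⟨⟨T1, e1⟩, hT1, -⟩
    · rw [hemp', Set.ncard_empty, Nat.cast_zero]
      exact mul_nonneg (Nat.cast_nonneg _) (mul_nonneg hw0 hc)
    · have hcon : ((emp : Part (Fin (6 * n))).newTri t0 t1 t2 h0 h1 h2 h01 h12 h20).Con :=
        con_src (T := T1) (y := t0) ⟨hT1.2, t1, t2, h0, h1, h2, h01, h12, h20, rfl⟩
      have htyp := typ_newTri hemp h0 h1 h2 h01 h12 h20
      rw [← mul_assoc]
      refine le_trans ?_ (cylE_le (g := g) (E := E) (ρ := r0) (h := []) (w := t.2.2) htyp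
        (fun T S' x' e => ∃ S0 z z', Nsr S' T x' t.1 t.2.1 S0 z z' ∧ Z T S0 z z' e) hc ?_)
      · refine Nat.cast_le.2 (Set.ncard_le_ncard ?_ (Set.toFinite _))
        rintro ⟨T, e⟩ ⟨hT, -, hT2⟩
        exact ⟨hT, hT2⟩
      · intro S' x' hr
        obtain ⟨-, F', hF', htyp'⟩ := rch_typ htyp hr
        have e1 : F - wvol t.2.2 = F' := by omega
        have e2 : 2 * n - vE t = F' := by
          unfold vE
          omega
        rw [hwend] at htyp'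
        rw [e1]
        refine nsE_le (g := g) (E := E) htyp' hq1 hq2 Z (mul_nonneg (Nat.cast_nonneg _) hc) ?_
        intro y z z' u v hx hy hw hu hv'
        have hreg : Reg t (S'.glue x' y hx hy) z z' := by
          refine ⟨?_, con_glue S' hx hy (rch_con hr hcon)⟩
          have h3 := typ_ns htyp' hx hy hw
          rw [hu, hv'] at h3
          rw [e2]
          exact h3
        have h4 := hZ _ z z' hreg
        rw [e2] at h4
        exact h4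

end SYS.UP
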