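import Pool.Agent.SYS.UP.EvD

/-!
# SYS-UP-EvQ: the first moment
-/

namespace SYS.UP

open SST Part Num

variable {n g : ℕ}

private theorem evQ_emp {D : Type} [Finite D] {T : Tri D} (hT : T.Conn) :
    (emp : Part D).HConn T := by
  intro d _ e _
  have hX : ∀ d : D, d ∈ (emp : Part D).X := fun d => Or.inl (fun h => h rfl)
  have hR : ∀ d : D, d ∉ (emp : Part D).R := fun d h => h rfl
  have h1 := hT {e | (emp : Part D).Hc T d e} ⟨d, Relation.EqvGen.refl d⟩ (by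
    intro e he
    exact ⟨hc_trans he (hc_a (hX e)), hc_trans he (hc_f (hR e))⟩)
  have h2 : e ∈ (Set.univ : Set D) := Set.mem_univ e
  rw [← h1] at h2
  exact h2

private theorem evQ_nsr {D : Type} [Finite D] {S : Part D} {T : Tri D} (hle : S.Le T) {x : D}
    {q1 q2 : ℕ} : (∃ S0 z z', Nsr S T x q1 q2 S0 z z') ↔ (∃ u v, S.NSt T x u v ∧
      u.length = q1 ∧ v.length = q2) ∧ 0 < q1 ∧ 0 < q2 := by
  constructor
  · rintro ⟨S0, z, z', u, v, hx, hy, hw, hu, hv, rfl, _, hc⟩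
    exact ⟨⟨z :: u, z' :: v, ⟨by simp, by simp, hw, hx, hy, hc⟩, hu, hv⟩, by omega, by omega⟩
  · rintro ⟨⟨u, v, ⟨hu0, hv0, hw, hx, hy, hc⟩, hu, hv⟩, _, _⟩
    obtain ⟨z, u', rfl⟩ := List.exists_cons_of_ne_nil hu0
    obtain ⟨z', v', rfl⟩ := List.exists_cons_of_ne_nil hv0
    exact ⟨S.glue x (T.a x) hx hy, z, z', u', v', hx, hy, hw, hu, hv, rfl,
      glue_le S hx hy hle rfl, hc⟩

/-- The first moment. -/
theorem ev_eq (hn : 1 ≤ n) (hg : 1 ≤ g) {t : Et} (ht : GoodE t) (hv : vE t ≤ 2 * n) :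
    (({q : Tri (Fin (6 * n)) × Fin (6 * n) | q.1 ∈ Trn n g ∧ ∃ S0 z z', Ev q.1 q.2 t S0 z z'}.ncard : ℕ) : ℝ) =
      ((6 * n).factorial : ℝ) * (wE t * muG {t.1, t.2.1} (2 * n - vE t) (g - 1)) := by
  obtain ⟨q1, q2, w⟩ := t
  obtain ⟨h1', h2', h3', h4'⟩ := ht
  have h1 : 1 ≤ q1 := h1'
  have h2 : 1 ≤ q2 := h2'
  have h3 : WOk 3 w := h3'
  have h4 : wend 3 w = q1 + q2 + 2 := h4'
  obtain ⟨F, hF⟩ : ∃ F, 2 * n = F + 1 := ⟨2 * n - 1, by omega⟩
  have hvF : wvol w ≤ F := by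
    have : 1 + wvol w ≤ 2 * n := hv
    omega
  have hS : (emp : Part (Fin (6 * n))).Typ [] [] (F + 1) 0 := by
    rw [← hF]
    exact typ_emp hn
  have key := src_eq (g := g) hS (fun T S1 y => ∃ S' x', Rch r0 [] S1 y w S' x' ∧ S'.Le T ∧
      S'.HConn T ∧ ∃ S0 z z', Nsr S' T x' q1 q2 S0 z z')
    (c := wwt 1 W w * muG {q1, q2} (F - wvol w) (g - 1)) (by
      intro t0 t1 t2 k0 k1 k2 k01 k12 k20
      have hT1 := typ_newTri hS k0 k1 k2 k01 k12 k20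
      have hc := cyl_eq (g := g) (ρ := r0) (h := []) hT1 h3 hvF
        (fun T S' x' => ∃ S0 z z', Nsr S' T x' q1 q2 S0 z z')
        (c := muG {q1, q2} (F - wvol w) (g - 1)) (by
          intro S' x' hr
          obtain ⟨_, F', hF', hT'⟩ := rch_typ hT1 hr
          have hF'' : F' = F - wvol w := by omega
          rw [hF''] at hT'
          have h5 := ns_card (g := g) (h := g - 1) hT' h1 h2 h4.symm (by omega)
          rw [← hF''] at h5 ⊢
          refine Eq.trans ?_ h5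
          congr 2
          ext T
          constructor
          · rintro ⟨a1, a2, a3⟩
            exact ⟨a1, a2, ((evQ_nsr a1.2).1 a3).1⟩
          · rintro ⟨a1, a2, a3⟩
            exact ⟨a1, a2, (evQ_nsr a1.2).2 ⟨a3, h1, h2⟩⟩)
      rw [← mul_assoc]
      refine Eq.trans ?_ hc
      congr 2
      ext T
      constructor
      · rintro ⟨a1, _, a3⟩
        exact ⟨a1, a3⟩
      · rintro ⟨a1, S', x', a2, a3, a4, a5⟩
        exact ⟨a1, rch_hconn a2 a3 a4, S', x', a2, a3, a4, a5⟩)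
  have e1 : 3 * (F + 1) = 6 * n := by omega
  have e2 : 2 * n - vE (q1, q2, w) = F - wvol w := by
    show 2 * n - (1 + wvol w) = F - wvol w
    omega
  rw [e1] at key
  rw [e2]
  refine Eq.trans ?_ key
  congr 2
  ext q
  constructor
  · rintro ⟨a1, S0, z, z', S', x', ⟨S1, ⟨b1, b2⟩, b3, b4, b5⟩, a3⟩
    exact ⟨⟨a1, emp_le _⟩, evQ_emp a1.1, S1, b1, ⟨S', x', b3, b4, b5, S0, z, z', a3⟩, b2⟩
  · rintro ⟨⟨a1, _⟩, _, S1, b1, ⟨S', x', b3, b4, b5, S0, z, z', a3⟩, b2⟩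
    exact ⟨a1, S0, z, z', S', x', ⟨S1, ⟨b1, b2⟩, b3, b4, b5⟩, a3⟩

end SYS.UP
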