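import Pool.Agent.SYS.UP.RchC

/-!
# SYS-UP-EvR: regions of the events, uniqueness

PLAN.
* `ev_reg`: `x'`: `Rn emp`: `S1 = emp.newTri x ..` has type `[x] [3] (2n-1) 0` (`typ_emp`, `typ_newTri`, `n ≥ 1`), `rch_typ`: `S'.Typ [x'] [wend 3 w] F' 0`, `F' + wvol w = 2n - 1`; `typ_ns` (`κ = 1`), connected: `con_src`, `rch_con`, `con_glue`.  `GoodE t` gives
  `wend 3 w = q1 + q2 + 2` (`S'.per x' = (hw x').length`).
* `reg_R`: `|S0.R| = 6 n - 3 (2n - vE t) = 3 vE t` (`Typ.vol`).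
* `ev_unique`: two events at the same `(T, x)`: `S1` is the same (`T.f`); `rch_cmp`: one word is a prefix of the other; if `w' = w ++ s :: w''` then at `(S', x')` there is a planar step `Stt` (`rch_append`, `rch_hconn`) and `NSt`: contradiction with
  `stt_not` (`κ = 0 < g`).  So `w = w'`, `rch_unique` with `U = ofTri T`: the same `S'`, `x'`; `y = T.a x'` and `hw x'` determine `u, v, z, z'` (`hw_nodup`: decomposition at `T.a x'` unique), so `t = t'`, `S0`, `z`, `z'` are the same.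
-/

namespace SYS.UP

open SST Part Num

private theorem evr_typ {n : ℕ} (hn : 1 ≤ n) {T : Tri (Fin (6 * n))} {x : Fin (6 * n)}
    {S1 : Part (Fin (6 * n))} (h : Src emp T x S1) : S1.Typ [x] [3] (2 * n - 1) 0 := by
  obtain ⟨_, t1, t2, h0, h1, h2, h01, h12, h20, rfl⟩ := h
  have h3 := typ_emp hn
  have h4 : 2 * n = (2 * n - 1) + 1 := by omega
  rw [h4] at h3
  exact typ_newTri h3 h0 h1 h2 h01 h12 h20

private theorem evr_cyc {D : Type} [DecidableEq D] {t0 t1 t2 : D} (h01 : t0 ≠ t1) (h20 : t2 ≠ t0) :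
    cyc3 t0 t1 t2 t0 = t1 := by
  unfold cyc3
  rw [Equiv.Perm.mul_apply, Equiv.swap_apply_of_ne_of_ne h01 h20.symm, Equiv.swap_apply_left]

private theorem evr_cyc1 {D : Type} [DecidableEq D] {t0 t1 t2 : D} (h12 : t1 ≠ t2) (h20 : t2 ≠ t0) :
    cyc3 t0 t1 t2 t1 = t2 := by
  unfold cyc3
  rw [Equiv.Perm.mul_apply, Equiv.swap_apply_left, Equiv.swap_apply_of_ne_of_ne h20 h12.symm]

private theorem evr_src {D : Type} [Finite D] {T : Tri D} {x : D} {S1 S2 : Part D} (h : Src emp T x S1)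
    (h' : Src emp T x S2) : S1 = S2 := by
  classical
  have key : ∀ {S : Part D}, Src emp T x S → S.R = {x, T.f x, T.f (T.f x)} ∧ S.B = {x, T.f x, T.f (T.f x)} := by
    rintro S ⟨hL, t1, t2, h0, h1, h2, h01, h12, h20, rfl⟩
    have hf : ∀ d, ((emp : Part D).newTri x t1 t2 h0 h1 h2 h01 h12 h20).f d =
        @cyc3 D (fun a b => Classical.propDecidable (a = b)) x t1 t2 d := fun d => rfl
    have e1 : T.f x = t1 := by
      rw [hL.1 x (by rw [hf, evr_cyc h01 h20]; exact h01.symm), hf, evr_cyc h01 h20]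
    have e2 : T.f t1 = t2 := by
      rw [hL.1 t1 (by rw [hf, evr_cyc1 h12 h20]; exact h12.symm), hf, evr_cyc1 h12 h20]
    have hR : (emp : Part D).R = ∅ := by
      ext d
      constructor
      · intro hd
        exact absurd rfl hd
      · intro hd
        exact absurd hd (Set.notMem_empty d)
    have hB : (emp : Part D).B = ∅ := by
      ext d
      constructor
      · intro hd
        exact absurd rfl hd.1
      · intro hd
        exact absurd hd (Set.notMem_empty d)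
    rw [e1, e2]
    constructor
    · rw [newTri_R, hR, Set.empty_union]
    · rw [newTri_B, hB, Set.empty_union]
  obtain ⟨a1, a2⟩ := key h
  obtain ⟨b1, b2⟩ := key h'
  exact le_ext h.1 h'.1 (a1.trans b1.symm) (a2.trans b2.symm)

private theorem evr_nst {D : Type} [Finite D] {S : Part D} {T : Tri D} {x : D} {q1 q2 : ℕ} {S0 : Part D}
    {z z' : D} (h : Nsr S T x q1 q2 S0 z z') : ∃ u v, S.NSt T x u v := by
  obtain ⟨u, v, hx, hy, hw, _, _, hS0, _, hc⟩ := h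
  exact ⟨z :: u, z' :: v, List.cons_ne_nil _ _, List.cons_ne_nil _ _, hw, hx, hy, hS0 ▸ hc⟩

private theorem evr_pre {n g : ℕ} (hg : 1 ≤ g) {T : Tri (Fin (6 * n))} (hT : T ∈ Trn n g)
    {S1 S' S'' : Part (Fin (6 * n))} {x x' x'' : Fin (6 * n)} {F p : ℕ} (hS : S1.Typ [x] [p] F 0)
    {w w' : List Stp} (hr : Rch r0 [] S1 x w S' x') (hr' : Rch r0 [] S1 x w' S'' x'')
    (hL : S'.Le T) (hL' : S''.Le T) (hc' : S''.HConn T)
    (hn : ∃ u v, S'.NSt T x' u v) (hp : w <+: w') : w = w' := by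
  obtain ⟨w2, rfl⟩ := hp
  rcases w2 with _ | ⟨s, w3⟩
  · rw [List.append_nil]
  · exfalso
    obtain ⟨Sm, xm, h1, h2⟩ := rch_append.1 hr'
    have hLm : Sm.Le T := sub_le (rch_sub h2) hL'
    obtain ⟨e1, e2⟩ := rch_unique (U := ofTri T) hr h1 hL hLm
    subst e1
    subst e2
    obtain ⟨S2, z2, h3, h4⟩ := h2
    have h5 : S'.Stt T x' s := ⟨S2, z2, h3, sub_le (rch_sub h4) hL', rch_hconn h4 hL' hc'⟩
    obtain ⟨_, F', _, hS'⟩ := rch_typ hS hr
    have h6 := (stt_not hS' (⟨hT, hL⟩ : T ∈ S'.Ext g) (Or.inl (by omega)) h5).1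
    obtain ⟨u, v, h7⟩ := hn
    exact h6 u v h7

theorem ev_reg {n : ℕ} (hn : 1 ≤ n) {T : Tri (Fin (6 * n))} {x z z' : Fin (6 * n)} {t : Et} (ht : GoodE t)
    {S0 : Part (Fin (6 * n))} (h : Ev T x t S0 z z') : Reg t S0 z z' ∧ vE t ≤ 2 * n ∧ S0.Le T ∧ S0.HConn T := by
  obtain ⟨S', x', ⟨S1, hsrc, hr, hL', hc'⟩, u, v, hx, hy, hw, hu, hv, hS0, hL0, hc0⟩ := h
  obtain ⟨_, F', hF', hS'⟩ := rch_typ (evr_typ hn hsrc) hr
  have h1 := typ_ns hS' hx hy hw
  have hcon : S0.Con := by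
    rw [hS0]
    exact con_glue S' hx hy (rch_con hr (con_src hsrc))
  have h2 : 2 * n - vE t = F' := by
    unfold vE
    omega
  have h3 : vE t ≤ 2 * n := by
    unfold vE
    omega
  refine ⟨⟨?_, hcon⟩, h3, hL0, hc0⟩
  rw [h2, hS0, ← hu, ← hv]
  exact h1

theorem reg_R {n : ℕ} {t : Et} {S0 : Part (Fin (6 * n))} {z z' : Fin (6 * n)} (h : Reg t S0 z z') (hv : vE t ≤ 2 * n) :
    S0.R.ncard = 3 * vE t := by
  have h1 := h.typ.vol
  rw [Nat.card_fin] at h1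
  omega

theorem ev_unique {n g : ℕ} (hn : 1 ≤ n) (hg : 1 ≤ g) {T : Tri (Fin (6 * n))} (hT : T ∈ Trn n g) {x z z' y y' : Fin (6 * n)}
    {t t' : Et} (ht : GoodE t) (ht' : GoodE t') {S0 S0' : Part (Fin (6 * n))} (h : Ev T x t S0 z z') (h' : Ev T x t' S0' y y') :
    t = t' ∧ S0 = S0' ∧ z = y ∧ z' = y' := by
  obtain ⟨S', x', ⟨S1, hsrc, hr, hL, hc⟩, hns⟩ := h
  obtain ⟨S'', x'', ⟨S2, hsrc', hr', hL', hc'⟩, hns'⟩ := h'
  have e1 := evr_src hsrc hsrc'
  subst e1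
  have hS := evr_typ hn hsrc
  have hTS : T ∈ S1.Ext g := ⟨hT, hsrc.1⟩
  have hw : t.2.2 = t'.2.2 := by
    rcases rch_cmp hS hTS (Or.inl (by omega)) hr hr' hL hL' hc hc' with hp | hp
    · exact evr_pre hg hT hS hr hr' hL hL' hc' (evr_nst hns) hp
    · exact (evr_pre hg hT hS hr' hr hL' hL hc (evr_nst hns') hp).symm
  rw [← hw] at hr'
  obtain ⟨e2, e3⟩ := rch_unique (U := ofTri T) hr hr' hL hL'
  subst e2
  subst e3
  obtain ⟨u, v, hx, hy, h1, h2, h3, h4, _, _⟩ := hns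
  obtain ⟨u', v', hx', hy', h1', h2', h3', h4', _, _⟩ := hns'
  have hnd := S'.hw_nodup hx
  have h5 := h1.symm.trans h1'
  rw [List.cons.injEq] at h5
  rw [h1, List.nodup_cons, List.nodup_append] at hnd
  obtain ⟨_, _, h7, h8⟩ := hnd
  have hn1 : T.a x' ∉ z :: u := fun hm => h8 _ hm _ List.mem_cons_self rfl
  have hn2 : T.a x' ∉ z' :: v := (List.nodup_cons.1 h7).1
  obtain ⟨h9, _, h10⟩ := (List.append_cons_inj_of_notMem hn1 hn2).1 h5.2
  rw [List.cons.injEq] at h9 h10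
  obtain ⟨e4, e5⟩ := h9
  obtain ⟨e6, e7⟩ := h10
  refine ⟨Prod.ext ?_ (Prod.ext ?_ hw), h4.trans h4'.symm, e4, e6⟩
  · rw [← h2, ← h2', e5]
  · rw [← h3, ← h3', e7]

end SYS.UP
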