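import Pool.Agent.SYS.UP.Oth
import Pool.Agent.SYS.UP.Mm

/-!
# SYS-UP-FinS: `FIN` for the holes of lengths 2, 3, 1

`Lc` : `Lc x (p ::ₘ Q) v j = 6 y * mm p * z ^ (-p) * Lc x Q v j` (`Lc_cons`; `z ≠ 0`, `zpow_sub₀`).
PROOF.
* `fin_zero`: `muG 0 (2n - v) (g-j)` with `v` even, `v = 2 l`: `2n - v = 2 (n - l)`, `muG_nil`, `nu_sh`; `z ^ (2 l) = y ^ l` (`zz_sq`).
* `fin_two`: `muG (2 ::ₘ Q) F g' = (3F + |Q|) muG Q F g'` (`F ≥ 1` eventually): `Rt (2 ::ₘ Q) v j p = ((3F + |Q|)/n) Rt Q v j p → 6 Lc Q v j`, and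
  `6 y z^(-2) mm 2 = 6` (`mm_two`).
* `fin_three`: `Rt (3 ::ₘ Q) v j p = (3 (F+1)/n) Rt Q (v-1) j p → 6 Lc Q (v-1) j = 6 z^(-1) Lc Q v j`; `y z^(-3) = z^(-1)`.
* `fin_one`: `Num.tutG_one`: first term `Rt (2 ::ₘ Q) (v+1) j` (`F ≥ 1`, `F - 1 = 2n - (v+1)`), second `→ 0` (`ml_neg`); `z ^ (-1-2) = z^(-3)`: the constant
  `6 y mm 2 z^(-2) z^(-... )`: `Lc (2 ::ₘ Q) (v+1) j = Lc (1 ::ₘ Q) v j` (both exponents are `v - 1 - |Q|`).
-/

namespace SYS.UP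

open SYS.Num Real Filter Topology

private theorem FinS_z {x : ℝ} (h : Lw x) : zz x ≠ 0 := (zz_pos h).ne'

private theorem FinS_sh {x : ℝ} (h : Lw x) (Q : Multiset ℕ) (v s : ℤ) (j : ℕ) :
    Lc x Q (v + s) j = zz x ^ s * Lc x Q v j := by
  unfold Lc
  rw [show v + s - (Q.sum : ℤ) = s + (v - (Q.sum : ℤ)) by ring, zpow_add₀ (FinS_z h)]
  ring

private theorem FinS_ev (θ : ℝ) (M : ℕ) : ∀ᶠ p in Num.Fth θ, M ≤ p.1 := RB.ge_ev θ M

private theorem FinS_lim (θ c d : ℝ) :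
    Tendsto (fun p : ℕ × ℕ => (c * (p.1 : ℝ) + d) / (p.1 : ℝ)) (Num.Fth θ) (𝓝 c) := by
  have h0 : Tendsto (fun p : ℕ × ℕ => (p.1 : ℝ)) (Num.Fth θ) atTop := RB.fst_atTop θ
  have h1 : Tendsto (fun p : ℕ × ℕ => c + d / (p.1 : ℝ)) (Num.Fth θ) (𝓝 (c + 0)) :=
    tendsto_const_nhds.add (tendsto_const_nhds.div_atTop h0)
  rw [add_zero] at h1
  refine h1.congr' ?_
  filter_upwards [FinS_ev θ 1] with p hp
  have h2 : (p.1 : ℝ) ≠ 0 := by
    have h3 : (1 : ℝ) ≤ p.1 := by exact_mod_cast hp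
    linarith
  rw [add_div, mul_div_assoc, div_self h2, mul_one]

theorem Lc_cons {x : ℝ} (h : Lw x) (p : ℕ) (Q : Multiset ℕ) (v : ℤ) (j : ℕ) :
    Lc x (p ::ₘ Q) v j = 6 * yy x * mm x p * zz x ^ (-(p : ℤ)) * Lc x Q v j := by
  unfold Lc
  rw [Multiset.card_cons, Multiset.map_cons, Multiset.prod_cons, Multiset.sum_cons, pow_succ]
  rw [show v - ((p + Q.sum : ℕ) : ℤ) = -(p : ℤ) + (v - (Q.sum : ℤ)) by push_cast; ring, zpow_add₀ (FinS_z h)]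
  ring

theorem fin_zero {θ x : ℝ} (h : Par θ x) : FinAt θ x 0 := by
  intro v j hv
  rw [Multiset.sum_zero, Nat.cast_zero, add_zero] at hv
  obtain ⟨l, rfl⟩ := hv
  have hL := lw (Par_pos h)
  have e1 : Lc x 0 (l + l) j = yy x ^ l * chi x ^ j := by
    have e2 : yy x ^ l = zz x ^ (l + l) := by
      rw [← zz_sq hL, ← zpow_natCast, ← zpow_mul]
      congr 1
      push_cast
      ring
    unfold Lc
    rw [Multiset.card_zero, Multiset.map_zero, Multiset.prod_zero, Multiset.sum_zero, Nat.cast_zero, sub_zero,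
      pow_zero, e2]
    ring
  rw [e1]
  refine (nu_sh h l j).congr' ?_
  filter_upwards [FinS_ev θ (l.natAbs + 1)] with p hp
  have e2 : (2 * (p.1 : ℤ) - (l + l)).toNat = 2 * ((p.1 : ℤ) - l).toNat := by omega
  have e3 : 1 ≤ ((p.1 : ℤ) - l).toNat := by omega
  unfold Rt
  rw [e2, muG_nil e3, Multiset.card_zero, pow_zero, one_mul]

theorem fin_two {θ x : ℝ} (h : Par θ x) {Q : Multiset ℕ} (hQ : FinAt θ x Q) :
    FinAt θ x (2 ::ₘ Q) := by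
  intro v j hv
  have hL := lw (Par_pos h)
  have hv' : Even (v + (Q.sum : ℤ)) := by
    rw [Multiset.sum_cons, Nat.cast_add] at hv
    obtain ⟨r, hr⟩ := hv
    exact ⟨r - 1, by omega⟩
  have e1 : Lc x (2 ::ₘ Q) v j = 6 * Lc x Q v j := by
    have e2 := FinS_z hL
    rw [Lc_cons hL, mm_two hL, ← zz_sq hL, zpow_neg, zpow_natCast]
    field_simp
  rw [e1]
  refine ((FinS_lim θ 6 ((Q.sum : ℝ) - 3 * (v : ℝ))).mul (hQ v j hv')).congr' ?_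
  filter_upwards [FinS_ev θ (v.natAbs + 1)] with p hp
  have hF : 1 ≤ (2 * (p.1 : ℤ) - v).toNat := by omega
  have hF' : (((2 * (p.1 : ℤ) - v).toNat : ℕ) : ℝ) = 2 * (p.1 : ℝ) - v := by
    have e2 : (((2 * (p.1 : ℤ) - v).toNat : ℕ) : ℤ) = 2 * (p.1 : ℤ) - v := Int.toNat_of_nonneg (by omega)
    have e3 : ((((2 * (p.1 : ℤ) - v).toNat : ℕ) : ℤ) : ℝ) = ((2 * (p.1 : ℤ) - v : ℤ) : ℝ) := by rw [e2]
    push_cast at e3
    exact e3
  unfold Rt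
  rw [muG_two, if_neg (fun h => by omega), Multiset.card_cons, pow_succ, add_zero, div_mul_div_comm, Nat.cast_add,
    Nat.cast_mul, hF']
  congr 1
  · push_cast
    ring
  · ring

theorem fin_three {θ x : ℝ} (h : Par θ x) {Q : Multiset ℕ} (hQ : FinAt θ x Q) :
    FinAt θ x (3 ::ₘ Q) := by
  intro v j hv
  have hL := lw (Par_pos h)
  have hv' : Even (v + (-1) + (Q.sum : ℤ)) := by
    rw [Multiset.sum_cons, Nat.cast_add] at hv
    obtain ⟨r, hr⟩ := hv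
    exact ⟨r - 2, by omega⟩
  have e1 : Lc x (3 ::ₘ Q) v j = 6 * Lc x Q (v + (-1)) j := by
    have e2 := FinS_z hL
    rw [Lc_cons hL, FinS_sh hL, mm_three hL, ← zz_sq hL, zpow_neg, zpow_natCast, zpow_neg_one]
    field_simp
  rw [e1]
  refine ((FinS_lim θ 6 (3 - 3 * (v : ℝ))).mul (hQ (v + (-1)) j hv')).congr' ?_
  filter_upwards [FinS_ev θ (v.natAbs + 1)] with p hp
  have hF : (2 * (p.1 : ℤ) - (v + (-1))).toNat = (2 * (p.1 : ℤ) - v).toNat + 1 := by omega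
  have hF' : (((2 * (p.1 : ℤ) - v).toNat : ℕ) : ℝ) = 2 * (p.1 : ℝ) - v := by
    have e2 : (((2 * (p.1 : ℤ) - v).toNat : ℕ) : ℤ) = 2 * (p.1 : ℤ) - v := Int.toNat_of_nonneg (by omega)
    have e3 : ((((2 * (p.1 : ℤ) - v).toNat : ℕ) : ℤ) : ℝ) = ((2 * (p.1 : ℤ) - v : ℤ) : ℝ) := by rw [e2]
    push_cast at e3
    exact e3
  unfold Rt
  rw [hF, muG_three, Multiset.card_cons, pow_succ, div_mul_div_comm, hF']
  congr 1
  · ring
  · ring

theorem fin_one {θ x : ℝ} (h : Par θ x) {Q : Multiset ℕ} (hq : ∀ q ∈ Q, 1 ≤ q)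
    (hQ : FinAt θ x Q) : FinAt θ x (1 ::ₘ Q) := by
  intro v j hv
  have hL := lw (Par_pos h)
  have hv' : Even (v + 1 + (((2 ::ₘ Q).sum : ℕ) : ℤ)) := by
    rw [Multiset.sum_cons] at hv ⊢
    push_cast at hv ⊢
    obtain ⟨r, hr⟩ := hv
    exact ⟨r + 1, by omega⟩
  have e1 : Lc x (1 ::ₘ Q) v j = Lc x (2 ::ₘ Q) (v + 1) j + 0 := by
    have e2 := FinS_z hL
    rw [Lc_cons hL, Lc_cons hL, FinS_sh hL, mm_two hL, mm_one, zpow_neg, zpow_natCast, zpow_neg, zpow_natCast,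
      zpow_one, add_zero]
    field_simp
  rw [e1]
  refine ((fin_two h hQ (v + 1) j hv').add (ml_neg h hq v j)).congr' ?_
  filter_upwards [FinS_ev θ (v.natAbs + 1)] with p hp
  have hF : (2 * (p.1 : ℤ) - (v + 1)).toNat = (2 * (p.1 : ℤ) - v).toNat - 1 := by omega
  unfold Rt
  rw [hF, tutG_one, if_neg (by omega), Multiset.card_cons, Multiset.card_cons, ← add_div]
  congr 1
  ring

end SYS.UP
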