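import Pool.Agent.SYS.UP.FinS
import Pool.Agent.SYS.UP.Dom

/-!
# SYS-UP-FinT: `FIN` from the lengths `≤ p` to the length `p + 1` (`p ≥ 3`)

Tutte's equation, dominated convergence for the sums over the swallowed discs.
-/

namespace SYS.UP

open SYS.Num Real Filter Topology

private theorem ft_Lc (x : ℝ) (r : ℕ) (Q : Multiset ℕ) (w : ℤ) (j : ℕ) :
    Lc x (r ::ₘ Q) w j = (6 * yy x) ^ (Multiset.card Q + 1) * chi x ^ j * (Q.map (mm x)).prod * mm x r *
      zz x ^ (w - ((r : ℤ) + (Q.sum : ℤ))) := by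
  unfold Lc
  rw [Multiset.card_cons, Multiset.map_cons, Multiset.prod_cons, Multiset.sum_cons]
  push_cast
  ring

private theorem ft_key {θ x : ℝ} (h : Par θ x) {Q : Multiset ℕ} (hq : ∀ q ∈ Q, 1 ≤ q) {r k : ℕ} (hr : 1 ≤ r)
    (hF : FinAt θ x (r ::ₘ Q)) (w : ℤ) (j : ℕ) (hev : Even (w + r + Q.sum - k)) :
    Tendsto (fun s : ℕ × ℕ => ∑ a ∈ Finset.range ((2 * (s.1 : ℤ) - w).toNat + 1),
      W k a * Rt (r ::ₘ Q) (w + a) j s) (Num.Fth θ) (𝓝 (∑' a : ℕ, W k a * Lc x (r ::ₘ Q) (w + a) j)) := by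
  have hL := lw (Par_pos h)
  have hz := zz_pos hL
  obtain ⟨ρ, hρ, hs⟩ := summable_W hL
  have hP : ∀ q ∈ r ::ₘ Q, 1 ≤ q := by
    intro q hq'
    rcases Multiset.mem_cons.1 hq' with h1 | h1
    · rw [h1]
      exact hr
    · exact hq q h1
  obtain ⟨K, hK, hdom⟩ := Rt_dom h hP w j hρ
  have e : ∀ s : ℕ × ℕ, (∑' a : ℕ, if a ≤ (2 * (s.1 : ℤ) - w).toNat then W k a * Rt (r ::ₘ Q) (w + a) j s
      else 0) = ∑ a ∈ Finset.range ((2 * (s.1 : ℤ) - w).toNat + 1), W k a * Rt (r ::ₘ Q) (w + a) j s := by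
    intro s
    rw [tsum_eq_sum (s := Finset.range ((2 * (s.1 : ℤ) - w).toNat + 1))]
    · refine Finset.sum_congr rfl fun a ha => ?_
      rw [if_pos (by have := Finset.mem_range.1 ha; omega)]
    · intro a ha
      rw [if_neg (by rw [Finset.mem_range] at ha; omega)]
  have big : ∀ M : ℕ, ∀ᶠ s in Num.Fth θ, M ≤ (2 * ((s : ℕ × ℕ).1 : ℤ) - w).toNat := by
    intro M
    rw [Fth_eq]
    filter_upwards [RB.ge_ev θ (M + w.natAbs)] with s hs
    omega
  refine (tendsto_tsum_of_dominated_convergence (bound := fun a => K * (W k a * (ρ * zz x) ^ a))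
    ((hs k).mul_left K) ?_ ?_).congr e
  · intro a
    have h1 : Tendsto (fun s : ℕ × ℕ => W k a * Rt (r ::ₘ Q) (w + a) j s) (Num.Fth θ)
        (𝓝 (W k a * Lc x (r ::ₘ Q) (w + a) j)) := by
      by_cases hak : Even (a + k)
      · refine (hF (w + a) j ?_).const_mul _
        rw [Multiset.sum_cons, Nat.cast_add]
        obtain ⟨u, hu⟩ := hev
        obtain ⟨t, ht⟩ := hak
        exact ⟨u + t, by
          have : (a : ℤ) + k = t + t := by exact_mod_cast ht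
          linarith⟩
      · have h2 : W k a = 0 := by
          unfold W
          refine muG_odd ?_ 0
          rw [Multiset.sum_singleton]
          exact hak
        rw [h2]
        simp only [zero_mul]
        exact tendsto_const_nhds
    refine h1.congr' ?_
    filter_upwards [big a] with s hs
    rw [if_pos hs]
  · filter_upwards [hdom, big 1] with s h1 h2 a
    split_ifs with h3
    · have h4 := h1 a (by omega)
      rw [Real.norm_eq_abs, abs_of_nonneg (mul_nonneg (W_nonneg k a) (Rt_nn _ _ _ _))]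
      calc W k a * Rt (r ::ₘ Q) (w + a) j s ≤ W k a * (K * (ρ * zz x) ^ a) :=
            mul_le_mul_of_nonneg_left h4 (W_nonneg k a)
        _ = K * (W k a * (ρ * zz x) ^ a) := by ring
    · rw [norm_zero]
      have h5 : 0 ≤ W k a * (ρ * zz x) ^ a :=
        mul_nonneg (W_nonneg k a) (pow_nonneg (mul_nonneg (by linarith) hz.le) a)
      exact mul_nonneg hK h5

theorem fin_succ {θ x : ℝ} (h : Par θ x) {Q : Multiset ℕ} (hq : ∀ q ∈ Q, 1 ≤ q) {p : ℕ} (hp : 3 ≤ p)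
    (hQ : ∀ r, 1 ≤ r → r ≤ p → FinAt θ x (r ::ₘ Q)) : FinAt θ x ((p + 1) ::ₘ Q) := by
  intro v j hev
  have hL := lw (Par_pos h)
  have hz := zz_pos hL
  rw [Multiset.sum_cons, Nat.cast_add, Nat.cast_add, Nat.cast_one] at hev
  have t1 : Tendsto (Rt (p ::ₘ Q) (v - 1) j) (Num.Fth θ) (𝓝 (Lc x (p ::ₘ Q) (v - 1) j)) := by
    refine hQ p (by omega) le_rfl (v - 1) j ?_
    rw [Multiset.sum_cons, Nat.cast_add]
    obtain ⟨u, hu⟩ := hev
    exact ⟨u - 1, by linarith⟩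
  have t2 : Tendsto (fun s : ℕ × ℕ => ∑ k ∈ Finset.range (p - 2),
      ∑ a ∈ Finset.range ((2 * (s.1 : ℤ) - (v - 1)).toNat + 1),
        W k a * Rt ((p - 2 - k) ::ₘ Q) (v - 1 + a) j s) (Num.Fth θ)
      (𝓝 (∑ k ∈ Finset.range (p - 2), ∑' a : ℕ, W k a * Lc x ((p - 2 - k) ::ₘ Q) (v - 1 + a) j)) := by
    refine tendsto_finsetSum _ fun k hk => ?_
    have hk' := Finset.mem_range.1 hk
    refine ft_key h hq (by omega) (hQ _ (by omega) (by omega)) (v - 1) j ?_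
    obtain ⟨u, hu⟩ := hev
    have e1 : ((p - 2 - k : ℕ) : ℤ) = (p : ℤ) - 2 - k := by omega
    rw [e1]
    exact ⟨u - 2 - k, by linarith⟩
  have t3 := ns_neg h p hq (v - 1) j
  have t4 := sep_neg h p hq (v - 1) j
  have t5 := mr_neg h (p := p) (by omega) hq (v - 1) j
  have tt := ((t1.sub (t2.const_mul 2)).sub ((t3.add t4).add t5))
  have hlim : Lc x (p ::ₘ Q) (v - 1) j - 2 * (∑ k ∈ Finset.range (p - 2),
      ∑' a : ℕ, W k a * Lc x ((p - 2 - k) ::ₘ Q) (v - 1 + a) j) - (0 + 0 + 0) =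
      Lc x ((p + 1) ::ₘ Q) v j := by
    set c0 := (6 * yy x) ^ (Multiset.card Q + 1) * chi x ^ j * (Q.map (mm x)).prod with hc0
    have e0 : v - (((p + 1 : ℕ) : ℤ) + (Q.sum : ℤ)) = v - 1 - ((p : ℤ) + (Q.sum : ℤ)) := by
      push_cast
      ring
    have e1 : ∀ k ∈ Finset.range (p - 2), (∑' a : ℕ, W k a * Lc x ((p - 2 - k) ::ₘ Q) (v - 1 + a) j) =
        c0 * zz x ^ (v - 1 - ((p : ℤ) + (Q.sum : ℤ))) *
          ((∑' a : ℕ, W k a * zz x ^ (a + k + 2)) * mm x (p - 2 - k)) := by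
      intro k hk
      have hk' := Finset.mem_range.1 hk
      rw [← tsum_mul_right, ← tsum_mul_left]
      refine tsum_congr fun a => ?_
      rw [ft_Lc, ← hc0]
      have e2 : v - 1 + (a : ℤ) - (((p - 2 - k : ℕ) : ℤ) + (Q.sum : ℤ)) =
          v - 1 - ((p : ℤ) + (Q.sum : ℤ)) + ((a + k + 2 : ℕ) : ℤ) := by
        have e1 : ((p - 2 - k : ℕ) : ℤ) = (p : ℤ) - 2 - k := by omega
        rw [e1]
        push_cast
        ring
      rw [e2, zpow_add₀ hz.ne', zpow_natCast]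
      ring
    rw [Finset.sum_congr rfl e1, ← Finset.mul_sum, ft_Lc, ft_Lc, ← hc0, e0, mm_step hL hp]
    ring
  rw [hlim] at tt
  refine tt.congr' ?_
  have c1 : ∀ r : ℕ, Multiset.card (r ::ₘ Q) = Multiset.card Q + 1 := fun r => Multiset.card_cons r Q
  rw [Fth_eq]
  have hnu := nu_pos_ev h
  rw [Fth_eq] at hnu
  filter_upwards [RB.ge_ev θ (v.natAbs + 2), RB.ge_ev' h.1 (j + 1), hnu] with s h1 h2 h3
  obtain ⟨F, hF⟩ : ∃ F, F = (2 * (s.1 : ℤ) - (v - 1)).toNat := ⟨_, rfl⟩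
  have hF0 : F ≠ 0 := by omega
  have hF1 : (2 * (s.1 : ℤ) - v).toNat = F - 1 := by omega
  have hT := tutO p Q F (s.2 - j) (by omega) (Or.inr (by omega))
  rw [if_neg hF0] at hT
  have hs1 : (0 : ℝ) < s.1 := by
    have : 1 ≤ s.1 := by omega
    exact_mod_cast this
  have e1 : ∑ k ∈ Finset.range (p - 2), ∑ a ∈ Finset.range (F + 1),
      W k a * Rt ((p - 2 - k) ::ₘ Q) (v - 1 + a) j s =
      (∑ k ∈ Finset.range (p - 2), ∑ a ∈ Finset.range (F + 1),
        W k a * muG ((p - 2 - k) ::ₘ Q) (F - a) (s.2 - j)) * (s.1 : ℝ) ^ (2 * j) /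
          ((s.1 : ℝ) ^ (Multiset.card Q + 1) * SST.nu s.1 s.2) := by
    rw [Finset.sum_mul, Finset.sum_div]
    refine Finset.sum_congr rfl fun k _ => ?_
    rw [Finset.sum_mul, Finset.sum_div]
    refine Finset.sum_congr rfl fun a _ => ?_
    have e2 : (2 * (s.1 : ℤ) - (v - 1 + a)).toNat = F - a := by omega
    unfold Rt
    rw [c1, e2]
    ring
  show Rt (p ::ₘ Q) (v - 1) j s - 2 * (∑ k ∈ Finset.range (p - 2),
      ∑ a ∈ Finset.range ((2 * (s.1 : ℤ) - (v - 1)).toNat + 1), W k a * Rt ((p - 2 - k) ::ₘ Q) (v - 1 + a) j s) -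
      (_ + _ + _) = Rt ((p + 1) ::ₘ Q) v j s
  rw [← hF, e1]
  unfold Rt
  rw [c1, c1, hF1, ← hF]
  have hT2 : muG ((p + 1) ::ₘ Q) (F - 1) (s.2 - j) = muG (p ::ₘ Q) F (s.2 - j) -
      2 * (∑ k ∈ Finset.range (p - 2), ∑ a ∈ Finset.range (F + 1),
        W k a * muG ((p - 2 - k) ::ₘ Q) (F - a) (s.2 - j)) -
      (NS p Q F (s.2 - j) + SEP p Q F (s.2 - j) + MRG p Q F (s.2 - j)) := by
    linarith
  rw [hT2]
  ring

end SYS.UP
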