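import Pool.Agent.SYS.UP.Defs

/-!
# SYS-UP-Hh: the harmonic function of the killed walk

`q i = qk x i ≥ 0`, `h = hh x`.
PROOF.
* `qk_nn`: `tsum_nonneg`.  `qk_mass`: `∑ i, q i = (1 - A)/2` and `∑ i, (i+2) q i = (A - d)/2`: `HasSum.prod_fiberwise` (or `Summable.tsum_prod`, `Summable.prod_factor`) applied to
  `Lw.mass`, `Lw.mean` (in the second the factor `i + 2` comes out of the inner sum: `tsum_mul_left`).
* `hh_step` (`k ≥ 1`): unfold `hh` at `k + 1 = (k-1) + 2`; the sum over `Fin (k - 2)` is the sum over `range (k-2)` (`Finset.sum_range`); `A > 0`.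
* `hh_mono`: by strong induction on `k`: `h k ≤ h (k+1)` and `0 ≤ h`.  `k = 0`: `0 ≤ 1`.  `k ≥ 1`: all `h j ≤ h k` for `j ≤ k`, so
  `A h (k+1) = h k - 2 ∑_{i<k-2} q i h (k-2-i) ≥ h k - 2 (∑ q i) h k = A h k` (`sum_le_tsum` / `sum_le_hasSum`).
* `hh_le`: `D l = h (l+1) - h l ≥ 0`, `D 0 = 1`, `h k = ∑_{l<k} D l`.  For `k ≥ 1`: `A (D k) = A h (k+1) - A h k = (1 - A) h k - 2 ∑_{i<k-2} q i h (k-2-i)`
  `= 2 ∑'_i q i (h k - h (k-2-i))` (natural subtraction, `h 0 = 0`) and `h k - h (k-2-i) = ∑_{l ∈ Ico (k-2-i) k} D l`.  Fix `N` and sum over `1 ≤ k ≤ N`: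
  `A (h (N+1) - 1) = 2 ∑'_i q i ∑_{k=1}^{N} ∑_{l ∈ Ico (k-2-i) k} D l ≤ 2 ∑'_i q i (i+2) ∑_{l ≤ N} D l = (A - d) h (N+1)`: each `l` lies in
  `Ico (k-2-i) k` for at most `i + 2` values of `k` (`l < k ≤ l + 2 + i`).  So `d h (N+1) ≤ A`.  (Interchange of the finite sum and the series:
  `Summable.tsum_finsetSum` / `tsum_finsetSum`; to avoid series use the finite sums over `i < M` with `M ≥ N` and the tail bound
  `(1-A) - 2 ∑_{i<M} q i ≤ 2 ∑_{i≥M} q i`.)
* `hh_ge`: monotone, `hh 1 = 1`.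
-/

namespace SYS.UP

open SYS.Num Real Finset

theorem qk_nn {x : ℝ} (h : Lw x) (k : ℕ) : 0 ≤ qk x k := by
  exact tsum_nonneg fun a => h.q_nn k a

private theorem row {x : ℝ} (h : Lw x) (k : ℕ) : HasSum (fun a => qq x k a) (qk x k) :=
  (h.mass.summable.prod_factor k).hasSum

theorem qk_mass {x : ℝ} (h : Lw x) : HasSum (qk x) ((1 - AA x) / 2) := by
  exact h.mass.prod_fiberwise (fun k => row h k)

theorem qk_mean {x : ℝ} (h : Lw x) : HasSum (fun k : ℕ => ((k : ℝ) + 2) * qk x k) ((AA x - dr x) / 2) := by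
  exact h.mean.prod_fiberwise (fun k => (row h k).mul_left ((k : ℝ) + 2))

private theorem A_pos {x : ℝ} (h : Lw x) : 0 < AA x := by
  have := h.A_half
  linarith

theorem hh_step {x : ℝ} (h : Lw x) {k : ℕ} (hk : 1 ≤ k) :
    AA x * hh x (k + 1) = hh x k - 2 * ∑ i ∈ range (k - 2), qk x i * hh x (k - 2 - i) := by
  obtain ⟨m, rfl⟩ := Nat.exists_eq_add_of_le' hk
  have h1 : m + 1 - 2 = m - 1 := by omega
  rw [h1]
  have h2 : hh x (m + 1 + 1) = (hh x (m + 1) - 2 * ∑ i : Fin (m - 1), qk x i * hh x (m - 1 - i)) / AA x := by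
    rw [hh]
  rw [h2, mul_div_cancel₀ _ (A_pos h).ne', Finset.sum_range]

private theorem hh_aux {x : ℝ} (h : Lw x) (k : ℕ) : 0 ≤ hh x k ∧ ∀ j ≤ k, hh x j ≤ hh x k := by
  induction k with
  | zero =>
    refine ⟨by rw [hh], fun j hj => ?_⟩
    rw [Nat.le_zero.1 hj]
  | succ k ih =>
    have key : hh x k ≤ hh x (k + 1) := by
      rcases Nat.eq_zero_or_pos k with rfl | hk
      · rw [hh, hh]
        exact zero_le_one
      · have h1 := hh_step h hk
        have h2 : ∑ i ∈ range (k - 2), qk x i * hh x (k - 2 - i) ≤ ∑ i ∈ range (k - 2), qk x i * hh x k := by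
          refine Finset.sum_le_sum fun i _ => ?_
          exact mul_le_mul_of_nonneg_left (ih.2 _ (by omega)) (qk_nn h i)
        rw [← Finset.sum_mul] at h2
        have h3 : ∑ i ∈ range (k - 2), qk x i ≤ (1 - AA x) / 2 :=
          sum_le_hasSum _ (fun i _ => qk_nn h i) (qk_mass h)
        have h4 := mul_le_mul_of_nonneg_right h3 ih.1
        have h5 : AA x * hh x k ≤ AA x * hh x (k + 1) := by
          rw [h1]
          linarith
        exact le_of_mul_le_mul_left h5 (A_pos h)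
    refine ⟨ih.1.trans key, fun j hj => ?_⟩
    rcases Nat.lt_or_ge k j with h1 | h1
    · have : j = k + 1 := by omega
      rw [this]
    · exact (ih.2 j h1).trans key

theorem hh_mono {x : ℝ} (h : Lw x) : Monotone (hh x) := by
  intro i j hij
  exact (hh_aux h j).2 i hij

theorem hh_ge {x : ℝ} (h : Lw x) {k : ℕ} (hk : 1 ≤ k) : 1 ≤ hh x k := by
  have h1 := hh_mono h hk
  rwa [hh] at h1

private theorem shift {u : ℕ → ℝ} (hm : Monotone u) (h0 : u 0 = 0) (N c : ℕ) :
    ∑ k ∈ range (N + 1), u k ≤ (c : ℝ) * u N + ∑ k ∈ range (N + 1), u (k - c) := by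
  induction c with
  | zero => simp
  | succ c ih =>
    have h1 : ∑ k ∈ range (N + 1), u (k - (c + 1)) = ∑ k ∈ range N, u (k - c) := by
      rw [Finset.sum_range_succ']
      have h2 : u (0 - (c + 1)) = 0 := by rw [Nat.zero_sub, h0]
      rw [h2, add_zero]
      refine Finset.sum_congr rfl fun k _ => ?_
      rw [Nat.add_sub_add_right]
    have h3 : ∑ k ∈ range (N + 1), u (k - c) ≤ ∑ k ∈ range N, u (k - c) + u N := by
      rw [Finset.sum_range_succ]
      have := hm (Nat.sub_le N c)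
      linarith
    rw [h1]
    push_cast
    linarith

theorem hh_le {x : ℝ} (h : Lw x) (k : ℕ) : hh x k ≤ AA x / dr x := by
  rcases Nat.eq_zero_or_pos k with rfl | hk
  · rw [hh]
    exact (div_pos (A_pos h) h.d_pos).le
  obtain ⟨N, rfl⟩ := Nat.exists_eq_add_of_le' hk
  have h0 : hh x 0 = 0 := by rw [hh]
  have h1 : hh x 1 = 1 := by rw [hh]
  have hmono := hh_mono h
  have hstep : ∀ k, k ≤ N → AA x * hh x (k + 1) = (if k = 0 then AA x else 0) +
      (hh x k - 2 * ∑ i ∈ range N, qk x i * hh x (k - (i + 2))) := by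
    intro k hkN
    rcases Nat.eq_zero_or_pos k with rfl | hk
    · have h2 : ∑ i ∈ range N, qk x i * hh x (0 - (i + 2)) = 0 := by
        refine Finset.sum_eq_zero fun i _ => ?_
        rw [Nat.zero_sub, h0, mul_zero]
      rw [h2, h0, zero_add, h1]
      simp
    · rw [if_neg hk.ne', zero_add, hh_step h hk]
      congr 2
      have h3 : range (k - 2) ⊆ range N := by
        intro i hi
        rw [Finset.mem_range] at hi ⊢
        omega
      have h4 : ∀ i ∈ range (k - 2), qk x i * hh x (k - 2 - i) = qk x i * hh x (k - (i + 2)) := by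
        intro i _
        have : k - 2 - i = k - (i + 2) := by omega
        rw [this]
      rw [Finset.sum_congr rfl h4]
      refine Finset.sum_subset h3 fun i _ hi => ?_
      rw [Finset.mem_range, not_lt] at hi
      have : k - (i + 2) = 0 := by omega
      rw [this, h0, mul_zero]
  have hsum : AA x * ∑ k ∈ range (N + 1), hh x (k + 1) = AA x +
      (∑ k ∈ range (N + 1), hh x k - 2 * ∑ i ∈ range N, qk x i * ∑ k ∈ range (N + 1), hh x (k - (i + 2))) := by
    rw [Finset.mul_sum, Finset.sum_congr rfl fun k hk => hstep k (Nat.lt_succ_iff.1 (Finset.mem_range.1 hk)),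
      Finset.sum_add_distrib, Finset.sum_sub_distrib, ← Finset.mul_sum, Finset.sum_comm]
    congr 1
    · rw [Finset.sum_ite_eq' (range (N + 1)) 0 (fun _ => AA x), if_pos (by simp)]
    · congr 2
      refine Finset.sum_congr rfl fun i _ => ?_
      rw [Finset.mul_sum]
  have htel : ∑ k ∈ range (N + 1), hh x (k + 1) = ∑ k ∈ range (N + 1), hh x k + hh x (N + 1) := by
    have h2 := Finset.sum_range_succ' (hh x) (N + 1)
    have h3 := Finset.sum_range_succ (hh x) (N + 1)
    rw [h0, add_zero] at h2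
    linarith
  have hterm : ∀ i : ℕ, qk x i * ∑ k ∈ range (N + 1), hh x k ≤
      ((i : ℝ) + 2) * qk x i * hh x N + qk x i * ∑ k ∈ range (N + 1), hh x (k - (i + 2)) := by
    intro i
    have h2 := mul_le_mul_of_nonneg_left (shift hmono h0 N (i + 2)) (qk_nn h i)
    push_cast at h2
    linarith
  have hs1 : HasSum (fun i => qk x i * ∑ k ∈ range (N + 1), hh x k)
      ((1 - AA x) / 2 * ∑ k ∈ range (N + 1), hh x k) := (qk_mass h).mul_right _
  have hs2 : HasSum (fun i => qk x i * ∑ k ∈ range (N + 1), hh x (k - (i + 2)))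
      (∑ i ∈ range N, qk x i * ∑ k ∈ range (N + 1), hh x (k - (i + 2))) := by
    refine hasSum_sum_of_ne_finset_zero fun i hi => ?_
    rw [Finset.mem_range, not_lt] at hi
    have h2 : ∑ k ∈ range (N + 1), hh x (k - (i + 2)) = 0 := by
      refine Finset.sum_eq_zero fun k hk => ?_
      rw [Finset.mem_range] at hk
      have : k - (i + 2) = 0 := by omega
      rw [this, h0]
    rw [h2, mul_zero]
  have hs3 := ((qk_mean h).mul_right (hh x N)).add hs2
  have hle := hasSum_le hterm hs1 hs3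
  have hAd : 0 ≤ AA x - dr x := by
    have h2 := hasSum_le (fun i : ℕ => mul_nonneg (by positivity : (0 : ℝ) ≤ (i : ℝ) + 2) (qk_nn h i)) hasSum_zero (qk_mean h)
    linarith
  have hNN : hh x N ≤ hh x (N + 1) := hmono (Nat.le_succ N)
  have h2 := mul_le_mul_of_nonneg_left hNN hAd
  rw [le_div_iff₀ h.d_pos]
  rw [htel] at hsum
  nlinarith [hsum, hle, h2]

end SYS.UP
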