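import Pool.Agent.SYS.UP.Wrd

/-!
# SYS-UP-Lcw: the limit constants in terms of the random walk
-/

namespace SYS.UP

open SYS.Num Real Finset

private theorem lcw_mm {x : ℝ} (h : Lw x) (q : ℕ) : mm x q = AA x ^ ((q : ℤ) - 1) * hh x q := by
  have hA : AA x ≠ 0 := by
    have := h.A_half
    linarith
  unfold mm
  rcases Nat.eq_zero_or_pos q with rfl | hq
  · have h0 : hh x 0 = 0 := by simp only [hh]
    rw [h0, mul_zero, mul_zero]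
  · obtain ⟨r, rfl⟩ : ∃ r, q = r + 1 := ⟨q - 1, by omega⟩
    rw [Nat.add_sub_cancel]
    push_cast
    rw [add_sub_cancel_right, zpow_natCast]

private theorem lcw_pair {x : ℝ} (h : Lw x) (a b : ℕ) (v : ℤ) :
    Lc x {a, b} v 1 = 36 * yy x ^ 2 * chi x * (hh x a * hh x b) *
      (AA x ^ ((a : ℤ) + b - 2) * zz x ^ (v - ((a : ℤ) + b))) := by
  have hA : AA x ≠ 0 := by
    have := h.A_half
    linarith
  have e1 : Multiset.card ({a, b} : Multiset ℕ) = 2 := rfl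
  have e2 : (({a, b} : Multiset ℕ).map (mm x)).prod = mm x a * mm x b := by
    simp only [Multiset.insert_eq_cons, Multiset.map_cons, Multiset.map_singleton,
      Multiset.prod_cons, Multiset.prod_singleton]
  have e3 : ((({a, b} : Multiset ℕ).sum : ℕ) : ℤ) = (a : ℤ) + b := by
    simp only [Multiset.insert_eq_cons, Multiset.sum_cons, Multiset.sum_singleton]
    push_cast
    rfl
  unfold Lc
  rw [e1, e2, e3, lcw_mm h, lcw_mm h]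
  have e4 : AA x ^ ((a : ℤ) + b - 2) = AA x ^ ((a : ℤ) - 1) * AA x ^ ((b : ℤ) - 1) := by
    rw [← zpow_add₀ hA]
    congr 1
    ring
  rw [e4]
  ring

private theorem lcw_w {x : ℝ} (h : Lw x) {w : List Stp} (hw : WOk 3 w) :
    wwt 1 W w = PRW x w * (zz x ^ ((wend 3 w : ℤ) - 3 - wvol w) * AA x ^ (3 - (wend 3 w : ℤ))) := by
  have hA : AA x ≠ 0 := by
    have := h.A_half
    linarith
  have hz : zz x ≠ 0 := (zz_pos h).ne'
  rw [PRW_z h hw]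
  have e1 : zz x ^ ((wvol w : ℤ) + (3 : ℕ) - wend 3 w) * zz x ^ ((wend 3 w : ℤ) - 3 - wvol w) = 1 := by
    rw [← zpow_add₀ hz]
    have : ((wvol w : ℤ) + (3 : ℕ) - wend 3 w) + ((wend 3 w : ℤ) - 3 - wvol w) = 0 := by
      push_cast
      ring
    rw [this, zpow_zero]
  have e2 : AA x ^ ((wend 3 w : ℤ) - (3 : ℕ)) * AA x ^ (3 - (wend 3 w : ℤ)) = 1 := by
    rw [← zpow_add₀ hA]
    have : ((wend 3 w : ℤ) - (3 : ℕ)) + (3 - (wend 3 w : ℤ)) = 0 := by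
      push_cast
      ring
    rw [this, zpow_zero]
  calc wwt 1 W w = wwt 1 W w *
        (zz x ^ ((wvol w : ℤ) + (3 : ℕ) - wend 3 w) * zz x ^ ((wend 3 w : ℤ) - 3 - wvol w)) *
        (AA x ^ ((wend 3 w : ℤ) - (3 : ℕ)) * AA x ^ (3 - (wend 3 w : ℤ))) := by
        rw [e1, e2, mul_one, mul_one]
    _ = _ := by ring

theorem lc_one {x : ℝ} (h : Lw x) {t : Et} (ht : GoodE t) :
    wE t * Lc x {t.1, t.2.1} (vE t) 1 =
      36 * yy x ^ 2 * chi x / AA x * (hh x t.1 * hh x t.2.1) * PRW x t.2.2 := by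
  have hA : AA x ≠ 0 := by
    have := h.A_half
    linarith
  have hz : zz x ≠ 0 := (zz_pos h).ne'
  obtain ⟨h1, h2, h3, h4⟩ := ht
  unfold wE vE
  rw [lcw_w h h3, lcw_pair h, h4]
  have e1 : zz x ^ (((t.1 + t.2.1 + 2 : ℕ) : ℤ) - 3 - wvol t.2.2) *
      zz x ^ (((1 + wvol t.2.2 : ℕ) : ℤ) - ((t.1 : ℤ) + t.2.1)) = 1 := by
    rw [← zpow_add₀ hz]
    have : (((t.1 + t.2.1 + 2 : ℕ) : ℤ) - 3 - wvol t.2.2) +
        (((1 + wvol t.2.2 : ℕ) : ℤ) - ((t.1 : ℤ) + t.2.1)) = 0 := by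
      push_cast
      ring
    rw [this, zpow_zero]
  have e2 : AA x ^ (3 - ((t.1 + t.2.1 + 2 : ℕ) : ℤ)) * AA x ^ ((t.1 : ℤ) + t.2.1 - 2) = (AA x)⁻¹ := by
    rw [← zpow_add₀ hA]
    have : (3 - ((t.1 + t.2.1 + 2 : ℕ) : ℤ)) + ((t.1 : ℤ) + t.2.1 - 2) = -1 := by
      push_cast
      ring
    rw [this, zpow_neg_one]
  calc _ = 36 * yy x ^ 2 * chi x * (hh x t.1 * hh x t.2.1) * PRW x t.2.2 *
        (zz x ^ (((t.1 + t.2.1 + 2 : ℕ) : ℤ) - 3 - wvol t.2.2) *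
          zz x ^ (((1 + wvol t.2.2 : ℕ) : ℤ) - ((t.1 : ℤ) + t.2.1))) *
        (AA x ^ (3 - ((t.1 + t.2.1 + 2 : ℕ) : ℤ)) * AA x ^ ((t.1 : ℤ) + t.2.1 - 2)) := by ring
    _ = _ := by
        rw [e1, e2]
        ring

theorem lc_two {x : ℝ} (h : Lw x) (q₁ q₂ q₃ q₄ : ℕ) (v v' : ℤ) :
    Lc x {q₃, q₄, q₁, q₂} (v + v') 2 = Lc x {q₁, q₂} v 1 * Lc x {q₃, q₄} v' 1 := by
  have hz : zz x ≠ 0 := (zz_pos h).ne'
  have f1 : ∀ a b : ℕ, Multiset.card ({a, b} : Multiset ℕ) = 2 := fun a b => rfl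
  have f2 : ∀ a b : ℕ, (({a, b} : Multiset ℕ).map (mm x)).prod = mm x a * mm x b := by
    intro a b
    simp only [Multiset.insert_eq_cons, Multiset.map_cons, Multiset.map_singleton,
      Multiset.prod_cons, Multiset.prod_singleton]
  have f3 : ∀ a b : ℕ, ((({a, b} : Multiset ℕ).sum : ℕ) : ℤ) = (a : ℤ) + b := by
    intro a b
    simp only [Multiset.insert_eq_cons, Multiset.sum_cons, Multiset.sum_singleton]
    push_cast
    rfl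
  have e1 : Multiset.card ({q₃, q₄, q₁, q₂} : Multiset ℕ) = 4 := rfl
  have e2 : (({q₃, q₄, q₁, q₂} : Multiset ℕ).map (mm x)).prod =
      mm x q₃ * (mm x q₄ * (mm x q₁ * mm x q₂)) := by
    simp only [Multiset.insert_eq_cons, Multiset.map_cons, Multiset.map_singleton,
      Multiset.prod_cons, Multiset.prod_singleton]
  have e3 : ((({q₃, q₄, q₁, q₂} : Multiset ℕ).sum : ℕ) : ℤ) = (q₃ : ℤ) + (q₄ + (q₁ + q₂)) := by
    simp only [Multiset.insert_eq_cons, Multiset.sum_cons, Multiset.sum_singleton]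
    push_cast
    rfl
  unfold Lc
  rw [e1, e2, e3, f1, f1, f2, f2, f3, f3]
  have e4 : zz x ^ (v + v' - ((q₃ : ℤ) + (q₄ + (q₁ + q₂)))) =
      zz x ^ (v - ((q₁ : ℤ) + q₂)) * zz x ^ (v' - ((q₃ : ℤ) + q₄)) := by
    rw [← zpow_add₀ hz]
    congr 1
    ring
  rw [e4]
  ring

/-- Both types of gluings: `a = t.1`, `b = t.2.1` or `a = t.2.1`, `b = t.1`. -/
theorem lc_mrg {x : ℝ} (h : Lw x) {t : Et} (ht : GoodE t) {u : List Stp} (hu : WOk 3 u) {a b : ℕ}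
    (ha : 2 ≤ a) (hb : 1 ≤ b) (hab : a + b = t.1 + t.2.1) :
    wE t * wwt 1 W u * Lc x {wend 3 u + a - 2, b} ((vE t + (1 + wvol u) : ℕ) : ℤ) 1 =
      36 * yy x ^ 2 * chi x * (hh x (wend 3 u + a - 2) * hh x b) * (PRW x t.2.2 * PRW x u) := by
  have hA : AA x ≠ 0 := by
    have := h.A_half
    linarith
  have hz : zz x ≠ 0 := (zz_pos h).ne'
  obtain ⟨h1, h2, h3, h4⟩ := ht
  have h5 : 1 ≤ wend 3 u := one_le_wend (by norm_num) hu
  unfold wE vE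
  rw [lcw_w h h3, lcw_w h hu, lcw_pair h, h4, ← hab]
  obtain ⟨E, hE⟩ : ∃ E : ℕ, E = wend 3 u := ⟨_, rfl⟩
  rw [← hE] at h5 ⊢
  have hc : ((E + a - 2 : ℕ) : ℤ) = (E : ℤ) + a - 2 := by
    rw [Nat.cast_sub (by omega)]
    push_cast
    ring
  rw [hc]
  have e1 : zz x ^ (((a + b + 2 : ℕ) : ℤ) - 3 - wvol t.2.2) * zz x ^ ((E : ℤ) - 3 - wvol u) *
      zz x ^ (((1 + wvol t.2.2 + (1 + wvol u) : ℕ) : ℤ) - ((E : ℤ) + a - 2 + b)) = 1 := by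
    rw [← zpow_add₀ hz, ← zpow_add₀ hz]
    have : (((a + b + 2 : ℕ) : ℤ) - 3 - wvol t.2.2) + ((E : ℤ) - 3 - wvol u) +
        (((1 + wvol t.2.2 + (1 + wvol u) : ℕ) : ℤ) - ((E : ℤ) + a - 2 + b)) = 0 := by
      push_cast
      ring
    rw [this, zpow_zero]
  have e2 : AA x ^ (3 - ((a + b + 2 : ℕ) : ℤ)) * AA x ^ (3 - (E : ℤ)) *
      AA x ^ ((E : ℤ) + a - 2 + b - 2) = 1 := by
    rw [← zpow_add₀ hA, ← zpow_add₀ hA]
    have : (3 - ((a + b + 2 : ℕ) : ℤ)) + (3 - (E : ℤ)) + ((E : ℤ) + a - 2 + b - 2) = 0 := by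
      push_cast
      ring
    rw [this, zpow_zero]
  calc _ = 36 * yy x ^ 2 * chi x * (hh x (E + a - 2) * hh x b) * (PRW x t.2.2 * PRW x u) *
        (zz x ^ (((a + b + 2 : ℕ) : ℤ) - 3 - wvol t.2.2) * zz x ^ ((E : ℤ) - 3 - wvol u) *
          zz x ^ (((1 + wvol t.2.2 + (1 + wvol u) : ℕ) : ℤ) - ((E : ℤ) + a - 2 + b))) *
        (AA x ^ (3 - ((a + b + 2 : ℕ) : ℤ)) * AA x ^ (3 - (E : ℤ)) *
          AA x ^ ((E : ℤ) + a - 2 + b - 2)) := by ring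
    _ = _ := by rw [e1, e2, mul_one, mul_one]

/-- Separation: the large side has the holes `a'`, `b'`, the small side the holes `a`, `b` and `f` triangles. -/
theorem lc_sep {x : ℝ} (h : Lw x) {t t' : Et} (ht : GoodE t) (ht' : GoodE t') {a b a' b' : ℕ}
    (ha : 1 ≤ a') (hb : 1 ≤ b') (hab : a + b + (a' + b') = t.1 + t.2.1 + (t'.1 + t'.2.1)) (f : ℕ) :
    wE t * wE t' * Lc x {a', b'} (((vE t + vE t' : ℕ) : ℤ) + f) 1 =
      36 * yy x ^ 2 * chi x * (hh x a' * hh x b') *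
        (zz x ^ (f + a + b) / AA x ^ (a + b)) * (PRW x t.2.2 * PRW x t'.2.2) := by
  have hA : AA x ≠ 0 := by
    have := h.A_half
    linarith
  have hz : zz x ≠ 0 := (zz_pos h).ne'
  obtain ⟨h1, h2, h3, h4⟩ := ht
  obtain ⟨h1', h2', h3', h4'⟩ := ht'
  unfold wE vE
  rw [lcw_w h h3, lcw_w h h3', lcw_pair h, h4, h4']
  have hab' : (a : ℤ) + b + (a' + b') = t.1 + t.2.1 + (t'.1 + t'.2.1) := by exact_mod_cast hab
  have e1 : zz x ^ (((t.1 + t.2.1 + 2 : ℕ) : ℤ) - 3 - wvol t.2.2) *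
      zz x ^ (((t'.1 + t'.2.1 + 2 : ℕ) : ℤ) - 3 - wvol t'.2.2) *
      zz x ^ (((1 + wvol t.2.2 + (1 + wvol t'.2.2) : ℕ) : ℤ) + f - ((a' : ℤ) + b')) =
      zz x ^ (f + a + b) := by
    rw [← zpow_add₀ hz, ← zpow_add₀ hz, ← zpow_natCast]
    congr 1
    push_cast
    linear_combination -hab'
  have e2 : AA x ^ (3 - ((t.1 + t.2.1 + 2 : ℕ) : ℤ)) * AA x ^ (3 - ((t'.1 + t'.2.1 + 2 : ℕ) : ℤ)) *
      AA x ^ ((a' : ℤ) + b' - 2) = (AA x ^ (a + b))⁻¹ := by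
    rw [← zpow_add₀ hA, ← zpow_add₀ hA, ← zpow_natCast, ← zpow_neg]
    congr 1
    push_cast
    linear_combination hab'
  calc _ = 36 * yy x ^ 2 * chi x * (hh x a' * hh x b') * (PRW x t.2.2 * PRW x t'.2.2) *
        (zz x ^ (((t.1 + t.2.1 + 2 : ℕ) : ℤ) - 3 - wvol t.2.2) *
          zz x ^ (((t'.1 + t'.2.1 + 2 : ℕ) : ℤ) - 3 - wvol t'.2.2) *
          zz x ^ (((1 + wvol t.2.2 + (1 + wvol t'.2.2) : ℕ) : ℤ) + f - ((a' : ℤ) + b'))) *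
        (AA x ^ (3 - ((t.1 + t.2.1 + 2 : ℕ) : ℤ)) * AA x ^ (3 - ((t'.1 + t'.2.1 + 2 : ℕ) : ℤ)) *
          AA x ^ ((a' : ℤ) + b' - 2)) := by ring
    _ = _ := by
        rw [e1, e2]
        ring

end SYS.UP
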