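import Pool.Agent.SYS.UP.Eec

/-!
# SYS-UP-LimN: limits of the parts `NN`, `OO`, `MM` of the second moment

PROOF.
* `nn_lim`: finite sum; a term with `wE t = 0` or `wE t' = 0` vanishes; otherwise the parity is even (`par_E` twice) and `fin_nat` with four holes, `v = vE t + vE t'`, `j = 2`
  (`n^4/(n^4 nu)`); the limit `wE t wE t' Lc x {..} (v + v') 2` factorises (`lc_two`), `Finset.sum_mul_sum`.
* `oo_bd`: `OO S p ≤ 3 (1 + V) X1 S p` (`vE t ≤ 1 + V`, all terms `≥ 0`), `x1_lim`, `eE_up`: eventually `X1/nu ≤ 2 C a^2` (`eE < 2 C a^2`).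
* `mm_lim`: as `x1_lim`: each term with nonzero weight has even parity: `vE t + (1 + wvol w) + (wend 3 w + t.1 - 2) + t.2.1` (`par_E`, `par_w`; `wend 3 w + t.1 ≥ 3` as `t.1 ≥ 2`, `wend ≥ 1`);
  `fin_nat` with two holes and `j = 1`; the constants are `lc_mrg`.
* `mE_bd`: `hh ≤ A/d`, `t.1, t.2.1 ≤ 2 a`, `∑_{t ∈ EvF a V} PRW x t.2.2 ≤ (a+1)^2 C` and `∑_{w ∈ WdA 3 V'} PRW x w ≤ (V' + 4) C` (`vis`; group by `wend 3 w ≤ 3 + V'`: `wend_le`).
-/

namespace SYS.UP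

open SYS.Num Real Filter Topology Finset

/-- Limit of `MM / nu`. -/
noncomputable def mE (x : ℝ) (S : Finset Et) (U : Finset (List Stp)) : ℝ :=
  ∑ t ∈ S, ∑ w ∈ U, 36 * yy x ^ 2 * chi x *
    (t.1 * (hh x (wend 3 w + t.1 - 2) * hh x t.2.1) + t.2.1 * (hh x (wend 3 w + t.2.1 - 2) * hh x t.1)) *
      (PRW x t.2.2 * PRW x w)

private theorem ln_fin {θ x : ℝ} (h : Par θ x) {P : Multiset ℕ} (hP : ∀ p ∈ P, 1 ≤ p) (v j : ℕ)
    (hc : Multiset.card P = 2 * j) (hv : Even (v + P.sum)) :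
    Tendsto (fun p : ℕ × ℕ => muG P (2 * p.1 - v) (p.2 - j) / SST.nu p.1 p.2) (Num.Fth θ)
      (𝓝 (Lc x P v j)) := by
  refine (fin_nat h hP v j hv).congr' ?_
  filter_upwards [RB.ge_ev θ 1] with p hp
  have hn : ((p.1 : ℕ) : ℝ) ^ (2 * j) ≠ 0 := by
    have h1 : (0 : ℝ) < (p.1 : ℝ) := by
      have : 1 ≤ p.1 := hp
      exact_mod_cast this
    exact (pow_pos h1 _).ne'
  rw [hc, mul_comm ((p.1 : ℝ) ^ (2 * j)) (SST.nu p.1 p.2)]
  exact mul_div_mul_right _ _ hn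

private theorem ln_wt {θ x : ℝ} (h : Par θ x) {P : Multiset ℕ} (hP : ∀ p ∈ P, 1 ≤ p) (v j : ℕ)
    (hc : Multiset.card P = 2 * j) (c : ℝ) (hv : c ≠ 0 → Even (v + P.sum)) :
    Tendsto (fun p : ℕ × ℕ => c * muG P (2 * p.1 - v) (p.2 - j) / SST.nu p.1 p.2) (Num.Fth θ)
      (𝓝 (c * Lc x P v j)) := by
  by_cases h0 : c = 0
  · subst h0
    simp only [zero_mul, zero_div]
    exact tendsto_const_nhds
  · have h1 := (ln_fin h hP v j hc (hv h0)).const_mul c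
    refine h1.congr fun p => ?_
    rw [mul_div_assoc]

private theorem ln_wE (t : Et) : 0 ≤ wE t :=
  wwt_nonneg zero_le_one (fun k a => W_nonneg k a) _

private theorem ln_hh {x : ℝ} (h : Lw x) (k : ℕ) : 0 ≤ hh x k := by
  have h1 := hh_mono h (Nat.zero_le k)
  have h2 : hh x 0 = 0 := by simp only [hh]
  rw [h2] at h1
  exact h1

theorem nn_lim {θ x : ℝ} (h : Par θ x) {S S' : Finset Et} (hS : ∀ t ∈ S, GoodE t) (hS' : ∀ t ∈ S', GoodE t) :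
    Tendsto (fun p : ℕ × ℕ => NN S S' p / SST.nu p.1 p.2) (Num.Fth θ) (𝓝 (eE x S * eE x S')) := by
  have hl := lw (Par_pos h)
  have e1 : (fun p : ℕ × ℕ => NN S S' p / SST.nu p.1 p.2) = fun p : ℕ × ℕ => ∑ t ∈ S, ∑ t' ∈ S',
      wE t * wE t' * muG {t'.1, t'.2.1, t.1, t.2.1} (2 * p.1 - (vE t + vE t')) (p.2 - 2) /
        SST.nu p.1 p.2 := by
    funext p
    unfold NN
    rw [Finset.sum_div]
    refine Finset.sum_congr rfl fun t _ => ?_
    rw [Finset.sum_div]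
  have e2 : eE x S * eE x S' = ∑ t ∈ S, ∑ t' ∈ S',
      wE t * wE t' * Lc x {t'.1, t'.2.1, t.1, t.2.1} ((vE t + vE t' : ℕ) : ℤ) 2 := by
    unfold eE
    rw [Finset.sum_mul_sum]
    refine Finset.sum_congr rfl fun t _ => Finset.sum_congr rfl fun t' _ => ?_
    rw [Nat.cast_add, lc_two hl]
    ring
  rw [e1, e2]
  refine tendsto_finsetSum _ fun t ht => tendsto_finsetSum _ fun t' ht' => ?_
  have g := hS t ht
  have g' := hS' t' ht'
  refine ln_wt h ?_ (vE t + vE t') 2 (by simp) _ ?_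
  · intro p hp
    simp only [Multiset.insert_eq_cons, Multiset.mem_cons, Multiset.mem_singleton] at hp
    rcases hp with rfl | rfl | rfl | rfl
    · exact g'.1
    · exact g'.2.1
    · exact g.1
    · exact g.2.1
  · intro hc
    have h1 : wE t ≠ 0 := left_ne_zero_of_mul hc
    have h2 : wE t' ≠ 0 := right_ne_zero_of_mul hc
    have p1 := par_E g h1
    have p2 := par_E g' h2
    have p3 := p1.add p2
    have e3 : Multiset.sum ({t'.1, t'.2.1, t.1, t.2.1} : Multiset ℕ) =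
        t'.1 + (t'.2.1 + (t.1 + t.2.1)) := by
      simp [Multiset.insert_eq_cons]
    rw [e3]
    have e4 : vE t + vE t' + (t'.1 + (t'.2.1 + (t.1 + t.2.1))) =
        vE t + t.1 + t.2.1 + (vE t' + t'.1 + t'.2.1) := by ring
    rw [e4]
    exact p3

private theorem ln_oo {a V : ℕ} (p : ℕ × ℕ) :
    OO (EvF a V) p ≤ 3 * (1 + (V : ℝ)) * X1 (EvF a V) p := by
  unfold OO X1
  rw [Finset.mul_sum]
  refine Finset.sum_le_sum fun t ht => ?_
  have h1 := (mem_EvF.1 ht).2.2.2.2.2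
  have h2 : (vE t : ℝ) ≤ 1 + (V : ℝ) := by
    have : vE t ≤ 1 + V := by
      unfold vE
      omega
    exact_mod_cast this
  have h3 : 0 ≤ wE t * muG {t.1, t.2.1} (2 * p.1 - vE t) (p.2 - 1) :=
    mul_nonneg (ln_wE t) (muG_nonneg _ _ _)
  exact mul_le_mul_of_nonneg_right (by linarith) h3

theorem oo_bd {θ x : ℝ} (h : Par θ x) : ∃ C : ℝ, 0 < C ∧ ∀ a V : ℕ, 1 ≤ a → ∀ᶠ p in Num.Fth θ,
    OO (EvF a V) p ≤ C * a ^ 2 * (V + 1) * SST.nu p.1 p.2 := by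
  obtain ⟨C, hC, hE⟩ := eE_up (lw (Par_pos h))
  refine ⟨6 * C, by positivity, fun a V ha => ?_⟩
  have h1 := hE a V ha
  have ha' : (0 : ℝ) < (a : ℝ) := by
    have : 0 < a := ha
    exact_mod_cast this
  have h2 : eE x (EvF a V) < 2 * C * (a : ℝ) ^ 2 := by
    have : 0 < C * (a : ℝ) ^ 2 := by positivity
    linarith
  have h3 := (x1_lim h (S := EvF a V) (fun t ht => (mem_EvF.1 ht).1)).eventually_lt_const h2
  filter_upwards [h3, nu_pos_ev h] with p hp hn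
  have h4 : X1 (EvF a V) p ≤ 2 * C * (a : ℝ) ^ 2 * SST.nu p.1 p.2 := by
    have h5 : X1 (EvF a V) p / SST.nu p.1 p.2 < 2 * C * (a : ℝ) ^ 2 := hp
    exact ((div_lt_iff₀ hn).1 h5).le
  calc OO (EvF a V) p ≤ 3 * (1 + (V : ℝ)) * X1 (EvF a V) p := ln_oo p
    _ ≤ 3 * (1 + (V : ℝ)) * (2 * C * (a : ℝ) ^ 2 * SST.nu p.1 p.2) :=
        mul_le_mul_of_nonneg_left h4 (by positivity)
    _ = 6 * C * a ^ 2 * (V + 1) * SST.nu p.1 p.2 := by ring

/-- One term of the merge sum. -/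
private theorem ln_mg {θ x : ℝ} (h : Par θ x) {t : Et} (g : GoodE t) {w : List Stp} (hw : WOk 3 w)
    {a b : ℕ} (ha : 2 ≤ a) (hb : 2 ≤ b) (hab : a + b = t.1 + t.2.1) :
    Tendsto (fun p : ℕ × ℕ => wE t * wwt 1 W w * muG {wend 3 w + a - 2, b}
      (2 * p.1 - (vE t + (1 + wvol w))) (p.2 - 1) / SST.nu p.1 p.2) (Num.Fth θ)
      (𝓝 (36 * yy x ^ 2 * chi x * (hh x (wend 3 w + a - 2) * hh x b) * (PRW x t.2.2 * PRW x w))) := by
  have hl := lw (Par_pos h)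
  rw [← lc_mrg hl g hw ha (by omega) hab]
  have he : 1 ≤ wend 3 w := one_le_wend (by norm_num) hw
  refine ln_wt h ?_ (vE t + (1 + wvol w)) 1 (by simp) _ ?_
  · intro p hp
    simp only [Multiset.insert_eq_cons, Multiset.mem_cons, Multiset.mem_singleton] at hp
    rcases hp with rfl | rfl
    · omega
    · omega
  · intro hc
    have h1 : wE t ≠ 0 := left_ne_zero_of_mul hc
    have h2 : wwt 1 W w ≠ 0 := right_ne_zero_of_mul hc
    have p1 := par_E g h1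
    have p2 := par_w hw h2
    have e3 : Multiset.sum ({wend 3 w + a - 2, b} : Multiset ℕ) = wend 3 w + a - 2 + b := by
      simp [Multiset.insert_eq_cons]
    rw [e3]
    rw [Nat.even_iff] at p1 p2 ⊢
    omega

theorem mm_lim {θ x : ℝ} (h : Par θ x) {S : Finset Et} {U : Finset (List Stp)}
    (hS : ∀ t ∈ S, GoodE t ∧ 2 ≤ t.1 ∧ 2 ≤ t.2.1) (hU : ∀ w ∈ U, WOk 3 w) :
    Tendsto (fun p : ℕ × ℕ => MM S U p / SST.nu p.1 p.2) (Num.Fth θ) (𝓝 (mE x S U)) := by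
  have e1 : (fun p : ℕ × ℕ => MM S U p / SST.nu p.1 p.2) = fun p : ℕ × ℕ => ∑ t ∈ S, ∑ w ∈ U,
      ((t.1 : ℝ) * (wE t * wwt 1 W w * muG {wend 3 w + t.1 - 2, t.2.1}
        (2 * p.1 - (vE t + (1 + wvol w))) (p.2 - 1) / SST.nu p.1 p.2) +
      (t.2.1 : ℝ) * (wE t * wwt 1 W w * muG {wend 3 w + t.2.1 - 2, t.1}
        (2 * p.1 - (vE t + (1 + wvol w))) (p.2 - 1) / SST.nu p.1 p.2)) := by
    funext p
    unfold MM
    rw [Finset.sum_div]
    refine Finset.sum_congr rfl fun t _ => ?_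
    rw [Finset.sum_div]
    refine Finset.sum_congr rfl fun w _ => ?_
    ring
  have e2 : mE x S U = ∑ t ∈ S, ∑ w ∈ U,
      ((t.1 : ℝ) * (36 * yy x ^ 2 * chi x * (hh x (wend 3 w + t.1 - 2) * hh x t.2.1) *
        (PRW x t.2.2 * PRW x w)) +
      (t.2.1 : ℝ) * (36 * yy x ^ 2 * chi x * (hh x (wend 3 w + t.2.1 - 2) * hh x t.1) *
        (PRW x t.2.2 * PRW x w))) := by
    unfold mE
    refine Finset.sum_congr rfl fun t _ => Finset.sum_congr rfl fun w _ => ?_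
    ring
  rw [e1, e2]
  refine tendsto_finsetSum _ fun t ht => tendsto_finsetSum _ fun w hw => ?_
  obtain ⟨g, h1, h2⟩ := hS t ht
  exact ((ln_mg h g (hU w hw) h1 h2 rfl).const_mul _).add
    ((ln_mg h g (hU w hw) h2 h1 (Nat.add_comm _ _)).const_mul _)

private theorem ln_sE {x : ℝ} {C : ℝ} (hv : ∀ (s e : ℕ) (S : Finset (List Stp)),
    (∀ w ∈ S, WOk s w ∧ wend s w = e) → ∑ w ∈ S, PRW x w ≤ C) (a V : ℕ) :
    ∑ t ∈ EvF a V, PRW x t.2.2 ≤ ((a : ℝ) + 1) ^ 2 * C := by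
  classical
  obtain ⟨B, hB⟩ : ∃ B : Finset (ℕ × ℕ), B = Icc a (2 * a) ×ˢ Icc a (2 * a) := ⟨_, rfl⟩
  have hm : ∀ t ∈ EvF a V, (t.1, t.2.1) ∈ B := by
    intro t ht
    obtain ⟨_, h1, h2, h3, h4, _⟩ := mem_EvF.1 ht
    rw [hB, Finset.mem_product, Finset.mem_Icc, Finset.mem_Icc]
    exact ⟨⟨h1, h2⟩, ⟨h3, h4⟩⟩
  rw [← Finset.sum_fiberwise_of_maps_to hm]
  have hcard : (B.card : ℝ) = ((a : ℝ) + 1) ^ 2 := by
    rw [hB, Finset.card_product, Nat.card_Icc]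
    have : 2 * a + 1 - a = a + 1 := by omega
    rw [this]
    push_cast
    ring
  have hle : ∀ y ∈ B, ∑ t ∈ (EvF a V).filter (fun t => (t.1, t.2.1) = y), PRW x t.2.2 ≤ C := by
    intro y _
    have hinj : Set.InjOn (fun t : Et => t.2.2) (((EvF a V).filter fun t => (t.1, t.2.1) = y : Finset Et) : Set Et) := by
      intro t ht t' ht' he
      have h1 := (Finset.mem_filter.1 ht).2
      have h2 := (Finset.mem_filter.1 ht').2
      have he' : t.2.2 = t'.2.2 := he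
      have h3 : (t.1, t.2.1) = (t'.1, t'.2.1) := h1.trans h2.symm
      have h4 : t.1 = t'.1 := (Prod.mk.inj h3).1
      have h5 : t.2.1 = t'.2.1 := (Prod.mk.inj h3).2
      exact Prod.ext h4 (Prod.ext h5 he')
    have hs := Finset.sum_image (f := fun w => PRW x w) hinj
    rw [← hs]
    refine hv 3 (y.1 + y.2 + 2) _ fun w hw => ?_
    obtain ⟨t, ht, rfl⟩ := Finset.mem_image.1 hw
    obtain ⟨ht1, ht2⟩ := Finset.mem_filter.1 ht
    have g := (mem_EvF.1 ht1).1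
    refine ⟨g.2.2.1, ?_⟩
    rw [g.2.2.2, ← ht2]
  calc ∑ y ∈ B, ∑ t ∈ (EvF a V).filter (fun t => (t.1, t.2.1) = y), PRW x t.2.2
      ≤ ∑ _y ∈ B, C := Finset.sum_le_sum hle
    _ = ((a : ℝ) + 1) ^ 2 * C := by rw [Finset.sum_const, nsmul_eq_mul, hcard]

private theorem ln_sU {x : ℝ} {C : ℝ} (hv : ∀ (s e : ℕ) (S : Finset (List Stp)),
    (∀ w ∈ S, WOk s w ∧ wend s w = e) → ∑ w ∈ S, PRW x w ≤ C) (V : ℕ) :
    ∑ w ∈ WdA 3 V, PRW x w ≤ ((V : ℝ) + 4) * C := by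
  classical
  have hm : ∀ w ∈ WdA 3 V, wend 3 w ∈ range (V + 4) := by
    intro w hw
    obtain ⟨h1, h2⟩ := mem_WdA.1 hw
    have h3 := wend_le h1
    rw [Finset.mem_range]
    omega
  rw [← Finset.sum_fiberwise_of_maps_to hm]
  calc ∑ y ∈ range (V + 4), ∑ w ∈ (WdA 3 V).filter (fun w => wend 3 w = y), PRW x w
      ≤ ∑ _y ∈ range (V + 4), C := Finset.sum_le_sum fun y _ => hv 3 y _ fun w hw => by
        obtain ⟨h1, h2⟩ := Finset.mem_filter.1 hw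
        exact ⟨(mem_WdA.1 h1).1, h2⟩
    _ = ((V : ℝ) + 4) * C := by
        rw [Finset.sum_const, nsmul_eq_mul, Finset.card_range]
        push_cast
        ring

theorem mE_bd {x : ℝ} (h : Lw x) : ∃ C : ℝ, 0 < C ∧ ∀ a V V' : ℕ, 1 ≤ a →
    mE x (EvF a V) (WdA 3 V') ≤ C * a ^ 3 * (V' + 1) := by
  obtain ⟨C, hC, hv⟩ := vis h.x_pos
  have hchi := chi_pos h.x_pos
  have hy := h.y_pos
  have hd := h.d_pos
  have hA : 0 < AA x := by
    have := h.A_half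
    linarith
  obtain ⟨D, hD⟩ : ∃ D : ℝ, D = AA x / dr x := ⟨_, rfl⟩
  have hD0 : 0 < D := by
    rw [hD]
    positivity
  have hhD : ∀ k, hh x k ≤ D := fun k => by
    rw [hD]
    exact hh_le h k
  obtain ⟨c, hc⟩ : ∃ c : ℝ, c = 36 * yy x ^ 2 * chi x := ⟨_, rfl⟩
  have hc0 : 0 < c := by
    rw [hc]
    positivity
  refine ⟨c * (4 * D ^ 2) * (16 * C ^ 2), by positivity, fun a V V' ha => ?_⟩
  have ha' : (1 : ℝ) ≤ (a : ℝ) := by exact_mod_cast ha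
  have hpp : ∀ i j, hh x i * hh x j ≤ D ^ 2 := fun i j => by
    rw [sq]
    exact mul_le_mul (hhD i) (hhD j) (ln_hh h j) hD0.le
  have hpn : ∀ i j, 0 ≤ hh x i * hh x j := fun i j => mul_nonneg (ln_hh h i) (ln_hh h j)
  have key : mE x (EvF a V) (WdA 3 V') ≤ ∑ t ∈ EvF a V, ∑ w ∈ WdA 3 V',
      c * (4 * a * D ^ 2) * (PRW x t.2.2 * PRW x w) := by
    unfold mE
    rw [← hc]
    refine Finset.sum_le_sum fun t ht => Finset.sum_le_sum fun w hw => ?_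
    obtain ⟨_, _, h2, _, h4, _⟩ := mem_EvF.1 ht
    have i1 : (t.1 : ℝ) ≤ 2 * a := by exact_mod_cast h2
    have i2 : (t.2.1 : ℝ) ≤ 2 * a := by exact_mod_cast h4
    refine mul_le_mul_of_nonneg_right ?_ (mul_nonneg (PRW_nn h _) (PRW_nn h _))
    refine mul_le_mul_of_nonneg_left ?_ hc0.le
    have j1 : (t.1 : ℝ) * (hh x (wend 3 w + t.1 - 2) * hh x t.2.1) ≤ 2 * a * D ^ 2 :=
      mul_le_mul i1 (hpp _ _) (hpn _ _) (by positivity)
    have j2 : (t.2.1 : ℝ) * (hh x (wend 3 w + t.2.1 - 2) * hh x t.1) ≤ 2 * a * D ^ 2 :=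
      mul_le_mul i2 (hpp _ _) (hpn _ _) (by positivity)
    linarith
  have key2 : ∑ t ∈ EvF a V, ∑ w ∈ WdA 3 V', c * (4 * a * D ^ 2) * (PRW x t.2.2 * PRW x w) =
      c * (4 * a * D ^ 2) * ((∑ t ∈ EvF a V, PRW x t.2.2) * ∑ w ∈ WdA 3 V', PRW x w) := by
    rw [Finset.sum_mul_sum, Finset.mul_sum]
    refine Finset.sum_congr rfl fun t _ => ?_
    rw [Finset.mul_sum]
  have s1 : ∑ t ∈ EvF a V, PRW x t.2.2 ≤ 4 * (a : ℝ) ^ 2 * C := by
    refine (ln_sE hv a V).trans (mul_le_mul_of_nonneg_right ?_ hC.le)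
    nlinarith
  have s2 : ∑ w ∈ WdA 3 V', PRW x w ≤ 4 * ((V' : ℝ) + 1) * C := by
    refine (ln_sU hv V').trans (mul_le_mul_of_nonneg_right ?_ hC.le)
    have : (0 : ℝ) ≤ (V' : ℝ) := Nat.cast_nonneg _
    linarith
  have s3 : 0 ≤ ∑ w ∈ WdA 3 V', PRW x w := Finset.sum_nonneg fun w _ => PRW_nn h w
  have s4 : (∑ t ∈ EvF a V, PRW x t.2.2) * ∑ w ∈ WdA 3 V', PRW x w ≤
      (4 * (a : ℝ) ^ 2 * C) * (4 * ((V' : ℝ) + 1) * C) :=
    mul_le_mul s1 s2 s3 (by positivity)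
  calc mE x (EvF a V) (WdA 3 V') ≤ _ := key
    _ = _ := key2
    _ ≤ c * (4 * a * D ^ 2) * ((4 * (a : ℝ) ^ 2 * C) * (4 * ((V' : ℝ) + 1) * C)) :=
        mul_le_mul_of_nonneg_left s4 (by positivity)
    _ = c * (4 * D ^ 2) * (16 * C ^ 2) * a ^ 3 * (V' + 1) := by ring

end SYS.UP
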