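import Pool.Agent.SYS.UP.SepL
import Pool.Agent.SYS.UP.Ann
import Pool.Agent.SYS.UP.Eec

/-!
# SYS-UP-LimS: the part `SS` of the second moment

The constants of the limits of the separations are bounded with the estimate for planar annuli.
-/

namespace SYS.UP

open SYS.Num Real Filter Topology Finset

private theorem ls_wE (t : Et) : 0 ≤ wE t := wwt_nonneg zero_le_one W_nonneg t.2.2

private theorem ls_A {x : ℝ} (h : Lw x) : 0 < AA x := by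
  have := h.A_half
  linarith

/-- One of the four sums. -/
private theorem ls_half {x : ℝ} (h : Lw x) (hc : 0 < chi x) {C ρ : ℝ} (hρ0 : 0 < ρ) (hρ1 : ρ < 1)
    (hC : 0 < C) (hann : ∀ q₁ q₃ N : ℕ, 1 ≤ q₁ → 1 ≤ q₃ →
      ∑ f ∈ range N, muG {q₃, q₁} f 0 * (zz x ^ (f + q₃ + q₁) / AA x ^ (q₃ + q₁)) ≤ C * ρ ^ q₃)
    {t t' : Et} (ht : GoodE t) (ht' : GoodE t') {a b a' b' r : ℕ} (ha : 1 ≤ a) (hb : 1 ≤ b)
    (ha' : 1 ≤ a') (hb' : 1 ≤ b') (hab : a + b + (a' + b') = t.1 + t.2.1 + (t'.1 + t'.2.1))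
    (hr : r ≤ a) (K : ℕ) :
    ∑ f ∈ range K, muG {a, b} f 0 *
      (wE t * wE t' * Lc x {a', b'} (((vE t + vE t' : ℕ) : ℤ) + f) 1) ≤
      36 * yy x ^ 2 * chi x * (AA x / dr x) ^ 2 * C * ρ ^ r * (PRW x t.2.2 * PRW x t'.2.2) := by
  have e : ∀ f ∈ range K, muG {a, b} f 0 *
      (wE t * wE t' * Lc x {a', b'} (((vE t + vE t' : ℕ) : ℤ) + f) 1) =
      36 * yy x ^ 2 * chi x * (hh x a' * hh x b') * (PRW x t.2.2 * PRW x t'.2.2) *
        (muG {a, b} f 0 * (zz x ^ (f + a + b) / AA x ^ (a + b))) := by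
    intro f _
    rw [lc_sep h ht ht' ha' hb' hab f]
    ring
  rw [sum_congr rfl e, ← mul_sum]
  have hA := ls_A h
  have hd := h.d_pos
  have hy := h.y_pos
  have p1 := PRW_nn h t.2.2
  have p2 := PRW_nn h t'.2.2
  have g1 : 0 ≤ hh x a' := zero_le_one.trans (hh_ge h ha')
  have g2 : 0 ≤ hh x b' := zero_le_one.trans (hh_ge h hb')
  have g3 : hh x a' * hh x b' ≤ (AA x / dr x) ^ 2 := by
    rw [pow_two]
    exact mul_le_mul (hh_le h a') (hh_le h b') g2 (div_pos hA hd).le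
  have h1 := hann b a K hb ha
  have h2 : ρ ^ a ≤ ρ ^ r := pow_le_pow_of_le_one hρ0.le hρ1.le hr
  have h3 : ∑ f ∈ range K, muG {a, b} f 0 * (zz x ^ (f + a + b) / AA x ^ (a + b)) ≤ C * ρ ^ r :=
    h1.trans (mul_le_mul_of_nonneg_left h2 hC.le)
  have q1 : 0 ≤ 36 * yy x ^ 2 * chi x := by positivity
  have q2 : 0 ≤ PRW x t.2.2 * PRW x t'.2.2 := mul_nonneg p1 p2
  have q3 : 0 ≤ C * ρ ^ r := by positivity
  calc 36 * yy x ^ 2 * chi x * (hh x a' * hh x b') * (PRW x t.2.2 * PRW x t'.2.2) *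
        ∑ f ∈ range K, muG {a, b} f 0 * (zz x ^ (f + a + b) / AA x ^ (a + b))
      ≤ 36 * yy x ^ 2 * chi x * (hh x a' * hh x b') * (PRW x t.2.2 * PRW x t'.2.2) * (C * ρ ^ r) :=
        mul_le_mul_of_nonneg_left h3 (mul_nonneg (mul_nonneg q1 (mul_nonneg g1 g2)) q2)
    _ ≤ 36 * yy x ^ 2 * chi x * ((AA x / dr x) ^ 2) * (PRW x t.2.2 * PRW x t'.2.2) * (C * ρ ^ r) :=
        mul_le_mul_of_nonneg_right (mul_le_mul_of_nonneg_right
          (mul_le_mul_of_nonneg_left g3 q1) q2) q3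
    _ = _ := by ring

/-- One pair of events and one of the two separations. -/
private theorem ls_pair {θ x : ℝ} (h : Par θ x) (hl : Lw x) (hc : 0 < chi x) {C ρ : ℝ} (hρ0 : 0 < ρ)
    (hρ1 : ρ < 1) (hC : 0 < C) (hann : ∀ q₁ q₃ N : ℕ, 1 ≤ q₁ → 1 ≤ q₃ →
      ∑ f ∈ range N, muG {q₃, q₁} f 0 * (zz x ^ (f + q₃ + q₁) / AA x ^ (q₃ + q₁)) ≤ C * ρ ^ q₃)
    {t t' : Et} (ht : GoodE t) (ht' : GoodE t') {a b r : ℕ} (ha : 1 ≤ a) (hb : 1 ≤ b)
    (hab : a + b = t.1 + t.2.1) (hr1 : r ≤ t'.1) (hr2 : r ≤ t'.2.1) {ε : ℝ} (hε : 0 < ε) :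
    ∀ᶠ p in Num.Fth θ,
      wE t * wE t' * SepS {t'.1, a} {t'.2.1, b} (2 * p.1 - (vE t + vE t')) (p.2 - 1) ≤
        (2 * (36 * yy x ^ 2 * chi x * (AA x / dr x) ^ 2 * C * ρ ^ r *
          (PRW x t.2.2 * PRW x t'.2.2)) + wE t * wE t' * ε) * SST.nu p.1 p.2 := by
  have hA := ls_A hl
  have hd := hl.d_pos
  have hy := hl.y_pos
  have p1 := PRW_nn hl t.2.2
  have p2 := PRW_nn hl t'.2.2
  have w0 : 0 ≤ wE t * wE t' := mul_nonneg (ls_wE t) (ls_wE t')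
  by_cases h0 : wE t * wE t' = 0
  · refine Eventually.of_forall fun p => ?_
    rw [h0, zero_mul, zero_mul, add_zero]
    have := nu_nn p.1 p.2
    positivity
  · have hv : Even (vE t + vE t' + ({t'.1, a} : Multiset ℕ).sum + ({t'.2.1, b} : Multiset ℕ).sum) := by
      obtain ⟨i, hi⟩ := par_E ht (left_ne_zero_of_mul h0)
      obtain ⟨j, hj⟩ := par_E ht' (right_ne_zero_of_mul h0)
      refine ⟨i + j, ?_⟩
      have s1 : ({t'.1, a} : Multiset ℕ).sum = t'.1 + a := by simp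
      have s2 : ({t'.2.1, b} : Multiset ℕ).sum = t'.2.1 + b := by simp
      rw [s1, s2]
      omega
    have hP : ∀ p ∈ ({t'.1, a} : Multiset ℕ), 1 ≤ p := by
      intro p hp
      simp only [Multiset.insert_eq_cons, Multiset.mem_cons, Multiset.mem_singleton] at hp
      rcases hp with rfl | rfl
      · exact ht'.1
      · exact ha
    have hP' : ∀ p ∈ ({t'.2.1, b} : Multiset ℕ), 1 ≤ p := by
      intro p hp
      simp only [Multiset.insert_eq_cons, Multiset.mem_cons, Multiset.mem_singleton] at hp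
      rcases hp with rfl | rfl
      · exact ht'.2.1
      · exact hb
    obtain ⟨K, hK⟩ := sepS_lim h hP hP' rfl rfl (vE t + vE t') 1 hv hε
    filter_upwards [hK, RB.ge_ev θ 1] with p hp hn
    have hn1 : (1 : ℝ) ≤ p.1 := by exact_mod_cast hn
    have hn' : (0 : ℝ) < (p.1 : ℝ) ^ 2 := by positivity
    set Tf : ℝ := ∑ f ∈ range K, (muG {t'.1, a} f 0 *
      Lc x {t'.2.1, b} (((vE t + vE t' + f : ℕ) : ℤ)) 1 +
        muG {t'.2.1, b} f 0 * Lc x {t'.1, a} (((vE t + vE t' + f : ℕ) : ℤ)) 1) with hTf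
    have h1 : SepS {t'.1, a} {t'.2.1, b} (2 * p.1 - (vE t + vE t')) (p.2 - 1) ≤
        (Tf + ε) * SST.nu p.1 p.2 := by
      refine le_of_mul_le_mul_right ?_ hn'
      calc SepS {t'.1, a} {t'.2.1, b} (2 * p.1 - (vE t + vE t')) (p.2 - 1) * (p.1 : ℝ) ^ 2
          = SepS {t'.1, a} {t'.2.1, b} (2 * p.1 - (vE t + vE t')) (p.2 - 1) *
              (p.1 : ℝ) ^ (2 * 1) := by rw [mul_one]
        _ ≤ _ := hp
        _ = _ := by ring
    have h2 : wE t * wE t' * Tf ≤ 2 * (36 * yy x ^ 2 * chi x * (AA x / dr x) ^ 2 * C * ρ ^ r *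
          (PRW x t.2.2 * PRW x t'.2.2)) := by
      have b1 := ls_half hl hc hρ0 hρ1 hC hann ht ht' (a := t'.1) (b := a) (a' := t'.2.1) (b' := b)
        (r := r) ht'.1 ha ht'.2.1 hb (by omega) hr1 K
      have b2 := ls_half hl hc hρ0 hρ1 hC hann ht ht' (a := t'.2.1) (b := b) (a' := t'.1) (b' := a)
        (r := r) ht'.2.1 hb ht'.1 ha (by omega) hr2 K
      have e1 : wE t * wE t' * Tf = ∑ f ∈ range K, muG {t'.1, a} f 0 *
          (wE t * wE t' * Lc x {t'.2.1, b} (((vE t + vE t' : ℕ) : ℤ) + f) 1) +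
            ∑ f ∈ range K, muG {t'.2.1, b} f 0 *
              (wE t * wE t' * Lc x {t'.1, a} (((vE t + vE t' : ℕ) : ℤ) + f) 1) := by
        rw [hTf, mul_sum, ← sum_add_distrib]
        refine sum_congr rfl fun f _ => ?_
        rw [Nat.cast_add (vE t + vE t') f]
        ring
      rw [e1]
      linarith
    calc wE t * wE t' * SepS {t'.1, a} {t'.2.1, b} (2 * p.1 - (vE t + vE t')) (p.2 - 1)
        ≤ wE t * wE t' * ((Tf + ε) * SST.nu p.1 p.2) := mul_le_mul_of_nonneg_left h1 w0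
      _ = (wE t * wE t' * Tf + wE t * wE t' * ε) * SST.nu p.1 p.2 := by ring
      _ ≤ _ := mul_le_mul_of_nonneg_right (by linarith) (nu_nn _ _)

/-- The mass of the events. -/
private theorem ls_sum {x C : ℝ} (hC : 0 < C) (hvis : ∀ (s e : ℕ) (S : Finset (List Stp)),
    (∀ w ∈ S, WOk s w ∧ wend s w = e) → ∑ w ∈ S, PRW x w ≤ C) {a : ℕ} (ha : 1 ≤ a) (V : ℕ) :
    ∑ t ∈ EvF a V, PRW x t.2.2 ≤ 4 * C * (a : ℝ) ^ 2 := by
  classical
  have har : (1 : ℝ) ≤ a := by exact_mod_cast ha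
  have h1 : ∀ q₁ ∈ Icc a (2 * a), ∑ y ∈ Icc a (2 * a) ×ˢ WdA 3 V,
      (if GoodE (q₁, y) then PRW x y.2 else 0) ≤ 2 * a * C := by
    intro q₁ _
    rw [sum_product]
    have h2 : ∀ q₂ ∈ Icc a (2 * a), ∑ w ∈ WdA 3 V,
        (if GoodE (q₁, q₂, w) then PRW x w else 0) ≤ C := by
      intro q₂ _
      rw [← sum_filter]
      refine hvis 3 (q₁ + q₂ + 2) _ fun w hw => ?_
      have h3 := (mem_filter.1 hw).2
      exact ⟨h3.2.2.1, h3.2.2.2⟩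
    refine (sum_le_card_nsmul _ _ _ h2).trans ?_
    rw [nsmul_eq_mul, Nat.card_Icc]
    have h4 : ((2 * a + 1 - a : ℕ) : ℝ) ≤ 2 * a := by
      have : 2 * a + 1 - a ≤ 2 * a := by omega
      exact_mod_cast this
    exact mul_le_mul_of_nonneg_right h4 hC.le
  have h5 : ∑ t ∈ EvF a V, PRW x t.2.2 = ∑ q₁ ∈ Icc a (2 * a), ∑ y ∈ Icc a (2 * a) ×ˢ WdA 3 V,
      (if GoodE (q₁, y) then PRW x y.2 else 0) := by
    unfold EvF
    rw [sum_filter, sum_product]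
  rw [h5]
  refine (sum_le_card_nsmul _ _ _ h1).trans ?_
  rw [nsmul_eq_mul, Nat.card_Icc]
  have h4 : ((2 * a + 1 - a : ℕ) : ℝ) ≤ 2 * a := by
    have : 2 * a + 1 - a ≤ 2 * a := by omega
    exact_mod_cast this
  calc ((2 * a + 1 - a : ℕ) : ℝ) * (2 * a * C) ≤ 2 * a * (2 * a * C) :=
        mul_le_mul_of_nonneg_right h4 (by positivity)
    _ = 4 * C * (a : ℝ) ^ 2 := by ring

theorem ss_bd {θ x : ℝ} (h : Par θ x) : ∃ C ρ : ℝ, 0 < C ∧ 0 < ρ ∧ ρ < 1 ∧ ∀ a V a' V' : ℕ, 1 ≤ a → 1 ≤ a' →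
    ∀ᶠ p in Num.Fth θ, SS (EvF a V) (EvF a' V') p ≤
      C * (a : ℝ) ^ 2 * (a' : ℝ) ^ 2 * ρ ^ a' * SST.nu p.1 p.2 := by
  have hx := Par_pos h
  have hl : Lw x := lw hx
  have hc := chi_pos hx
  obtain ⟨C, ρ, hC, hρ0, hρ1, hann⟩ := ann hl
  obtain ⟨D, hD, hvis⟩ := vis hx
  obtain ⟨E, hE⟩ : ∃ E : ℝ, E = 36 * yy x ^ 2 * chi x * (AA x / dr x) ^ 2 * C := ⟨_, rfl⟩
  have hE0 : 0 < E := by
    have h1 := ls_A hl
    have h2 := hl.d_pos
    have h3 := hl.y_pos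
    rw [hE]
    positivity
  refine ⟨64 * E * D ^ 2 + 1, ρ, by positivity, hρ0, hρ1, ?_⟩
  intro a V a' V' ha ha'
  have har : (1 : ℝ) ≤ a := by exact_mod_cast ha
  have har' : (1 : ℝ) ≤ a' := by exact_mod_cast ha'
  obtain ⟨Q, hQ⟩ : ∃ Q : ℝ, Q = ∑ t ∈ EvF a V, ∑ t' ∈ EvF a' V', wE t * wE t' := ⟨_, rfl⟩
  have hQ0 : 0 ≤ Q := by
    rw [hQ]
    exact sum_nonneg fun t _ => sum_nonneg fun t' _ => mul_nonneg (ls_wE t) (ls_wE t')
  have hρa : 0 < ρ ^ a' := pow_pos hρ0 _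
  obtain ⟨ε, hε⟩ : ∃ ε : ℝ, ε = ρ ^ a' / (2 * (Q + 1)) := ⟨_, rfl⟩
  have hε0 : 0 < ε := by
    rw [hε]
    positivity
  have hεQ : 2 * ε * Q ≤ ρ ^ a' := by
    have e1 : 2 * ε * (Q + 1) = ρ ^ a' := by
      rw [hε]
      field_simp
    nlinarith
  have key : ∀ᶠ p in Num.Fth θ, ∀ t ∈ EvF a V, ∀ t' ∈ EvF a' V', wE t * wE t' *
      (SepS {t'.1, t.1} {t'.2.1, t.2.1} (2 * p.1 - (vE t + vE t')) (p.2 - 1) +
        SepS {t'.1, t.2.1} {t'.2.1, t.1} (2 * p.1 - (vE t + vE t')) (p.2 - 1)) ≤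
      (4 * (E * ρ ^ a') * (PRW x t.2.2 * PRW x t'.2.2) + 2 * ε * (wE t * wE t')) *
        SST.nu p.1 p.2 := by
    refine (eventually_all_finset _).2 fun t ht => (eventually_all_finset _).2 fun t' ht' => ?_
    obtain ⟨g1, -, -, -, -, -⟩ := mem_EvF.1 ht
    obtain ⟨g2, r1, -, r2, -, -⟩ := mem_EvF.1 ht'
    have k1 := ls_pair h hl hc hρ0 hρ1 hC hann g1 g2 (a := t.1) (b := t.2.1) (r := a') g1.1 g1.2.1
      rfl r1 r2 hε0
    have k2 := ls_pair h hl hc hρ0 hρ1 hC hann g1 g2 (a := t.2.1) (b := t.1) (r := a') g1.2.1 g1.1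
      (Nat.add_comm _ _) r1 r2 hε0
    rw [← hE] at k1 k2
    filter_upwards [k1, k2] with p h1 h2
    have e1 : (4 * (E * ρ ^ a') * (PRW x t.2.2 * PRW x t'.2.2) + 2 * ε * (wE t * wE t')) *
        SST.nu p.1 p.2 = (2 * (E * ρ ^ a' * (PRW x t.2.2 * PRW x t'.2.2)) + wE t * wE t' * ε) *
          SST.nu p.1 p.2 + (2 * (E * ρ ^ a' * (PRW x t.2.2 * PRW x t'.2.2)) + wE t * wE t' * ε) *
          SST.nu p.1 p.2 := by ring
    rw [e1, mul_add]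
    exact add_le_add h1 h2
  filter_upwards [key] with p hp
  have s1 := ls_sum hD hvis ha V
  have s2 := ls_sum hD hvis ha' V'
  have n1 : 0 ≤ ∑ t ∈ EvF a V, PRW x t.2.2 := sum_nonneg fun t _ => PRW_nn hl _
  have n2 : 0 ≤ ∑ t ∈ EvF a' V', PRW x t.2.2 := sum_nonneg fun t _ => PRW_nn hl _
  have hnu := nu_nn p.1 p.2
  have e2 : ∑ t ∈ EvF a V, ∑ t' ∈ EvF a' V',
      (4 * (E * ρ ^ a') * (PRW x t.2.2 * PRW x t'.2.2) + 2 * ε * (wE t * wE t')) * SST.nu p.1 p.2 =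
      (4 * (E * ρ ^ a') * ((∑ t ∈ EvF a V, PRW x t.2.2) * ∑ t' ∈ EvF a' V', PRW x t'.2.2) +
        2 * ε * Q) * SST.nu p.1 p.2 := by
    rw [hQ, sum_mul_sum, mul_sum, mul_sum, ← sum_add_distrib, sum_mul]
    refine sum_congr rfl fun t _ => ?_
    rw [mul_sum, mul_sum, ← sum_add_distrib, sum_mul]
  have s3 : (∑ t ∈ EvF a V, PRW x t.2.2) * ∑ t' ∈ EvF a' V', PRW x t'.2.2 ≤
      (4 * D * (a : ℝ) ^ 2) * (4 * D * (a' : ℝ) ^ 2) := mul_le_mul s1 s2 n2 (by positivity)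
  have s4 : (1 : ℝ) ≤ (a : ℝ) ^ 2 * (a' : ℝ) ^ 2 :=
    one_le_mul_of_one_le_of_one_le (one_le_pow₀ har) (one_le_pow₀ har')
  calc SS (EvF a V) (EvF a' V') p ≤ ∑ t ∈ EvF a V, ∑ t' ∈ EvF a' V',
      (4 * (E * ρ ^ a') * (PRW x t.2.2 * PRW x t'.2.2) + 2 * ε * (wE t * wE t')) *
        SST.nu p.1 p.2 := sum_le_sum fun t ht => sum_le_sum fun t' ht' => hp t ht t' ht'
    _ = _ := e2
    _ ≤ (4 * (E * ρ ^ a') * ((4 * D * (a : ℝ) ^ 2) * (4 * D * (a' : ℝ) ^ 2)) + ρ ^ a') *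
        SST.nu p.1 p.2 := by
      refine mul_le_mul_of_nonneg_right ?_ hnu
      have := mul_le_mul_of_nonneg_left s3 (by positivity : 0 ≤ 4 * (E * ρ ^ a'))
      linarith
    _ ≤ _ := by
      refine mul_le_mul_of_nonneg_right ?_ hnu
      have := mul_le_mul_of_nonneg_right s4 hρa.le
      nlinarith

end SYS.UP
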