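import Pool.Agent.SYS.UP.St2D
import Pool.Agent.SYS.VI.GroM
import Pool.Agent.SYS.BD.Hist

/-!
# SYS-UP-St2B: the bad words are rare

PLAN.  `groM h hδ hη (max q1 q2)` gives `C, δ', M`.  Eventually (`n → ∞`, `g/n → θ`), with `F = 2n - v`, `P = ⌈n^(1/2+ε)⌉₊` (so `1 ≤ P ≤ 2 n^(1/2+ε)`, `P = o(n)`, `q2 ≤ P`) and `V = C P`: for all `F'` with `F - V ≤ F' ≤ F`: `P ≤ δ' F'` and `Win θ δ' M {a, b} F' (g-1)` for all `1 ≤ a, b ≤ P`
(`|2 (g-1) - θ F'| ≤ |2 g - 2 θ n| + 2 + θ (v + V) ≤ δ' F'`: `2g/n → 2θ`).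
* `B1`: `groM` with `Q = {q2}`, `s = q1`, `S = BadS q1 P L V F` (`pf_bad`, `BadW`).
* `B2`: for each `w ∈ FHS q1 P V F` the inner sum is at most `η * muG (q2 ::ₘ {P}) (F - wvol w) (g-1)` (`groM` with `Q = {P}`, `s = q2`, `F' = F - wvol w > F - V`); then `hist` (`BD/Hist.lean`) with `p = q1`, `Q = {q2}`, `S = FHS q1 P V F` (`pf_fh`; `wend q1 w = P`, `{q2, P} = {P, q2}`).
-/

namespace SYS.UP

open SYS.Num Real Filter Topology

private theorem b12_fst (θ : ℝ) : Tendsto (fun p : ℕ × ℕ => p.1) (Num.Fth θ) atTop := by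
  unfold Num.Fth
  exact tendsto_comap.mono_left inf_le_left

private theorem b12_div (θ : ℝ) : Tendsto (fun p : ℕ × ℕ => (p.2 : ℝ) / p.1) (Num.Fth θ) (𝓝 θ) := by
  unfold Num.Fth
  exact tendsto_comap.mono_left inf_le_right

private theorem b12_ceil {ε : ℝ} (hε2 : ε < 1 / 2) {c : ℝ} (hc : 0 < c) :
    ∀ᶠ n : ℕ in atTop, ((⌈(n : ℝ) ^ (1 / 2 + ε)⌉₊ : ℕ) : ℝ) ≤ c * n := by
  have h1 : Tendsto (fun n : ℕ => (n : ℝ) ^ (-(1 / 2 - ε))) atTop (𝓝 0) :=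
    (tendsto_rpow_neg_atTop (by linarith)).comp tendsto_natCast_atTop_atTop
  have h2 : ∀ᶠ n : ℕ in atTop, (n : ℝ) ^ (-(1 / 2 - ε)) < c / 2 := h1.eventually_lt_const (by linarith)
  have h3 : ∀ᶠ n : ℕ in atTop, (2 / c : ℝ) ≤ n := tendsto_natCast_atTop_atTop.eventually_ge_atTop _
  filter_upwards [h2, h3, eventually_ge_atTop 1] with n h4 h5 h6
  have hn : (0 : ℝ) < n := by exact_mod_cast h6
  have h7 : (n : ℝ) ^ (1 / 2 + ε) = (n : ℝ) ^ (-(1 / 2 - ε)) * n := by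
    conv_rhs => rw [← rpow_one (n : ℝ), ← rpow_mul hn.le, ← rpow_add hn]
    congr 1
    ring
  have h8 : ((⌈(n : ℝ) ^ (1 / 2 + ε)⌉₊ : ℕ) : ℝ) < (n : ℝ) ^ (1 / 2 + ε) + 1 :=
    Nat.ceil_lt_add_one (rpow_nonneg hn.le _)
  have h9 : (n : ℝ) ^ (1 / 2 + ε) ≤ c / 2 * n := by
    rw [h7]
    exact mul_le_mul_of_nonneg_right h4.le hn.le
  have h10 : 1 ≤ c / 2 * n := by
    rw [div_le_iff₀ hc] at h5
    linarith
  linarith

private theorem b12_ceil_ge {ε : ℝ} (hε : 0 < ε) (K : ℕ) :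
    ∀ᶠ n : ℕ in atTop, K ≤ ⌈(n : ℝ) ^ (1 / 2 + ε)⌉₊ := by
  have h1 : Tendsto (fun n : ℕ => (n : ℝ) ^ (1 / 2 + ε)) atTop atTop :=
    (tendsto_rpow_atTop (by linarith)).comp tendsto_natCast_atTop_atTop
  filter_upwards [h1.eventually_ge_atTop (K : ℝ)] with n h2
  exact_mod_cast h2.trans (Nat.le_ceil _)

theorem b12_bd {θ x : ℝ} (h : Par θ x) {δ η : ℝ} (hδ : 0 < δ) (hη : 0 < η) {q1 q2 : ℕ} (h1 : 1 ≤ q1) (h2 : 1 ≤ q2) (v : ℕ) :
    ∃ C : ℝ, 0 < C ∧ ∀ ε : ℝ, 0 < ε → ε < 1 / 2 → ∀ᶠ p in Num.Fth θ, ∀ P : ℕ, P = ⌈(p.1 : ℝ) ^ (1 / 2 + ε)⌉₊ →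
      B1 q1 q2 P (C + (1 + δ) * Real.log P / (2 * x)) (C * P) (2 * p.1 - v) (p.2 - 1) ≤
        η * muG {q1, q2} (2 * p.1 - v) (p.2 - 1) ∧
      B2 q1 q2 P (C + (1 + δ) * Real.log P / (2 * x)) (C * P) (2 * p.1 - v) (p.2 - 1) ≤
        η * muG {q1, q2} (2 * p.1 - v) (p.2 - 1) := by
  obtain ⟨C, δ', M, hC, hδ', hgro⟩ := groM h hδ hη (max q1 q2)
  refine ⟨C, hC, ?_⟩
  intro ε hε hε2
  obtain ⟨d, hd⟩ : ∃ d : ℝ, d = min δ' 1 := ⟨_, rfl⟩
  have hd0 : 0 < d := by rw [hd]; exact lt_min hδ' one_pos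
  have hd1 : d ≤ 1 := by rw [hd]; exact min_le_right _ _
  have hdδ : d ≤ δ' := by rw [hd]; exact min_le_left _ _
  have hθ : 0 < θ := h.1
  have hθ1 : θ ≤ 1 / 2 := h.2.1.le
  have hc : 0 < d / 4 / (C + 4) := by positivity
  have e1 : ∀ᶠ p : ℕ × ℕ in Num.Fth θ, ((⌈(p.1 : ℝ) ^ (1 / 2 + ε)⌉₊ : ℕ) : ℝ) ≤ d / 4 / (C + 4) * p.1 :=
    (b12_fst θ).eventually (b12_ceil hε2 hc)
  have e2 : ∀ᶠ p : ℕ × ℕ in Num.Fth θ, q1 + q2 + 1 ≤ ⌈(p.1 : ℝ) ^ (1 / 2 + ε)⌉₊ :=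
    (b12_fst θ).eventually (b12_ceil_ge hε (q1 + q2 + 1))
  have e3 : ∀ᶠ p : ℕ × ℕ in Num.Fth θ, v + 2 * M + 1 ≤ p.1 :=
    (b12_fst θ).eventually_ge_atTop _
  have e4 : ∀ᶠ p : ℕ × ℕ in Num.Fth θ, (2 + θ * v) / (d / 8) ≤ (p.1 : ℝ) :=
    (tendsto_natCast_atTop_atTop.comp (b12_fst θ)).eventually_ge_atTop _
  have e5 : ∀ᶠ p : ℕ × ℕ in Num.Fth θ, |(p.2 : ℝ) / p.1 - θ| < min (d / 16) (θ / 2) := by
    have h3 := (b12_div θ).eventually (Metric.ball_mem_nhds θ (lt_min (by positivity : 0 < d / 16) (by positivity : 0 < θ / 2)))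
    filter_upwards [h3] with p h4
    rwa [Real.dist_eq] at h4
  filter_upwards [e1, e2, e3, e4, e5] with p f1 f2 f3 f4 f5
  intro P hP
  rw [← hP] at f1 f2
  have hn : (0 : ℝ) < p.1 := by exact_mod_cast (by omega : 0 < p.1)
  have hg : 1 ≤ p.2 := by
    by_contra h3
    have h4 : p.2 = 0 := by omega
    rw [h4, Nat.cast_zero, zero_div, zero_sub, abs_neg, abs_of_pos hθ] at f5
    have h5 := f5.trans_le (min_le_right _ _)
    linarith
  have hgc : ((p.2 - 1 : ℕ) : ℝ) = (p.2 : ℝ) - 1 := by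
    push_cast [Nat.cast_sub hg]
    ring
  have hF : p.1 ≤ 2 * p.1 - v := by omega
  have hFR : (p.1 : ℝ) ≤ ((2 * p.1 - v : ℕ) : ℝ) := by exact_mod_cast hF
  have hFc : ((2 * p.1 - v : ℕ) : ℝ) = 2 * (p.1 : ℝ) - v := by
    rw [Nat.cast_sub (by omega)]
    push_cast
    ring
  have hMF : 2 * M ≤ 2 * p.1 - v := by omega
  generalize hFF : 2 * p.1 - v = F at *
  generalize hGG : p.2 - 1 = g at *
  have hF0 : (0 : ℝ) < F := by linarith
  have g1 : |2 * (g : ℝ) - θ * F| ≤ d / 4 * F := by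
    have h3 : |(p.2 : ℝ) / p.1 - θ| < d / 16 := f5.trans_le (min_le_left _ _)
    have h4 : |(p.2 : ℝ) - θ * p.1| ≤ d / 16 * p.1 := by
      have h5 : (p.2 : ℝ) - θ * p.1 = ((p.2 : ℝ) / p.1 - θ) * p.1 := by
        field_simp
      rw [h5, abs_mul, abs_of_pos hn]
      exact mul_le_mul_of_nonneg_right h3.le hn.le
    rw [div_le_iff₀ (by positivity)] at f4
    rw [hgc, hFc]
    rw [abs_le] at h4 ⊢
    have hv : 0 ≤ θ * v := by positivity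
    have h6 : d / 4 * (p.1 : ℝ) ≤ d / 4 * (2 * (p.1 : ℝ) - v) := by
      rw [← hFc]
      exact mul_le_mul_of_nonneg_left hFR (by positivity)
    constructor <;> nlinarith [h4.1, h4.2]
  have w0 : Win θ (d / 4) (2 * M) 0 F g := by
    refine ⟨hMF, g1, ?_, fun q hq => absurd hq (Multiset.notMem_zero q)⟩
    rw [Multiset.sum_zero, Nat.cast_zero]
    positivity
  have hP1 : (1 : ℝ) ≤ P := by exact_mod_cast (by omega : 1 ≤ P)
  have hPb : (C + 4) * (P : ℝ) ≤ d / 4 * F := by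
    have h3 : (C + 4) * (P : ℝ) ≤ (C + 4) * (d / 4 / (C + 4) * p.1) :=
      mul_le_mul_of_nonneg_left f1 (by positivity)
    have h4 : (C + 4) * (d / 4 / (C + 4) * (p.1 : ℝ)) = d / 4 * p.1 := by
      field_simp
    rw [h4] at h3
    exact h3.trans (mul_le_mul_of_nonneg_left hFR (by positivity))
  have hCP : 0 ≤ C * (P : ℝ) := by positivity
  -- the windows
  have win : ∀ F' a b : ℕ, F' ≤ F → (F : ℝ) ≤ F' + C * P → 1 ≤ a → 1 ≤ b → a ≤ P → b ≤ P →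
      Win θ δ' M (a ::ₘ {b}) F' g ∧ (P : ℝ) ≤ δ' * F' := by
    intro F' a b h3 h4 h5 h6 h7 h8
    have h3' : (F' : ℝ) ≤ F := by exact_mod_cast h3
    have h7' : (a : ℝ) ≤ P := by exact_mod_cast h7
    have h8' : (b : ℝ) ≤ P := by exact_mod_cast h8
    have h9 : C * (P : ℝ) ≤ d / 4 * F := by nlinarith
    have h9' : 4 * (P : ℝ) ≤ d / 4 * F := by nlinarith
    have h10 : Win θ d M (a ::ₘ {b}) F' g := by
      refine w0.shift hθ.le hθ1 hd0.le hd1 (by linarith) ?_ ?_ ?_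
      · have : 0 ≤ d / 4 * (F : ℝ) := by positivity
        linarith
      · rw [Multiset.sum_cons, Multiset.sum_singleton]
        push_cast
        linarith
      · intro q hq
        rw [Multiset.mem_cons, Multiset.mem_singleton] at hq
        rcases hq with rfl | rfl
        · exact h5
        · exact h6
    refine ⟨h10.mono hdδ le_rfl, ?_⟩
    have h11 : (F : ℝ) / 2 ≤ F' := by nlinarith
    have h12 : d * ((F : ℝ) / 2) ≤ d * F' := mul_le_mul_of_nonneg_left h11 hd0.le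
    have h13 : d * (F' : ℝ) ≤ δ' * F' := mul_le_mul_of_nonneg_right hdδ (Nat.cast_nonneg _)
    nlinarith
  have key : ∀ (F' s b : ℕ), F' ≤ F → (F : ℝ) ≤ F' + C * P → 1 ≤ s → 1 ≤ b → s ≤ max q1 q2 → b ≤ P →
      ∑ w ∈ BadS s P (C + (1 + δ) * Real.log P / (2 * x)) (C * P) F', wwt 1 W w * muG (wend s w ::ₘ {b}) (F' - wvol w) g ≤
        η * muG (s ::ₘ {b}) F' g := by
    intro F' s b h3 h4 h5 h6 h7 h8
    have h7' : s ≤ P := by
      have := max_le_iff.1 (le_of_eq (rfl : max q1 q2 = max q1 q2))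
      omega
    obtain ⟨h9, h10⟩ := win F' s b h3 h4 h5 h6 h7' h8
    refine hgro {b} F' g s P _ h5 h7 hP1 h10 h9 (pf_bad _ _ _ _ _) ?_
    intro w hw
    obtain ⟨⟨h11, h12, h13⟩, h14⟩ := mem_BadS.1 hw
    refine ⟨h11, h14, fun u hu hne => ?_, h12⟩
    exact_mod_cast (h13 u hu hne).1
  constructor
  · exact key F q1 q2 le_rfl (by linarith) h1 h2 (le_max_left _ _) (by omega)
  · have h3 : B2 q1 q2 P (C + (1 + δ) * Real.log P / (2 * x)) (C * P) F g ≤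
        ∑ w ∈ FHS q1 P (C * P) F, wwt 1 W w * (η * muG (wend q1 w ::ₘ {q2}) (F - wvol w) g) := by
      unfold B2
      refine Finset.sum_le_sum fun w hw => ?_
      obtain ⟨h4, h5, h6⟩ := mem_FHS.1 hw
      refine mul_le_mul_of_nonneg_left ?_ (wwt_nonneg zero_le_one W_nonneg w)
      have h7 := key (F - wvol w) q2 P (by omega) (by
        rw [Nat.cast_sub h6]
        linarith) h2 (by omega) (le_max_right _ _) le_rfl
      rw [h4.2.1]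
      have h8 : (P ::ₘ {q2} : Multiset ℕ) = q2 ::ₘ {P} := by
        rw [← Multiset.cons_zero q2, ← Multiset.cons_zero P]
        exact Multiset.cons_swap _ _ _
      rw [h8]
      exact h7
    refine h3.trans ?_
    have h4 : ∑ w ∈ FHS q1 P (C * P) F, wwt 1 W w * (η * muG (wend q1 w ::ₘ {q2}) (F - wvol w) g) =
        η * ∑ w ∈ FHS q1 P (C * P) F, wwt 1 W w * muG (wend q1 w ::ₘ {q2}) (F - wvol w) g := by
      rw [Finset.mul_sum]
      exact Finset.sum_congr rfl fun w _ => by ring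
    rw [h4]
    refine mul_le_mul_of_nonneg_left ?_ hη.le
    refine hist q1 h1 {q2} F g (Or.inl (Multiset.singleton_ne_zero _)) _ (pf_fh _ _ _ _) ?_
    intro w hw
    obtain ⟨h5, -, h6⟩ := mem_FHS.1 hw
    exact ⟨h5.1, h6⟩

end SYS.UP
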