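import Pool.Agent.SYS.UP.St2D
import Pool.Agent.SYS.UP.EvD

/-!
# SYS-UP-St2C: number of the triangulations with bad words, or with two long runs

`st2_run`: one run, with the words in a finite set (`cyl_le` and a union); it is used once for `cb1` and twice for `cb2`, `ca2`.
-/

namespace SYS.UP

open SST Part Num

variable {n g : ℕ}

private theorem st2_bU {ι α : Type} [Finite α] (A : Finset ι) (f : ι → Set α) :
    (((⋃ i ∈ A, f i).ncard : ℕ) : ℝ) ≤ ∑ i ∈ A, (((f i).ncard : ℕ) : ℝ) := by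
  classical
  induction A using Finset.induction_on with
  | empty => simp
  | insert a A ha ih =>
    rw [Finset.set_biUnion_insert, Finset.sum_insert ha]
    have h1 := Set.ncard_union_le (f a) (⋃ i ∈ A, f i)
    have h2 : (((f a ∪ ⋃ i ∈ A, f i).ncard : ℕ) : ℝ) ≤ ((f a).ncard : ℝ) + ((⋃ i ∈ A, f i).ncard : ℝ) := by
      exact_mod_cast h1
    linarith

private theorem st2_run {S : Part (Fin (6 * n))} {x : Fin (6 * n)} {l : List (Fin (6 * n))} {p : ℕ} {P : List ℕ}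
    {F κ : ℕ} {ρ : List Stp → ℕ} (hS : S.Typ (x :: l) (p :: P) F κ) {Pr : List Stp → Prop} {A : Finset (List Stp)}
    (hA : ∀ w, Pr w → wvol w ≤ F → w ∈ A)
    (Z : Tri (Fin (6 * n)) → Part (Fin (6 * n)) → Fin (6 * n) → Prop) {c : List Stp → ℝ} (hc : ∀ w ∈ A, 0 ≤ c w)
    (hZ : ∀ w ∈ A, ∀ S' x', Rch ρ [] S x w S' x' →
      (({T | T ∈ S'.Ext g ∧ S'.HConn T ∧ Z T S' x'}.ncard : ℕ) : ℝ) ≤ ((3 * (F - wvol w)).factorial : ℝ) * c w) :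
    (({T | T ∈ S.Ext g ∧ ∃ w S1 x1, Pr w ∧ Rch ρ [] S x w S1 x1 ∧ S1.Le T ∧ S1.HConn T ∧ Z T S1 x1}.ncard : ℕ) : ℝ) ≤
      ((3 * F).factorial : ℝ) * ∑ w ∈ A, wwt 1 W w * c w := by
  have hsub : {T | T ∈ S.Ext g ∧ ∃ w S1 x1, Pr w ∧ Rch ρ [] S x w S1 x1 ∧ S1.Le T ∧ S1.HConn T ∧ Z T S1 x1} ⊆
      ⋃ w ∈ A, {T | T ∈ S.Ext g ∧ ∃ S' x', Rch ρ [] S x w S' x' ∧ S'.Le T ∧ S'.HConn T ∧ Z T S' x'} := by
    rintro T ⟨hT, w, S1, x1, hw, hr, h1, h2, h3⟩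
    obtain ⟨-, F', hF, -⟩ := rch_typ hS hr
    refine Set.mem_biUnion (hA w hw (by omega)) ?_
    exact ⟨hT, S1, x1, hr, h1, h2, h3⟩
  have h1 : (({T | T ∈ S.Ext g ∧ ∃ w S1 x1, Pr w ∧ Rch ρ [] S x w S1 x1 ∧ S1.Le T ∧ S1.HConn T ∧
      Z T S1 x1}.ncard : ℕ) : ℝ) ≤
      ((⋃ w ∈ A, {T | T ∈ S.Ext g ∧ ∃ S' x', Rch ρ [] S x w S' x' ∧ S'.Le T ∧ S'.HConn T ∧ Z T S' x'}).ncard : ℝ) := by
    exact_mod_cast Set.ncard_le_ncard hsub
  refine (h1.trans (st2_bU A _)).trans ?_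
  rw [Finset.mul_sum]
  refine Finset.sum_le_sum fun w hw => ?_
  have h2 := cyl_le (ρ := ρ) (h := []) (w := w) hS Z (hc w hw) (hZ w hw)
  calc _ ≤ ((3 * F).factorial : ℝ) * wwt 1 Num.W w * c w := h2
    _ = ((3 * F).factorial : ℝ) * (wwt 1 W w * c w) := by ring

/-- the number of the triangulations behind a region with two holes -/
private theorem st2_card (hg : 1 ≤ g) {S : Part (Fin (6 * n))} {x z : Fin (6 * n)} {p q F : ℕ}
    (hS : S.Typ [x, z] [p, q] F 1) :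
    (({T | T ∈ S.Ext g ∧ S.HConn T}.ncard : ℕ) : ℝ) = ((3 * F).factorial : ℝ) * muG (p ::ₘ {q}) F (g - 1) := by
  have h1 := typ_card (h := g - 1) hS
  rw [Nat.sub_add_cancel hg] at h1
  exact h1

theorem cb1 (hg : 1 ≤ g) {t : Et} {S0 : Part (Fin (6 * n))} {z z' : Fin (6 * n)} (hR : Reg t S0 z z') (P : ℕ) (L V : ℝ) :
    (({T | T ∈ S0.Ext g ∧ S0.HConn T ∧ ∃ w S1 x1, BadW t.1 P L V w ∧ Rch (lrule t.1) [] S0 z w S1 x1 ∧ S1.Le T ∧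
      S1.HConn T}.ncard : ℕ) : ℝ) ≤
      ((3 * (2 * n - vE t)).factorial : ℝ) * B1 t.1 t.2.1 P L V (2 * n - vE t) (g - 1) := by
  have key := st2_run (g := g) (ρ := lrule t.1) hR.typ (Pr := BadW t.1 P L V) (A := BadS t.1 P L V (2 * n - vE t))
    (fun w h1 h2 => mem_BadS.2 ⟨h1, h2⟩) (fun _ _ _ => True)
    (c := fun w => muG (wend t.1 w ::ₘ {t.2.1}) (2 * n - vE t - wvol w) (g - 1)) (fun w _ => muG_nonneg _ _ _)
    (by
      intro w hw S' x' hr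
      obtain ⟨-, F', hF, hT⟩ := rch_typ hR.typ hr
      have e : F' = 2 * n - vE t - wvol w := by omega
      rw [e] at hT
      simp only [and_true]
      exact (st2_card hg hT).le)
  refine le_trans ?_ key
  have hsub : {T | T ∈ S0.Ext g ∧ S0.HConn T ∧ ∃ w S1 x1, BadW t.1 P L V w ∧ Rch (lrule t.1) [] S0 z w S1 x1 ∧
      S1.Le T ∧ S1.HConn T} ⊆ {T | T ∈ S0.Ext g ∧ ∃ w S1 x1, BadW t.1 P L V w ∧ Rch (lrule t.1) [] S0 z w S1 x1 ∧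
      S1.Le T ∧ S1.HConn T ∧ True} := by
    rintro T ⟨h1, -, w, S1, x1, h3, h4, h5, h6⟩
    exact ⟨h1, w, S1, x1, h3, h4, h5, h6, trivial⟩
  exact_mod_cast Set.ncard_le_ncard hsub

/-- the second run: the roles of the holes are exchanged -/
private theorem st2_swap {S : Part (Fin (6 * n))} {x z : Fin (6 * n)} {p q F : ℕ} (hS : S.Typ [x, z] [p, q] F 1) :
    S.Typ [z, x] [q, p] F 1 := by
  have h1 := typ_perm hS (List.Perm.swap z x [])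
  have h2 := hS.per
  simp only [List.map_cons, List.map_nil, List.cons.injEq, and_true] at h2
  simp only [List.map_cons, List.map_nil, h2.1, h2.2] at h1
  exact h1

/-- two runs -/
private theorem st2_two (hg : 1 ≤ g) {t : Et} {S0 : Part (Fin (6 * n))} {z z' : Fin (6 * n)} (hR : Reg t S0 z z')
    (P : ℕ) (V : ℝ) (Pr : List Stp → Prop) (A : ℕ → Finset (List Stp))
    (hA : ∀ F w, Pr w → wvol w ≤ F → w ∈ A F) :
    (({T | T ∈ S0.Ext g ∧ S0.HConn T ∧ ∃ w S1 x1, FHV t.1 P V w ∧ Rch (lrule t.1) [] S0 z w S1 x1 ∧ S1.Le T ∧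
      S1.HConn T ∧ ∃ w' S2 x2, Pr w' ∧ Rch (lrule t.2.1) [] S1 z' w' S2 x2 ∧ S2.Le T ∧ S2.HConn T}.ncard : ℕ) : ℝ) ≤
      ((3 * (2 * n - vE t)).factorial : ℝ) * ∑ w ∈ FHS t.1 P V (2 * n - vE t), wwt 1 W w *
        ∑ w' ∈ A (2 * n - vE t - wvol w), wwt 1 W w' *
          muG (wend t.2.1 w' ::ₘ {P}) (2 * n - vE t - wvol w - wvol w') (g - 1) := by
  have key := st2_run (g := g) (ρ := lrule t.1) hR.typ (Pr := FHV t.1 P V) (A := FHS t.1 P V (2 * n - vE t))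
    (fun w h1 h2 => mem_FHS.2 ⟨h1.1, h1.2, h2⟩)
    (fun T S1 _ => ∃ w' S2 x2, Pr w' ∧ Rch (lrule t.2.1) [] S1 z' w' S2 x2 ∧ S2.Le T ∧ S2.HConn T)
    (c := fun w => ∑ w' ∈ A (2 * n - vE t - wvol w), wwt 1 W w' *
          muG (wend t.2.1 w' ::ₘ {P}) (2 * n - vE t - wvol w - wvol w') (g - 1))
    (fun w _ => Finset.sum_nonneg fun w' _ =>
      mul_nonneg (wwt_nonneg zero_le_one W_nonneg w') (muG_nonneg _ _ _))
    (by
      intro w hw S' x' hr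
      obtain ⟨-, F', hF, hT⟩ := rch_typ hR.typ hr
      have e : F' = 2 * n - vE t - wvol w := by omega
      rw [e, (mem_FHS.1 hw).1.2.1] at hT
      have hT2 := st2_swap hT
      have key2 := st2_run (g := g) (ρ := lrule t.2.1) hT2 (Pr := Pr) (A := A (2 * n - vE t - wvol w))
        (hA _) (fun _ _ _ => True)
        (c := fun w' => muG (wend t.2.1 w' ::ₘ {P}) (2 * n - vE t - wvol w - wvol w') (g - 1))
        (fun w' _ => muG_nonneg _ _ _)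
        (by
          intro w' _ S'' x'' hr'
          obtain ⟨-, F'', hF', hT'⟩ := rch_typ hT2 hr'
          have e' : F'' = 2 * n - vE t - wvol w - wvol w' := by omega
          rw [e'] at hT'
          simp only [and_true]
          exact (st2_card hg hT').le)
      refine le_trans ?_ key2
      have hsub : {T | T ∈ S'.Ext g ∧ S'.HConn T ∧ ∃ w' S2 x2, Pr w' ∧ Rch (lrule t.2.1) [] S' z' w' S2 x2 ∧
          S2.Le T ∧ S2.HConn T} ⊆ {T | T ∈ S'.Ext g ∧ ∃ w' S2 x2, Pr w' ∧ Rch (lrule t.2.1) [] S' z' w' S2 x2 ∧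
          S2.Le T ∧ S2.HConn T ∧ True} := by
        rintro T ⟨h1, -, w', S1, x1, h3, h4, h5, h6⟩
        exact ⟨h1, w', S1, x1, h3, h4, h5, h6, trivial⟩
      exact_mod_cast Set.ncard_le_ncard hsub)
  refine le_trans ?_ key
  have hsub : {T | T ∈ S0.Ext g ∧ S0.HConn T ∧ ∃ w S1 x1, FHV t.1 P V w ∧ Rch (lrule t.1) [] S0 z w S1 x1 ∧ S1.Le T ∧
      S1.HConn T ∧ ∃ w' S2 x2, Pr w' ∧ Rch (lrule t.2.1) [] S1 z' w' S2 x2 ∧ S2.Le T ∧ S2.HConn T} ⊆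
      {T | T ∈ S0.Ext g ∧ ∃ w S1 x1, FHV t.1 P V w ∧ Rch (lrule t.1) [] S0 z w S1 x1 ∧ S1.Le T ∧
      S1.HConn T ∧ ∃ w' S2 x2, Pr w' ∧ Rch (lrule t.2.1) [] S1 z' w' S2 x2 ∧ S2.Le T ∧ S2.HConn T} := by
    rintro T ⟨h1, -, h2⟩
    exact ⟨h1, h2⟩
  exact_mod_cast Set.ncard_le_ncard hsub

theorem cb2 (hg : 1 ≤ g) {t : Et} {S0 : Part (Fin (6 * n))} {z z' : Fin (6 * n)} (hR : Reg t S0 z z') (P : ℕ) (L V : ℝ) :
    (({T | T ∈ S0.Ext g ∧ S0.HConn T ∧ ∃ w S1 x1, FHV t.1 P V w ∧ Rch (lrule t.1) [] S0 z w S1 x1 ∧ S1.Le T ∧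
      S1.HConn T ∧ ∃ w' S2 x2, BadW t.2.1 P L V w' ∧ Rch (lrule t.2.1) [] S1 z' w' S2 x2 ∧ S2.Le T ∧ S2.HConn T}.ncard : ℕ) : ℝ) ≤
      ((3 * (2 * n - vE t)).factorial : ℝ) * B2 t.1 t.2.1 P L V (2 * n - vE t) (g - 1) :=
  st2_two hg hR P V (BadW t.2.1 P L V) (fun F => BadS t.2.1 P L V F) fun _ _ h1 h2 => mem_BadS.2 ⟨h1, h2⟩

theorem ca2 (hg : 1 ≤ g) {t : Et} {S0 : Part (Fin (6 * n))} {z z' : Fin (6 * n)} (hR : Reg t S0 z z') (P : ℕ) (V : ℝ) :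
    (({T | T ∈ S0.Ext g ∧ S0.HConn T ∧ ∃ w S1 x1, FHV t.1 P V w ∧ Rch (lrule t.1) [] S0 z w S1 x1 ∧ S1.Le T ∧
      S1.HConn T ∧ ∃ w' S2 x2, FHV t.2.1 P V w' ∧ Rch (lrule t.2.1) [] S1 z' w' S2 x2 ∧ S2.Le T ∧ S2.HConn T}.ncard : ℕ) : ℝ) ≤
      ((3 * (2 * n - vE t)).factorial : ℝ) * AA2 t.1 t.2.1 P V (2 * n - vE t) (g - 1) := by
  refine (st2_two hg hR P V (FHV t.2.1 P V) (fun F => FHS t.2.1 P V F) fun _ _ h1 h2 =>
    mem_FHS.2 ⟨h1.1, h1.2, h2⟩).trans_eq ?_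
  unfold AA2
  congr 1
  refine Finset.sum_congr rfl fun w _ => ?_
  congr 1
  refine Finset.sum_congr rfl fun w' hw' => ?_
  rw [(mem_FHS.1 hw').1.2.1]
  rfl

end SYS.UP
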