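import Pool.Agent.SYS.UP.St2G
import Pool.Agent.SYS.UP.St2C
import Pool.Agent.SYS.UP.EvR

/-!
# SYS-UP-St2K: number of the triangulations of stage 2 without a short separating cycle

PLAN.  A `T` in the set is in `Trn n g`, `S0.Le T`; `st2g`: `HasSep (4 (⌈L⌉₊ + 1) + 8 S0.R.ncard)` is excluded: `T.HasSep` is monotone in the bound, `S0.R.ncard = 3 vE t` (`reg_R`); the other three cases are counted by `cb1`, `cb2`, `ca2` (`Set.ncard_union_le`, finiteness `Set.toFinite`).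
-/

namespace SYS.UP

open SST Part Num

variable {n g : ℕ}

theorem st2c (hn : 1 ≤ n) (hg : 3 ≤ g) {t : Et} {S0 : Part (Fin (6 * n))} {z z' : Fin (6 * n)} (hR : Reg t S0 z z')
    (hv : vE t ≤ 2 * n) {P : ℕ} (h1 : t.1 < P) (h2 : t.2.1 < P) {L V Λ : ℝ} (hΛ : 4 * ((⌈L⌉₊ + 1 : ℕ) : ℝ) + 24 * vE t ≤ Λ) :
    (({T | T ∈ S0.Ext g ∧ S0.HConn T ∧ ¬ T.HasSep Λ}.ncard : ℕ) : ℝ) ≤
      ((3 * (2 * n - vE t)).factorial : ℝ) * (B1 t.1 t.2.1 P L V (2 * n - vE t) (g - 1) +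
        B2 t.1 t.2.1 P L V (2 * n - vE t) (g - 1) + AA2 t.1 t.2.1 P V (2 * n - vE t) (g - 1)) := by
  classical
  have hF : ∀ A : Set (Tri (Fin (6 * n))), A.Finite := fun A => Set.toFinite A
  set A1 := {T | T ∈ S0.Ext g ∧ S0.HConn T ∧ ∃ w S1 x1, BadW t.1 P L V w ∧ Rch (lrule t.1) [] S0 z w S1 x1 ∧ S1.Le T ∧
      S1.HConn T} with hA1
  set A2 := {T | T ∈ S0.Ext g ∧ S0.HConn T ∧ ∃ w S1 x1, FHV t.1 P V w ∧ Rch (lrule t.1) [] S0 z w S1 x1 ∧ S1.Le T ∧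
      S1.HConn T ∧ ∃ w' S2 x2, BadW t.2.1 P L V w' ∧ Rch (lrule t.2.1) [] S1 z' w' S2 x2 ∧ S2.Le T ∧ S2.HConn T} with hA2
  set A3 := {T | T ∈ S0.Ext g ∧ S0.HConn T ∧ ∃ w S1 x1, FHV t.1 P V w ∧ Rch (lrule t.1) [] S0 z w S1 x1 ∧ S1.Le T ∧
      S1.HConn T ∧ ∃ w' S2 x2, FHV t.2.1 P V w' ∧ Rch (lrule t.2.1) [] S1 z' w' S2 x2 ∧ S2.Le T ∧ S2.HConn T} with hA3
  have hsub : {T | T ∈ S0.Ext g ∧ S0.HConn T ∧ ¬ T.HasSep Λ} ⊆ A1 ∪ (A2 ∪ A3) := by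
    rintro T ⟨hT, hh, hns⟩
    rcases st2g hn hg hT.1 hR hT.2 hh h1 h2 (L := L) (V := V) with h3 | h3 | h3 | h3
    · exfalso
      apply hns
      obtain ⟨c, a1, a2, a3, a4, a5⟩ := h3
      refine ⟨c, a1, a2, a3, a4, a5.trans (le_trans ?_ hΛ)⟩
      rw [reg_R hR hv]
      push_cast
      linarith
    · exact Or.inl ⟨hT, hh, h3⟩
    · exact Or.inr (Or.inl ⟨hT, hh, h3⟩)
    · exact Or.inr (Or.inr ⟨hT, hh, h3⟩)
  have e1 : {T | T ∈ S0.Ext g ∧ S0.HConn T ∧ ¬ T.HasSep Λ}.ncard ≤ A1.ncard + (A2.ncard + A3.ncard) :=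
    (Set.ncard_le_ncard hsub (hF _)).trans ((Set.ncard_union_le _ _).trans
      (Nat.add_le_add_left (Set.ncard_union_le _ _) _))
  have e2 : (({T | T ∈ S0.Ext g ∧ S0.HConn T ∧ ¬ T.HasSep Λ}.ncard : ℕ) : ℝ) ≤ A1.ncard + (A2.ncard + A3.ncard) := by
    exact_mod_cast e1
  have hg1 : 1 ≤ g := by omega
  have e3 := cb1 hg1 hR P L V
  have e4 := cb2 hg1 hR P L V
  have e5 := ca2 hg1 hR P V
  rw [← hA1] at e3
  rw [← hA2] at e4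
  rw [← hA3] at e5
  linarith

end SYS.UP
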