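import Pool.Agent.SYS.UP.St2A
import Pool.Agent.SYS.UP.St2B
import Pool.Agent.SYS.UP.St2K
import Pool.Agent.SYS.UP.EvE

/-!
# SYS-UP-St2: after an event of stage 1 there is a short separating cycle with high probability

PLAN.
* `st2_reg`: choose `δ, ε' > 0` small (`ε' < 1/2`) with `(1 + δ) (1 + 2 ε') / x < 1/x + ε / 2`.  `mu_nu` for `{t.1, t.2.1}`, `j = 1` (`n^2` cancels): `muG {t.1, t.2.1} (2n - v) (g-1) ≤ C₁ nu`.  `b12_bd` with `η' = η / (3 C₁)`: `C`.  `aa2_lim` with `η / 3`.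
  `P = ⌈n^(1/2+ε')⌉₊`, `L = C + (1 + δ) log P / (2x)`, `V = C P`: `4 (⌈L⌉₊ + 1) + 24 vE t ≤ 4 L + 8 + 24 vE t ≤ (1/x + ε) log n` eventually (`log P ≤ (1/2 + ε') log n + 1`).  `st2c` (`3 ≤ g`, `vE t ≤ 2n`, `t.1, t.2.1 < P`, `1 ≤ n` eventually).
* `st2_ev`: `evE_le` with `E = Unit` (the pairs are in bijection with the triples), `Z T S0 z z' _ := ¬ T.HasSep ((1/x + ε) log n)`, `c = η nu` (`nu ≥ 0`).
-/

namespace SYS.UP

open SST Part Num Filter Topology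

private theorem fth_n (θ : ℝ) (N : ℕ) : ∀ᶠ p in Num.Fth θ, N ≤ p.1 := by
  unfold Num.Fth
  exact Filter.Eventually.filter_mono inf_le_left
    ((Filter.eventually_ge_atTop N).comap (Prod.fst : ℕ × ℕ → ℕ))

private theorem fth_t {θ : ℝ} : Tendsto (fun p : ℕ × ℕ => (p.1 : ℝ)) (Num.Fth θ) atTop := by
  refine tendsto_natCast_atTop_atTop.comp ?_
  refine Filter.tendsto_atTop.2 fun N => fth_n θ N

private theorem fth_g {θ : ℝ} (hθ : 0 < θ) : ∀ᶠ p in Num.Fth θ, 3 ≤ p.2 := by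
  have h1 : ∀ᶠ p : ℕ × ℕ in Num.Fth θ, θ / 2 < (p.2 : ℝ) / p.1 := by
    unfold Num.Fth
    refine Filter.Eventually.filter_mono inf_le_right ?_
    exact (eventually_gt_nhds (show θ / 2 < θ by linarith)).comap
      (fun p : ℕ × ℕ => (p.2 : ℝ) / p.1)
  have h2 := (fth_t (θ := θ)).eventually_ge_atTop (6 / θ)
  filter_upwards [h1, h2, fth_n θ 1] with p h1 h2 h3
  have hp : (0 : ℝ) < p.1 := by exact_mod_cast h3
  rw [lt_div_iff₀ hp] at h1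
  rw [div_le_iff₀ hθ] at h2
  have h4 : (2 : ℝ) < p.2 := by nlinarith
  have h5 : 2 < p.2 := by exact_mod_cast h4
  omega

private theorem nu_nnX (n g : ℕ) : 0 ≤ SST.nu n g := by
  unfold SST.nu; positivity

theorem st2_reg {θ x : ℝ} (h : Par θ x) {ε η : ℝ} (hε : 0 < ε) (hη : 0 < η) {t : Et} (ht : GoodE t) :
    ∀ᶠ p in Num.Fth θ, ∀ (S0 : Part (Fin (6 * p.1))) (z z' : Fin (6 * p.1)), Reg t S0 z z' →
      (({T | T ∈ S0.Ext p.2 ∧ S0.HConn T ∧ ¬ T.HasSep ((1 / x + ε) * Real.log p.1)}.ncard : ℕ) : ℝ) ≤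
        ((3 * (2 * p.1 - vE t)).factorial : ℝ) * (η * SST.nu p.1 p.2) := by
  obtain ⟨hθ, hθ2, hx, hpar⟩ := id h
  obtain ⟨hq1, hq2, hw1, hw2⟩ := id ht
  obtain ⟨δ, hδ, hδ4, hδx⟩ : ∃ δ : ℝ, 0 < δ ∧ δ ≤ 1 / 4 ∧ δ ≤ x * ε / 11 :=
    ⟨min (1 / 4) (x * ε / 11), lt_min (by norm_num) (by positivity), min_le_left _ _, min_le_right _ _⟩
  obtain ⟨C₁, hC₁, hmu⟩ := mu_nu h ({t.1, t.2.1} : Multiset ℕ) (by simp) (by
    intro q hq
    simp only [Multiset.insert_eq_cons, Multiset.mem_cons, Multiset.mem_singleton] at hq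
    rcases hq with rfl | rfl
    · exact hq1
    · exact hq2) (vE t) 1
  obtain ⟨C, hC, hb⟩ := b12_bd h hδ (show 0 < η / (3 * C₁) by positivity) hq1 hq2 (vE t)
  have hb' := hb δ hδ (by linarith)
  have haa := aa2_lim h hδ (show 0 < η / 3 by positivity) hq1 hq2 (vE t)
  have hpow : Tendsto (fun p : ℕ × ℕ => (p.1 : ℝ) ^ (1 / 2 + δ)) (Num.Fth θ) atTop :=
    (tendsto_rpow_atTop (by positivity)).comp fth_t
  have hlog : Tendsto (fun p : ℕ × ℕ => Real.log (p.1 : ℝ)) (Num.Fth θ) atTop :=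
    Real.tendsto_log_atTop.comp fth_t
  have e1 := hpow.eventually_gt_atTop (t.1 : ℝ)
  have e2 := hpow.eventually_gt_atTop (t.2.1 : ℝ)
  have e3 := hpow.eventually_ge_atTop (1 : ℝ)
  have e4 := hlog.eventually_ge_atTop
    ((4 * C + 8 + 24 * vE t + 2 * (1 + δ) / x * Real.log 2) / (ε / 2))
  filter_upwards [hmu, hb', haa, e1, e2, e3, e4, fth_n θ 1, fth_n θ (vE t), fth_g hθ] with
    p hmu hb' haa e1 e2 e3 e4 hn hv hg S0 z z' hR
  have hnp : (0 : ℝ) < p.1 := by exact_mod_cast hn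
  have hn1 : (1 : ℝ) ≤ p.1 := by exact_mod_cast hn
  set P : ℕ := ⌈(p.1 : ℝ) ^ (1 / 2 + δ)⌉₊ with hP
  have hPle : (p.1 : ℝ) ^ (1 / 2 + δ) ≤ P := Nat.le_ceil _
  have hP1 : (1 : ℝ) ≤ P := le_trans e3 hPle
  have hPlt : (P : ℝ) < (p.1 : ℝ) ^ (1 / 2 + δ) + 1 := Nat.ceil_lt_add_one (by positivity)
  have hP2 : (P : ℝ) ≤ 2 * (p.1 : ℝ) ^ (1 / 2 + δ) := by linarith
  have hlogP : Real.log P ≤ Real.log 2 + (1 / 2 + δ) * Real.log p.1 := by
    have h1 := Real.log_le_log (by linarith) hP2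
    rw [Real.log_mul (by norm_num) (by positivity), Real.log_rpow hnp] at h1
    exact h1
  have hlogP0 : 0 ≤ Real.log P := Real.log_nonneg hP1
  have hlogn : 0 ≤ Real.log (p.1 : ℝ) := Real.log_nonneg hn1
  obtain ⟨hB1, hB2⟩ := hb' P rfl
  have hA := haa P (C * P) rfl
  have hmu' : muG {t.1, t.2.1} (2 * p.1 - vE t) (p.2 - 1) ≤ C₁ * SST.nu p.1 p.2 := by
    have hc : Multiset.card ({t.1, t.2.1} : Multiset ℕ) = 2 := by simp
    rw [hc] at hmu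
    have hsq : (0 : ℝ) < (p.1 : ℝ) ^ 2 := by positivity
    have h2 : muG {t.1, t.2.1} (2 * p.1 - vE t) (p.2 - 1) * (p.1 : ℝ) ^ 2 ≤
        (C₁ * SST.nu p.1 p.2) * (p.1 : ℝ) ^ 2 := by
      have h3 : (p.1 : ℝ) ^ (2 * 1) = (p.1 : ℝ) ^ 2 := by norm_num
      rw [h3] at hmu
      linarith [hmu, mul_right_comm C₁ ((p.1 : ℝ) ^ 2) (SST.nu p.1 p.2)]
    exact le_of_mul_le_mul_right h2 hsq
  have hB : η / (3 * C₁) * muG {t.1, t.2.1} (2 * p.1 - vE t) (p.2 - 1) ≤ η / 3 * SST.nu p.1 p.2 := by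
    have h3 := mul_le_mul_of_nonneg_left hmu' (show 0 ≤ η / (3 * C₁) by positivity)
    have h4 : η / (3 * C₁) * (C₁ * SST.nu p.1 p.2) = η / 3 * SST.nu p.1 p.2 := by
      field_simp
    linarith
  have hL0 : 0 ≤ C + (1 + δ) * Real.log P / (2 * x) := by positivity
  have hΛ : 4 * ((⌈C + (1 + δ) * Real.log P / (2 * x)⌉₊ + 1 : ℕ) : ℝ) + 24 * vE t ≤
      (1 / x + ε) * Real.log p.1 := by
    have h5 := (Nat.ceil_lt_add_one hL0).le
    push_cast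
    rw [div_le_iff₀ (by positivity)] at e4
    have h6 : (1 + δ) * Real.log P / (2 * x) ≤
        (1 + δ) * (Real.log 2 + (1 / 2 + δ) * Real.log p.1) / (2 * x) := by
      gcongr
    have h7 : 4 * ((1 + δ) * (Real.log 2 + (1 / 2 + δ) * Real.log p.1) / (2 * x)) =
        2 * (1 + δ) / x * Real.log 2 + ((1 + δ) * (1 + 2 * δ) / x) * Real.log p.1 := by
      field_simp
      ring
    have h8 : (1 + δ) * (1 + 2 * δ) / x ≤ 1 / x + ε / 2 := by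
      rw [div_le_iff₀ hx]
      have h9 : (1 / x + ε / 2) * x = 1 + ε / 2 * x := by field_simp
      rw [h9]
      nlinarith
    have h10 := mul_le_mul_of_nonneg_right h8 hlogn
    nlinarith
  have key := st2c hn hg hR (show vE t ≤ 2 * p.1 by omega) (P := P)
    (by exact_mod_cast lt_of_lt_of_le e1 hPle) (by exact_mod_cast lt_of_lt_of_le e2 hPle)
    (L := C + (1 + δ) * Real.log P / (2 * x)) (V := C * P) hΛ
  refine key.trans ?_
  refine mul_le_mul_of_nonneg_left ?_ (by positivity)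
  linarith

theorem st2_ev {θ x : ℝ} (h : Par θ x) {ε η : ℝ} (hε : 0 < ε) (hη : 0 < η) {t : Et} (ht : GoodE t) :
    ∀ᶠ p in Num.Fth θ, (({q : Tri (Fin (6 * p.1)) × Fin (6 * p.1) | q.1 ∈ Trn p.1 p.2 ∧
      (∃ S0 z z', Ev q.1 q.2 t S0 z z') ∧ ¬ q.1.HasSep ((1 / x + ε) * Real.log p.1)}.ncard : ℕ) : ℝ) ≤
        ((6 * p.1).factorial : ℝ) * (η * SST.nu p.1 p.2) := by
  have hη' : 0 < η / (|wE t| + 1) := by positivity
  filter_upwards [st2_reg h hε hη' ht, fth_n θ 1, fth_n θ (vE t)] with p hp hn hv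
  have key := evE_le (g := p.2) (E := Unit) hn ht (show vE t ≤ 2 * p.1 by omega)
    (fun T _ _ _ _ => ¬ T.HasSep ((1 / x + ε) * Real.log p.1))
    (c := η / (|wE t| + 1) * SST.nu p.1 p.2) (mul_nonneg hη'.le (nu_nnX _ _)) (by
      intro S0 z z' hR
      refine le_trans ?_ (hp S0 z z' hR)
      have := Set.ncard_le_ncard_of_injOn (s := {q : Tri (Fin (6 * p.1)) × Unit | q.1 ∈ S0.Ext p.2 ∧
        S0.HConn q.1 ∧ ¬ q.1.HasSep ((1 / x + ε) * Real.log p.1)})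
        (t := {T | T ∈ S0.Ext p.2 ∧ S0.HConn T ∧ ¬ T.HasSep ((1 / x + ε) * Real.log p.1)})
        Prod.fst (fun q hq => hq) (by
          rintro ⟨a, _⟩ _ ⟨b, _⟩ _ hab
          simp only at hab
          rw [hab]) (Set.toFinite _)
      exact_mod_cast this)
  have h1 := Set.ncard_le_ncard_of_injOn (s := {q : Tri (Fin (6 * p.1)) × Fin (6 * p.1) | q.1 ∈ Trn p.1 p.2 ∧
      (∃ S0 z z', Ev q.1 q.2 t S0 z z') ∧ ¬ q.1.HasSep ((1 / x + ε) * Real.log p.1)})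
      (t := {q : Tri (Fin (6 * p.1)) × Fin (6 * p.1) × Unit | q.1 ∈ Trn p.1 p.2 ∧
        ∃ S0 z z', Ev q.1 q.2.1 t S0 z z' ∧ ¬ q.1.HasSep ((1 / x + ε) * Real.log p.1)})
      (fun q => (q.1, q.2, ())) (by
        rintro ⟨T, y⟩ ⟨h1, ⟨S0, z, z', h2⟩, h3⟩
        exact ⟨h1, S0, z, z', h2, h3⟩) (by
        rintro ⟨a, b⟩ _ ⟨c, d⟩ _ hab
        simp only [Prod.mk.injEq, and_true] at hab
        obtain ⟨rfl, rfl⟩ := hab
        rfl) (Set.toFinite _)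
  have h2 : (({q : Tri (Fin (6 * p.1)) × Fin (6 * p.1) | q.1 ∈ Trn p.1 p.2 ∧
      (∃ S0 z z', Ev q.1 q.2 t S0 z z') ∧ ¬ q.1.HasSep ((1 / x + ε) * Real.log p.1)}.ncard : ℕ) : ℝ) ≤
      ((6 * p.1).factorial : ℝ) * wE t * (η / (|wE t| + 1) * SST.nu p.1 p.2) :=
    le_trans (by exact_mod_cast h1) key
  refine h2.trans ?_
  rw [mul_assoc]
  refine mul_le_mul_of_nonneg_left ?_ (by positivity)
  rw [← mul_assoc]
  refine mul_le_mul_of_nonneg_right ?_ (nu_nnX _ _)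
  rw [← mul_div_assoc, div_le_iff₀ (by positivity)]
  nlinarith [le_abs_self (wE t), abs_nonneg (wE t)]

end SYS.UP
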