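import Pool.Agent.SYS.UP.SysU
import Pool.Agent.SYS.UP.St2
import Pool.Agent.SYS.UP.Frac

/-!
# SYS-UP-Main: the upper bound

PROOF.
* `up_trn`: `sys_u`: `C0`, `C`.  Given `η > 0` take `K ≥ 1` with `C / K ≤ η / 3`.  The `T` without the property: either no event of the scales `i < K` (at most `(η/3) #Trn` of them), or there are `i < K`, `y`, `t ∈ ES C0 i` and an event of type `t` at `y`: `st2_ev` for each of the finitely many `t`.
* `up`: `(n, g n) → Fth θ`; `Pr HasSep = #{T, HasSep}/#Trn = 1 - #{T, ¬ HasSep}/#Trn` (`#Trn > 0` eventually).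
-/

namespace SYS.UP

open SST Part Num Filter Topology

theorem up_trn {θ x : ℝ} (h : Par θ x) {ε : ℝ} (hε : 0 < ε) :
    Tendsto (fun p : ℕ × ℕ => ({T : Tri (Fin (6 * p.1)) | T ∈ Trn p.1 p.2 ∧
      ¬ T.HasSep ((1 / x + ε) * Real.log p.1)}.ncard : ℝ) / (Trn p.1 p.2).ncard) (Num.Fth θ) (𝓝 0) := by
  classical
  obtain ⟨C0, C, hC, hsys⟩ := sys_u h
  rw [Metric.tendsto_nhds]
  intro η hη
  obtain ⟨K, hK⟩ := exists_nat_gt (C / (η / 3))
  have hK0 : 0 < (K : ℝ) := lt_trans (div_pos hC (by linarith)) hK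
  have hK1 : 1 ≤ K := by exact_mod_cast hK0
  have hCK : C < K * (η / 3) := by
    rwa [div_lt_iff₀ (by linarith)] at hK
  set S : Finset Et := (Finset.range K).biUnion (ES C0) with hS
  have hSG : ∀ t ∈ S, GoodE t := by
    intro t ht
    rw [hS, Finset.mem_biUnion] at ht
    obtain ⟨i, -, hi⟩ := ht
    exact (mem_EvF.1 hi).1
  set η' : ℝ := η / (3 * (S.card + 1)) with hη'
  have hη'0 : 0 < η' := by positivity
  have hev : ∀ᶠ p in Num.Fth θ, ∀ t ∈ S, (({q : Tri (Fin (6 * p.1)) × Fin (6 * p.1) | q.1 ∈ Trn p.1 p.2 ∧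
      (∃ S0 z z', Ev q.1 q.2 t S0 z z') ∧ ¬ q.1.HasSep ((1 / x + ε) * Real.log p.1)}.ncard : ℕ) : ℝ) ≤
        ((6 * p.1).factorial : ℝ) * (η' * SST.nu p.1 p.2) := by
    rw [Filter.eventually_all_finset]
    exact fun t ht => st2_ev h hε hη'0 (hSG t ht)
  filter_upwards [hsys K hK1, hev] with p h1 h2
  rw [Real.dist_eq, sub_zero]
  rcases Nat.eq_zero_or_pos (Trn p.1 p.2).ncard with h0 | h0
  · rw [h0, Nat.cast_zero, div_zero, abs_zero]
    exact hη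
  have h0' : (0 : ℝ) < ((Trn p.1 p.2).ncard : ℝ) := by exact_mod_cast h0
  rw [abs_of_nonneg (by positivity), div_lt_iff₀ h0']
  have hnu : ((6 * p.1).factorial : ℝ) * SST.nu p.1 p.2 = (Trn p.1 p.2).ncard := by
    have h3 : ((6 * p.1).factorial : ℝ) ≠ 0 := by exact_mod_cast Nat.factorial_ne_zero _
    rw [SST.nu]
    field_simp
  set B : Set (Tri (Fin (6 * p.1))) := {T | T ∈ Trn p.1 p.2 ∧ ¬ T.HasSep ((1 / x + ε) * Real.log p.1)} with hB
  set A0 : Set (Tri (Fin (6 * p.1))) := {T | T ∈ Trn p.1 p.2 ∧ ∀ i < K, ∀ y, ¬ EvX (ES C0 i) T y} with hA0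
  let Q : Et → Set (Tri (Fin (6 * p.1)) × Fin (6 * p.1)) := fun t => {q | q.1 ∈ Trn p.1 p.2 ∧
      (∃ S0 z z', Ev q.1 q.2 t S0 z z') ∧ ¬ q.1.HasSep ((1 / x + ε) * Real.log p.1)}
  have hsub : B ⊆ A0 ∪ ⋃ t ∈ S, Prod.fst '' Q t := by
    rintro T ⟨hT, hn⟩
    by_cases h3 : ∀ i < K, ∀ y, ¬ EvX (ES C0 i) T y
    · exact Or.inl ⟨hT, h3⟩
    · right
      push Not at h3
      obtain ⟨i, hi, y, t, ht, S0, z, z', he⟩ := h3
      rw [Set.mem_iUnion₂]
      refine ⟨t, ?_, (T, y), ⟨hT, ⟨S0, z, z', he⟩, hn⟩, rfl⟩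
      rw [hS, Finset.mem_biUnion]
      exact ⟨i, Finset.mem_range.2 hi, ht⟩
  have e1 : B.ncard ≤ A0.ncard + ∑ t ∈ S, (Q t).ncard := by
    refine (Set.ncard_le_ncard hsub (Set.toFinite _)).trans ((Set.ncard_union_le _ _).trans (Nat.add_le_add_left ?_ _))
    refine (Finset.set_ncard_biUnion_le _ _).trans (Finset.sum_le_sum fun t _ => ?_)
    exact Set.ncard_image_le (Set.toFinite _)
  have e2 : (B.ncard : ℝ) ≤ A0.ncard + ∑ t ∈ S, ((Q t).ncard : ℝ) := by exact_mod_cast e1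
  have e3 : ∑ t ∈ S, ((Q t).ncard : ℝ) ≤ ∑ _t ∈ S, η' * (Trn p.1 p.2).ncard := by
    refine Finset.sum_le_sum fun t ht => (h2 t ht).trans (le_of_eq ?_)
    rw [← hnu]
    ring
  rw [Finset.sum_const, nsmul_eq_mul] at e3
  have e4 : (S.card : ℝ) * η' ≤ η / 3 := by
    rw [hη', mul_div_assoc', div_le_iff₀ (by positivity)]
    nlinarith
  have e5 : (A0.ncard : ℝ) ≤ η / 3 * (Trn p.1 p.2).ncard := by
    have h4 : (K : ℝ) * A0.ncard ≤ C * (Trn p.1 p.2).ncard := h1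
    have h5 : C * ((Trn p.1 p.2).ncard : ℝ) ≤ K * (η / 3) * (Trn p.1 p.2).ncard :=
      mul_le_mul_of_nonneg_right hCK.le h0'.le
    have h6 : (K : ℝ) * A0.ncard ≤ K * (η / 3 * (Trn p.1 p.2).ncard) := by
      calc (K : ℝ) * A0.ncard ≤ C * (Trn p.1 p.2).ncard := h4
        _ ≤ K * (η / 3) * (Trn p.1 p.2).ncard := h5
        _ = K * (η / 3 * (Trn p.1 p.2).ncard) := by ring
    exact le_of_mul_le_mul_left h6 hK0
  have e6 : (S.card : ℝ) * (η' * (Trn p.1 p.2).ncard) ≤ η / 3 * (Trn p.1 p.2).ncard := by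
    rw [← mul_assoc]
    exact mul_le_mul_of_nonneg_right e4 h0'.le
  have e7 : 0 < η / 3 * ((Trn p.1 p.2).ncard : ℝ) := by positivity
  linarith

theorem up {θ x : ℝ} (h : Par θ x) (g : ℕ → ℕ) (hg : Tendsto (fun n => (g n : ℝ) / n) atTop (𝓝 θ)) {ε : ℝ} (hε : 0 < ε) :
    Tendsto (fun n => Pr (n := n) (g := g n) fun q => q.HasSep ((1 / x + ε) * Real.log n)) atTop (𝓝 1) := by
  classical
  have ht : Tendsto (fun n : ℕ => ((n, g n) : ℕ × ℕ)) atTop (Num.Fth θ) := by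
    rw [Num.Fth, tendsto_inf, tendsto_comap_iff, tendsto_comap_iff]
    exact ⟨tendsto_id, hg⟩
  have h1 := (up_trn h hε).comp ht
  have h2 := h1.const_sub 1
  rw [sub_zero] at h2
  refine h2.congr' ?_
  filter_upwards [ht.eventually (nu_pos_ev h), eventually_ge_atTop 1] with n hn hn1
  have hpos : (0 : ℝ) < ((Trn n (g n)).ncard : ℝ) := by
    rcases Nat.eq_zero_or_pos (Trn n (g n)).ncard with h0 | h0
    · exfalso
      rw [SST.nu] at hn
      simp only [h0, Nat.cast_zero, zero_div, lt_irrefl] at hn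
    · exact_mod_cast h0
  rw [frac_sep hn1, eq_div_iff hpos.ne']
  show (1 - ({T : Tri (Fin (6 * n)) | T ∈ Trn n (g n) ∧
      ¬ T.HasSep ((1 / x + ε) * Real.log n)}.ncard : ℝ) / (Trn n (g n)).ncard) * (Trn n (g n)).ncard = _
  rw [sub_mul, one_mul, div_mul_cancel₀ _ hpos.ne']
  have h3 : {T : Tri (Fin (6 * n)) | T ∈ Trn n (g n) ∧ T.HasSep ((1 / x + ε) * Real.log n)}.ncard +
      {T : Tri (Fin (6 * n)) | T ∈ Trn n (g n) ∧ ¬ T.HasSep ((1 / x + ε) * Real.log n)}.ncard = (Trn n (g n)).ncard := by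
    rw [← Set.ncard_union_eq ?_ (Set.toFinite _) (Set.toFinite _)]
    · congr 1
      ext T
      simp only [Set.mem_union, Set.mem_setOf_eq]
      tauto
    · rw [Set.disjoint_left]
      rintro T ⟨-, a⟩ ⟨-, b⟩
      exact b a
  rw [← h3]
  push_cast
  ring

end SYS.UP
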