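import Pool.Agent.SYS.UP.EvD

/-!
# SYS-UP-MrgC: number of merges

Union bound over the dart `y = T.a x` of the hole of `z` or of `z'`, each term by `mrg_card`.
-/

namespace SYS.UP

open SST Part Num

variable {n g : ℕ}

private theorem mrg_one {S : Part (Fin (6 * n))} {x y z' : Fin (6 * n)} {p q1 q2 F : ℕ}
    (hS : S.Typ [x, y, z'] [p, q1, q2] F 1) (hg : 1 ≤ g) (hpq : 2 < p + q1) :
    (({T | T ∈ S.Ext g ∧ S.HConn T ∧ T.a x = y}.ncard : ℕ) : ℝ) =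
      ((3 * F).factorial : ℝ) * muG {p + q1 - 2, q2} F (g - 1) := by
  have h := mrg_card (g := g) (h := g - 1) hS hpq (by omega)
  exact h

private theorem mrg_swap {S : Part (Fin (6 * n))} {x z z' : Fin (6 * n)} {p q1 q2 F : ℕ}
    (hS : S.Typ [x, z, z'] [p, q1, q2] F 1) : S.Typ [x, z', z] [p, q2, q1] F 1 := by
  have h1 := typ_perm hS (l' := [x, z', z]) (List.Perm.cons x (List.Perm.swap z' z []))
  have h2 := hS.per
  simp only [List.map_cons, List.map_nil, List.cons.injEq, and_true] at h2 h1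
  rw [h2.1, h2.2.1, h2.2.2] at h1
  exact h1

private theorem mrg_repl {S : Part (Fin (6 * n))} {x z z' y : Fin (6 * n)} {p q1 q2 F : ℕ}
    (hS : S.Typ [x, z, z'] [p, q1, q2] F 1) (hy : y ∈ S.B) (hzy : S.s.SameCycle z y) :
    S.Typ [x, y, z'] [p, q1, q2] F 1 := by
  have h2 := hS.per
  simp only [List.map_cons, List.map_nil, List.cons.injEq, and_true] at h2
  have h1 := typ_perm hS (l' := [z, x, z']) (List.Perm.swap z x [z'])
  have h3 := typ_repl h1 hy hzy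
  have h4 := typ_perm h3 (l' := [x, y, z']) (List.Perm.swap x y [z'])
  have h5 : S.per y = S.per z := (per_same S hzy).symm
  simp only [List.map_cons, List.map_nil] at h4
  rw [h5, h2.1, h2.2.1, h2.2.2] at h4
  exact h4

/-- The merges with the hole of `z`. -/
private theorem mrg_side {S : Part (Fin (6 * n))} {x z z' : Fin (6 * n)} {p q1 q2 F : ℕ}
    (hS : S.Typ [x, z, z'] [p, q1, q2] F 1) (hg : 1 ≤ g) (hp : 1 ≤ p) (h1 : 2 ≤ q1) :
    (({T | T ∈ S.Ext g ∧ S.HConn T ∧ T.a x ∈ S.hw z}.ncard : ℕ) : ℝ) ≤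
      ((3 * F).factorial : ℝ) * (q1 * muG {p + q1 - 2, q2} F (g - 1)) := by
  classical
  have hz : z ∈ S.B := hS.hl.1 z (by simp)
  have hper : S.per z = q1 := by
    have h2 := hS.per
    simp only [List.map_cons, List.map_nil, List.cons.injEq, and_true] at h2
    exact h2.2.1
  have hnd := hw_nodup S hz
  have hlen : (S.hw z).length = q1 := by rw [hw_length S hz, hper]
  have hset : {T | T ∈ S.Ext g ∧ S.HConn T ∧ T.a x ∈ S.hw z} =
      ⋃ y ∈ (S.hw z).toFinset, {T | T ∈ S.Ext g ∧ S.HConn T ∧ T.a x = y} := by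
    ext T
    simp only [Set.mem_setOf_eq, Set.mem_iUnion, List.mem_toFinset, exists_prop]
    constructor
    · rintro ⟨h2, h3, h4⟩
      exact ⟨T.a x, h4, h2, h3, rfl⟩
    · rintro ⟨y, hy, h2, h3, h4⟩
      exact ⟨h2, h3, by rw [h4]; exact hy⟩
  have hle : ({T | T ∈ S.Ext g ∧ S.HConn T ∧ T.a x ∈ S.hw z}.ncard) ≤
      ∑ y ∈ (S.hw z).toFinset, {T | T ∈ S.Ext g ∧ S.HConn T ∧ T.a x = y}.ncard := by
    rw [hset]
    exact Finset.set_ncard_biUnion_le _ _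
  have hsum : (∑ y ∈ (S.hw z).toFinset, (({T | T ∈ S.Ext g ∧ S.HConn T ∧ T.a x = y}.ncard : ℕ) : ℝ)) =
      ((3 * F).factorial : ℝ) * (q1 * muG {p + q1 - 2, q2} F (g - 1)) := by
    rw [Finset.sum_congr rfl (fun y hy => mrg_one (g := g) (mrg_repl hS ((mem_hw S hz).1 (List.mem_toFinset.1 hy)).1
      ((mem_hw S hz).1 (List.mem_toFinset.1 hy)).2) hg (by omega)), Finset.sum_const,
      List.toFinset_card_of_nodup hnd, hlen, nsmul_eq_mul]
    ring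
  rw [← hsum]
  exact_mod_cast hle

theorem mrg_le {S : Part (Fin (6 * n))} {x z z' : Fin (6 * n)} {p q1 q2 F : ℕ} (hS : S.Typ [x, z, z'] [p, q1, q2] F 1)
    (hg : 1 ≤ g) (hp : 1 ≤ p) (h1 : 2 ≤ q1) (h2 : 2 ≤ q2) :
    (({T | T ∈ S.Ext g ∧ S.HConn T ∧ S.Mrg T x}.ncard : ℕ) : ℝ) ≤
      ((3 * F).factorial : ℝ) * (q1 * muG {p + q1 - 2, q2} F (g - 1) + q2 * muG {p + q2 - 2, q1} F (g - 1)) := by
  have hz : z ∈ S.B := hS.hl.1 z (by simp)
  have hz' : z' ∈ S.B := hS.hl.1 z' (by simp)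
  have hsub : {T | T ∈ S.Ext g ∧ S.HConn T ∧ S.Mrg T x} ⊆
      {T | T ∈ S.Ext g ∧ S.HConn T ∧ T.a x ∈ S.hw z} ∪ {T | T ∈ S.Ext g ∧ S.HConn T ∧ T.a x ∈ S.hw z'} := by
    rintro T ⟨h3, h4, h5, h6⟩
    obtain ⟨e, he, hes⟩ := hS.hl.2.2 (T.a x) h5
    simp only [List.mem_cons, List.not_mem_nil, or_false] at he
    rcases he with rfl | rfl | rfl
    · exact absurd hes h6
    · exact Or.inl ⟨h3, h4, (mem_hw S hz).2 ⟨h5, hes⟩⟩
    · exact Or.inr ⟨h3, h4, (mem_hw S hz').2 ⟨h5, hes⟩⟩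
  have h3 := Set.ncard_le_ncard hsub (Set.toFinite _)
  have h4 := h3.trans (Set.ncard_union_le _ _)
  have h5 := mrg_side (g := g) hS hg hp h1
  have h6 := mrg_side (g := g) (mrg_swap hS) hg hp h2
  have h7 : (({T | T ∈ S.Ext g ∧ S.HConn T ∧ S.Mrg T x}.ncard : ℕ) : ℝ) ≤
      (({T | T ∈ S.Ext g ∧ S.HConn T ∧ T.a x ∈ S.hw z}.ncard : ℕ) : ℝ) +
        (({T | T ∈ S.Ext g ∧ S.HConn T ∧ T.a x ∈ S.hw z'}.ncard : ℕ) : ℝ) := by exact_mod_cast h4
  rw [mul_add]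
  exact h7.trans (add_le_add h5 h6)

end SYS.UP
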