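import Pool.Agent.SYS.UP.Fin

/-!
# SYS-UP-MuNu: numbers of maps with holes are at most a constant times `n^(#P) nu`

By `fin_nat` if `v + P.sum` is even, by `muG_odd` otherwise.
-/

namespace SYS.UP

open SYS.Num Real Filter Topology

theorem mu_nu {θ x : ℝ} (h : Par θ x) (P : Multiset ℕ) (hP : P ≠ 0) (hP1 : ∀ q ∈ P, 1 ≤ q) (v j : ℕ) :
    ∃ C : ℝ, 0 < C ∧ ∀ᶠ p in Num.Fth θ,
      muG P (2 * p.1 - v) (p.2 - j) * (p.1 : ℝ) ^ (2 * j) ≤ C * (p.1 : ℝ) ^ Multiset.card P * SST.nu p.1 p.2 := by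
  have hn := nu_pos_ev h
  by_cases hev : Even (v + P.sum)
  · have h1 := (fin_nat h hP1 v j hev).eventually_lt_const
      (show Lc x P v j < |Lc x P v j| + 1 by linarith [le_abs_self (Lc x P v j)])
    refine ⟨|Lc x P v j| + 1, by positivity, ?_⟩
    filter_upwards [h1, hn, RB.ge_ev θ 1] with p hp hnp hp1
    have hp1' : (0 : ℝ) < (p.1 : ℝ) := by
      have : 0 < p.1 := hp1
      exact_mod_cast this
    have hd : 0 < (p.1 : ℝ) ^ Multiset.card P * SST.nu p.1 p.2 := mul_pos (pow_pos hp1' _) hnp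
    have h2 := (div_lt_iff₀ hd).1 hp
    rw [← mul_assoc] at h2
    exact h2.le
  · refine ⟨1, one_pos, ?_⟩
    filter_upwards [hn, RB.ge_ev θ v] with p hnp hpv
    have hpv' : v ≤ p.1 := hpv
    have h2 : muG P (2 * p.1 - v) (p.2 - j) = 0 := by
      refine muG_odd (fun h3 => hev ?_) _
      obtain ⟨k, hk⟩ := h3
      exact ⟨k + v - p.1, by omega⟩
    rw [h2, zero_mul]
    have h3 : (0 : ℝ) ≤ (p.1 : ℝ) ^ Multiset.card P := pow_nonneg (Nat.cast_nonneg _) _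
    rw [one_mul]
    exact mul_nonneg h3 hnp.le

end SYS.UP
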