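import Pool.Agent.SYS.UP.SepN

/-!
# SYS-UP-Oth: the terms of Tutte's equation (`Num.tutO`, `Num.tutG_one`) which are not planar are negligible

`F = 2 n - v`, `k = #Q + 1`.  All limits are for the term times `n^(2j) / (n^k nu n g)`.
PROOF.
* `ns_neg`: `g - j ≥ 1` eventually (`RB.ge_ev'`), so `NS p Q F (g-j) = ∑_{x ∈ antidiagonal (p-2)} muG (x.1 ::ₘ x.2 ::ₘ Q) F (g - (j+1))` (`Nat.sub_sub`), a finite sum; a term with
  `x.1 = 0` or `x.2 = 0` is `0` for `F ≥ 1` (`Num.tutG_zero`, `Multiset.cons_swap`); every other term is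
  `Rt (x.1 ::ₘ x.2 ::ₘ Q) v (j+1) p * n^(k+1) nu n g/n^(2(j+1))`, so after normalisation `Rt * n^(-1) → 0` (`Rt_bd`).
* `mr_neg`: `MRG`: `(Q.map ..).sum`, finite; the multiset `(q+p-2) ::ₘ Q.erase q` has `k - 1` elements (`q ∈ Q`): `Rt * n^(-1)`; its entries are `≥ 1` for `p ≥ 2` (`q + p - 2 ≥ 1`).
  (`Multiset.induction_on` or: a multiset sum of functions tending to 0, `tendsto_multiset_sum`.)
* `sep_neg`: `SEP p Q F g' = ∑_{x ∈ antidiagonal (p-2)} ∑_{y ∈ antidiagonal F} ∑_{z ∈ antidiagonal g'} conv ..` and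
  `SYS.A.conv f f' Q = (Q.antidiagonal.map fun R => f R.1 * f' R.2).sum`.  Interchange the sums: `SEP = ∑_x (Q.antidiagonal.map fun R => SepR (x.1 ::ₘ R.1) (x.2 ::ₘ R.2) F g').sum`
  (`sep_eq`): `muN k R a b` is `0` if `R = 0 ∧ b = 0`, i.e. if `card (k ::ₘ R) = 1 ∧ b = 0`, and `muG (k ::ₘ R) a b` otherwise.
  For `x.1 = 0` or `x.2 = 0` the `SepR` is `0` (`tutG_zero`: `muG (0 ::ₘ R) a b ≠ 0` only for `R = 0`, `a = b = 0`, excluded in `SepR`).  Otherwise `R.1 + R.2 = Q`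
  (`Multiset.mem_antidiagonal`), so the two cards add up to `#Q + 2 = k + 1`: `sepR_neg` is exactly the statement (`n/n^(k+1) = 1/n^k`).
* `ml_neg`: the same as `mr_neg` for the term of `tutG_one` (`q - 1`): if `q ≥ 2` the entries are `≥ 1`; if `q = 1` the multiset is `0 ::ₘ Q.erase 1` and
  `muG (0 ::ₘ R) F g = 0` for `F ≥ 1`.
-/

namespace SYS.UP

open SYS.Num Real Filter Topology Finset

theorem sep_eq (p : ℕ) (Q : Multiset ℕ) (F g : ℕ) :
    SEP p Q F g = ∑ x ∈ HasAntidiagonal.antidiagonal (p - 2),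
      (Q.antidiagonal.map fun R => SepR (x.1 ::ₘ R.1) (x.2 ::ₘ R.2) F g).sum := by
  unfold SEP
  refine Finset.sum_congr rfl fun x _ => ?_
  have h1 : ∀ y : ℕ × ℕ, ∑ z ∈ HasAntidiagonal.antidiagonal g,
      SYS.A.conv (fun R => muN x.1 R y.1 z.1) (fun R => muN x.2 R y.2 z.2) Q =
      (Q.antidiagonal.map fun w => ∑ z ∈ HasAntidiagonal.antidiagonal g,
        muN x.1 w.1 y.1 z.1 * muN x.2 w.2 y.2 z.2).sum := by
    intro y
    unfold SYS.A.conv
    exact Multiset.sum_map_sum_map _ _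
  rw [Finset.sum_congr rfl fun y _ => h1 y]
  have h2 : ∑ y ∈ HasAntidiagonal.antidiagonal F,
      (Q.antidiagonal.map fun w => ∑ z ∈ HasAntidiagonal.antidiagonal g,
        muN x.1 w.1 y.1 z.1 * muN x.2 w.2 y.2 z.2).sum =
      (Q.antidiagonal.map fun w => ∑ y ∈ HasAntidiagonal.antidiagonal F, ∑ z ∈ HasAntidiagonal.antidiagonal g,
        muN x.1 w.1 y.1 z.1 * muN x.2 w.2 y.2 z.2).sum := Multiset.sum_map_sum_map _ _
  rw [h2]
  congr 1
  refine Multiset.map_congr rfl fun R _ => ?_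
  unfold SepR
  refine Finset.sum_congr rfl fun y _ => ?_
  rw [Finset.sum_filter]
  refine Finset.sum_congr rfl fun z _ => ?_
  have c1 : Multiset.card (x.1 ::ₘ R.1) = 1 ↔ R.1 = 0 := by
    rw [Multiset.card_cons, Nat.add_eq_right, Multiset.card_eq_zero]
  have c2 : Multiset.card (x.2 ::ₘ R.2) = 1 ↔ R.2 = 0 := by
    rw [Multiset.card_cons, Nat.add_eq_right, Multiset.card_eq_zero]
  unfold muN
  by_cases a1 : R.1 = 0 ∧ z.1 = 0
  · rw [if_pos a1, zero_mul, if_neg (fun hc => hc.1 ⟨c1.2 a1.1, a1.2⟩)]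
  · by_cases a2 : R.2 = 0 ∧ z.2 = 0
    · rw [if_pos a2, mul_zero, if_neg (fun hc => hc.2 ⟨c2.2 a2.1, a2.2⟩)]
    · rw [if_neg a1, if_neg a2, if_pos ⟨fun hc => a1 ⟨c1.1 hc.1, hc.2⟩, fun hc => a2 ⟨c2.1 hc.1, hc.2⟩⟩]

theorem sepR_zero (R P' : Multiset ℕ) (F g : ℕ) :
    SepR (0 ::ₘ R) P' F g = 0 ∧ SepR P' (0 ::ₘ R) F g = 0 := by
  have key : ∀ a b : ℕ, ¬ (Multiset.card (0 ::ₘ R) = 1 ∧ b = 0) → muG (0 ::ₘ R) a b = 0 := by
    intro a b hab
    rw [tutG_zero, if_neg]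
    rintro ⟨h1, _, h3⟩
    exact hab ⟨by rw [h1]; rfl, h3⟩
  constructor
  · refine Finset.sum_eq_zero fun f _ => Finset.sum_eq_zero fun h hh => ?_
    rw [key _ _ (Finset.mem_filter.1 hh).2.1, zero_mul]
  · refine Finset.sum_eq_zero fun f _ => Finset.sum_eq_zero fun h hh => ?_
    rw [key _ _ (Finset.mem_filter.1 hh).2.2, mul_zero]

private theorem oth_inv (θ : ℝ) : Tendsto (fun s : ℕ × ℕ => ((s.1 : ℝ))⁻¹) (Num.Fth θ) (𝓝 0) :=
  tendsto_inv_atTop_zero.comp (RB.fst_atTop θ)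

private theorem oth_term {θ x : ℝ} (h : Par θ x) {P : Multiset ℕ} (hP : ∀ q ∈ P, 1 ≤ q) (v : ℤ) (j' j k : ℕ)
    (hk : Multiset.card P + 2 * j + 1 = 2 * j' + k) :
    Tendsto (fun s : ℕ × ℕ => muG P (2 * (s.1 : ℤ) - v).toNat (s.2 - j') * (s.1 : ℝ) ^ (2 * j) /
      ((s.1 : ℝ) ^ k * SST.nu s.1 s.2)) (Num.Fth θ) (𝓝 0) := by
  obtain ⟨C, hC, hb⟩ := Rt_bd h hP v j'
  have h0 : Tendsto (fun s : ℕ × ℕ => C * ((s.1 : ℝ))⁻¹) (Num.Fth θ) (𝓝 0) := by
    have := (oth_inv θ).const_mul C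
    rwa [mul_zero] at this
  refine squeeze_zero' ?_ ?_ h0
  · refine Filter.Eventually.of_forall fun s => ?_
    have h1 := muG_nonneg P (2 * (s.1 : ℤ) - v).toNat (s.2 - j')
    have h2 := nu_nn s.1 s.2
    positivity
  · filter_upwards [hb, RB.ge_ev θ 1] with s hs hn
    have hn0 : (0 : ℝ) < s.1 := by exact_mod_cast hn
    have e : muG P (2 * (s.1 : ℤ) - v).toNat (s.2 - j') * (s.1 : ℝ) ^ (2 * j) /
        ((s.1 : ℝ) ^ k * SST.nu s.1 s.2) = Rt P v j' s * ((s.1 : ℝ))⁻¹ := by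
      unfold Rt
      have e1 : (s.1 : ℝ) ^ (2 * j) / (s.1 : ℝ) ^ k =
          (s.1 : ℝ) ^ (2 * j') / ((s.1 : ℝ) ^ Multiset.card P * s.1) := by
        rw [div_eq_div_iff (by positivity) (by positivity), ← pow_succ, ← pow_add, ← pow_add]
        congr 1
        omega
      calc muG P (2 * (s.1 : ℤ) - v).toNat (s.2 - j') * (s.1 : ℝ) ^ (2 * j) / ((s.1 : ℝ) ^ k * SST.nu s.1 s.2)
          = (muG P (2 * (s.1 : ℤ) - v).toNat (s.2 - j') / SST.nu s.1 s.2) *
              ((s.1 : ℝ) ^ (2 * j) / (s.1 : ℝ) ^ k) := by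
            rw [div_mul_div_comm, mul_comm ((s.1 : ℝ) ^ k)]
        _ = (muG P (2 * (s.1 : ℤ) - v).toNat (s.2 - j') / SST.nu s.1 s.2) *
              ((s.1 : ℝ) ^ (2 * j') / ((s.1 : ℝ) ^ Multiset.card P * s.1)) := by rw [e1]
        _ = _ := by
            rw [div_mul_div_comm, ← div_eq_mul_inv, div_div]
            congr 1
            ring
    rw [e]
    exact mul_le_mul_of_nonneg_right hs (by positivity)

theorem ns_neg {θ x : ℝ} (h : Par θ x) (p : ℕ) {Q : Multiset ℕ} (hQ : ∀ q ∈ Q, 1 ≤ q) (v : ℤ) (j : ℕ) :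
    Tendsto (fun s : ℕ × ℕ => NS p Q (2 * (s.1 : ℤ) - v).toNat (s.2 - j) * (s.1 : ℝ) ^ (2 * j) /
      ((s.1 : ℝ) ^ (Multiset.card Q + 1) * SST.nu s.1 s.2)) (Num.Fth θ) (𝓝 0) := by
  have hterm : ∀ y ∈ HasAntidiagonal.antidiagonal (p - 2), Tendsto (fun s : ℕ × ℕ =>
      muG (y.1 ::ₘ y.2 ::ₘ Q) (2 * (s.1 : ℤ) - v).toNat (s.2 - (j + 1)) * (s.1 : ℝ) ^ (2 * j) /
      ((s.1 : ℝ) ^ (Multiset.card Q + 1) * SST.nu s.1 s.2)) (Num.Fth θ) (𝓝 0) := by
    intro y _
    rcases Nat.eq_zero_or_pos y.1 with h1 | h1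
    · have e : ∀ a b, muG (y.1 ::ₘ y.2 ::ₘ Q) a b = 0 := by
        intro a b
        rw [h1, tutG_zero, if_neg]
        rintro ⟨h2, _⟩
        exact Multiset.cons_ne_zero h2
      simp only [e, zero_mul, zero_div]
      exact tendsto_const_nhds
    · rcases Nat.eq_zero_or_pos y.2 with h2 | h2
      · have e : ∀ a b, muG (y.1 ::ₘ y.2 ::ₘ Q) a b = 0 := by
          intro a b
          rw [h2, Multiset.cons_swap, tutG_zero, if_neg]
          rintro ⟨h2, _⟩
          exact Multiset.cons_ne_zero h2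
        simp only [e, zero_mul, zero_div]
        exact tendsto_const_nhds
      · refine oth_term h ?_ v (j + 1) j (Multiset.card Q + 1) ?_
        · intro q hq
          rw [Multiset.mem_cons, Multiset.mem_cons] at hq
          rcases hq with rfl | rfl | hq
          · exact h1
          · exact h2
          · exact hQ q hq
        · rw [Multiset.card_cons, Multiset.card_cons]
          ring
  have hsum := tendsto_finsetSum (HasAntidiagonal.antidiagonal (p - 2)) hterm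
  rw [Finset.sum_const_zero] at hsum
  refine squeeze_zero ?_ ?_ hsum
  · intro s
    have h1 := NS_nonneg p Q (2 * (s.1 : ℤ) - v).toNat (s.2 - j)
    have h2 := nu_nn s.1 s.2
    positivity
  · intro s
    have h2 := nu_nn s.1 s.2
    rw [← Finset.sum_div, ← Finset.sum_mul]
    apply div_le_div_of_nonneg_right _ (by positivity)
    apply mul_le_mul_of_nonneg_right _ (by positivity)
    unfold NS
    split_ifs with hg
    · exact Finset.sum_nonneg fun _ _ => muG_nonneg _ _ _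
    · rw [Nat.sub_sub]

theorem mr_neg {θ x : ℝ} (h : Par θ x) {p : ℕ} (hp : 2 ≤ p) {Q : Multiset ℕ} (hQ : ∀ q ∈ Q, 1 ≤ q)
    (v : ℤ) (j : ℕ) :
    Tendsto (fun s : ℕ × ℕ => MRG p Q (2 * (s.1 : ℤ) - v).toNat (s.2 - j) * (s.1 : ℝ) ^ (2 * j) /
      ((s.1 : ℝ) ^ (Multiset.card Q + 1) * SST.nu s.1 s.2)) (Num.Fth θ) (𝓝 0) := by
  have hterm : ∀ q ∈ Q, Tendsto (fun s : ℕ × ℕ =>
      (q : ℝ) * (muG ((q + p - 2) ::ₘ Q.erase q) (2 * (s.1 : ℤ) - v).toNat (s.2 - j) * (s.1 : ℝ) ^ (2 * j) /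
      ((s.1 : ℝ) ^ (Multiset.card Q + 1) * SST.nu s.1 s.2))) (Num.Fth θ) (𝓝 0) := by
    intro q hq
    have h1 : Tendsto (fun s : ℕ × ℕ =>
      muG ((q + p - 2) ::ₘ Q.erase q) (2 * (s.1 : ℤ) - v).toNat (s.2 - j) * (s.1 : ℝ) ^ (2 * j) /
      ((s.1 : ℝ) ^ (Multiset.card Q + 1) * SST.nu s.1 s.2)) (Num.Fth θ) (𝓝 0) := by
      refine oth_term h ?_ v j j (Multiset.card Q + 1) ?_
      · intro q' hq'
        rw [Multiset.mem_cons] at hq'
        rcases hq' with rfl | hq'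
        · have := hQ q hq
          omega
        · exact hQ q' (Multiset.mem_of_mem_erase hq')
      · have h2 := Multiset.card_erase_of_mem hq
        have h3 : 0 < Multiset.card Q := Multiset.card_pos.2 (fun h0 => by rw [h0] at hq; exact Multiset.notMem_zero _ hq)
        rw [Multiset.card_cons, h2, Nat.pred_eq_sub_one]
        omega
    have h2 := h1.const_mul (q : ℝ)
    rwa [mul_zero] at h2
  have hsum := tendsto_multiset_sum Q hterm
  rw [Multiset.map_const', Multiset.sum_replicate, smul_zero] at hsum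
  refine hsum.congr fun s => ?_
  unfold MRG
  rw [mul_div_assoc, ← Multiset.sum_map_mul_right]
  congr 1
  refine Multiset.map_congr rfl fun q _ => ?_
  ring

theorem ml_neg {θ x : ℝ} (h : Par θ x) {Q : Multiset ℕ} (hQ : ∀ q ∈ Q, 1 ≤ q) (v : ℤ) (j : ℕ) :
    Tendsto (fun s : ℕ × ℕ => (Q.map fun q : ℕ => (q : ℝ) *
      muG ((q - 1) ::ₘ Q.erase q) (2 * (s.1 : ℤ) - v).toNat (s.2 - j)).sum * (s.1 : ℝ) ^ (2 * j) /
      ((s.1 : ℝ) ^ (Multiset.card Q + 1) * SST.nu s.1 s.2)) (Num.Fth θ) (𝓝 0) := by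
  have hterm : ∀ q ∈ Q, Tendsto (fun s : ℕ × ℕ =>
      (q : ℝ) * (muG ((q - 1) ::ₘ Q.erase q) (2 * (s.1 : ℤ) - v).toNat (s.2 - j) * (s.1 : ℝ) ^ (2 * j) /
      ((s.1 : ℝ) ^ (Multiset.card Q + 1) * SST.nu s.1 s.2))) (Num.Fth θ) (𝓝 0) := by
    intro q hq
    have h1 : Tendsto (fun s : ℕ × ℕ =>
      muG ((q - 1) ::ₘ Q.erase q) (2 * (s.1 : ℤ) - v).toNat (s.2 - j) * (s.1 : ℝ) ^ (2 * j) /
      ((s.1 : ℝ) ^ (Multiset.card Q + 1) * SST.nu s.1 s.2)) (Num.Fth θ) (𝓝 0) := by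
      rcases Nat.eq_or_lt_of_le (hQ q hq) with hq1 | hq1
      · have e0 : q - 1 = 0 := by omega
        rw [e0]
        refine (tendsto_const_nhds (x := (0 : ℝ))).congr' ?_
        filter_upwards [RB.ge_ev θ (v.toNat + 1)] with s hs
        rw [tutG_zero, if_neg, zero_mul, zero_div]
        rintro ⟨_, h2, _⟩
        omega
      · refine oth_term h ?_ v j j (Multiset.card Q + 1) ?_
        · intro q' hq'
          rw [Multiset.mem_cons] at hq'
          rcases hq' with rfl | hq'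
          · omega
          · exact hQ q' (Multiset.mem_of_mem_erase hq')
        · have h2 := Multiset.card_erase_of_mem hq
          have h3 : 0 < Multiset.card Q := Multiset.card_pos.2 (fun h0 => by rw [h0] at hq; exact Multiset.notMem_zero _ hq)
          rw [Multiset.card_cons, h2, Nat.pred_eq_sub_one]
          omega
    have h2 := h1.const_mul (q : ℝ)
    rwa [mul_zero] at h2
  have hsum := tendsto_multiset_sum Q hterm
  rw [Multiset.map_const', Multiset.sum_replicate, smul_zero] at hsum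
  refine hsum.congr fun s => ?_
  rw [mul_div_assoc, ← Multiset.sum_map_mul_right]
  congr 1
  refine Multiset.map_congr rfl fun q _ => ?_
  ring

theorem sep_neg {θ x : ℝ} (h : Par θ x) (p : ℕ) {Q : Multiset ℕ} (hQ : ∀ q ∈ Q, 1 ≤ q) (v : ℤ) (j : ℕ) :
    Tendsto (fun s : ℕ × ℕ => SEP p Q (2 * (s.1 : ℤ) - v).toNat (s.2 - j) * (s.1 : ℝ) ^ (2 * j) /
      ((s.1 : ℝ) ^ (Multiset.card Q + 1) * SST.nu s.1 s.2)) (Num.Fth θ) (𝓝 0) := by
  have hR : ∀ y ∈ HasAntidiagonal.antidiagonal (p - 2), ∀ R ∈ Q.antidiagonal, Tendsto (fun s : ℕ × ℕ =>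
      SepR (y.1 ::ₘ R.1) (y.2 ::ₘ R.2) (2 * (s.1 : ℤ) - v).toNat (s.2 - j) *
        ((s.1 : ℝ) ^ (2 * j) / ((s.1 : ℝ) ^ (Multiset.card Q + 1) * SST.nu s.1 s.2))) (Num.Fth θ) (𝓝 0) := by
    intro y _ R hR
    rcases Nat.eq_zero_or_pos y.1 with h1 | h1
    · rw [h1]
      simp only [(sepR_zero _ _ _ _).1, zero_mul]
      exact tendsto_const_nhds
    · rcases Nat.eq_zero_or_pos y.2 with h2 | h2
      · rw [h2]
        simp only [(sepR_zero _ _ _ _).2, zero_mul]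
        exact tendsto_const_nhds
      · have hRQ := Multiset.mem_antidiagonal.1 hR
        have hcard : Multiset.card (y.1 ::ₘ R.1) + Multiset.card (y.2 ::ₘ R.2) = Multiset.card Q + 1 + 1 := by
          rw [Multiset.card_cons, Multiset.card_cons, ← hRQ, Multiset.card_add]
          ring
        have h3 := sepR_neg h (P := y.1 ::ₘ R.1) (P' := y.2 ::ₘ R.2) (by
            intro q hq
            rw [Multiset.mem_cons] at hq
            rcases hq with rfl | hq
            · exact h1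
            · exact hQ q (by rw [← hRQ, Multiset.mem_add]; exact Or.inl hq)) (by
            intro q hq
            rw [Multiset.mem_cons] at hq
            rcases hq with rfl | hq
            · exact h2
            · exact hQ q (by rw [← hRQ, Multiset.mem_add]; exact Or.inr hq))
            Multiset.cons_ne_zero Multiset.cons_ne_zero v j
        rw [hcard] at h3
        refine h3.congr' ?_
        filter_upwards [RB.ge_ev θ 1] with s hn
        have hn0 : (s.1 : ℝ) ≠ 0 := by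
          have : (0 : ℝ) < s.1 := by exact_mod_cast hn
          exact this.ne'
        rw [pow_succ (s.1 : ℝ) (Multiset.card Q + 1), mul_right_comm ((s.1 : ℝ) ^ (Multiset.card Q + 1)),
          mul_div_mul_right _ _ hn0, mul_div_assoc]
  have hsum := tendsto_finsetSum (HasAntidiagonal.antidiagonal (p - 2))
    (fun y hy => tendsto_multiset_sum Q.antidiagonal (hR y hy))
  simp only [Multiset.map_const', Multiset.sum_replicate, smul_zero, Finset.sum_const_zero] at hsum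
  refine hsum.congr fun s => ?_
  rw [sep_eq, mul_div_assoc, Finset.sum_mul]
  refine Finset.sum_congr rfl fun y _ => ?_
  rw [Multiset.sum_map_mul_right]

end SYS.UP
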