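import Pool.Agent.SYS.UP.EvD

/-!
# SYS-UP-PtwU: the event at a second source, seen from the region of the first event
-/

namespace SYS.UP

open SST Part Num

open Classical in
private theorem ptwU_cyc0 {D : Type} {t0 t1 t2 : D} (h01 : t0 ≠ t1) (h20 : t2 ≠ t0) :
    cyc3 t0 t1 t2 t0 = t1 := by
  unfold cyc3
  rw [Equiv.Perm.mul_apply, Equiv.swap_apply_of_ne_of_ne h01 h20.symm, Equiv.swap_apply_left]

open Classical in
private theorem ptwU_cyc1 {D : Type} {t0 t1 t2 : D} (h12 : t1 ≠ t2) (h20 : t2 ≠ t0) :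
    cyc3 t0 t1 t2 t1 = t2 := by
  unfold cyc3
  rw [Equiv.Perm.mul_apply, Equiv.swap_apply_left, Equiv.swap_apply_of_ne_of_ne h20 h12.symm]

open Classical in
private theorem ptwU_le_f {D : Type} {S : Part D} {t0 t1 t2 : D} (h0 : t0 ∉ S.R) (h1 : t1 ∉ S.R)
    (h2 : t2 ∉ S.R) (h01 : t0 ≠ t1) (h12 : t1 ≠ t2) (h20 : t2 ≠ t0) {T : Tri D}
    (h : (S.newTri t0 t1 t2 h0 h1 h2 h01 h12 h20).Le T) : T.f t0 = t1 ∧ T.f t1 = t2 := by
  have f0 : (S.newTri t0 t1 t2 h0 h1 h2 h01 h12 h20).f t0 = t1 := by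
    show S.f (cyc3 t0 t1 t2 t0) = t1
    rw [ptwU_cyc0 h01 h20]
    exact not_not.1 h1
  have f1 : (S.newTri t0 t1 t2 h0 h1 h2 h01 h12 h20).f t1 = t2 := by
    show S.f (cyc3 t0 t1 t2 t1) = t2
    rw [ptwU_cyc1 h12 h20]
    exact not_not.1 h2
  constructor
  · rw [h.1 t0 (by rw [f0]; exact h01.symm), f0]
  · rw [h.1 t1 (by rw [f1]; exact h12.symm), f1]

private theorem ptwU_hconn {D : Type} [Finite D] {S : Part D} {t0 t1 t2 : D} (h0 : t0 ∉ S.R)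
    (h1 : t1 ∉ S.R) (h2 : t2 ∉ S.R) (h01 : t0 ≠ t1) (h12 : t1 ≠ t2) (h20 : t2 ≠ t0) {T : Tri D}
    (hS : S.Le T) (h : (S.newTri t0 t1 t2 h0 h1 h2 h01 h12 h20).Le T) (hh : S.HConn T) :
    (S.newTri t0 t1 t2 h0 h1 h2 h01 h12 h20).HConn T := by
  have hX : ∀ d, d ∈ (S.newTri t0 t1 t2 h0 h1 h2 h01 h12 h20).X → d ∈ S.X := by
    intro d
    show (d ∉ (S.newTri t0 t1 t2 h0 h1 h2 h01 h12 h20).R ∨
      d ∈ (S.newTri t0 t1 t2 h0 h1 h2 h01 h12 h20).B) → (d ∉ S.R ∨ d ∈ S.B)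
    rw [newTri_R, newTri_B]
    rintro (h3 | h3 | h3)
    · exact Or.inl fun h4 => h3 (Or.inl h4)
    · exact Or.inr h3
    · left
      rw [Set.mem_insert_iff, Set.mem_insert_iff, Set.mem_singleton_iff] at h3
      rcases h3 with rfl | rfl | rfl
      · exact h0
      · exact h1
      · exact h2
  obtain ⟨e1, e2⟩ := ptwU_le_f h0 h1 h2 h01 h12 h20 h
  subst e1
  subst e2
  intro d hd e he
  exact (hc_newTri hS h0 h1 h2 d e).2 (hh d (hX d hd) e (hX e he))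

private theorem ptwU_dj {D : Type} [Finite D] (S : Part D) : Dj S emp S where
  disj := fun d _ h => h rfl
  R := by
    have h : (emp : Part D).R = ∅ := by
      ext d
      constructor
      · intro hd
        exact absurd rfl hd
      · intro hd
        exact absurd hd (Set.notMem_empty d)
    rw [h, Set.union_empty]
  B := by
    have h : (emp : Part D).B = ∅ := by
      ext d
      constructor
      · intro hd
        exact absurd rfl hd.1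
      · intro hd
        exact absurd hd (Set.notMem_empty d)
    rw [h, Set.union_empty]
  sub0 := sub_refl S
  sub1 := ⟨fun d hd => absurd rfl hd, fun d hd => absurd rfl hd⟩

theorem ptw_u {n g : ℕ} {T : Tri (Fin (6 * n))} (hT : T ∈ Trn n g) {t : Et} {S0 : Part (Fin (6 * n))} {z z' : Fin (6 * n)}
    (hR : Reg t S0 z z') (hL : S0.Le T) (hh : S0.HConn T) {y : Fin (6 * n)} (hy : y ∉ S0.R) {t' : Et} {S00 : Part (Fin (6 * n))}
    {a b : Fin (6 * n)} (he : Ev T y t' S00 a b) :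
    (∃ S' x' S1 c d, Rn S0 T y t'.2.2 S' x' ∧ Nsr S' T x' t'.1 t'.2.1 S1 c d) ∨
    (∃ S' x' u v, Rn S0 T y t'.2.2 S' x' ∧ S'.Sep T x' u v ∧ u.length = t'.1 ∧ v.length = t'.2.1 ∧
      ∀ (hx : x' ∈ S'.B) (hy : T.a x' ∈ S'.B), (∃ d ∈ [z, z'], ∃ e ∈ u, (S'.glue x' (T.a x') hx hy).Hc T e d) ∧
        ∃ d ∈ [z, z'], ∃ e ∈ v, (S'.glue x' (T.a x') hx hy).Hc T e d) ∨
    (∃ w, w <+: t'.2.2 ∧ ∃ S' x', Rn S0 T y w S' x' ∧ S'.Mrg T x') := by
  obtain ⟨S', x', ⟨S1, ⟨hS1L, t1, t2, h0, h1, h2, h01, h12, h20, hS1⟩, hr, hL', hh'⟩, hns⟩ := he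
  obtain ⟨u, v, hx, hyB, hw, hu, hv, hS00, hS00L, hS00H⟩ := hns
  have hn : 1 ≤ n := by
    have h3 := y.2
    omega
  have hS1L' := hS1L
  rw [hS1] at hS1L'
  obtain ⟨e1, e2⟩ := ptwU_le_f h0 h1 h2 h01 h12 h20 hS1L'
  have hy1 : t1 ∉ S0.R := by
    rw [← e1]
    exact fun h => hy ((le_f_mem hL y).1 h)
  have hy2 : t2 ∉ S0.R := by
    rw [← e2]
    exact fun h => hy1 ((le_f_mem hL t1).1 h)
  have hL2 : (S0.newTri y t1 t2 hy hy1 hy2 h01 h12 h20).Le T :=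
    newTri_le S0 hy hy1 hy2 h01 h12 h20 hL e1 e2
  have hh2 := ptwU_hconn hy hy1 hy2 h01 h12 h20 hL hL2 hh
  have hj : Dj S0 S1 (S0.newTri y t1 t2 hy hy1 hy2 h01 h12 h20) := by
    rw [hS1]
    exact dj_newTri (ptwU_dj S0) h0 h1 h2 hy hy1 hy2 h01 h12 h20
  have hT1 : S1.Typ [y] [3] (2 * n - 1) 0 := by
    have h3 := typ_emp hn
    have h4 : 2 * n = 2 * n - 1 + 1 := by omega
    rw [h4] at h3
    rw [hS1]
    exact typ_newTri h3 h0 h1 h2 h01 h12 h20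
  obtain ⟨_, F', _, hT'⟩ := rch_typ hT1 hr
  have hSrc : Src S0 T y (S0.newTri y t1 t2 hy hy1 hy2 h01 h12 h20) :=
    ⟨hL2, t1, t2, hy, hy1, hy2, h01, h12, h20, rfl⟩
  rcases ptw hR.typ hR.con le_rfl hT hj hL2 hh2 hT1 hr hL' hh' with
    ⟨S2', hr2, hj2, hL2', hh2'⟩ | ⟨w', s, w'', hww, S2', x2, hr2, hL2', hh2', hM⟩
  · have hNSt : S'.NSt T x' (a :: u) (b :: v) :=
      ⟨by simp, by simp, hw, hx, hyB, by rw [← hS00]; exact hS00H⟩
    rcases ptw_ns hR.typ hR.con hT hj2 hL2' hh2' hT' hNSt with hN2 | ⟨hSep, hcond⟩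
    · left
      obtain ⟨_, _, hw2, hx2, hy2', hG⟩ := hN2
      refine ⟨S2', x', S2'.glue x' (T.a x') hx2 hy2', a, b, ⟨_, hSrc, hr2, hL2', hh2'⟩,
        u, v, hx2, hy2', hw2, hu, hv, rfl, glue_le S2' hx2 hy2' hL2' rfl, hG⟩
    · right
      left
      exact ⟨S2', x', a :: u, b :: v, ⟨_, hSrc, hr2, hL2', hh2'⟩, hSep, hu, hv, hcond⟩
  · right
    right
    exact ⟨w', ⟨s :: w'', hww.symm⟩, S2', x2, ⟨_, hSrc, hr2, hL2', hh2'⟩, hM⟩

end SYS.UP
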