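import Pool.Agent.SYS.UP.MrgC
import Pool.Agent.SYS.BD.Mg

/-!
# SYS-UP-RelM: number of second sources whose exploration is glued to the region of the first event

`S0` = region of an event of type `t`, `F0 = 2n - vE t` hidden triangles, holes `z`, `z'` of perimeters `t.1`, `t.2.1`.
If `F0 = 0` the set is empty (`S0.R` is everything).  Otherwise `F0 = F + 1`: `Part.src_le` for the source, `typ_newTri`, `Part.cyl_le` for the word,
`rch_typ` for the type of the reached regions and `mrg_le` for the merges.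
-/

namespace SYS.UP

open SST Part Num

variable {n g : ℕ}

theorem relM_le (hg : 1 ≤ g) {t : Et} (ht1 : 2 ≤ t.1) (ht2 : 2 ≤ t.2.1) {w : List Stp} (hw : WOk 3 w) {S0 : Part (Fin (6 * n))}
    {z z' : Fin (6 * n)} (h : Reg t S0 z z') :
    (({q : Tri (Fin (6 * n)) × Fin (6 * n) | q.1 ∈ S0.Ext g ∧ S0.HConn q.1 ∧ ∃ S' x', Rn S0 q.1 q.2 w S' x' ∧
      S'.Mrg q.1 x'}.ncard : ℕ) : ℝ) ≤
      ((3 * (2 * n - vE t)).factorial : ℝ) * (wwt 1 Num.W w *
        (t.1 * muG {wend 3 w + t.1 - 2, t.2.1} (2 * n - vE t - (1 + wvol w)) (g - 1) +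
          t.2.1 * muG {wend 3 w + t.2.1 - 2, t.1} (2 * n - vE t - (1 + wvol w)) (g - 1))) := by
  have _ := hw
  have hc : (0 : ℝ) ≤ t.1 * muG {wend 3 w + t.1 - 2, t.2.1} (2 * n - vE t - (1 + wvol w)) (g - 1) +
      t.2.1 * muG {wend 3 w + t.2.1 - 2, t.1} (2 * n - vE t - (1 + wvol w)) (g - 1) :=
    add_nonneg (mul_nonneg (Nat.cast_nonneg _) (muG_nonneg _ _ _))
      (mul_nonneg (Nat.cast_nonneg _) (muG_nonneg _ _ _))
  have hw0 : 0 ≤ wwt 1 Num.W w := wwt_nonneg zero_le_one W_nonneg w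
  rcases Nat.eq_zero_or_pos (2 * n - vE t) with h0 | hpos
  · have hE : {q : Tri (Fin (6 * n)) × Fin (6 * n) | q.1 ∈ S0.Ext g ∧ S0.HConn q.1 ∧ ∃ S' x', Rn S0 q.1 q.2 w S' x' ∧
      S'.Mrg q.1 x'} = ∅ := by
      rw [Set.eq_empty_iff_forall_notMem]
      rintro q ⟨-, -, S', x', ⟨S1, ⟨-, t1, t2, k0, -⟩, -⟩, -⟩
      have h1 := h.typ.vol
      rw [h0] at h1
      have h2 : S0.R = Set.univ := Set.eq_of_subset_of_ncard_le (Set.subset_univ _)
        (by rw [Set.ncard_univ]; omega) (Set.toFinite _)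
      exact k0 (by rw [h2]; exact Set.mem_univ _)
    rw [hE, Set.ncard_empty, Nat.cast_zero]
    exact mul_nonneg (Nat.cast_nonneg _) (mul_nonneg hw0 hc)
  · obtain ⟨F, hF⟩ : ∃ F, 2 * n - vE t = F + 1 := ⟨2 * n - vE t - 1, by omega⟩
    have hT := h.typ
    rw [hF] at hT
    have hFw : 2 * n - vE t - (1 + wvol w) = F - wvol w := by omega
    rw [hFw] at hc ⊢
    rw [hF]
    have hmain := src_le (g := g) hT
      (fun T S1 y => ∃ S' x', Rch r0 [] S1 y w S' x' ∧ S'.Le T ∧ S'.HConn T ∧ S'.Mrg T x')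
      (mul_nonneg hw0 hc) ?_
    · refine le_trans ?_ hmain
      have hsub : {q : Tri (Fin (6 * n)) × Fin (6 * n) | q.1 ∈ S0.Ext g ∧ S0.HConn q.1 ∧
          ∃ S' x', Rn S0 q.1 q.2 w S' x' ∧ S'.Mrg q.1 x'} ⊆
          {q : Tri (Fin (6 * n)) × Fin (6 * n) | q.1 ∈ S0.Ext g ∧ S0.HConn q.1 ∧ ∃ S1, S1.Le q.1 ∧
            (∃ S' x', Rch r0 [] S1 q.2 w S' x' ∧ S'.Le q.1 ∧ S'.HConn q.1 ∧ S'.Mrg q.1 x') ∧
            ∃ t1 t2 h0 h1 h2 h01 h12 h20, S1 = S0.newTri q.2 t1 t2 h0 h1 h2 h01 h12 h20} := by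
        rintro q ⟨k1, k2, S', x', ⟨S1, ⟨k3, k4⟩, k5, k6, k7⟩, k8⟩
        exact ⟨k1, k2, S1, k3, ⟨S', x', k5, k6, k7, k8⟩, k4⟩
      exact_mod_cast Set.ncard_le_ncard hsub (Set.toFinite _)
    · intro t0 t1 t2 h0 h1 h2 h01 h12 h20
      have hN := typ_newTri hT h0 h1 h2 h01 h12 h20
      have hcy := cyl_le (g := g) (w := w) (ρ := r0) (h := []) hN (fun T S' x' => S'.Mrg T x') hc ?_
      · rw [← mul_assoc]
        refine le_trans ?_ hcy
        have hsub : {T | T ∈ (S0.newTri t0 t1 t2 h0 h1 h2 h01 h12 h20).Ext g ∧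
            (S0.newTri t0 t1 t2 h0 h1 h2 h01 h12 h20).HConn T ∧
            ∃ S' x', Rch r0 [] (S0.newTri t0 t1 t2 h0 h1 h2 h01 h12 h20) t0 w S' x' ∧ S'.Le T ∧ S'.HConn T ∧ S'.Mrg T x'} ⊆
            {T | T ∈ (S0.newTri t0 t1 t2 h0 h1 h2 h01 h12 h20).Ext g ∧
            ∃ S' x', Rch r0 [] (S0.newTri t0 t1 t2 h0 h1 h2 h01 h12 h20) t0 w S' x' ∧ S'.Le T ∧ S'.HConn T ∧ S'.Mrg T x'} :=
          fun T hq => ⟨hq.1, hq.2.2⟩
        exact_mod_cast Set.ncard_le_ncard hsub (Set.toFinite _)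
      · intro S' x' hr
        obtain ⟨-, F', hF', hT'⟩ := rch_typ hN hr
        have hFF : F - wvol w = F' := by omega
        have hp : 1 ≤ wend 3 w := by
          have h3 := hT'.per
          rw [List.map_cons] at h3
          have h4 := (List.cons.inj h3).1
          rw [← h4]
          exact S'.per_pos (hT'.hl.1 x' (by simp))
        rw [hFF]
        exact mrg_le hT' hg hp ht1 ht2

end SYS.UP
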