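import Pool.Agent.SYS.UP.SepC
import Pool.Agent.SYS.BD.Mg

/-!
# SYS-UP-RelS: number of second sources whose event separates the holes of the region of the first event

`S0` = region of an event of type `t`, `F0 = 2n - vE t` hidden triangles, holes `z`, `z'` of perimeters `t.1`, `t.2.1`.
-/

namespace SYS.UP

open SST Part Num

variable {n g : ℕ}

private theorem relS_SepS_nn (P P' : Multiset ℕ) (F h : ℕ) : 0 ≤ SepS P P' F h :=
  Finset.sum_nonneg fun _ _ => Finset.sum_nonneg fun _ _ => mul_nonneg (muG_nonneg _ _ _) (muG_nonneg _ _ _)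

/-- The event after the exploration. -/
private def relS_Z (a b : ℕ) (z z' : Fin (6 * n)) (T : Tri (Fin (6 * n))) (S' : Part (Fin (6 * n))) (x' : Fin (6 * n)) :
    Prop :=
  ∃ u v, S'.Sep T x' u v ∧ u.length = a ∧ v.length = b ∧ ∀ (hx : x' ∈ S'.B) (hy : T.a x' ∈ S'.B),
    (∃ d ∈ [z, z'], ∃ e ∈ u, (S'.glue x' (T.a x') hx hy).Hc T e d) ∧
      ∃ d ∈ [z, z'], ∃ e ∈ v, (S'.glue x' (T.a x') hx hy).Hc T e d

/-- The exploration and the event. -/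
private def relS_Y (w : List Stp) (a b : ℕ) (z z' : Fin (6 * n)) (T : Tri (Fin (6 * n))) (S1 : Part (Fin (6 * n)))
    (y : Fin (6 * n)) : Prop :=
  ∃ S' x', Rch r0 [] S1 y w S' x' ∧ S'.Le T ∧ S'.HConn T ∧ relS_Z a b z z' T S' x'

theorem relS_le (hg : 1 ≤ g) {t t' : Et} (ht' : GoodE t') {S0 : Part (Fin (6 * n))} {z z' : Fin (6 * n)} (h : Reg t S0 z z') :
    (({q : Tri (Fin (6 * n)) × Fin (6 * n) | q.1 ∈ S0.Ext g ∧ S0.HConn q.1 ∧ ∃ S' x' u v, Rn S0 q.1 q.2 t'.2.2 S' x' ∧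
      S'.Sep q.1 x' u v ∧ u.length = t'.1 ∧ v.length = t'.2.1 ∧ ∀ (hx : x' ∈ S'.B) (hy : q.1.a x' ∈ S'.B),
        (∃ d ∈ [z, z'], ∃ e ∈ u, (S'.glue x' (q.1.a x') hx hy).Hc q.1 e d) ∧
          ∃ d ∈ [z, z'], ∃ e ∈ v, (S'.glue x' (q.1.a x') hx hy).Hc q.1 e d}.ncard : ℕ) : ℝ) ≤
      ((3 * (2 * n - vE t)).factorial : ℝ) * (wE t' *
        (SepS {t'.1, t.1} {t'.2.1, t.2.1} (2 * n - vE t - vE t') (g - 1) +
          SepS {t'.1, t.2.1} {t'.2.1, t.1} (2 * n - vE t - vE t') (g - 1))) := by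
  classical
  obtain ⟨ha, hb, hw, he⟩ := ht'
  have hW : 0 ≤ wE t' := wwt_nonneg zero_le_one W_nonneg _
  have hc : 0 ≤ SepS {t'.1, t.1} {t'.2.1, t.2.1} (2 * n - vE t - vE t') (g - 1) +
      SepS {t'.1, t.2.1} {t'.2.1, t.1} (2 * n - vE t - vE t') (g - 1) :=
    add_nonneg (relS_SepS_nn _ _ _ _) (relS_SepS_nn _ _ _ _)
  have htyp := h.typ
  have hsub : {q : Tri (Fin (6 * n)) × Fin (6 * n) | q.1 ∈ S0.Ext g ∧ S0.HConn q.1 ∧ ∃ S' x' u v,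
      Rn S0 q.1 q.2 t'.2.2 S' x' ∧
      S'.Sep q.1 x' u v ∧ u.length = t'.1 ∧ v.length = t'.2.1 ∧ ∀ (hx : x' ∈ S'.B) (hy : q.1.a x' ∈ S'.B),
        (∃ d ∈ [z, z'], ∃ e ∈ u, (S'.glue x' (q.1.a x') hx hy).Hc q.1 e d) ∧
          ∃ d ∈ [z, z'], ∃ e ∈ v, (S'.glue x' (q.1.a x') hx hy).Hc q.1 e d} ⊆
      {q : Tri (Fin (6 * n)) × Fin (6 * n) | q.1 ∈ S0.Ext g ∧ S0.HConn q.1 ∧ ∃ S1, S1.Le q.1 ∧
        relS_Y t'.2.2 t'.1 t'.2.1 z z' q.1 S1 q.2 ∧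
        ∃ t1 t2 h0 h1 h2 h01 h12 h20, S1 = S0.newTri q.2 t1 t2 h0 h1 h2 h01 h12 h20} := by
    rintro ⟨T, y⟩ ⟨hT, hH, S', x', u, v, ⟨S1, ⟨hL, hS1⟩, hR, hL', hH'⟩, hsep, hu, hv, hcon⟩
    exact ⟨hT, hH, S1, hL, ⟨S', x', hR, hL', hH', u, v, hsep, hu, hv, hcon⟩, hS1⟩
  refine le_trans (Nat.cast_le.2 (Set.ncard_le_ncard hsub (Set.toFinite _))) ?_
  rcases Nat.eq_zero_or_pos (2 * n - vE t) with h0 | h0
  · have hR : S0.R = Set.univ := by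
      refine Set.eq_of_subset_of_ncard_le (Set.subset_univ _) ?_ (Set.toFinite _)
      rw [Set.ncard_univ]
      have := htyp.vol
      omega
    have hemp : {q : Tri (Fin (6 * n)) × Fin (6 * n) | q.1 ∈ S0.Ext g ∧ S0.HConn q.1 ∧ ∃ S1, S1.Le q.1 ∧
        relS_Y t'.2.2 t'.1 t'.2.1 z z' q.1 S1 q.2 ∧
        ∃ t1 t2 h0 h1 h2 h01 h12 h20, S1 = S0.newTri q.2 t1 t2 h0 h1 h2 h01 h12 h20} = ∅ := by
      rw [Set.eq_empty_iff_forall_notMem]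
      rintro ⟨T, y⟩ ⟨-, -, S1, -, -, t1, t2, k0, -⟩
      exact k0 (by rw [hR]; trivial)
    rw [hemp, Set.ncard_empty, Nat.cast_zero]
    exact mul_nonneg (Nat.cast_nonneg _) (mul_nonneg hW hc)
  · obtain ⟨F, hF⟩ : ∃ F, 2 * n - vE t = F + 1 := ⟨2 * n - vE t - 1, by omega⟩
    have hF' : 2 * n - vE t - vE t' = F - wvol t'.2.2 := by
      rw [hF]
      unfold vE
      omega
    rw [hF'] at hc ⊢
    rw [hF] at htyp ⊢
    refine src_le htyp (relS_Y t'.2.2 t'.1 t'.2.1 z z') (mul_nonneg hW hc) ?_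
    intro t0 t1 t2 k0 k1 k2 k01 k12 k20
    have hty1 := typ_newTri htyp k0 k1 k2 k01 k12 k20
    have hsub1 := newTri_sub S0 k0 k1 k2 k01 k12 k20
    set S1 := S0.newTri t0 t1 t2 k0 k1 k2 k01 k12 k20
    have key := cyl_le (g := g) (ρ := r0) (h := []) (w := t'.2.2) hty1 (relS_Z t'.1 t'.2.1 z z') hc ?_
    · refine le_trans ?_ (key.trans_eq (mul_assoc _ _ _))
      refine Nat.cast_le.2 (Set.ncard_le_ncard ?_ (Set.toFinite _))
      rintro T ⟨hT, -, S', x', hR, hL', hH', hZ⟩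
      exact ⟨hT, S', x', hR, hL', hH', hZ⟩
    · intro S' x' hR
      obtain ⟨-, F', hFF, hty2⟩ := rch_typ hty1 hR
      have hF2 : F' = F - wvol t'.2.2 := by omega
      subst hF2
      have hz : z ∈ S0.B := htyp.hl.1 z (by simp)
      have hz' : z' ∈ S0.B := htyp.hl.1 z' (by simp)
      have hCn : S'.Cn z z' :=
        cn_sub (sub_trans hsub1 (rch_sub hR)) hz.1 (h.con z hz.1 z' hz'.1)
      refine le_trans ?_ (sep_le (g := g) hty2 hg hCn ha hb he.symm)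
      refine Nat.cast_le.2 (Set.ncard_le_ncard ?_ (Set.toFinite _))
      rintro T ⟨hT, hH, u, v, hsep, hu, hv, hcon⟩
      exact ⟨hT, hH, u, v, hsep, hu, hv, hcon⟩

end SYS.UP
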