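import Pool.Agent.SYS.UP.RelN
import Pool.Agent.SYS.UP.RelM
import Pool.Agent.SYS.UP.RelS
import Pool.Agent.SYS.UP.PtwU
import Pool.Agent.SYS.UP.EvE
import Pool.Agent.SYS.UP.EvR
import Pool.Agent.SYS.BD.Mg

/-!
# SYS-UP-PairC: number of pairs of sources with events
-/

namespace SYS.UP

open SST Part Num

private theorem pc_le {α : Type*} [Finite α] {A B : Set α} (h : A ⊆ B) : A.ncard ≤ B.ncard :=
  Set.ncard_le_ncard h (Set.toFinite B)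

private theorem pc_bU {α ι : Type*} [Finite α] (s : Finset ι) (f : ι → Set α) :
    (⋃ i ∈ s, f i).ncard ≤ ∑ i ∈ s, (f i).ncard := by
  classical
  induction s using Finset.induction_on with
  | empty => simp
  | insert a s ha ih =>
    rw [Finset.set_biUnion_insert, Finset.sum_insert ha]
    exact (Set.ncard_union_le _ _).trans (Nat.add_le_add_left ih _)

private theorem pc_W (k a : ℕ) : 0 ≤ W k a := muG_nonneg _ _ _

private theorem pc_wwt (w : List Stp) : 0 ≤ wwt 1 W w := wwt_nonneg zero_le_one pc_W w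

private theorem pc_sep (P P' : Multiset ℕ) (F g : ℕ) : 0 ≤ SepS P P' F g :=
  Finset.sum_nonneg fun _ _ => Finset.sum_nonneg fun _ _ => mul_nonneg (muG_nonneg _ _ _) (muG_nonneg _ _ _)

/-- the constant -/
private noncomputable def cT (S' : Finset Et) (U : Finset (List Stp)) (n g : ℕ) (t : Et) : ℝ :=
  3 * (vE t : ℝ) * muG {t.1, t.2.1} (2 * n - vE t) (g - 1) +
  ∑ w ∈ U, wwt 1 W w *
    (t.1 * muG {wend 3 w + t.1 - 2, t.2.1} (2 * n - (vE t + (1 + wvol w))) (g - 1) +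
      t.2.1 * muG {wend 3 w + t.2.1 - 2, t.1} (2 * n - (vE t + (1 + wvol w))) (g - 1)) +
  ∑ t' ∈ S', wE t' * muG {t'.1, t'.2.1, t.1, t.2.1} (2 * n - (vE t + vE t')) (g - 2) +
  ∑ t' ∈ S', wE t' *
    (SepS {t'.1, t.1} {t'.2.1, t.2.1} (2 * n - (vE t + vE t')) (g - 1) +
      SepS {t'.1, t.2.1} {t'.2.1, t.1} (2 * n - (vE t + vE t')) (g - 1))

private theorem pc_mterm (n g : ℕ) (t : Et) (w : List Stp) : 0 ≤ wwt 1 W w *
    (t.1 * muG {wend 3 w + t.1 - 2, t.2.1} (2 * n - (vE t + (1 + wvol w))) (g - 1) +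
      t.2.1 * muG {wend 3 w + t.2.1 - 2, t.1} (2 * n - (vE t + (1 + wvol w))) (g - 1)) :=
  mul_nonneg (pc_wwt w) (add_nonneg (mul_nonneg (Nat.cast_nonneg _) (muG_nonneg _ _ _))
    (mul_nonneg (Nat.cast_nonneg _) (muG_nonneg _ _ _)))

private theorem pc_cT (S' : Finset Et) (U : Finset (List Stp)) (n g : ℕ) (t : Et) : 0 ≤ cT S' U n g t := by
  unfold cT
  refine add_nonneg (add_nonneg (add_nonneg ?_ ?_) ?_) ?_
  · exact mul_nonneg (by positivity) (muG_nonneg _ _ _)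
  · exact Finset.sum_nonneg fun w _ => pc_mterm n g t w
  · exact Finset.sum_nonneg fun t' _ => mul_nonneg (pc_wwt _) (muG_nonneg _ _ _)
  · exact Finset.sum_nonneg fun t' _ => mul_nonneg (pc_wwt _) (add_nonneg (pc_sep _ _ _ _) (pc_sep _ _ _ _))

private theorem pc_sum (S S' : Finset Et) (U : Finset (List Stp)) (n g : ℕ) :
    ∑ t ∈ S, wE t * cT S' U n g t = PB S S' U (n, g) := by
  unfold PB OO MM NN SS cT
  rw [← Finset.sum_add_distrib, ← Finset.sum_add_distrib, ← Finset.sum_add_distrib]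
  refine Finset.sum_congr rfl fun t _ => ?_
  rw [mul_add, mul_add, mul_add, Finset.mul_sum, Finset.mul_sum, Finset.mul_sum]
  congr 1
  · congr 1
    · congr 1
      · ring
      · exact Finset.sum_congr rfl fun w _ => by ring
    · exact Finset.sum_congr rfl fun t' _ => by ring
  · exact Finset.sum_congr rfl fun t' _ => by ring

/-- the estimate for one region -/
private theorem pc_reg {n g : ℕ} (hg : 2 ≤ g) {t : Et} (ht1 : 2 ≤ t.1) (ht2 : 2 ≤ t.2.1) (hv : vE t ≤ 2 * n)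
    {S' : Finset Et} {U : Finset (List Stp)} (hS' : ∀ t ∈ S', GoodE t)
    (hU : ∀ t ∈ S', ∀ w, w <+: t.2.2 → w ∈ U) {S0 : Part (Fin (6 * n))} {z z' : Fin (6 * n)} (h : Reg t S0 z z') :
    (({q : Tri (Fin (6 * n)) × Fin (6 * n) | q.1 ∈ S0.Ext g ∧ S0.HConn q.1 ∧ EvX S' q.1 q.2}.ncard : ℕ) : ℝ) ≤
      ((3 * (2 * n - vE t)).factorial : ℝ) * cT S' U n g t := by
  classical
  -- the parts
  set A0 : Set (Tri (Fin (6 * n)) × Fin (6 * n)) := {T | T ∈ S0.Ext g ∧ S0.HConn T} ×ˢ S0.R with hA0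
  set AN : Et → Set (Tri (Fin (6 * n)) × Fin (6 * n)) := fun t' =>
    {q | q.1 ∈ S0.Ext g ∧ S0.HConn q.1 ∧ ∃ S' x' S1 a b, Rn S0 q.1 q.2 t'.2.2 S' x' ∧
      Nsr S' q.1 x' t'.1 t'.2.1 S1 a b} with hAN
  set AS : Et → Set (Tri (Fin (6 * n)) × Fin (6 * n)) := fun t' =>
    {q | q.1 ∈ S0.Ext g ∧ S0.HConn q.1 ∧ ∃ S' x' u v, Rn S0 q.1 q.2 t'.2.2 S' x' ∧
      S'.Sep q.1 x' u v ∧ u.length = t'.1 ∧ v.length = t'.2.1 ∧ ∀ (hx : x' ∈ S'.B) (hy : q.1.a x' ∈ S'.B),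
        (∃ d ∈ [z, z'], ∃ e ∈ u, (S'.glue x' (q.1.a x') hx hy).Hc q.1 e d) ∧
          ∃ d ∈ [z, z'], ∃ e ∈ v, (S'.glue x' (q.1.a x') hx hy).Hc q.1 e d} with hAS
  set AM : List Stp → Set (Tri (Fin (6 * n)) × Fin (6 * n)) := fun w =>
    {q | q.1 ∈ S0.Ext g ∧ S0.HConn q.1 ∧ ∃ S' x', Rn S0 q.1 q.2 w S' x' ∧ S'.Mrg q.1 x'} with hAM
  set U' := U.filter (fun w => WOk 3 w) with hU'
  have hsub : {q : Tri (Fin (6 * n)) × Fin (6 * n) | q.1 ∈ S0.Ext g ∧ S0.HConn q.1 ∧ EvX S' q.1 q.2} ⊆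
      A0 ∪ (⋃ w ∈ U', AM w) ∪ (⋃ t' ∈ S', AN t') ∪ (⋃ t' ∈ S', AS t') := by
    rintro ⟨T, y⟩ ⟨hT, hH, t', ht', S00, a, b, hev⟩
    by_cases hy : y ∈ S0.R
    · left; left; left
      exact ⟨⟨hT, hH⟩, hy⟩
    · rcases ptw_u hT.1 h hT.2 hH hy hev with h1 | h1 | ⟨w, hw, h1⟩
      · left; right
        exact Set.mem_biUnion (Finset.mem_coe.2 ht') ⟨hT, hH, h1⟩
      · right
        exact Set.mem_biUnion (Finset.mem_coe.2 ht') ⟨hT, hH, h1⟩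
      · left; left; right
        refine Set.mem_biUnion (Finset.mem_coe.2 (Finset.mem_filter.2 ⟨hU t' ht' w hw, ?_⟩)) ⟨hT, hH, h1⟩
        obtain ⟨w', hw'⟩ := hw
        have h2 := (hS' t' ht').2.2.1
        rw [← hw', WOk_append] at h2
        exact h2.1
  have h0 : ((A0.ncard : ℕ) : ℝ) =
      ((3 * (2 * n - vE t)).factorial : ℝ) * (3 * (vE t : ℝ) * muG {t.1, t.2.1} (2 * n - vE t) (g - 1)) := by
    have h1 := typ_card (h := g - 1) h.typ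
    rw [show g - 1 + 1 = g by omega] at h1
    rw [hA0, Set.ncard_prod, reg_R h hv, Nat.cast_mul, h1]
    push_cast
    have h2 : (({t.1, t.2.1} : Multiset ℕ)) = (([t.1, t.2.1] : List ℕ) : Multiset ℕ) := rfl
    rw [h2]
    ring
  have hN : ∀ t' ∈ S', (((AN t').ncard : ℕ) : ℝ) ≤ ((3 * (2 * n - vE t)).factorial : ℝ) *
      (wE t' * muG {t'.1, t'.2.1, t.1, t.2.1} (2 * n - (vE t + vE t')) (g - 2)) := by
    intro t' ht'
    have h1 := relN_le hg (hS' t' ht') h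
    rw [Nat.sub_sub] at h1
    exact h1
  have hSp : ∀ t' ∈ S', (((AS t').ncard : ℕ) : ℝ) ≤ ((3 * (2 * n - vE t)).factorial : ℝ) *
      (wE t' * (SepS {t'.1, t.1} {t'.2.1, t.2.1} (2 * n - (vE t + vE t')) (g - 1) +
          SepS {t'.1, t.2.1} {t'.2.1, t.1} (2 * n - (vE t + vE t')) (g - 1))) := by
    intro t' ht'
    have h1 := relS_le (by omega : 1 ≤ g) (hS' t' ht') h
    rw [Nat.sub_sub] at h1
    exact h1
  have hM : ∀ w ∈ U', (((AM w).ncard : ℕ) : ℝ) ≤ ((3 * (2 * n - vE t)).factorial : ℝ) *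
      (wwt 1 Num.W w * (t.1 * muG {wend 3 w + t.1 - 2, t.2.1} (2 * n - (vE t + (1 + wvol w))) (g - 1) +
          t.2.1 * muG {wend 3 w + t.2.1 - 2, t.1} (2 * n - (vE t + (1 + wvol w))) (g - 1))) := by
    intro w hw
    have h1 := relM_le (by omega : 1 ≤ g) ht1 ht2 (Finset.mem_filter.1 hw).2 h
    rw [Nat.sub_sub] at h1
    exact h1
  have hbM : (((⋃ w ∈ U', AM w).ncard : ℕ) : ℝ) ≤ ((3 * (2 * n - vE t)).factorial : ℝ) *
      ∑ w ∈ U, wwt 1 W w *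
        (t.1 * muG {wend 3 w + t.1 - 2, t.2.1} (2 * n - (vE t + (1 + wvol w))) (g - 1) +
          t.2.1 * muG {wend 3 w + t.2.1 - 2, t.1} (2 * n - (vE t + (1 + wvol w))) (g - 1)) := by
    have h1 : (((⋃ w ∈ U', AM w).ncard : ℕ) : ℝ) ≤ ∑ w ∈ U', (((AM w).ncard : ℕ) : ℝ) := by
      exact_mod_cast pc_bU U' AM
    refine h1.trans ((Finset.sum_le_sum hM).trans ?_)
    rw [← Finset.mul_sum]
    refine mul_le_mul_of_nonneg_left ?_ (Nat.cast_nonneg _)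
    exact Finset.sum_le_sum_of_subset_of_nonneg (Finset.filter_subset _ _) fun w _ _ => pc_mterm n g t w
  have hbN : (((⋃ t' ∈ S', AN t').ncard : ℕ) : ℝ) ≤ ((3 * (2 * n - vE t)).factorial : ℝ) *
      ∑ t' ∈ S', wE t' * muG {t'.1, t'.2.1, t.1, t.2.1} (2 * n - (vE t + vE t')) (g - 2) := by
    have h1 : (((⋃ t' ∈ S', AN t').ncard : ℕ) : ℝ) ≤ ∑ t' ∈ S', (((AN t').ncard : ℕ) : ℝ) := by
      exact_mod_cast pc_bU S' AN
    refine h1.trans ((Finset.sum_le_sum hN).trans ?_)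
    rw [← Finset.mul_sum]
  have hbS : (((⋃ t' ∈ S', AS t').ncard : ℕ) : ℝ) ≤ ((3 * (2 * n - vE t)).factorial : ℝ) *
      ∑ t' ∈ S', wE t' * (SepS {t'.1, t.1} {t'.2.1, t.2.1} (2 * n - (vE t + vE t')) (g - 1) +
          SepS {t'.1, t.2.1} {t'.2.1, t.1} (2 * n - (vE t + vE t')) (g - 1)) := by
    have h1 : (((⋃ t' ∈ S', AS t').ncard : ℕ) : ℝ) ≤ ∑ t' ∈ S', (((AS t').ncard : ℕ) : ℝ) := by
      exact_mod_cast pc_bU S' AS
    refine h1.trans ((Finset.sum_le_sum hSp).trans ?_)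
    rw [← Finset.mul_sum]
  have htot : (({q : Tri (Fin (6 * n)) × Fin (6 * n) | q.1 ∈ S0.Ext g ∧ S0.HConn q.1 ∧ EvX S' q.1 q.2}.ncard : ℕ) : ℝ) ≤
      ((A0.ncard : ℕ) : ℝ) + (((⋃ w ∈ U', AM w).ncard : ℕ) : ℝ) + (((⋃ t' ∈ S', AN t').ncard : ℕ) : ℝ) +
        (((⋃ t' ∈ S', AS t').ncard : ℕ) : ℝ) := by
    have h1 := (pc_le hsub).trans (Set.ncard_union_le _ _)
    have h2 := Set.ncard_union_le (A0 ∪ (⋃ w ∈ U', AM w)) (⋃ t' ∈ S', AN t')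
    have h3 := Set.ncard_union_le A0 (⋃ w ∈ U', AM w)
    have h4 : {q : Tri (Fin (6 * n)) × Fin (6 * n) | q.1 ∈ S0.Ext g ∧ S0.HConn q.1 ∧ EvX S' q.1 q.2}.ncard ≤
        A0.ncard + (⋃ w ∈ U', AM w).ncard + (⋃ t' ∈ S', AN t').ncard + (⋃ t' ∈ S', AS t').ncard := by omega
    exact_mod_cast h4
  unfold cT
  rw [mul_add, mul_add, mul_add]
  linarith

theorem pair_le {n g : ℕ} (hn : 1 ≤ n) (hg : 2 ≤ g) {S S' : Finset Et} {U : Finset (List Stp)}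
    (hS : ∀ t ∈ S, GoodE t ∧ 2 ≤ t.1 ∧ 2 ≤ t.2.1 ∧ vE t ≤ 2 * n) (hS' : ∀ t ∈ S', GoodE t)
    (hU : ∀ t ∈ S', ∀ w, w <+: t.2.2 → w ∈ U) :
    (({q : Tri (Fin (6 * n)) × Fin (6 * n) × Fin (6 * n) | q.1 ∈ Trn n g ∧ EvX S q.1 q.2.1 ∧ EvX S' q.1 q.2.2}.ncard : ℕ) : ℝ) ≤
      ((6 * n).factorial : ℝ) * PB S S' U (n, g) := by
  set Q : Et → Set (Tri (Fin (6 * n)) × Fin (6 * n) × Fin (6 * n)) := fun t =>
    {q | q.1 ∈ Trn n g ∧ ∃ S0 z z', Ev q.1 q.2.1 t S0 z z' ∧ EvX S' q.1 q.2.2} with hQ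
  have hsub : {q : Tri (Fin (6 * n)) × Fin (6 * n) × Fin (6 * n) | q.1 ∈ Trn n g ∧ EvX S q.1 q.2.1 ∧
      EvX S' q.1 q.2.2} ⊆ ⋃ t ∈ S, Q t := by
    rintro ⟨T, x, y⟩ ⟨hT, ⟨t, ht, S0, z, z', hev⟩, h2⟩
    exact Set.mem_biUnion (Finset.mem_coe.2 ht) ⟨hT, S0, z, z', hev, h2⟩
  have h1 : (({q : Tri (Fin (6 * n)) × Fin (6 * n) × Fin (6 * n) | q.1 ∈ Trn n g ∧ EvX S q.1 q.2.1 ∧
      EvX S' q.1 q.2.2}.ncard : ℕ) : ℝ) ≤ ∑ t ∈ S, (((Q t).ncard : ℕ) : ℝ) := by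
    exact_mod_cast (pc_le hsub).trans (pc_bU S Q)
  refine h1.trans ?_
  rw [← pc_sum, Finset.mul_sum]
  refine Finset.sum_le_sum fun t ht => ?_
  obtain ⟨hg1, ht1, ht2, hv⟩ := hS t ht
  have h2 := evE_le (g := g) hn hg1 hv (fun T _ _ _ (y : Fin (6 * n)) => EvX S' T y) (pc_cT S' U n g t)
    (fun S0 z z' h => pc_reg hg ht1 ht2 hv hS' hU h)
  calc (((Q t).ncard : ℕ) : ℝ) ≤ ((6 * n).factorial : ℝ) * wE t * cT S' U n g t := h2
    _ = ((6 * n).factorial : ℝ) * (wE t * cT S' U n g t) := by ring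

end SYS.UP
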