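import Pool.Agent.SYS.UP.EvD
import Pool.Agent.SYS.BD.Mg

/-!
# SYS-UP-RelN: number of second sources with a disjoint event, relative to the region of the first event

`S0` = region of an event of type `t`, `F0 = 2n - vE t` hidden triangles, holes `z`, `z'` of perimeters `t.1`, `t.2.1`.
PLAN.  If `F0 = 0` the set is empty (`Src` needs a dart outside `S0.R`; `S0.R` is everything by `Typ.vol`).  Otherwise `F0 = F + 1`; the library theorem `Part.src_le` for `S0`; the new region has type `[y, z, z'] [3, t.1, t.2.1] F 1` (`typ_newTri`); then the library theorem `Part.cyl_le` for the word (rule `r0`); the reached regions have type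
`[x', z, z'] [wend 3 w, t.1, t.2.1] (F - wvol w) 1` (`rch_typ`), and `Part.ns_card` (`p = q1 + q2 + 2` by `GoodE t'`; `g = (g - 2) + 1 + 1`): the number of `T` with `Nsr S' T x' t'.1 t'.2.1 ..` is at most that of `∃ u v, NSt T x' u v ∧ lengths` (`Nsr → NSt`: `hw x = x :: (u' ++ T.a x :: v')` with `u' = z :: u`, `v' = z' :: v`, `T.a x ∈ B`);
the multiset of the list `t'.1 :: t'.2.1 :: t.1 :: t.2.1 :: []`.  `vE t' = 1 + wvol w`, `F0 - vE t' = F - wvol w`.
-/

namespace SYS.UP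

open SST Part Num

variable {n g : ℕ}

theorem relN_le (hg : 2 ≤ g) {t t' : Et} (ht' : GoodE t') {S0 : Part (Fin (6 * n))} {z z' : Fin (6 * n)} (h : Reg t S0 z z') :
    (({q : Tri (Fin (6 * n)) × Fin (6 * n) | q.1 ∈ S0.Ext g ∧ S0.HConn q.1 ∧ ∃ S' x' S1 a b, Rn S0 q.1 q.2 t'.2.2 S' x' ∧
      Nsr S' q.1 x' t'.1 t'.2.1 S1 a b}.ncard : ℕ) : ℝ) ≤
      ((3 * (2 * n - vE t)).factorial : ℝ) * (wE t' * muG {t'.1, t'.2.1, t.1, t.2.1} (2 * n - vE t - vE t') (g - 2)) := by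
  have hw0 : 0 ≤ wE t' := wwt_nonneg zero_le_one W_nonneg _
  have hm0 : 0 ≤ muG {t'.1, t'.2.1, t.1, t.2.1} (2 * n - vE t - vE t') (g - 2) := muG_nonneg _ _ _
  obtain ⟨hq1, hq2, hok, hend⟩ := ht'
  have htyp := h.typ
  rcases Nat.eq_zero_or_pos (2 * n - vE t) with h0 | h0
  · -- everything is revealed
    have hempty : {q : Tri (Fin (6 * n)) × Fin (6 * n) | q.1 ∈ S0.Ext g ∧ S0.HConn q.1 ∧ ∃ S' x' S1 a b,
        Rn S0 q.1 q.2 t'.2.2 S' x' ∧ Nsr S' q.1 x' t'.1 t'.2.1 S1 a b} = ∅ := by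
      rw [Set.eq_empty_iff_forall_notMem]
      rintro q ⟨-, -, S', x', S1, a, b, ⟨S2, ⟨-, t1, t2, k0, -⟩, -⟩, -⟩
      have hv := htyp.vol
      rw [h0, Nat.mul_zero, Nat.add_zero] at hv
      have huniv : S0.R = Set.univ := by
        rw [← Set.ncard_univ] at hv
        exact Set.eq_of_subset_of_ncard_le (Set.subset_univ _) hv.ge (Set.toFinite _)
      exact k0 (by rw [huniv]; trivial)
    rw [hempty, Set.ncard_empty, Nat.cast_zero]
    positivity
  · obtain ⟨F, hF⟩ : ∃ F, 2 * n - vE t = F + 1 := ⟨2 * n - vE t - 1, by omega⟩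
    rw [hF] at htyp hm0 ⊢
    have hF' : F + 1 - vE t' = F - wvol t'.2.2 := by
      unfold vE
      omega
    rw [hF'] at hm0 ⊢
    obtain ⟨c, hc⟩ : ∃ c : ℝ, c = muG {t'.1, t'.2.1, t.1, t.2.1} (F - wvol t'.2.2) (g - 2) := ⟨_, rfl⟩
    rw [← hc] at hm0 ⊢
    have key := src_le (g := g) htyp
      (fun T S1 y => ∃ S' x', Rch r0 [] S1 y t'.2.2 S' x' ∧ S'.Le T ∧ S'.HConn T ∧
        ∃ u v, S'.NSt T x' u v ∧ u.length = t'.1 ∧ v.length = t'.2.1) (c := wE t' * c) (mul_nonneg hw0 hm0) ?_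
    · refine le_trans ?_ key
      have hsub : {q : Tri (Fin (6 * n)) × Fin (6 * n) | q.1 ∈ S0.Ext g ∧ S0.HConn q.1 ∧ ∃ S' x' S1 a b,
          Rn S0 q.1 q.2 t'.2.2 S' x' ∧ Nsr S' q.1 x' t'.1 t'.2.1 S1 a b} ⊆
          {q : Tri (Fin (6 * n)) × Fin (6 * n) | q.1 ∈ S0.Ext g ∧ S0.HConn q.1 ∧ ∃ S', S'.Le q.1 ∧
            (∃ S'' x', Rch r0 [] S' q.2 t'.2.2 S'' x' ∧ S''.Le q.1 ∧ S''.HConn q.1 ∧
              ∃ u v, S''.NSt q.1 x' u v ∧ u.length = t'.1 ∧ v.length = t'.2.1) ∧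
            ∃ t1 t2 h0 h1 h2 h01 h12 h20, S' = S0.newTri q.2 t1 t2 h0 h1 h2 h01 h12 h20} := by
        rintro q ⟨hT, hcn, S', x', S1, a, b, ⟨S2, ⟨hle2, hex⟩, hr, hle, hcn'⟩, u, v, hx, hy, hhw, hu, hv, hS1, -, hcn1⟩
        refine ⟨hT, hcn, S2, hle2, ⟨S', x', hr, hle, hcn', a :: u, b :: v,
          ⟨List.cons_ne_nil _ _, List.cons_ne_nil _ _, hhw, hx, hy, ?_⟩, ?_, ?_⟩, hex⟩
        · rw [← hS1]
          exact hcn1
        · rw [List.length_cons]
          exact hu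
        · rw [List.length_cons]
          exact hv
      exact Nat.cast_le.2 (Set.ncard_le_ncard hsub (Set.toFinite _))
    · intro t0 t1 t2 k0 k1 k2 k01 k12 k20
      have htn := typ_newTri htyp k0 k1 k2 k01 k12 k20
      have h1 := cyl_le (g := g) (ρ := r0) (h := []) (w := t'.2.2) htn
        (fun T S' x' => ∃ u v, S'.NSt T x' u v ∧ u.length = t'.1 ∧ v.length = t'.2.1) hm0 ?_
      · have h2 : ((3 * F).factorial : ℝ) * (wE t' * c) = ((3 * F).factorial : ℝ) * wwt 1 Num.W t'.2.2 * c := by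
          unfold wE
          ring
        rw [h2]
        refine le_trans ?_ h1
        refine Nat.cast_le.2 (Set.ncard_le_ncard ?_ (Set.toFinite _))
        rintro T ⟨hT, -, S', x', hr, hle, hcn, hz⟩
        exact ⟨hT, S', x', hr, hle, hcn, hz⟩
      · intro S' x' hr
        obtain ⟨-, F', hFF, hty⟩ := rch_typ htn hr
        have hFF' : F - wvol t'.2.2 = F' := by omega
        rw [hFF'] at hc ⊢
        have h3 := ns_card (g := g) (h := g - 2) hty hq1 hq2 hend.symm (by omega)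
        rw [h3, hc]
        exact le_rfl

end SYS.UP
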