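import Pool.Agent.SYS.UP.LimN
import Pool.Agent.SYS.UP.LimS

/-!
# SYS-UP-Sec: the second moment

`aᵢ = sc i = 2 * 4^i`, `uᵢ = 1/aᵢ²`, `Sᵢ = ES C0 i`, `eᵢ = eE x Sᵢ`, `m = min i j`, `M = max i j`.
PROOF.  `C0` from `eE_low`.  First inequality: `X1 Sᵢ/nu → eᵢ ≥ c aᵢ²`, so eventually `uᵢ X1 Sᵢ ≥ (c/2) nu` for all `i < K`.
Second: for fixed `i, j < K` eventually (`oo_bd`, `mm_lim` + `mE_bd`, `nn_lim`, `ss_bd`; `V = C0 a`):
`PB(m, M) ≤ (e_m e_M + C₁ a_m^3 + C₁ a_m^3 a_M + C₁ a_m² a_M² ρ^(a_M) + ε) nu`.  Here `uᵢ uⱼ = u_m u_M`, so after multiplication: `≤ (uᵢ eᵢ uⱼ eⱼ + 2 C₁ a_m/a_M + C₁ ρ^(a_M) + ε) nu`.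
Sum over `i, j < K`: `∑ uᵢ eᵢ uⱼ eⱼ = (∑ uᵢ eᵢ)²`; `∑_{i,j} a_m/a_M = ∑ 4^(-|i-j|) ≤ 3 K`; `∑_{i,j} ρ^(a_M) ≤ ∑_M (2M+1) ρ^(a_M) ≤ C₂` (`a_M ≥ M + 1`; the series `∑ (2M+1) ρ^M` converges); `ε K² ≤ K`.
Finally `(∑ uᵢ X1 Sᵢ)²/nu² → (∑ uᵢ eᵢ)²`, so eventually `(∑ uᵢ eᵢ)² nu² ≤ (∑ uᵢ X1 Sᵢ)² + nu²`.
-/

namespace SYS.UP

open SYS.Num Real Filter Topology Finset

private theorem sum_mM (f : ℕ → ℕ → ℝ) (hf : ∀ m M, 0 ≤ f m M) (K : ℕ) :
    ∑ i ∈ range K, ∑ j ∈ range K, f (min i j) (max i j) ≤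
      2 * ∑ M ∈ range K, ∑ m ∈ range (M + 1), f m M := by
  induction K with
  | zero => simp
  | succ K ih =>
    have h1 : ∑ i ∈ range (K + 1), ∑ j ∈ range (K + 1), f (min i j) (max i j) =
        ∑ i ∈ range K, ∑ j ∈ range K, f (min i j) (max i j) + ∑ i ∈ range K, f i K +
          (∑ j ∈ range K, f j K + f K K) := by
      rw [sum_range_succ]
      congr 1
      · rw [← sum_add_distrib]
        refine sum_congr rfl fun i hi => ?_
        rw [sum_range_succ]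
        have := mem_range.1 hi
        rw [min_eq_left this.le, max_eq_right this.le]
      · rw [sum_range_succ]
        congr 1
        · refine sum_congr rfl fun j hj => ?_
          have := mem_range.1 hj
          rw [min_eq_right this.le, max_eq_left this.le]
        · rw [min_self, max_self]
    rw [h1, sum_range_succ, sum_range_succ]
    have := hf K K
    linarith

private theorem sc_pos (i : ℕ) : (0 : ℝ) < (sc i : ℝ) := by
  have : 0 < sc i := by unfold sc; positivity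
  exact_mod_cast this

private theorem sc_two (i : ℕ) : 2 ≤ sc i := by
  unfold sc
  have : 1 ≤ 4 ^ i := Nat.one_le_pow _ _ (by norm_num)
  omega

private theorem sc_twoR (i : ℕ) : (2 : ℝ) ≤ (sc i : ℝ) := by exact_mod_cast sc_two i

private theorem sc_ge (i : ℕ) : i ≤ sc i := by
  unfold sc
  have : i < 4 ^ i := Nat.lt_pow_self (by norm_num)
  omega

private theorem sc_mono {i j : ℕ} (h : i ≤ j) : sc i ≤ sc j := by
  unfold sc
  exact Nat.mul_le_mul_left _ (Nat.pow_le_pow_right (by norm_num) h)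

private theorem sc_sum (M : ℕ) : ∑ m ∈ range (M + 1), (sc m : ℝ) / sc M ≤ 2 := by
  rw [← sum_div, div_le_iff₀ (sc_pos M)]
  induction M with
  | zero => simp [sc]
  | succ M ih =>
    rw [sum_range_succ]
    have h1 : (sc (M + 1) : ℝ) = 4 * sc M := by
      unfold sc; push_cast; ring
    have := sc_pos M
    linarith

private theorem good_ES {C0 i : ℕ} : ∀ t ∈ ES C0 i, GoodE t ∧ 2 ≤ t.1 ∧ 2 ≤ t.2.1 := by
  intro t ht
  unfold ES at ht
  rw [mem_EvF] at ht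
  have := sc_two i
  exact ⟨ht.1, by omega, by omega⟩

theorem second {θ x : ℝ} (h : Par θ x) : ∃ (C0 : ℕ) (c C : ℝ), 0 < c ∧ 0 < C ∧ ∀ K : ℕ, 1 ≤ K →
    ∀ᶠ p in Num.Fth θ, c * K * SST.nu p.1 p.2 ≤ ∑ i ∈ range K, X1 (ES C0 i) p / (sc i : ℝ) ^ 2 ∧
      (∑ i ∈ range K, ∑ j ∈ range K, PB (ES C0 (min i j)) (ES C0 (max i j))
        (WdA 3 (C0 * sc (max i j))) p / ((sc i : ℝ) ^ 2 * (sc j : ℝ) ^ 2)) * SST.nu p.1 p.2 ≤
        (∑ i ∈ range K, X1 (ES C0 i) p / (sc i : ℝ) ^ 2) ^ 2 + C * K * SST.nu p.1 p.2 ^ 2 := by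
  have hL : Lw x := lw h.2.2.1
  obtain ⟨c1, C0, hc1, hlow⟩ := eE_low hL
  obtain ⟨Co, hCo, hoo⟩ := oo_bd h
  obtain ⟨Cm, hCm, hmE⟩ := mE_bd hL
  obtain ⟨Cs, ρ, hCs, hρ0, hρ1, hss⟩ := ss_bd h
  -- the series
  obtain ⟨S, hS0, hS⟩ : ∃ S : ℝ, 0 ≤ S ∧ ∀ K : ℕ, ∑ M ∈ range K, ((M : ℝ) + 1) * ρ ^ M ≤ S := by
    have hs1 : Summable fun M : ℕ => (M : ℝ) * ρ ^ M := by
      have := summable_pow_mul_geometric_of_norm_lt_one 1 (r := ρ) (by
        rw [Real.norm_eq_abs, abs_of_pos hρ0]; exact hρ1)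
      simpa using this
    have hs2 : Summable fun M : ℕ => ρ ^ M := summable_geometric_of_lt_one hρ0.le hρ1
    have hs3 : Summable fun M : ℕ => ((M : ℝ) + 1) * ρ ^ M := by
      refine (hs1.add hs2).congr fun M => ?_
      ring
    refine ⟨∑' M : ℕ, ((M : ℝ) + 1) * ρ ^ M, tsum_nonneg fun M => by positivity, fun K => ?_⟩
    exact hs3.sum_le_tsum _ fun M _ => by positivity
  set D : ℝ := Co * (C0 + 1) + Cm * (C0 + 1) with hD
  have hD0 : 0 < D := by positivity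
  set e : ℕ → ℝ := fun i => eE x (ES C0 i) with he
  have he1 : ∀ i, c1 * (sc i : ℝ) ^ 2 ≤ e i := fun i =>
    hlow (sc i) (C0 * sc i) (by have := sc_two i; omega) le_rfl
  have hlim : ∀ i, Tendsto (fun p : ℕ × ℕ => X1 (ES C0 i) p / SST.nu p.1 p.2) (Num.Fth θ) (𝓝 (e i)) :=
    fun i => x1_lim h fun t ht => (good_ES t ht).1
  -- the bound for a pair
  set f : ℕ → ℕ → ℝ := fun m M => D * ((sc m : ℝ) / sc M) + Cs * ρ ^ M with hf
  have hf0 : ∀ m M, 0 ≤ f m M := fun m M => by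
    have := sc_pos m
    have := sc_pos M
    simp only [hf]; positivity
  have key : ∀ ε : ℝ, 0 < ε → ∀ m M : ℕ, m ≤ M → ∀ᶠ p in Num.Fth θ,
      PB (ES C0 m) (ES C0 M) (WdA 3 (C0 * sc M)) p ≤
        (e m * e M + (f m M + ε) * ((sc m : ℝ) ^ 2 * (sc M : ℝ) ^ 2)) * SST.nu p.1 p.2 := by
    intro ε hε m M hmM
    have ha := sc_pos m
    have ha2 := sc_twoR m
    have hA2 := sc_twoR M
    have hA := sc_pos M
    have haA : (sc m : ℝ) ≤ sc M := by exact_mod_cast sc_mono hmM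
    have h1 := hoo (sc m) (C0 * sc m) (by have := sc_two m; omega)
    have h2 := (mm_lim h (S := ES C0 m) (U := WdA 3 (C0 * sc M)) good_ES
      (fun w hw => (mem_WdA.1 hw).1)).eventually_lt_const (lt_add_of_pos_right _ hε)
    have h3 := (nn_lim h (S := ES C0 m) (S' := ES C0 M) (fun t ht => (good_ES t ht).1)
      (fun t ht => (good_ES t ht).1)).eventually_lt_const (lt_add_of_pos_right _ hε)
    have h4 := hss (sc m) (C0 * sc m) (sc M) (C0 * sc M) (by have := sc_two m; omega)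
      (by have := sc_two M; omega)
    have hme := hmE (sc m) (C0 * sc m) (C0 * sc M) (by have := sc_two m; omega)
    filter_upwards [h1, h2, h3, h4, nu_pos_ev h] with p h1 h2 h3 h4 hnu
    rw [div_lt_iff₀ hnu] at h2 h3
    unfold PB
    push_cast at h1 hme
    -- the polynomial inequalities
    have q1 : Co * (sc m : ℝ) ^ 2 * (C0 * sc m + 1) ≤
        Co * (C0 + 1) * ((sc m : ℝ) / sc M) * ((sc m : ℝ) ^ 2 * (sc M : ℝ) ^ 2) := by
      have e1 : Co * (C0 + 1) * ((sc m : ℝ) / sc M) * ((sc m : ℝ) ^ 2 * (sc M : ℝ) ^ 2) =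
          Co * (sc m : ℝ) ^ 2 * ((C0 + 1) * sc m * sc M) := by
        field_simp
      rw [e1]
      refine mul_le_mul_of_nonneg_left ?_ (by positivity)
      have e2 : (C0 : ℝ) * sc m + 1 ≤ (C0 + 1) * sc m := by nlinarith
      have e3 : (0 : ℝ) ≤ (C0 + 1) * sc m := by positivity
      nlinarith
    have q2 : mE x (ES C0 m) (WdA 3 (C0 * sc M)) ≤
        Cm * (C0 + 1) * ((sc m : ℝ) / sc M) * ((sc m : ℝ) ^ 2 * (sc M : ℝ) ^ 2) := by
      have e1 : Cm * (C0 + 1) * ((sc m : ℝ) / sc M) * ((sc m : ℝ) ^ 2 * (sc M : ℝ) ^ 2) =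
          Cm * (sc m : ℝ) ^ 3 * ((C0 + 1) * sc M) := by
        field_simp
      rw [e1]
      refine hme.trans ?_
      refine mul_le_mul_of_nonneg_left ?_ (by positivity)
      nlinarith
    have q3 : Cs * (sc m : ℝ) ^ 2 * (sc M : ℝ) ^ 2 * ρ ^ sc M ≤
        Cs * ρ ^ M * ((sc m : ℝ) ^ 2 * (sc M : ℝ) ^ 2) := by
      have e1 : ρ ^ sc M ≤ ρ ^ M := pow_le_pow_of_le_one hρ0.le hρ1.le (sc_ge M)
      have e2 : (0 : ℝ) ≤ Cs * ((sc m : ℝ) ^ 2 * (sc M : ℝ) ^ 2) := by positivity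
      nlinarith
    have q4 : 2 * ε ≤ ε * ((sc m : ℝ) ^ 2 * (sc M : ℝ) ^ 2) := by
      have e1 : (4 : ℝ) ≤ (sc m : ℝ) ^ 2 := by nlinarith
      have e2 : (4 : ℝ) ≤ (sc M : ℝ) ^ 2 := by nlinarith
      have e3 : (2 : ℝ) ≤ (sc m : ℝ) ^ 2 * (sc M : ℝ) ^ 2 := by nlinarith
      have := mul_le_mul_of_nonneg_left e3 hε.le
      linarith
    have q5 : (Co * (sc m : ℝ) ^ 2 * (C0 * sc m + 1) + (mE x (ES C0 m) (WdA 3 (C0 * sc M)) + ε) +
        (e m * e M + ε) + Cs * (sc m : ℝ) ^ 2 * (sc M : ℝ) ^ 2 * ρ ^ sc M) * SST.nu p.1 p.2 ≤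
        (e m * e M + (f m M + ε) * ((sc m : ℝ) ^ 2 * (sc M : ℝ) ^ 2)) * SST.nu p.1 p.2 := by
      refine mul_le_mul_of_nonneg_right ?_ hnu.le
      have e1 : (f m M + ε) * ((sc m : ℝ) ^ 2 * (sc M : ℝ) ^ 2) =
          Co * (C0 + 1) * ((sc m : ℝ) / sc M) * ((sc m : ℝ) ^ 2 * (sc M : ℝ) ^ 2) +
          Cm * (C0 + 1) * ((sc m : ℝ) / sc M) * ((sc m : ℝ) ^ 2 * (sc M : ℝ) ^ 2) +
          Cs * ρ ^ M * ((sc m : ℝ) ^ 2 * (sc M : ℝ) ^ 2) + ε * ((sc m : ℝ) ^ 2 * (sc M : ℝ) ^ 2) := by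
        simp only [hf, hD]
        ring
      rw [e1]
      linarith
    have h1' : OO (ES C0 m) p ≤ Co * (sc m : ℝ) ^ 2 * (C0 * sc m + 1) * SST.nu p.1 p.2 := h1
    have h4' : SS (ES C0 m) (ES C0 M) p ≤
        Cs * (sc m : ℝ) ^ 2 * (sc M : ℝ) ^ 2 * ρ ^ sc M * SST.nu p.1 p.2 := h4
    have h3' : NN (ES C0 m) (ES C0 M) p < (e m * e M + ε) * SST.nu p.1 p.2 := h3
    linarith
  refine ⟨C0, c1 / 2, 2 * (2 * D + Cs * S) + 1 + 1, by positivity, by positivity, fun K hK => ?_⟩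
  have hKR : (1 : ℝ) ≤ K := by exact_mod_cast hK
  have hK0 : (0 : ℝ) < K := by linarith
  -- first part
  have ev1 : ∀ᶠ p in Num.Fth θ, ∀ i ∈ range K, c1 / 2 * SST.nu p.1 p.2 ≤ X1 (ES C0 i) p / (sc i : ℝ) ^ 2 := by
    rw [Filter.eventually_all_finset]
    intro i _
    have hi := sc_pos i
    have hlt : c1 / 2 * (sc i : ℝ) ^ 2 < e i := by
      have := he1 i
      have h2 : 0 < c1 * (sc i : ℝ) ^ 2 := by positivity
      linarith
    filter_upwards [(hlim i).eventually_const_lt hlt, nu_pos_ev h] with p hp hnu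
    rw [lt_div_iff₀ hnu] at hp
    rw [le_div_iff₀ (by positivity)]
    nlinarith
  -- the limit of the first moment
  have ev3 : ∀ᶠ p in Num.Fth θ, (∑ i ∈ range K, e i / (sc i : ℝ) ^ 2) ^ 2 * SST.nu p.1 p.2 ^ 2 ≤
      (∑ i ∈ range K, X1 (ES C0 i) p / (sc i : ℝ) ^ 2) ^ 2 + SST.nu p.1 p.2 ^ 2 := by
    have hl : Tendsto (fun p : ℕ × ℕ => (∑ i ∈ range K, X1 (ES C0 i) p / SST.nu p.1 p.2 / (sc i : ℝ) ^ 2) ^ 2)
        (Num.Fth θ) (𝓝 ((∑ i ∈ range K, e i / (sc i : ℝ) ^ 2) ^ 2)) :=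
      (tendsto_finsetSum _ fun i _ => (hlim i).div_const _).pow 2
    filter_upwards [hl.eventually_const_lt (sub_lt_self _ one_pos), nu_pos_ev h] with p hp hnu
    have e1 : ∑ i ∈ range K, X1 (ES C0 i) p / SST.nu p.1 p.2 / (sc i : ℝ) ^ 2 =
        (∑ i ∈ range K, X1 (ES C0 i) p / (sc i : ℝ) ^ 2) / SST.nu p.1 p.2 := by
      rw [sum_div]
      refine sum_congr rfl fun i _ => ?_
      rw [div_right_comm]
    rw [e1, div_pow, lt_div_iff₀ (by positivity)] at hp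
    nlinarith
  have ev2 : ∀ᶠ p in Num.Fth θ, ∀ i ∈ range K, ∀ j ∈ range K,
      PB (ES C0 (min i j)) (ES C0 (max i j)) (WdA 3 (C0 * sc (max i j))) p ≤
        (e (min i j) * e (max i j) + (f (min i j) (max i j) + 1 / K) *
          ((sc (min i j) : ℝ) ^ 2 * (sc (max i j) : ℝ) ^ 2)) * SST.nu p.1 p.2 := by
    rw [Filter.eventually_all_finset]
    intro i _
    rw [Filter.eventually_all_finset]
    intro j _
    exact key (1 / K) (by positivity) _ _ min_le_max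
  filter_upwards [ev1, ev2, ev3, nu_pos_ev h] with p h1 h2 h3 hnu
  constructor
  · have : ∑ _i ∈ range K, c1 / 2 * SST.nu p.1 p.2 ≤ ∑ i ∈ range K, X1 (ES C0 i) p / (sc i : ℝ) ^ 2 :=
      sum_le_sum h1
    rw [sum_const, card_range, nsmul_eq_mul] at this
    linarith
  · -- second part
    have t1 : ∀ i ∈ range K, ∀ j ∈ range K,
        PB (ES C0 (min i j)) (ES C0 (max i j)) (WdA 3 (C0 * sc (max i j))) p /
          ((sc i : ℝ) ^ 2 * (sc j : ℝ) ^ 2) ≤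
        (e i / (sc i : ℝ) ^ 2 * (e j / (sc j : ℝ) ^ 2) + (f (min i j) (max i j) + 1 / K)) * SST.nu p.1 p.2 := by
      intro i hi j hj
      have hi' := sc_pos i
      have hj' := sc_pos j
      rw [div_le_iff₀ (by positivity)]
      refine (h2 i hi j hj).trans (le_of_eq ?_)
      rcases le_total i j with hij | hij
      · rw [min_eq_left hij, max_eq_right hij]
        field_simp
      · rw [min_eq_right hij, max_eq_left hij]
        field_simp
    have t2 : ∑ i ∈ range K, ∑ j ∈ range K, PB (ES C0 (min i j)) (ES C0 (max i j))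
        (WdA 3 (C0 * sc (max i j))) p / ((sc i : ℝ) ^ 2 * (sc j : ℝ) ^ 2) ≤
        ∑ i ∈ range K, ∑ j ∈ range K,
          (e i / (sc i : ℝ) ^ 2 * (e j / (sc j : ℝ) ^ 2) + (f (min i j) (max i j) + 1 / K)) * SST.nu p.1 p.2 :=
      sum_le_sum fun i hi => sum_le_sum fun j hj => t1 i hi j hj
    have t3 : ∑ i ∈ range K, ∑ j ∈ range K,
          (e i / (sc i : ℝ) ^ 2 * (e j / (sc j : ℝ) ^ 2) + (f (min i j) (max i j) + 1 / K)) * SST.nu p.1 p.2 =
        ((∑ i ∈ range K, e i / (sc i : ℝ) ^ 2) ^ 2 +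
          (∑ i ∈ range K, ∑ j ∈ range K, f (min i j) (max i j) + K)) * SST.nu p.1 p.2 := by
      rw [sq, sum_mul_sum]
      have e1 : (K : ℝ) = ∑ _i ∈ range K, ∑ _j ∈ range K, (1 / K : ℝ) := by
        simp only [sum_const, card_range, nsmul_eq_mul]
        field_simp
      conv_rhs => rw [e1]
      rw [← sum_add_distrib, ← sum_add_distrib, sum_mul]
      refine sum_congr rfl fun i _ => ?_
      rw [← sum_add_distrib, ← sum_add_distrib, sum_mul]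
    have t4 : ∑ i ∈ range K, ∑ j ∈ range K, f (min i j) (max i j) ≤ 2 * (2 * D + Cs * S) * K := by
      refine (sum_mM f hf0 K).trans ?_
      have e1 : ∀ M, ∑ m ∈ range (M + 1), f m M ≤ 2 * D + Cs * (((M : ℝ) + 1) * ρ ^ M) := by
        intro M
        simp only [hf]
        rw [sum_add_distrib, ← mul_sum, sum_const, card_range, nsmul_eq_mul]
        have := sc_sum M
        push_cast
        nlinarith
      have e2 : ∑ M ∈ range K, ∑ m ∈ range (M + 1), f m M ≤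
          ∑ M ∈ range K, (2 * D + Cs * (((M : ℝ) + 1) * ρ ^ M)) := sum_le_sum fun M _ => e1 M
      rw [sum_add_distrib, sum_const, card_range, nsmul_eq_mul, ← mul_sum] at e2
      have e3 : Cs * ∑ M ∈ range K, ((M : ℝ) + 1) * ρ ^ M ≤ Cs * S :=
        mul_le_mul_of_nonneg_left (hS K) hCs.le
      have e4 : Cs * S ≤ Cs * S * K := by
        have : 0 ≤ Cs * S := by positivity
        nlinarith
      have e5 : ∑ M ∈ range K, ∑ m ∈ range (M + 1), f m M ≤ K * (2 * D) + Cs * S := by linarith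
      nlinarith
    rw [t3] at t2
    have t5 := mul_le_mul_of_nonneg_right t2 hnu.le
    have t6 : ((∑ i ∈ range K, ∑ j ∈ range K, f (min i j) (max i j)) + K) * SST.nu p.1 p.2 ^ 2 ≤
        (2 * (2 * D + Cs * S) * K + K) * SST.nu p.1 p.2 ^ 2 :=
      mul_le_mul_of_nonneg_right (by linarith) (by positivity)
    have t7 : SST.nu p.1 p.2 ^ 2 ≤ K * SST.nu p.1 p.2 ^ 2 := by
      have : 0 ≤ SST.nu p.1 p.2 ^ 2 := by positivity
      nlinarith
    nlinarith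

end SYS.UP
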