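import Pool.Agent.SYS.UP.Nus
import Pool.Agent.SYS.RB.Cr
import Pool.Agent.SYS.RB.Bd

/-!
# SYS-UP-SepB: separations into two large parts (no mass is lost)

Both bounds from one lemma: `muG P F a * i ^ 2 ≤ (6 i) ^ #P * tt (i + 1) a` with `2 i = F + |P|`, an injection into the window and `no_mass`.
-/

namespace SYS.UP

open SYS.Num Real Filter Topology Finset

/-- Part of `SepS` with at least `K` triangles on both sides. -/
noncomputable def SepK (K : ℕ) (P P' : Multiset ℕ) (F g : ℕ) : ℝ :=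
  ∑ f ∈ (HasAntidiagonal.antidiagonal F).filter (fun f => K ≤ f.1 ∧ K ≤ f.2),
    ∑ h ∈ HasAntidiagonal.antidiagonal g, muG P f.1 h.1 * muG P' f.2 h.2

private theorem muG_le_tt {P : Multiset ℕ} (hP : ∀ p ∈ P, 1 ≤ p) {F : ℕ} (hF : 2 ≤ F + P.sum)
    (a : ℕ) :
    muG P F a * (((F + P.sum) / 2 : ℕ) : ℝ) ^ 2 ≤
      6 ^ Multiset.card P * (((F + P.sum) / 2 : ℕ) : ℝ) ^ Multiset.card P *
        RB.tt ((F + P.sum) / 2 + 1) a := by
  by_cases he : Even (F + P.sum)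
  · obtain ⟨i, hi⟩ := he
    have h1 : (F + P.sum) / 2 = i := by omega
    have h2 := muG_ubc hP F a
    have h3 : (3 * ((F : ℝ) + P.sum)) = 6 * i := by
      have : ((F : ℝ) + P.sum) = ((i : ℝ) + i) := by exact_mod_cast hi
      rw [this]
      ring
    rw [h1, h3] at h2
    rw [h1, RB.tt_succ (by omega : 1 ≤ i)]
    have h4 : 0 ≤ SST.nu i a := RB.nu_nn i a
    have h5 : (0 : ℝ) ≤ i := Nat.cast_nonneg i
    calc muG P F a * (i : ℝ) ^ 2 ≤ ((6 * i) ^ Multiset.card P * SST.nu i a) * (i : ℝ) ^ 2 :=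
          mul_le_mul_of_nonneg_right h2 (by positivity)
      _ = 6 ^ Multiset.card P * (i : ℝ) ^ Multiset.card P * ((i : ℝ) ^ 2 * SST.nu i a) := by
          rw [mul_pow]
          ring
      _ ≤ _ := by
          refine mul_le_mul_of_nonneg_left ?_ (by positivity)
          refine mul_le_mul_of_nonneg_right ?_ h4
          nlinarith
  · rw [muG_odd he, zero_mul]
    have := RB.tt_nn ((F + P.sum) / 2 + 1) a
    positivity

private theorem sepK_le {P P' : Multiset ℕ} (hP : ∀ p ∈ P, 1 ≤ p) (hP' : ∀ p ∈ P', 1 ≤ p) {s : ℕ}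
    (hk : ∀ i i' : ℕ, 1 ≤ i → 1 ≤ i' →
      (i : ℝ) ^ Multiset.card P * (i' : ℝ) ^ Multiset.card P' * ((i + i' : ℕ) : ℝ) ^ s ≤
        2 * ((i + i' : ℕ) : ℝ) ^ (Multiset.card P + Multiset.card P' - 2) *
          ((i : ℝ) ^ 2 * (i' : ℝ) ^ 2))
    {K' K : ℕ} (hK : 2 * K' + 2 ≤ K) (F g : ℕ) :
    SepK K P P' F g * (((F + P.sum + P'.sum) / 2 : ℕ) : ℝ) ^ s ≤
      2 * 6 ^ (Multiset.card P + Multiset.card P') *
        (((F + P.sum + P'.sum) / 2 : ℕ) : ℝ) ^ (Multiset.card P + Multiset.card P' - 2) *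
          RB.WW K' ((F + P.sum + P'.sum) / 2 + 2) g := by
  set N : ℕ := (F + P.sum + P'.sum) / 2 with hN
  set C : ℝ := 2 * 6 ^ (Multiset.card P + Multiset.card P') *
    (N : ℝ) ^ (Multiset.card P + Multiset.card P' - 2) with hC
  have hC0 : 0 ≤ C := by positivity
  set φ : ℕ × ℕ → ℕ × ℕ := fun f => ((f.1 + P.sum) / 2 + 1, (f.2 + P'.sum) / 2 + 1) with hφ
  set s0 := (HasAntidiagonal.antidiagonal F).filter (fun f => K ≤ f.1 ∧ K ≤ f.2) with hs0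
  set s1 := s0.filter (fun f => Even (f.1 + P.sum) ∧ Even (f.2 + P'.sum)) with hs1
  set G : ℕ × ℕ → ℝ := fun p => ∑ q ∈ antidiagonal g, RB.tt p.1 q.1 * RB.tt p.2 q.2 with hG
  have hG0 : ∀ p, 0 ≤ G p := fun p => Finset.sum_nonneg
    (fun q _ => mul_nonneg (RB.tt_nn _ _) (RB.tt_nn _ _))
  have hmem : ∀ f ∈ s1, f.1 + f.2 = F ∧ K ≤ f.1 ∧ K ≤ f.2 ∧ Even (f.1 + P.sum) ∧
      Even (f.2 + P'.sum) := by
    intro f hf
    rw [hs1, Finset.mem_filter, hs0, Finset.mem_filter, HasAntidiagonal.mem_antidiagonal] at hf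
    exact ⟨hf.1.1, hf.1.2.1, hf.1.2.2, hf.2.1, hf.2.2⟩
  have hterm : ∀ f ∈ s1, (∑ h ∈ HasAntidiagonal.antidiagonal g, muG P f.1 h.1 * muG P' f.2 h.2) *
      (N : ℝ) ^ s ≤ C * G (φ f) := by
    intro f hf
    obtain ⟨h1, h2, h3, h4, h5⟩ := hmem f hf
    obtain ⟨i, hi⟩ := h4
    obtain ⟨i', hi'⟩ := h5
    have e1 : (f.1 + P.sum) / 2 = i := by omega
    have e2 : (f.2 + P'.sum) / 2 = i' := by omega
    have e3 : i + i' = N := by omega
    have hi1 : 1 ≤ i := by omega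
    have hi1' : 1 ≤ i' := by omega
    rw [Finset.sum_mul, hG, Finset.mul_sum]
    refine Finset.sum_le_sum (fun q _ => ?_)
    simp only [hφ]
    rw [e1, e2]
    have a1 := muG_le_tt hP (F := f.1) (by omega) q.1
    have a2 := muG_le_tt hP' (F := f.2) (by omega) q.2
    rw [e1] at a1
    rw [e2] at a2
    have b1 := hk i i' hi1 hi1'
    rw [e3] at b1
    have c1 : (0 : ℝ) < (i : ℝ) ^ 2 * (i' : ℝ) ^ 2 := by
      have : (0 : ℝ) < i := by exact_mod_cast hi1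
      have : (0 : ℝ) < i' := by exact_mod_cast hi1'
      positivity
    have t1 := RB.tt_nn (i + 1) q.1
    have t2 := RB.tt_nn (i' + 1) q.2
    have m1 := muG_nonneg P f.1 q.1
    have m2 := muG_nonneg P' f.2 q.2
    refine le_of_mul_le_mul_right ?_ c1
    calc muG P f.1 q.1 * muG P' f.2 q.2 * (N : ℝ) ^ s * ((i : ℝ) ^ 2 * (i' : ℝ) ^ 2)
        = (muG P f.1 q.1 * (i : ℝ) ^ 2) * (muG P' f.2 q.2 * (i' : ℝ) ^ 2) * (N : ℝ) ^ s := by ring
      _ ≤ (6 ^ Multiset.card P * (i : ℝ) ^ Multiset.card P * RB.tt (i + 1) q.1) *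
          (6 ^ Multiset.card P' * (i' : ℝ) ^ Multiset.card P' * RB.tt (i' + 1) q.2) *
            (N : ℝ) ^ s := by
          refine mul_le_mul_of_nonneg_right ?_ (by positivity)
          exact mul_le_mul a1 a2 (by positivity) (by positivity)
      _ = 6 ^ (Multiset.card P + Multiset.card P') * (RB.tt (i + 1) q.1 * RB.tt (i' + 1) q.2) *
          ((i : ℝ) ^ Multiset.card P * (i' : ℝ) ^ Multiset.card P' * (N : ℝ) ^ s) := by
          rw [pow_add]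
          ring
      _ ≤ 6 ^ (Multiset.card P + Multiset.card P') * (RB.tt (i + 1) q.1 * RB.tt (i' + 1) q.2) *
          (2 * (N : ℝ) ^ (Multiset.card P + Multiset.card P' - 2) *
            ((i : ℝ) ^ 2 * (i' : ℝ) ^ 2)) :=
          mul_le_mul_of_nonneg_left b1 (by positivity)
      _ = C * (RB.tt (i + 1) q.1 * RB.tt (i' + 1) q.2) * ((i : ℝ) ^ 2 * (i' : ℝ) ^ 2) := by
          rw [hC]
          ring
  have hinj : Set.InjOn φ (s1 : Set (ℕ × ℕ)) := by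
    intro f hf f' hf' he
    obtain ⟨h1, h2, h3, ⟨i, hi⟩, ⟨i', hi'⟩⟩ := hmem f (by exact_mod_cast hf)
    obtain ⟨k1, k2, k3, ⟨l, hl⟩, ⟨l', hl'⟩⟩ := hmem f' (by exact_mod_cast hf')
    simp only [hφ, Prod.mk.injEq] at he
    ext
    · omega
    · omega
  have hsub : s1.image φ ⊆ RB.WS K' (N + 2) := by
    intro p hp
    rw [Finset.mem_image] at hp
    obtain ⟨f, hf, rfl⟩ := hp
    obtain ⟨h1, h2, h3, ⟨i, hi⟩, ⟨i', hi'⟩⟩ := hmem f hf
    rw [RB.WS, Finset.mem_filter, HasAntidiagonal.mem_antidiagonal]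
    simp only [hφ]
    refine ⟨by omega, by omega, by omega⟩
  have e0 : SepK K P P' F g = ∑ f ∈ s1, ∑ h ∈ HasAntidiagonal.antidiagonal g,
      muG P f.1 h.1 * muG P' f.2 h.2 := by
    rw [SepK, ← hs0]
    symm
    refine Finset.sum_subset (Finset.filter_subset _ _) (fun f hf hf' => ?_)
    refine Finset.sum_eq_zero (fun q _ => ?_)
    by_cases h1 : Even (f.1 + P.sum)
    · have h2 : ¬ Even (f.2 + P'.sum) := fun h2 => hf' (Finset.mem_filter.2 ⟨hf, h1, h2⟩)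
      rw [muG_odd h2, mul_zero]
    · rw [muG_odd h1, zero_mul]
  rw [e0, Finset.sum_mul]
  calc ∑ f ∈ s1, (∑ h ∈ HasAntidiagonal.antidiagonal g, muG P f.1 h.1 * muG P' f.2 h.2) *
        (N : ℝ) ^ s ≤ ∑ f ∈ s1, C * G (φ f) := Finset.sum_le_sum hterm
    _ = C * ∑ p ∈ s1.image φ, G p := by
        rw [← Finset.mul_sum, Finset.sum_image hinj]
    _ ≤ C * RB.WW K' (N + 2) g := by
        refine mul_le_mul_of_nonneg_left ?_ hC0
        rw [RB.WW]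
        exact Finset.sum_le_sum_of_subset_of_nonneg hsub (fun p _ _ => hG0 p)

private theorem sepK_nn (K : ℕ) (P P' : Multiset ℕ) (F g : ℕ) : 0 ≤ SepK K P P' F g :=
  Finset.sum_nonneg (fun _ _ => Finset.sum_nonneg
    (fun _ _ => mul_nonneg (muG_nonneg _ _ _) (muG_nonneg _ _ _)))

private theorem core_big {θ x : ℝ} (h : Par θ x) {P P' : Multiset ℕ} (hP : ∀ p ∈ P, 1 ≤ p)
    (hP' : ∀ p ∈ P', 1 ≤ p) (h2 : 2 ≤ Multiset.card P + Multiset.card P') {s : ℕ} (hs : s ≤ 2)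
    (hk : ∀ i i' : ℕ, 1 ≤ i → 1 ≤ i' →
      (i : ℝ) ^ Multiset.card P * (i' : ℝ) ^ Multiset.card P' * ((i + i' : ℕ) : ℝ) ^ s ≤
        2 * ((i + i' : ℕ) : ℝ) ^ (Multiset.card P + Multiset.card P' - 2) *
          ((i : ℝ) ^ 2 * (i' : ℝ) ^ 2))
    (v : ℤ) (j : ℕ) {ε : ℝ} (hε : 0 < ε) :
    ∃ K0 : ℕ, ∀ K ≥ K0, ∀ᶠ p in Num.Fth θ,
      SepK K P P' (2 * (p.1 : ℤ) - v).toNat (p.2 - j) * (p.1 : ℝ) ^ (2 * j) * (p.1 : ℝ) ^ s ≤
        ε * ((p.1 : ℝ) ^ (Multiset.card P + Multiset.card P') * SST.nu p.1 p.2) := by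
  set κ : ℕ := Multiset.card P + Multiset.card P' with hκ
  set e : ℤ := ((P.sum : ℤ) + P'.sum - v) / 2 with he
  set l : ℤ := -e - 2 with hl
  set C' : ℝ := yy x ^ l * chi x ^ j + 1 with hC'
  have hC'0 : 0 < C' := by
    have h1 : 0 < yy x := (lw h.2.2.1).y_pos
    have h2 : 0 ≤ chi x := by
      unfold chi
      positivity
    have h3 : 0 ≤ yy x ^ l * chi x ^ j := mul_nonneg (zpow_pos h1 l).le (pow_nonneg h2 j)
    linarith
  have hε' : 0 < ε / (768 * 12 ^ κ * C') := by positivity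
  obtain ⟨K1, N1, hW⟩ := no_mass hε'
  refine ⟨2 * K1 + 2, fun K hK => ?_⟩
  have hev : ∀ᶠ p in Num.Fth θ, SST.nu ((p.1 : ℤ) - l).toNat (p.2 - j) * (p.1 : ℝ) ^ (2 * j) /
      SST.nu p.1 p.2 < C' := (nu_sh h l j).eventually_lt_const (by rw [hC']; linarith)
  filter_upwards [nu_pos_ev h, hev, RB.ge_ev θ (N1 + v.natAbs + 2 * e.natAbs + 10)] with p hp1 hp2 hp3
  obtain ⟨n, g⟩ := p
  simp only at hp1 hp2 hp3 ⊢
  set F : ℕ := (2 * (n : ℤ) - v).toNat with hF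
  set N : ℕ := (F + P.sum + P'.sum) / 2 with hN
  have hNn : (N : ℤ) = n + e := by omega
  have hl' : ((n : ℤ) - l).toNat = N + 2 := by omega
  rw [hl', div_lt_iff₀ hp1] at hp2
  have hA := sepK_le hP hP' hk hK F (g - j)
  rw [← hN, ← hκ] at hA
  have hWn := hW (N + 2) (by omega) (g - j)
  rw [RB.tt_succ (by omega : 1 ≤ N + 2)] at hWn
  have hA0 := sepK_nn K P P' F (g - j)
  have hν1 : 0 ≤ SST.nu (N + 2) (g - j) := nu_nn _ _
  have hn1 : (1 : ℝ) ≤ n := by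
    have : 1 ≤ n := by omega
    exact_mod_cast this
  have hn0 : (0 : ℝ) < n := by linarith
  have hN2 : ((N + 2 : ℕ) : ℝ) ≤ 2 * n := by
    have : N + 2 ≤ 2 * n := by omega
    exact_mod_cast this
  have hNle : (N : ℝ) ≤ 2 * n := by
    have : N ≤ 2 * n := by omega
    exact_mod_cast this
  have hnN : (n : ℝ) ≤ 2 * N := by
    have : n ≤ 2 * N := by omega
    exact_mod_cast this
  have hN0 : (0 : ℝ) ≤ N := Nat.cast_nonneg N
  have q1 : (n : ℝ) ^ s ≤ 4 * (N : ℝ) ^ s := by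
    calc (n : ℝ) ^ s ≤ (2 * N) ^ s := pow_le_pow_left₀ hn0.le hnN s
      _ = 2 ^ s * (N : ℝ) ^ s := mul_pow _ _ _
      _ ≤ 2 ^ 2 * (N : ℝ) ^ s := by
          refine mul_le_mul_of_nonneg_right ?_ (by positivity)
          exact pow_le_pow_right₀ (by norm_num) hs
      _ = 4 * (N : ℝ) ^ s := by norm_num
  have q2 : (N : ℝ) ^ (κ - 2) ≤ 2 ^ κ * (n : ℝ) ^ (κ - 2) := by
    calc (N : ℝ) ^ (κ - 2) ≤ (2 * n) ^ (κ - 2) := pow_le_pow_left₀ hN0 hNle _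
      _ = 2 ^ (κ - 2) * (n : ℝ) ^ (κ - 2) := mul_pow _ _ _
      _ ≤ 2 ^ κ * (n : ℝ) ^ (κ - 2) := by
          refine mul_le_mul_of_nonneg_right ?_ (by positivity)
          exact pow_le_pow_right₀ (by norm_num) (Nat.sub_le _ _)
  have q3 : RB.WW K1 (N + 2) (g - j) ≤ ε / (768 * 12 ^ κ * C') *
      (96 * (n : ℝ) ^ 2 * SST.nu (N + 2) (g - j)) := by
    refine hWn.trans (mul_le_mul_of_nonneg_left ?_ hε'.le)
    refine mul_le_mul_of_nonneg_right ?_ hν1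
    have h3 : (0 : ℝ) ≤ ((N + 2 : ℕ) : ℝ) := Nat.cast_nonneg _
    nlinarith
  have q4 : (n : ℝ) ^ κ = (n : ℝ) ^ (κ - 2) * (n : ℝ) ^ 2 := by
    rw [← pow_add]
    congr 1
    omega
  calc SepK K P P' F (g - j) * (n : ℝ) ^ (2 * j) * (n : ℝ) ^ s
      ≤ SepK K P P' F (g - j) * (n : ℝ) ^ (2 * j) * (4 * (N : ℝ) ^ s) :=
        mul_le_mul_of_nonneg_left q1 (by positivity)
    _ = 4 * (n : ℝ) ^ (2 * j) * (SepK K P P' F (g - j) * (N : ℝ) ^ s) := by ring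
    _ ≤ 4 * (n : ℝ) ^ (2 * j) * (2 * 6 ^ κ * (N : ℝ) ^ (κ - 2) * RB.WW K1 (N + 2) (g - j)) :=
        mul_le_mul_of_nonneg_left hA (by positivity)
    _ ≤ 4 * (n : ℝ) ^ (2 * j) * (2 * 6 ^ κ * (2 ^ κ * (n : ℝ) ^ (κ - 2)) *
          (ε / (768 * 12 ^ κ * C') * (96 * (n : ℝ) ^ 2 * SST.nu (N + 2) (g - j)))) := by
        refine mul_le_mul_of_nonneg_left ?_ (by positivity)
        refine mul_le_mul ?_ q3 ?_ (by positivity)
        · exact mul_le_mul_of_nonneg_left q2 (by positivity)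
        · rw [RB.WW]
          exact Finset.sum_nonneg (fun _ _ => Finset.sum_nonneg
            (fun _ _ => mul_nonneg (RB.tt_nn _ _) (RB.tt_nn _ _)))
    _ = ε / C' * (n : ℝ) ^ κ * (SST.nu (N + 2) (g - j) * (n : ℝ) ^ (2 * j)) := by
        have h12 : (12 : ℝ) ^ κ = 6 ^ κ * 2 ^ κ := by
          rw [← mul_pow]
          norm_num
        rw [q4, h12]
        field_simp
        ring
    _ ≤ ε / C' * (n : ℝ) ^ κ * (C' * SST.nu n g) :=
        mul_le_mul_of_nonneg_left hp2.le (by positivity)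
    _ = ε * ((n : ℝ) ^ κ * SST.nu n g) := by
        field_simp

theorem big_nu {θ x : ℝ} (h : Par θ x) {P P' : Multiset ℕ} (hP : ∀ p ∈ P, 1 ≤ p)
    (hP' : ∀ p ∈ P', 1 ≤ p) (h0 : P ≠ 0) (h0' : P' ≠ 0) (v : ℤ) (j : ℕ) {ε : ℝ} (hε : 0 < ε) :
    ∃ K0 : ℕ, ∀ K ≥ K0, ∀ᶠ p in Num.Fth θ,
      SepK K P P' (2 * (p.1 : ℤ) - v).toNat (p.2 - j) * (p.1 : ℝ) ^ (2 * j) * p.1 ≤
        ε * ((p.1 : ℝ) ^ (Multiset.card P + Multiset.card P') * SST.nu p.1 p.2) := by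
  have c1 : 1 ≤ Multiset.card P := Multiset.card_pos.2 h0
  have c2 : 1 ≤ Multiset.card P' := Multiset.card_pos.2 h0'
  obtain ⟨m, hm⟩ := Nat.exists_eq_add_of_le c1
  obtain ⟨m', hm'⟩ := Nat.exists_eq_add_of_le c2
  have key := core_big h hP hP' (by omega) (s := 1) (by norm_num) ?_ v j hε
  · simpa only [pow_one] using key
  · intro i i' hi hi'
    have r1 : (1 : ℝ) ≤ i := by exact_mod_cast hi
    have r2 : (1 : ℝ) ≤ i' := by exact_mod_cast hi'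
    have e1 : Multiset.card P + Multiset.card P' - 2 = m + m' := by omega
    rw [e1, hm, hm']
    push_cast
    have s1 : (i : ℝ) ^ m ≤ ((i : ℝ) + i') ^ m := pow_le_pow_left₀ (by linarith) (by linarith) m
    have s2 : (i' : ℝ) ^ m' ≤ ((i : ℝ) + i') ^ m' :=
      pow_le_pow_left₀ (by linarith) (by linarith) m'
    have s3 : (i : ℝ) + i' ≤ 2 * (i * i') := by nlinarith
    calc (i : ℝ) ^ (1 + m) * (i' : ℝ) ^ (1 + m') * ((i : ℝ) + i') ^ 1
        = ((i : ℝ) ^ m * (i' : ℝ) ^ m') * ((i * i') * ((i : ℝ) + i')) := by ring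
      _ ≤ (((i : ℝ) + i') ^ m * ((i : ℝ) + i') ^ m') * ((i * i') * (2 * (i * i'))) := by
          refine mul_le_mul ?_ ?_ (by positivity) (by positivity)
          · exact mul_le_mul s1 s2 (by positivity) (by positivity)
          · exact mul_le_mul_of_nonneg_left s3 (by positivity)
      _ = 2 * ((i : ℝ) + i') ^ (m + m') * ((i : ℝ) ^ 2 * (i' : ℝ) ^ 2) := by ring

theorem big_nu_two {θ x : ℝ} (h : Par θ x) {P P' : Multiset ℕ} (hP : ∀ p ∈ P, 1 ≤ p)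
    (hP' : ∀ p ∈ P', 1 ≤ p) (h0 : 2 ≤ Multiset.card P) (h0' : 2 ≤ Multiset.card P')
    (v : ℤ) (j : ℕ) {ε : ℝ} (hε : 0 < ε) :
    ∃ K0 : ℕ, ∀ K ≥ K0, ∀ᶠ p in Num.Fth θ,
      SepK K P P' (2 * (p.1 : ℤ) - v).toNat (p.2 - j) * (p.1 : ℝ) ^ (2 * j) * (p.1 : ℝ) ^ 2 ≤
        ε * ((p.1 : ℝ) ^ (Multiset.card P + Multiset.card P') * SST.nu p.1 p.2) := by
  obtain ⟨m, hm⟩ := Nat.exists_eq_add_of_le h0
  obtain ⟨m', hm'⟩ := Nat.exists_eq_add_of_le h0'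
  refine core_big h hP hP' (by omega) (s := 2) le_rfl ?_ v j hε
  intro i i' hi hi'
  have r1 : (1 : ℝ) ≤ i := by exact_mod_cast hi
  have r2 : (1 : ℝ) ≤ i' := by exact_mod_cast hi'
  have e1 : Multiset.card P + Multiset.card P' - 2 = m + m' + 2 := by omega
  rw [e1, hm, hm']
  push_cast
  have s1 : (i : ℝ) ^ m ≤ ((i : ℝ) + i') ^ m := pow_le_pow_left₀ (by linarith) (by linarith) m
  have s2 : (i' : ℝ) ^ m' ≤ ((i : ℝ) + i') ^ m' :=
    pow_le_pow_left₀ (by linarith) (by linarith) m'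
  calc (i : ℝ) ^ (2 + m) * (i' : ℝ) ^ (2 + m') * ((i : ℝ) + i') ^ 2
      = ((i : ℝ) ^ m * (i' : ℝ) ^ m') * (((i : ℝ) ^ 2 * (i' : ℝ) ^ 2) * ((i : ℝ) + i') ^ 2) := by
        ring
    _ ≤ (((i : ℝ) + i') ^ m * ((i : ℝ) + i') ^ m') *
        (((i : ℝ) ^ 2 * (i' : ℝ) ^ 2) * ((i : ℝ) + i') ^ 2) := by
        refine mul_le_mul_of_nonneg_right ?_ (by positivity)
        exact mul_le_mul s1 s2 (by positivity) (by positivity)
    _ = ((i : ℝ) + i') ^ (m + m' + 2) * ((i : ℝ) ^ 2 * (i' : ℝ) ^ 2) := by ring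
    _ ≤ 2 * ((i : ℝ) + i') ^ (m + m' + 2) * ((i : ℝ) ^ 2 * (i' : ℝ) ^ 2) := by
        have : 0 ≤ ((i : ℝ) + i') ^ (m + m' + 2) * ((i : ℝ) ^ 2 * (i' : ℝ) ^ 2) := by positivity
        linarith

end SYS.UP
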