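import Pool.Agent.SYS.UP.SepN
import Pool.Agent.SYS.UP.Fin

/-!
# SYS-UP-SepL: separations, upper bound for the limit (two holes on each side)

PROOF.  `K` from `big_nu_two` for `ε/2` (and `K ≥ 1`).  For large `n` (`F = 2n - v ≥ 2 K`): every `f ∈ antidiagonal F` has `K ≤ f.1, f.2` or `f.1 < K` or `f.2 < K`, so
`SepS P P' F g' ≤ SepK K P P' F g' + ∑_{i<K} ∑_{a ∈ range (K + |P| + 5)} muG P i a * muG P' (F - i) (g' - a) + (P, P' exchanged)` (all terms `≥ 0`; `muG P i a = 0` for larger `a`: definition of `muG`; for `g' ≥ a`).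
Multiply by `n^(2j)/(n^2 nu)`: the terms with `a ≥ 1` tend to 0 (`Rt_bd`; as in `sep_small`: `n^2/n^(2(j+a)) * n^(2j)/n^2 = n^(-2a)`), the terms with `a = 0` tend to
`muG P i 0 * Lc x P' (v + i) j` (`fin_nat`; if `muG P i 0 ≠ 0` then `i + |P|` is even (`Num.muG_odd`), hence `v + i + |P'|` is even).  A finite sum of limits: eventually `≤` limit `+ ε/2`.
-/

namespace SYS.UP

open SYS.Num Real Filter Topology Finset

private theorem sl_nn (P : Multiset ℕ) (F g : ℕ) : 0 ≤ muG P F g := muG_nonneg P F g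

private theorem sl_zero {P : Multiset ℕ} {F a : ℕ} (h : F + P.sum + 4 < 4 * a) : muG P F a = 0 := by
  unfold muG
  rw [if_neg]
  rintro ⟨_, h2⟩
  omega

/-- The inner sum of `SepS`. -/
private noncomputable def sPh (P P' : Multiset ℕ) (g : ℕ) (f : ℕ × ℕ) : ℝ :=
  ∑ h ∈ Finset.HasAntidiagonal.antidiagonal g, muG P f.1 h.1 * muG P' f.2 h.2

private theorem sPh_nn (P P' : Multiset ℕ) (g : ℕ) (f : ℕ × ℕ) : 0 ≤ sPh P P' g f :=
  Finset.sum_nonneg fun _ _ => mul_nonneg (sl_nn _ _ _) (sl_nn _ _ _)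

private theorem sPh_swap (P P' : Multiset ℕ) (g a b : ℕ) : sPh P P' g (a, b) = sPh P' P g (b, a) := by
  unfold sPh
  refine Finset.sum_nbij' Prod.swap Prod.swap ?_ ?_ ?_ ?_ ?_
  · rintro ⟨x, y⟩ h
    rw [Finset.HasAntidiagonal.mem_antidiagonal] at h ⊢
    simpa [add_comm] using h
  · rintro ⟨x, y⟩ h
    rw [Finset.HasAntidiagonal.mem_antidiagonal] at h ⊢
    simpa [add_comm] using h
  · rintro ⟨x, y⟩ _
    rfl
  · rintro ⟨x, y⟩ _
    rfl
  · rintro ⟨x, y⟩ _
    exact mul_comm _ _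

/-- The terms with few triangles on the first side. -/
private noncomputable def Q1 (P P' : Multiset ℕ) (K F g : ℕ) : ℝ :=
  ∑ i ∈ range K, ∑ a ∈ range (K + P.sum + 5), muG P i a * muG P' (F - i) (g - a)

private theorem sPh_le {P P' : Multiset ℕ} {K i : ℕ} (hi : i < K) (b g : ℕ) :
    sPh P P' g (i, b) ≤ ∑ a ∈ range (K + P.sum + 5), muG P i a * muG P' b (g - a) := by
  have hnn : ∀ a, 0 ≤ muG P i a * muG P' b (g - a) := fun a => mul_nonneg (sl_nn _ _ _) (sl_nn _ _ _)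
  have h1 : sPh P P' g (i, b) ≤ ∑ h ∈ Finset.HasAntidiagonal.antidiagonal g,
      (if h.1 ∈ range (K + P.sum + 5) then muG P i h.1 * muG P' b h.2 else 0) := by
    unfold sPh
    refine Finset.sum_le_sum fun h _ => ?_
    by_cases hr : h.1 < K + P.sum + 5
    · rw [if_pos (Finset.mem_range.2 hr)]
    · have hz : muG P i h.1 = 0 := sl_zero (by omega)
      show muG P i h.1 * muG P' b h.2 ≤ _
      rw [hz, zero_mul]
      split_ifs <;> exact le_rfl
  refine h1.trans ?_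
  rw [← Finset.sum_filter]
  have h2 : ∑ h ∈ (Finset.HasAntidiagonal.antidiagonal g).filter
      (fun h => h.1 ∈ range (K + P.sum + 5)),
        muG P i h.1 * muG P' b h.2 =
      ∑ a ∈ (range (K + P.sum + 5)).filter (fun a => a ≤ g), muG P i a * muG P' b (g - a) := by
    refine Finset.sum_nbij' (fun h => h.1) (fun a => (a, g - a)) ?_ ?_ ?_ ?_ ?_
    · rintro ⟨x, y⟩ h
      rw [Finset.mem_filter, Finset.HasAntidiagonal.mem_antidiagonal] at h
      obtain ⟨h3, h4⟩ := h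
      have h3' : x + y = g := h3
      rw [Finset.mem_filter]
      exact ⟨h4, show x ≤ g by omega⟩
    · intro a h
      rw [Finset.mem_filter] at h
      rw [Finset.mem_filter, Finset.HasAntidiagonal.mem_antidiagonal]
      exact ⟨Nat.add_sub_cancel' h.2, h.1⟩
    · rintro ⟨x, y⟩ h
      rw [Finset.mem_filter, Finset.HasAntidiagonal.mem_antidiagonal] at h
      have h3' : x + y = g := h.1
      refine Prod.ext rfl ?_
      show g - x = y
      omega
    · intro a _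
      rfl
    · rintro ⟨x, y⟩ h
      rw [Finset.mem_filter, Finset.HasAntidiagonal.mem_antidiagonal] at h
      have h3' : x + y = g := h.1
      have h5 : g - x = y := by omega
      show muG P i x * muG P' b y = muG P i x * muG P' b (g - x)
      rw [h5]
  rw [h2]
  exact Finset.sum_le_sum_of_subset_of_nonneg (Finset.filter_subset _ _) fun a _ _ => hnn a

private theorem sT1_le (P P' : Multiset ℕ) (K F g : ℕ) :
    ∑ f ∈ (Finset.HasAntidiagonal.antidiagonal F).filter (fun f => f.1 < K), sPh P P' g f ≤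
      Q1 P P' K F g := by
  have h2 : ∑ f ∈ (Finset.HasAntidiagonal.antidiagonal F).filter (fun f => f.1 < K), sPh P P' g f =
      ∑ i ∈ (range K).filter (fun i => i ≤ F), sPh P P' g (i, F - i) := by
    refine Finset.sum_nbij' (fun h => h.1) (fun a => (a, F - a)) ?_ ?_ ?_ ?_ ?_
    · rintro ⟨x, y⟩ h
      rw [Finset.mem_filter, Finset.HasAntidiagonal.mem_antidiagonal] at h
      obtain ⟨h3, h4⟩ := h
      have h3' : x + y = F := h3
      rw [Finset.mem_filter, Finset.mem_range]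
      exact ⟨h4, show x ≤ F by omega⟩
    · intro a h
      rw [Finset.mem_filter, Finset.mem_range] at h
      rw [Finset.mem_filter, Finset.HasAntidiagonal.mem_antidiagonal]
      exact ⟨Nat.add_sub_cancel' h.2, h.1⟩
    · rintro ⟨x, y⟩ h
      rw [Finset.mem_filter, Finset.HasAntidiagonal.mem_antidiagonal] at h
      have h3' : x + y = F := h.1
      refine Prod.ext rfl ?_
      show F - x = y
      omega
    · intro a _
      rfl
    · rintro ⟨x, y⟩ h
      rw [Finset.mem_filter, Finset.HasAntidiagonal.mem_antidiagonal] at h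
      have h3' : x + y = F := h.1
      have h5 : F - x = y := by omega
      show sPh P P' g (x, y) = sPh P P' g (x, F - x)
      rw [h5]
  rw [h2]
  refine (Finset.sum_le_sum_of_subset_of_nonneg (Finset.filter_subset _ _)
    fun i _ _ => sPh_nn P P' g _).trans ?_
  exact Finset.sum_le_sum fun i hi => sPh_le (Finset.mem_range.1 hi) _ _

private theorem sT2_eq (P P' : Multiset ℕ) (K F g : ℕ) :
    ∑ f ∈ (Finset.HasAntidiagonal.antidiagonal F).filter (fun f => f.2 < K), sPh P P' g f =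
      ∑ f ∈ (Finset.HasAntidiagonal.antidiagonal F).filter (fun f => f.1 < K), sPh P' P g f := by
  refine Finset.sum_nbij' Prod.swap Prod.swap ?_ ?_ ?_ ?_ ?_
  · rintro ⟨x, y⟩ h
    rw [Finset.mem_filter, Finset.HasAntidiagonal.mem_antidiagonal] at h ⊢
    exact ⟨by simpa [add_comm] using h.1, h.2⟩
  · rintro ⟨x, y⟩ h
    rw [Finset.mem_filter, Finset.HasAntidiagonal.mem_antidiagonal] at h ⊢
    exact ⟨by simpa [add_comm] using h.1, h.2⟩
  · rintro ⟨x, y⟩ _
    rfl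
  · rintro ⟨x, y⟩ _
    rfl
  · rintro ⟨x, y⟩ _
    exact sPh_swap P P' g x y

private theorem sepS_le (P P' : Multiset ℕ) (K F g : ℕ) :
    SepS P P' F g ≤ SepK K P P' F g + Q1 P P' K F g + Q1 P' P K F g := by
  have hs : SepS P P' F g ≤ ∑ f ∈ Finset.HasAntidiagonal.antidiagonal F,
      ((if K ≤ f.1 ∧ K ≤ f.2 then sPh P P' g f else 0) + (if f.1 < K then sPh P P' g f else 0) +
        (if f.2 < K then sPh P P' g f else 0)) := by
    refine Finset.sum_le_sum fun f _ => ?_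
    have h := sPh_nn P P' g f
    show sPh P P' g f ≤ _
    by_cases h1 : f.1 < K
    · rw [if_pos h1]
      split_ifs <;> linarith
    · by_cases h2 : f.2 < K
      · rw [if_pos h2]
        split_ifs <;> linarith
      · rw [if_pos ⟨not_lt.1 h1, not_lt.1 h2⟩, if_neg h1, if_neg h2]
        linarith
  rw [Finset.sum_add_distrib, Finset.sum_add_distrib, ← Finset.sum_filter, ← Finset.sum_filter,
    ← Finset.sum_filter, sT2_eq] at hs
  have e1 := sT1_le P P' K F g
  have e2 := sT1_le P' P K F g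
  have e3 : ∑ f ∈ (Finset.HasAntidiagonal.antidiagonal F).filter (fun f => K ≤ f.1 ∧ K ≤ f.2),
      sPh P P' g f = SepK K P P' F g := rfl
  linarith

private theorem term_lim {θ x : ℝ} (h : Par θ x) {P P' : Multiset ℕ} (hP' : ∀ p ∈ P', 1 ≤ p)
    (hc' : Multiset.card P' = 2) (v j i a : ℕ) (hv : Even (v + P.sum + P'.sum)) :
    Tendsto (fun p : ℕ × ℕ => muG P i a * muG P' (2 * p.1 - v - i) (p.2 - j - a) *
      (p.1 : ℝ) ^ (2 * j) / ((p.1 : ℝ) ^ 2 * SST.nu p.1 p.2)) (Num.Fth θ)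
      (𝓝 (if a = 0 then muG P i 0 * Lc x P' (((v + i : ℕ) : ℤ)) j else 0)) := by
  by_cases ha : a = 0
  · subst ha
    rw [if_pos rfl]
    by_cases hz : muG P i 0 = 0
    · rw [hz, zero_mul]
      refine tendsto_const_nhds.congr fun p => ?_
      rw [zero_mul, zero_mul, zero_div]
    · have he : Even (i + P.sum) := by
        by_contra hcon
        exact hz (muG_odd hcon 0)
      have hv' : Even (v + i + P'.sum) := by
        obtain ⟨b, hb⟩ := hv
        obtain ⟨c, hc⟩ := he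
        exact ⟨b + c - P.sum, by omega⟩
      have h1 := (fin_nat h hP' (v + i) j hv').const_mul (muG P i 0)
      refine h1.congr fun p => ?_
      rw [hc', Nat.sub_zero, Nat.sub_sub]
      ring
  · rw [if_neg ha]
    have ha1 : 1 ≤ a := Nat.one_le_iff_ne_zero.2 ha
    obtain ⟨C, hC0, hC⟩ := Rt_bd h hP' ((v : ℤ) + (i : ℤ)) (j + a)
    have hlim : Tendsto (fun p : ℕ × ℕ => muG P i a * C * ((p.1 : ℝ))⁻¹) (Num.Fth θ) (𝓝 0) := by
      have h1 : Tendsto (fun p : ℕ × ℕ => ((p.1 : ℝ))⁻¹) (Num.Fth θ) (𝓝 0) :=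
        (RB.fst_atTop θ).inv_tendsto_atTop
      have h2 := h1.const_mul (muG P i a * C)
      rwa [mul_zero] at h2
    have hM := sl_nn P i a
    refine squeeze_zero' ?_ ?_ hlim
    · refine Filter.Eventually.of_forall fun p => ?_
      have h1 := sl_nn P' (2 * p.1 - v - i) (p.2 - j - a)
      have h2 := nu_nn p.1 p.2
      positivity
    · have hn1 : ∀ᶠ p in Num.Fth θ, 1 ≤ p.1 := RB.ge_ev θ 1
      filter_upwards [hC, hn1, nu_pos_ev h] with p hp hn hν
      have hn' : (1 : ℝ) ≤ p.1 := by exact_mod_cast hn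
      have hn0 : (0 : ℝ) < p.1 := by linarith
      have e0 : muG P' (2 * p.1 - v - i) (p.2 - j - a) =
          muG P' (2 * (p.1 : ℤ) - ((v : ℤ) + (i : ℤ))).toNat (p.2 - (j + a)) := by
        have e1 : 2 * p.1 - v - i = (2 * (p.1 : ℤ) - ((v : ℤ) + (i : ℤ))).toNat := by omega
        rw [e1, Nat.sub_sub]
      have e1 : muG P i a * muG P' (2 * p.1 - v - i) (p.2 - j - a) *
          (p.1 : ℝ) ^ (2 * j) / ((p.1 : ℝ) ^ 2 * SST.nu p.1 p.2) =
          muG P i a * Rt P' ((v : ℤ) + (i : ℤ)) (j + a) p * (1 / (p.1 : ℝ) ^ (2 * a)) := by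
        unfold Rt
        rw [e0, hc', mul_add, pow_add]
        field_simp
      rw [e1]
      have e2 : 1 / (p.1 : ℝ) ^ (2 * a) ≤ ((p.1 : ℝ))⁻¹ := by
        rw [← one_div]
        refine one_div_le_one_div_of_le hn0 ?_
        calc (p.1 : ℝ) = (p.1 : ℝ) ^ 1 := (pow_one _).symm
          _ ≤ (p.1 : ℝ) ^ (2 * a) := pow_le_pow_right₀ hn' (by omega)
      have e5 : 0 ≤ 1 / (p.1 : ℝ) ^ (2 * a) := by positivity
      calc muG P i a * Rt P' ((v : ℤ) + (i : ℤ)) (j + a) p * (1 / (p.1 : ℝ) ^ (2 * a))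
          ≤ muG P i a * C * (1 / (p.1 : ℝ) ^ (2 * a)) := by gcongr
        _ ≤ muG P i a * C * ((p.1 : ℝ))⁻¹ := by gcongr

private theorem Q1_lim {θ x : ℝ} (h : Par θ x) {P P' : Multiset ℕ} (hP' : ∀ p ∈ P', 1 ≤ p)
    (hc' : Multiset.card P' = 2) (v j K : ℕ) (hv : Even (v + P.sum + P'.sum)) :
    Tendsto (fun p : ℕ × ℕ => Q1 P P' K (2 * p.1 - v) (p.2 - j) *
      (p.1 : ℝ) ^ (2 * j) / ((p.1 : ℝ) ^ 2 * SST.nu p.1 p.2)) (Num.Fth θ)
      (𝓝 (∑ i ∈ range K, muG P i 0 * Lc x P' (((v + i : ℕ) : ℤ)) j)) := by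
  have h1 : Tendsto (fun p : ℕ × ℕ => ∑ i ∈ range K, ∑ a ∈ range (K + P.sum + 5),
      muG P i a * muG P' (2 * p.1 - v - i) (p.2 - j - a) *
        (p.1 : ℝ) ^ (2 * j) / ((p.1 : ℝ) ^ 2 * SST.nu p.1 p.2)) (Num.Fth θ)
      (𝓝 (∑ i ∈ range K, ∑ a ∈ range (K + P.sum + 5),
        (if a = 0 then muG P i 0 * Lc x P' (((v + i : ℕ) : ℤ)) j else 0))) := by
    refine tendsto_finsetSum _ fun i _ => tendsto_finsetSum _ fun a _ => ?_
    exact term_lim h hP' hc' v j i a hv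
  have h2 : ∑ i ∈ range K, ∑ a ∈ range (K + P.sum + 5),
        (if a = 0 then muG P i 0 * Lc x P' (((v + i : ℕ) : ℤ)) j else 0) =
      ∑ i ∈ range K, muG P i 0 * Lc x P' (((v + i : ℕ) : ℤ)) j := by
    refine Finset.sum_congr rfl fun i _ => ?_
    rw [Finset.sum_ite_eq' (range (K + P.sum + 5)) 0 (fun _ => muG P i 0 * Lc x P' (((v + i : ℕ) : ℤ)) j),
      if_pos (Finset.mem_range.2 (by omega))]
  rw [h2] at h1
  refine h1.congr fun p => ?_
  unfold Q1
  simp only [Finset.sum_mul, Finset.sum_div]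

theorem sepS_lim {θ x : ℝ} (h : Par θ x) {P P' : Multiset ℕ} (hP : ∀ p ∈ P, 1 ≤ p) (hP' : ∀ p ∈ P', 1 ≤ p)
    (hc : Multiset.card P = 2) (hc' : Multiset.card P' = 2) (v j : ℕ) (hv : Even (v + P.sum + P'.sum))
    {ε : ℝ} (hε : 0 < ε) : ∃ K : ℕ, ∀ᶠ p in Num.Fth θ,
      SepS P P' (2 * p.1 - v) (p.2 - j) * (p.1 : ℝ) ^ (2 * j) ≤
        (∑ f ∈ range K, (muG P f 0 * Lc x P' (((v + f : ℕ) : ℤ)) j +
          muG P' f 0 * Lc x P (((v + f : ℕ) : ℤ)) j) + ε) * ((p.1 : ℝ) ^ 2 * SST.nu p.1 p.2) := by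
  obtain ⟨K, hK⟩ := big_nu_two h hP hP' hc.ge hc'.ge (v : ℤ) j (show 0 < ε / 3 by positivity)
  refine ⟨K, ?_⟩
  have hv' : Even (v + P'.sum + P.sum) := by
    rw [add_right_comm]
    exact hv
  have l1 := (tendsto_order.1 (Q1_lim h (P := P) hP' hc' v j K hv)).2
    (∑ i ∈ range K, muG P i 0 * Lc x P' (((v + i : ℕ) : ℤ)) j + ε / 3) (by linarith)
  have l2 := (tendsto_order.1 (Q1_lim h (P := P') hP hc v j K hv')).2
    (∑ i ∈ range K, muG P' i 0 * Lc x P (((v + i : ℕ) : ℤ)) j + ε / 3) (by linarith)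
  have hn1 : ∀ᶠ p in Num.Fth θ, 1 ≤ p.1 := RB.ge_ev θ 1
  filter_upwards [hK K le_rfl, l1, l2, hn1, nu_pos_ev h] with p hp h1 h2 hn hν
  have hn' : (1 : ℝ) ≤ p.1 := by exact_mod_cast hn
  have hn0 : (0 : ℝ) < p.1 := by linarith
  have hden : 0 < (p.1 : ℝ) ^ 2 * SST.nu p.1 p.2 := by positivity
  rw [div_lt_iff₀ hden] at h1 h2
  have e1 := sepS_le P P' K (2 * p.1 - v) (p.2 - j)
  have e2 : 0 ≤ (p.1 : ℝ) ^ (2 * j) := by positivity
  have e3 := mul_le_mul_of_nonneg_right e1 e2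
  have e4 : (2 * (p.1 : ℤ) - (v : ℤ)).toNat = 2 * p.1 - v := by omega
  rw [e4, hc, hc'] at hp
  have e5 : SepK K P P' (2 * p.1 - v) (p.2 - j) * (p.1 : ℝ) ^ (2 * j) ≤
      ε / 3 * ((p.1 : ℝ) ^ 2 * SST.nu p.1 p.2) := by
    refine le_of_mul_le_mul_right ?_ (show 0 < (p.1 : ℝ) ^ 2 by positivity)
    refine hp.trans (le_of_eq ?_)
    ring
  rw [Finset.sum_add_distrib]
  rw [add_mul, add_mul] at e3
  linarith

end SYS.UP
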