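import Pool.Agent.SYS.UP.SepB

/-!
# SYS-UP-SepN: separations without discs are negligible

`G(p) = SepR P P' F (g-j) * n^(2j) * n / (n^(k+k') nu n g) → 0`, `F = 2n - v`.
A term of `SepR` with less than `K` triangles on one side is one of finitely many, each tends to `0`
(`sep_small`); the rest is bounded by `SepK`, which is small by `big_nu`.
-/

namespace SYS.UP

open SYS.Num Real Filter Topology Finset

private theorem mg_nn (P : Multiset ℕ) (F g : ℕ) : 0 ≤ muG P F g := muG_nonneg P F g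

private theorem mg_zero {P : Multiset ℕ} {F a : ℕ} (h : F + P.sum + 4 < 4 * a) : muG P F a = 0 := by
  unfold muG
  rw [if_neg]
  rintro ⟨_, h2⟩
  omega

/-- The inner sum of `SepR`. -/
private noncomputable def Ph (P P' : Multiset ℕ) (g : ℕ) (f : ℕ × ℕ) : ℝ :=
  ∑ h ∈ (Finset.HasAntidiagonal.antidiagonal g).filter (fun h => ¬ (Multiset.card P = 1 ∧ h.1 = 0) ∧
      ¬ (Multiset.card P' = 1 ∧ h.2 = 0)), muG P f.1 h.1 * muG P' f.2 h.2

private theorem Ph_nn (P P' : Multiset ℕ) (g : ℕ) (f : ℕ × ℕ) : 0 ≤ Ph P P' g f :=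
  Finset.sum_nonneg fun _ _ => mul_nonneg (mg_nn _ _ _) (mg_nn _ _ _)

private theorem Ph_swap (P P' : Multiset ℕ) (g a b : ℕ) : Ph P P' g (a, b) = Ph P' P g (b, a) := by
  unfold Ph
  refine Finset.sum_nbij' Prod.swap Prod.swap ?_ ?_ ?_ ?_ ?_
  · rintro ⟨x, y⟩ h
    rw [Finset.mem_filter, Finset.HasAntidiagonal.mem_antidiagonal] at h ⊢
    exact ⟨by simpa [add_comm] using h.1, h.2.2, h.2.1⟩
  · rintro ⟨x, y⟩ h
    rw [Finset.mem_filter, Finset.HasAntidiagonal.mem_antidiagonal] at h ⊢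
    exact ⟨by simpa [add_comm] using h.1, h.2.2, h.2.1⟩
  · rintro ⟨x, y⟩ _
    rfl
  · rintro ⟨x, y⟩ _
    rfl
  · rintro ⟨x, y⟩ _
    exact mul_comm _ _

/-- The terms with few triangles on the first side. -/
private noncomputable def S1 (P P' : Multiset ℕ) (K F g : ℕ) : ℝ :=
  ∑ i ∈ range K, ∑ a ∈ (range (K + P.sum + 5)).filter (fun a => 2 ≤ Multiset.card P + 2 * a),
    muG P i a * muG P' (F - i) (g - a)

private theorem Ph_le {P P' : Multiset ℕ} (h0 : P ≠ 0) {K i : ℕ} (hi : i < K) (b g : ℕ) :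
    Ph P P' g (i, b) ≤
      ∑ a ∈ (range (K + P.sum + 5)).filter (fun a => 2 ≤ Multiset.card P + 2 * a),
        muG P i a * muG P' b (g - a) := by
  have hc : 1 ≤ Multiset.card P := Multiset.card_pos.2 h0
  have hnn : ∀ a, 0 ≤ muG P i a * muG P' b (g - a) := fun a => mul_nonneg (mg_nn _ _ _) (mg_nn _ _ _)
  have h1 : Ph P P' g (i, b) ≤ ∑ h ∈ Finset.HasAntidiagonal.antidiagonal g,
      (if h.1 ∈ (range (K + P.sum + 5)).filter (fun a => 2 ≤ Multiset.card P + 2 * a) then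
        muG P i h.1 * muG P' b h.2 else 0) := by
    unfold Ph
    rw [Finset.sum_filter]
    refine Finset.sum_le_sum fun h _ => ?_
    have hn : 0 ≤ muG P i h.1 * muG P' b h.2 := mul_nonneg (mg_nn _ _ _) (mg_nn _ _ _)
    by_cases hq : ¬ (Multiset.card P = 1 ∧ h.1 = 0) ∧ ¬ (Multiset.card P' = 1 ∧ h.2 = 0)
    · rw [if_pos hq]
      by_cases hr : h.1 < K + P.sum + 5
      · rw [if_pos]
        rw [Finset.mem_filter, Finset.mem_range]
        have hq1 := hq.1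
        exact ⟨hr, by omega⟩
      · have hz : muG P i h.1 = 0 := mg_zero (by omega)
        show muG P i h.1 * muG P' b h.2 ≤ _
        rw [hz, zero_mul]
        split_ifs <;> exact le_rfl
    · rw [if_neg hq]
      split_ifs
      · exact hn
      · exact le_rfl
  refine h1.trans ?_
  rw [← Finset.sum_filter]
  have h2 : ∑ h ∈ (Finset.HasAntidiagonal.antidiagonal g).filter
      (fun h => h.1 ∈ (range (K + P.sum + 5)).filter (fun a => 2 ≤ Multiset.card P + 2 * a)),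
        muG P i h.1 * muG P' b h.2 =
      ∑ a ∈ ((range (K + P.sum + 5)).filter (fun a => 2 ≤ Multiset.card P + 2 * a)).filter
        (fun a => a ≤ g), muG P i a * muG P' b (g - a) := by
    refine Finset.sum_nbij' (fun h => h.1) (fun a => (a, g - a)) ?_ ?_ ?_ ?_ ?_
    · rintro ⟨x, y⟩ h
      rw [Finset.mem_filter, Finset.HasAntidiagonal.mem_antidiagonal] at h
      obtain ⟨h3, h4⟩ := h
      have h3' : x + y = g := h3
      rw [Finset.mem_filter]
      exact ⟨h4, show x ≤ g by omega⟩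
    · intro a h
      rw [Finset.mem_filter] at h
      rw [Finset.mem_filter, Finset.HasAntidiagonal.mem_antidiagonal]
      exact ⟨Nat.add_sub_cancel' h.2, h.1⟩
    · rintro ⟨x, y⟩ h
      rw [Finset.mem_filter, Finset.HasAntidiagonal.mem_antidiagonal] at h
      have h3' : x + y = g := h.1
      refine Prod.ext rfl ?_
      show g - x = y
      omega
    · intro a _
      rfl
    · rintro ⟨x, y⟩ h
      rw [Finset.mem_filter, Finset.HasAntidiagonal.mem_antidiagonal] at h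
      have h3' : x + y = g := h.1
      have h5 : g - x = y := by omega
      show muG P i x * muG P' b y = muG P i x * muG P' b (g - x)
      rw [h5]
  rw [h2]
  exact Finset.sum_le_sum_of_subset_of_nonneg (Finset.filter_subset _ _) fun a _ _ => hnn a

private theorem T1_le {P P' : Multiset ℕ} (h0 : P ≠ 0) (K F g : ℕ) :
    ∑ f ∈ (Finset.HasAntidiagonal.antidiagonal F).filter (fun f => f.1 < K), Ph P P' g f ≤
      S1 P P' K F g := by
  have h2 : ∑ f ∈ (Finset.HasAntidiagonal.antidiagonal F).filter (fun f => f.1 < K), Ph P P' g f =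
      ∑ i ∈ (range K).filter (fun i => i ≤ F), Ph P P' g (i, F - i) := by
    refine Finset.sum_nbij' (fun h => h.1) (fun a => (a, F - a)) ?_ ?_ ?_ ?_ ?_
    · rintro ⟨x, y⟩ h
      rw [Finset.mem_filter, Finset.HasAntidiagonal.mem_antidiagonal] at h
      obtain ⟨h3, h4⟩ := h
      have h3' : x + y = F := h3
      rw [Finset.mem_filter, Finset.mem_range]
      exact ⟨h4, show x ≤ F by omega⟩
    · intro a h
      rw [Finset.mem_filter, Finset.mem_range] at h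
      rw [Finset.mem_filter, Finset.HasAntidiagonal.mem_antidiagonal]
      exact ⟨Nat.add_sub_cancel' h.2, h.1⟩
    · rintro ⟨x, y⟩ h
      rw [Finset.mem_filter, Finset.HasAntidiagonal.mem_antidiagonal] at h
      have h3' : x + y = F := h.1
      refine Prod.ext rfl ?_
      show F - x = y
      omega
    · intro a _
      rfl
    · rintro ⟨x, y⟩ h
      rw [Finset.mem_filter, Finset.HasAntidiagonal.mem_antidiagonal] at h
      have h3' : x + y = F := h.1
      have h5 : F - x = y := by omega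
      show Ph P P' g (x, y) = Ph P P' g (x, F - x)
      rw [h5]
  rw [h2]
  refine (Finset.sum_le_sum_of_subset_of_nonneg (Finset.filter_subset _ _)
    fun i _ _ => Ph_nn P P' g _).trans ?_
  exact Finset.sum_le_sum fun i hi => Ph_le h0 (Finset.mem_range.1 hi) _ _

private theorem T2_eq (P P' : Multiset ℕ) (K F g : ℕ) :
    ∑ f ∈ (Finset.HasAntidiagonal.antidiagonal F).filter (fun f => f.2 < K), Ph P P' g f =
      ∑ f ∈ (Finset.HasAntidiagonal.antidiagonal F).filter (fun f => f.1 < K), Ph P' P g f := by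
  refine Finset.sum_nbij' Prod.swap Prod.swap ?_ ?_ ?_ ?_ ?_
  · rintro ⟨x, y⟩ h
    rw [Finset.mem_filter, Finset.HasAntidiagonal.mem_antidiagonal] at h ⊢
    exact ⟨by simpa [add_comm] using h.1, h.2⟩
  · rintro ⟨x, y⟩ h
    rw [Finset.mem_filter, Finset.HasAntidiagonal.mem_antidiagonal] at h ⊢
    exact ⟨by simpa [add_comm] using h.1, h.2⟩
  · rintro ⟨x, y⟩ _
    rfl
  · rintro ⟨x, y⟩ _
    rfl
  · rintro ⟨x, y⟩ _
    exact Ph_swap P P' g x y

private theorem sepR_le {P P' : Multiset ℕ} (h0 : P ≠ 0) (h0' : P' ≠ 0) (K F g : ℕ) :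
    SepR P P' F g ≤ SepK K P P' F g + S1 P P' K F g + S1 P' P K F g := by
  have hs : SepR P P' F g ≤ ∑ f ∈ Finset.HasAntidiagonal.antidiagonal F,
      ((if K ≤ f.1 ∧ K ≤ f.2 then Ph P P' g f else 0) + (if f.1 < K then Ph P P' g f else 0) +
        (if f.2 < K then Ph P P' g f else 0)) := by
    refine Finset.sum_le_sum fun f _ => ?_
    have h := Ph_nn P P' g f
    show Ph P P' g f ≤ _
    by_cases h1 : f.1 < K
    · rw [if_pos h1]
      split_ifs <;> linarith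
    · by_cases h2 : f.2 < K
      · rw [if_pos h2]
        split_ifs <;> linarith
      · rw [if_pos ⟨not_lt.1 h1, not_lt.1 h2⟩, if_neg h1, if_neg h2]
        linarith
  rw [Finset.sum_add_distrib, Finset.sum_add_distrib, ← Finset.sum_filter, ← Finset.sum_filter,
    ← Finset.sum_filter, T2_eq] at hs
  have e1 := T1_le (P' := P') h0 K F g
  have e2 := T1_le (P' := P) h0' K F g
  have e3 : ∑ f ∈ (Finset.HasAntidiagonal.antidiagonal F).filter (fun f => K ≤ f.1 ∧ K ≤ f.2),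
      Ph P P' g f ≤ SepK K P P' F g := by
    refine Finset.sum_le_sum fun f _ => ?_
    exact Finset.sum_le_sum_of_subset_of_nonneg (Finset.filter_subset _ _)
      fun _ _ _ => mul_nonneg (mg_nn _ _ _) (mg_nn _ _ _)
  linarith

private theorem S1_lim {θ x : ℝ} (hh : ∀ {P P' : Multiset ℕ}, (∀ p ∈ P', 1 ≤ p) →
      ∀ (v : ℤ) (j i a : ℕ), 2 ≤ Multiset.card P + 2 * a →
      Tendsto (fun p : ℕ × ℕ => muG P i a * muG P' (2 * (p.1 : ℤ) - v - i).toNat (p.2 - j - a) *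
        (p.1 : ℝ) ^ (2 * j) * p.1 /
          ((p.1 : ℝ) ^ (Multiset.card P + Multiset.card P') * SST.nu p.1 p.2)) (Num.Fth θ) (𝓝 0))
    {P P' : Multiset ℕ} (hP' : ∀ p ∈ P', 1 ≤ p) (v : ℤ) (j K : ℕ) (_h : Par θ x) :
    Tendsto (fun p : ℕ × ℕ => S1 P P' K (2 * (p.1 : ℤ) - v).toNat (p.2 - j) * (p.1 : ℝ) ^ (2 * j) *
      p.1 / ((p.1 : ℝ) ^ (Multiset.card P + Multiset.card P') * SST.nu p.1 p.2))
      (Num.Fth θ) (𝓝 0) := by
  have h1 : Tendsto (fun p : ℕ × ℕ => ∑ i ∈ range K,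
      ∑ a ∈ (range (K + P.sum + 5)).filter (fun a => 2 ≤ Multiset.card P + 2 * a),
        muG P i a * muG P' (2 * (p.1 : ℤ) - v - i).toNat (p.2 - j - a) *
        (p.1 : ℝ) ^ (2 * j) * p.1 /
          ((p.1 : ℝ) ^ (Multiset.card P + Multiset.card P') * SST.nu p.1 p.2)) (Num.Fth θ)
      (𝓝 (∑ i ∈ range K,
      ∑ a ∈ (range (K + P.sum + 5)).filter (fun a => 2 ≤ Multiset.card P + 2 * a), (0 : ℝ))) := by
    refine tendsto_finsetSum _ fun i _ => tendsto_finsetSum _ fun a ha => ?_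
    exact hh hP' v j i a (Finset.mem_filter.1 ha).2
  rw [Finset.sum_eq_zero fun i _ => Finset.sum_eq_zero fun a _ => rfl] at h1
  refine h1.congr fun p => ?_
  unfold S1
  simp only [Finset.sum_mul, Finset.sum_div]
  refine Finset.sum_congr rfl fun i _ => Finset.sum_congr rfl fun a _ => ?_
  have e : (2 * (p.1 : ℤ) - v - i).toNat = (2 * (p.1 : ℤ) - v).toNat - i := by omega
  rw [e]

theorem sep_small {θ x : ℝ} (h : Par θ x) {P P' : Multiset ℕ} (hP' : ∀ p ∈ P', 1 ≤ p)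
    (v : ℤ) (j i a : ℕ) (hk : 2 ≤ Multiset.card P + 2 * a) :
    Tendsto (fun p : ℕ × ℕ => muG P i a * muG P' (2 * (p.1 : ℤ) - v - i).toNat (p.2 - j - a) *
      (p.1 : ℝ) ^ (2 * j) * p.1 /
        ((p.1 : ℝ) ^ (Multiset.card P + Multiset.card P') * SST.nu p.1 p.2)) (Num.Fth θ) (𝓝 0) := by
  obtain ⟨C, hC0, hC⟩ := Rt_bd h hP' (v + i) (j + a)
  have hlim : Tendsto (fun p : ℕ × ℕ => muG P i a * C * ((p.1 : ℝ))⁻¹) (Num.Fth θ) (𝓝 0) := by
    have h1 : Tendsto (fun p : ℕ × ℕ => ((p.1 : ℝ))⁻¹) (Num.Fth θ) (𝓝 0) :=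
      (RB.fst_atTop θ).inv_tendsto_atTop
    have h2 := h1.const_mul (muG P i a * C)
    rwa [mul_zero] at h2
  have hM := mg_nn P i a
  refine squeeze_zero' ?_ ?_ hlim
  · refine Filter.Eventually.of_forall fun p => ?_
    have h1 := mg_nn P' (2 * (p.1 : ℤ) - v - i).toNat (p.2 - j - a)
    have h2 := nu_nn p.1 p.2
    positivity
  · have hn1 : ∀ᶠ p in Num.Fth θ, 1 ≤ p.1 := RB.ge_ev θ 1
    filter_upwards [hC, hn1, nu_pos_ev h] with p hp hn hν
    have hn' : (1 : ℝ) ≤ p.1 := by exact_mod_cast hn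
    have hn0 : (0 : ℝ) < p.1 := by linarith
    have e0 : muG P' (2 * (p.1 : ℤ) - v - i).toNat (p.2 - j - a) =
        muG P' (2 * (p.1 : ℤ) - (v + i)).toNat (p.2 - (j + a)) := by
      rw [Nat.sub_sub, sub_sub]
    have e1 : muG P i a * muG P' (2 * (p.1 : ℤ) - v - i).toNat (p.2 - j - a) *
        (p.1 : ℝ) ^ (2 * j) * p.1 /
          ((p.1 : ℝ) ^ (Multiset.card P + Multiset.card P') * SST.nu p.1 p.2) =
        muG P i a * Rt P' (v + i) (j + a) p * (p.1 / (p.1 : ℝ) ^ (Multiset.card P + 2 * a)) := by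
      unfold Rt
      rw [e0, mul_add, pow_add, pow_add, pow_add]
      field_simp
    rw [e1]
    have e2 : (p.1 : ℝ) / (p.1 : ℝ) ^ (Multiset.card P + 2 * a) ≤ ((p.1 : ℝ))⁻¹ := by
      rw [div_le_iff₀ (by positivity)]
      have e3 : (p.1 : ℝ) ^ 2 ≤ (p.1 : ℝ) ^ (Multiset.card P + 2 * a) := pow_le_pow_right₀ hn' hk
      have e4 : ((p.1 : ℝ))⁻¹ * (p.1 : ℝ) ^ 2 = p.1 := by
        field_simp
      calc (p.1 : ℝ) = ((p.1 : ℝ))⁻¹ * (p.1 : ℝ) ^ 2 := e4.symm
        _ ≤ ((p.1 : ℝ))⁻¹ * (p.1 : ℝ) ^ (Multiset.card P + 2 * a) := by gcongr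
    have e5 : 0 ≤ (p.1 : ℝ) / (p.1 : ℝ) ^ (Multiset.card P + 2 * a) := by positivity
    calc muG P i a * Rt P' (v + i) (j + a) p * (p.1 / (p.1 : ℝ) ^ (Multiset.card P + 2 * a))
        ≤ muG P i a * C * (p.1 / (p.1 : ℝ) ^ (Multiset.card P + 2 * a)) := by gcongr
      _ ≤ muG P i a * C * ((p.1 : ℝ))⁻¹ := by gcongr

theorem sepR_neg {θ x : ℝ} (h : Par θ x) {P P' : Multiset ℕ} (hP : ∀ p ∈ P, 1 ≤ p)
    (hP' : ∀ p ∈ P', 1 ≤ p) (h0 : P ≠ 0) (h0' : P' ≠ 0) (v : ℤ) (j : ℕ) :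
    Tendsto (fun p : ℕ × ℕ => SepR P P' (2 * (p.1 : ℤ) - v).toNat (p.2 - j) * (p.1 : ℝ) ^ (2 * j) *
      p.1 / ((p.1 : ℝ) ^ (Multiset.card P + Multiset.card P') * SST.nu p.1 p.2))
      (Num.Fth θ) (𝓝 0) := by
  have hnn : ∀ p : ℕ × ℕ, 0 ≤ SepR P P' (2 * (p.1 : ℤ) - v).toNat (p.2 - j) * (p.1 : ℝ) ^ (2 * j) *
      p.1 / ((p.1 : ℝ) ^ (Multiset.card P + Multiset.card P') * SST.nu p.1 p.2) := by
    intro p
    have h1 : 0 ≤ SepR P P' (2 * (p.1 : ℤ) - v).toNat (p.2 - j) :=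
      Finset.sum_nonneg fun _ _ => Ph_nn P P' _ _
    have h2 := nu_nn p.1 p.2
    positivity
  refine tendsto_order.2 ⟨fun a ha => Filter.Eventually.of_forall fun p => lt_of_lt_of_le ha (hnn p),
    fun ε hε => ?_⟩
  obtain ⟨K, hK⟩ := big_nu h hP hP' h0 h0' v j (show 0 < ε / 3 by positivity)
  have hs : ∀ {P P' : Multiset ℕ}, (∀ p ∈ P', 1 ≤ p) →
      ∀ (v : ℤ) (j i a : ℕ), 2 ≤ Multiset.card P + 2 * a →
      Tendsto (fun p : ℕ × ℕ => muG P i a * muG P' (2 * (p.1 : ℤ) - v - i).toNat (p.2 - j - a) *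
        (p.1 : ℝ) ^ (2 * j) * p.1 /
          ((p.1 : ℝ) ^ (Multiset.card P + Multiset.card P') * SST.nu p.1 p.2)) (Num.Fth θ) (𝓝 0) :=
    fun hP' v j i a hk => sep_small h hP' v j i a hk
  have l1 := (tendsto_order.1 (S1_lim hs (P := P) hP' v j K h)).2 (ε / 3) (by positivity)
  have l2 := (tendsto_order.1 (S1_lim hs (P := P') hP v j K h)).2 (ε / 3) (by positivity)
  have hn1 : ∀ᶠ p in Num.Fth θ, 1 ≤ p.1 := RB.ge_ev θ 1
  filter_upwards [hK K le_rfl, l1, l2, hn1, nu_pos_ev h] with p hp h1 h2 hn hν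
  have hn' : (1 : ℝ) ≤ p.1 := by exact_mod_cast hn
  have hn0 : (0 : ℝ) < p.1 := by linarith
  rw [add_comm (Multiset.card P') (Multiset.card P)] at h2
  have hden : 0 < (p.1 : ℝ) ^ (Multiset.card P + Multiset.card P') * SST.nu p.1 p.2 := by positivity
  rw [div_lt_iff₀ hden] at h1 h2 ⊢
  have e1 := sepR_le h0 h0' K (2 * (p.1 : ℤ) - v).toNat (p.2 - j)
  have e2 : 0 ≤ (p.1 : ℝ) ^ (2 * j) * p.1 := by positivity
  have e3 := mul_le_mul_of_nonneg_right e1 e2
  rw [add_mul, add_mul, ← mul_assoc, ← mul_assoc, ← mul_assoc, ← mul_assoc] at e3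
  linarith

end SYS.UP
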