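import Pool.Agent.SYS.UP.EvQ
import Pool.Agent.SYS.UP.EvR

/-!
# SYS-UP-SrcC: number of the sources with an event

Disjoint union of the sets of `ev_eq` (disjoint by `ev_unique`).
-/

namespace SYS.UP

open SST Part Num

/-- the sources with the event `t` -/
private def srcA (n g : ℕ) (t : Et) : Set (Tri (Fin (6 * n)) × Fin (6 * n)) :=
  {q | q.1 ∈ Trn n g ∧ ∃ S0 z z', Ev q.1 q.2 t S0 z z'}

private theorem src_sum {n g : ℕ} (hn : 1 ≤ n) (hg : 1 ≤ g) (S : Finset Et) (hS : ∀ t ∈ S, GoodE t) :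
    {q : Tri (Fin (6 * n)) × Fin (6 * n) | q.1 ∈ Trn n g ∧ EvX S q.1 q.2}.ncard =
      ∑ t ∈ S, (srcA n g t).ncard := by
  classical
  induction S using Finset.induction_on with
  | empty =>
    rw [Finset.sum_empty, Set.ncard_eq_zero (Set.toFinite _)]
    ext q
    simp only [Set.mem_ofPred_eq, Set.mem_empty_iff_false, iff_false]
    rintro ⟨-, t, ht, -⟩
    exact absurd ht (Finset.notMem_empty t)
  | insert t S ht ih =>
    have h1 : {q : Tri (Fin (6 * n)) × Fin (6 * n) | q.1 ∈ Trn n g ∧ EvX (insert t S) q.1 q.2} =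
        srcA n g t ∪ {q : Tri (Fin (6 * n)) × Fin (6 * n) | q.1 ∈ Trn n g ∧ EvX S q.1 q.2} := by
      ext q
      constructor
      · rintro ⟨hq, t', ht', h⟩
        rcases Finset.mem_insert.1 ht' with rfl | ht'
        · exact Or.inl ⟨hq, h⟩
        · exact Or.inr ⟨hq, t', ht', h⟩
      · rintro (⟨hq, h⟩ | ⟨hq, t', ht', h⟩)
        · exact ⟨hq, t, Finset.mem_insert_self t S, h⟩
        · exact ⟨hq, t', Finset.mem_insert_of_mem ht', h⟩
    have h2 : Disjoint (srcA n g t)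
        {q : Tri (Fin (6 * n)) × Fin (6 * n) | q.1 ∈ Trn n g ∧ EvX S q.1 q.2} := by
      rw [Set.disjoint_left]
      rintro q ⟨hq, S0, z, z', h⟩ ⟨-, t', ht', S0', y, y', h'⟩
      have h3 := (ev_unique hn hg hq (hS t (Finset.mem_insert_self t S))
        (hS t' (Finset.mem_insert_of_mem ht')) h h').1
      rw [h3] at ht
      exact ht ht'
    rw [h1, Set.ncard_union_eq h2 (Set.toFinite _) (Set.toFinite _), Finset.sum_insert ht,
      ih fun t' ht' => hS t' (Finset.mem_insert_of_mem ht')]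

/-- The number of sources with an event. -/
theorem src_card {n g : ℕ} (hn : 1 ≤ n) (hg : 1 ≤ g) {S : Finset Et} (hS : ∀ t ∈ S, GoodE t ∧ vE t ≤ 2 * n) :
    (({q : Tri (Fin (6 * n)) × Fin (6 * n) | q.1 ∈ Trn n g ∧ EvX S q.1 q.2}.ncard : ℕ) : ℝ) =
      ((6 * n).factorial : ℝ) * X1 S (n, g) := by
  rw [src_sum hn hg S fun t ht => (hS t ht).1, Nat.cast_sum, X1, Finset.mul_sum]
  exact Finset.sum_congr rfl fun t ht => ev_eq hn hg (hS t ht).1 (hS t ht).2

end SYS.UP
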