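import Pool.Agent.SYS.UP.St2D
import Pool.Agent.SYS.UP.MuNu
import Pool.Agent.SYS.BD.Coll

/-!
# SYS-UP-St2A: both runs reach the perimeter `P`

PLAN.
* `aa2_bd`: `BD.Coll.coll` with `s₁ = q1`, `s₂ = q2`, `p = P`, `W₁ = FHS q1 P V F`, `W₂ = FHS q2 P V F`: the double sum with the condition `wvol w₁ + wvol w₂ ≤ F` contains the terms of `AA2` (`FHS q2 P V (F - wvol w)` = the `w'` with `wvol w + wvol w' ≤ F`); all terms are nonnegative (`muG_nonneg`, `wwt` nonnegative).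
* `aa2_lim`: `P ≥ n^(1/2+ε)`, `P ≥ 2 q1, 2 q2` eventually, so `(P + 1 - q1) (P + 1 - q2) ≥ P² / 4 ≥ n^(1+2ε) / 4`; `mu_nu` for `{q1+q2+2}`, `j = 0` (`(p.2 - 1) + 1 = p.2`): `AA2 ≤ 4 C n nu / n^(1+2ε) = 4 C n^(-2ε) nu ≤ η nu`.
-/

namespace SYS.UP

open SYS.Num Real Filter Topology

private theorem aa2_nonneg (q1 q2 P : ℕ) (V : ℝ) (F g : ℕ) : 0 ≤ AA2 q1 q2 P V F g := by
  unfold AA2
  refine Finset.sum_nonneg fun w _ => mul_nonneg (wwt_nonneg zero_le_one W_nonneg w) ?_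
  exact Finset.sum_nonneg fun w' _ =>
    mul_nonneg (wwt_nonneg zero_le_one W_nonneg w') (muG_nonneg _ _ _)

theorem aa2_bd {q1 q2 P F g : ℕ} (h1 : 1 ≤ q1) (h2 : 1 ≤ q2) (hq1 : q1 ≤ P) (hq2 : q2 ≤ P) (V : ℝ) :
    ((P : ℝ) + 1 - q1) * (P + 1 - q2) * AA2 q1 q2 P V F g ≤ muG {q1 + q2 + 2} F (g + 1) := by
  classical
  have h := coll q1 q2 P F g h1 h2 hq1 hq2 (FHS q1 P V F) (FHS q2 P V F)
    (fun w hw => (mem_FHS.1 hw).1) (fun w hw => (mem_FHS.1 hw).1)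
  have e : AA2 q1 q2 P V F g = ∑ w₁ ∈ FHS q1 P V F, ∑ w₂ ∈ FHS q2 P V F,
      if wvol w₁ + wvol w₂ ≤ F then
        wwt 1 W w₁ * wwt 1 W w₂ * muG {P, P} (F - wvol w₁ - wvol w₂) g else 0 := by
    unfold AA2
    refine Finset.sum_congr rfl fun w hw => ?_
    have hwF := (mem_FHS.1 hw).2.2
    have e1 : FHS q2 P V (F - wvol w) = (FHS q2 P V F).filter fun w' => wvol w + wvol w' ≤ F := by
      ext w'
      rw [mem_FHS, Finset.mem_filter, mem_FHS]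
      constructor
      · rintro ⟨a, b, c⟩
        exact ⟨⟨a, b, by omega⟩, by omega⟩
      · rintro ⟨⟨a, b, c⟩, d⟩
        exact ⟨a, b, by omega⟩
    rw [e1, Finset.sum_filter, Finset.mul_sum]
    refine Finset.sum_congr rfl fun w' _ => ?_
    split_ifs
    · rw [mul_assoc]
    · rw [mul_zero]
  rw [e]
  exact h

theorem aa2_lim {θ x : ℝ} (h : Par θ x) {ε η : ℝ} (hε : 0 < ε) (hη : 0 < η) {q1 q2 : ℕ} (h1 : 1 ≤ q1)
    (h2 : 1 ≤ q2) (v : ℕ) : ∀ᶠ p in Num.Fth θ, ∀ (P : ℕ) (V : ℝ), P = ⌈(p.1 : ℝ) ^ (1 / 2 + ε)⌉₊ →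
      AA2 q1 q2 P V (2 * p.1 - v) (p.2 - 1) ≤ η * SST.nu p.1 p.2 := by
  obtain ⟨C, hC, hev⟩ := mu_nu h {q1 + q2 + 2} (Multiset.singleton_ne_zero _)
    (fun q hq => by rw [Multiset.mem_singleton] at hq; omega) v 0
  have hg : ∀ᶠ p in Num.Fth θ, 1 ≤ (p : ℕ × ℕ).2 := SYS.RB.ge_ev' h.1 1
  have hn : ∀ᶠ p in Num.Fth θ, 1 ≤ (p : ℕ × ℕ).1 := SYS.RB.ge_ev θ 1
  have ht : Tendsto (fun p : ℕ × ℕ => (p.1 : ℝ)) (Num.Fth θ) atTop := SYS.RB.fst_atTop θ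
  have ha := ((tendsto_rpow_atTop (by linarith : 0 < 1 / 2 + ε)).comp ht).eventually_ge_atTop
    (2 * ((q1 : ℝ) + q2))
  have hb := ((tendsto_rpow_atTop (by linarith : 0 < 2 * ε)).comp ht).eventually_ge_atTop
    (4 * C / η)
  filter_upwards [hev, hg, hn, ha, hb] with p h3 h4 h5 h6 h7
  intro P V hP
  dsimp only [Function.comp] at h6 h7
  obtain ⟨n, g⟩ := p
  dsimp only at h3 h4 h5 h6 h7 hP ⊢
  have hn0 : (0 : ℝ) < n := by exact_mod_cast h5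
  have hPr : (n : ℝ) ^ (1 / 2 + ε) ≤ P := by
    rw [hP]
    exact Nat.le_ceil _
  have hq1r : (0 : ℝ) ≤ q1 := Nat.cast_nonneg _
  have hq2r : (0 : ℝ) ≤ q2 := Nat.cast_nonneg _
  have hPq1 : 2 * (q1 : ℝ) ≤ P := by linarith
  have hPq2 : 2 * (q2 : ℝ) ≤ P := by linarith
  have hq1' : q1 ≤ P := by
    have : (q1 : ℝ) ≤ P := by linarith
    exact_mod_cast this
  have hq2' : q2 ≤ P := by
    have : (q2 : ℝ) ≤ P := by linarith
    exact_mod_cast this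
  have h8 := aa2_bd (F := 2 * n - v) (g := g - 1) h1 h2 hq1' hq2' V
  rw [Nat.sub_add_cancel h4] at h8
  rw [Nat.mul_zero, pow_zero, mul_one, Nat.sub_zero, Multiset.card_singleton, pow_one] at h3
  obtain ⟨A, hA⟩ : ∃ A : ℝ, A = AA2 q1 q2 P V (2 * n - v) (g - 1) := ⟨_, rfl⟩
  have hA0 : 0 ≤ A := by rw [hA]; exact aa2_nonneg _ _ _ _ _ _
  obtain ⟨ν, hν⟩ : ∃ ν : ℝ, ν = SST.nu n g := ⟨_, rfl⟩
  have hν0 : 0 ≤ ν := by
    rw [hν]
    unfold SST.nu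
    positivity
  rw [← hA] at h8 ⊢
  rw [← hν] at h3 ⊢
  have h9 : ((P : ℝ) + 1 - q1) * (P + 1 - q2) * A ≤ C * n * ν := h8.trans h3
  have hsq : (n : ℝ) ^ (2 * ε) * n ≤ (P : ℝ) ^ 2 := by
    have e1 : (n : ℝ) ^ (2 * ε) * n = ((n : ℝ) ^ (1 / 2 + ε)) ^ 2 := by
      rw [← Real.rpow_natCast, ← Real.rpow_mul hn0.le, ← Real.rpow_add_one hn0.ne']
      congr 1
      push_cast
      ring
    rw [e1]
    exact pow_le_pow_left₀ (by positivity) hPr 2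
  have hP0 : (0 : ℝ) ≤ P := Nat.cast_nonneg _
  have h10 : (P : ℝ) ^ 2 / 4 ≤ ((P : ℝ) + 1 - q1) * (P + 1 - q2) := by
    have a1 : (P : ℝ) / 2 ≤ (P : ℝ) + 1 - q1 := by linarith
    have a2 : (P : ℝ) / 2 ≤ (P : ℝ) + 1 - q2 := by linarith
    calc (P : ℝ) ^ 2 / 4 = (P : ℝ) / 2 * ((P : ℝ) / 2) := by ring
      _ ≤ _ := mul_le_mul a1 a2 (by linarith) (by linarith)
  have h11 : (4 * C / η * n) / 4 * A ≤ C * n * ν := by
    refine le_trans (mul_le_mul_of_nonneg_right ?_ hA0) h9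
    refine le_trans ?_ h10
    have : 4 * C / η * n ≤ (P : ℝ) ^ 2 :=
      (mul_le_mul_of_nonneg_right h7 hn0.le).trans hsq
    linarith
  have h12 : C * n * (A / η) ≤ C * n * ν := by
    calc C * n * (A / η) = (4 * C / η * n) / 4 * A := by ring
      _ ≤ _ := h11
  have h13 : A / η ≤ ν := le_of_mul_le_mul_left h12 (by positivity)
  rw [div_le_iff₀ hη] at h13
  linarith

end SYS.UP
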