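import Pool.Agent.SYS.UP.Wrd
import Pool.Agent.SYS.BD.FH
import Pool.Agent.SYS.GR.Defs
import Pool.Agent.SYS.UT.Run

/-!
# SYS-UP-St2D: stopping of the second stage

`BadW s P L V w`: minimal word from `s` with at least `L` layers or at least `V` triangles, whose proper prefixes have perimeter `< P`.
`FHV s P V w`: first hit of the perimeter `P`, less than `V` triangles.
`BadS`, `FHS`: the finite sets of those with at most `F` triangles.
PLAN.  `mem_BadS`, `mem_FHS`: `mem_WdA`.  `pf_bad`, `pf_fh`: minimality.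
-/

namespace SYS.UP

open SYS.Num

def BadW (s P : ℕ) (L V : ℝ) (w : List Stp) : Prop :=
  WOk s w ∧ (L ≤ GR.lay s w ∨ V ≤ wvol w) ∧ ∀ u, u <+: w → u ≠ w → wend s u < P ∧ ¬ (L ≤ GR.lay s u ∨ V ≤ wvol u)

def FHV (s P : ℕ) (V : ℝ) (w : List Stp) : Prop := FH s P w ∧ (wvol w : ℝ) < V

open Classical in
noncomputable def BadS (s P : ℕ) (L V : ℝ) (F : ℕ) : Finset (List Stp) := (WdA s F).filter (BadW s P L V)

open Classical in
noncomputable def FHS (s P : ℕ) (V : ℝ) (F : ℕ) : Finset (List Stp) := (WdA s F).filter (FHV s P V)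

theorem mem_BadS {s P : ℕ} {L V : ℝ} {F : ℕ} {w : List Stp} : w ∈ BadS s P L V F ↔ BadW s P L V w ∧ wvol w ≤ F := by
  classical
  unfold BadS
  rw [Finset.mem_filter, mem_WdA]
  exact ⟨fun h => ⟨h.2, h.1.2⟩, fun h => ⟨⟨h.1.1, h.2⟩, h.1⟩⟩

theorem mem_FHS {s P : ℕ} {V : ℝ} {F : ℕ} {w : List Stp} : w ∈ FHS s P V F ↔ FH s P w ∧ (wvol w : ℝ) < V ∧ wvol w ≤ F := by
  classical
  unfold FHS
  rw [Finset.mem_filter, mem_WdA]
  exact ⟨fun h => ⟨h.2.1, h.2.2, h.1.2⟩, fun h => ⟨⟨h.1.1, h.2.2⟩, h.1, h.2.1⟩⟩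

theorem pf_bad (s P : ℕ) (L V : ℝ) (F : ℕ) : PF (BadS s P L V F) := by
  intro u hu w hw huw
  by_contra hne
  rw [mem_BadS] at hu hw
  exact (hw.1.2.2 u huw hne).2 hu.1.2.1

theorem pf_fh (s P : ℕ) (V : ℝ) (F : ℕ) : PF (FHS s P V F) := by
  intro u hu w hw huw
  rw [mem_FHS] at hu hw
  by_contra hne
  exact hw.1.2.2 u huw hne hu.1.2.1

/-- The numbers of stage 2 for the hole perimeters `q1`, `q2`, `F` triangles: bad word in the first run, bad word in the second run, both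
runs reach `P`. -/
noncomputable def B1 (q1 q2 P : ℕ) (L V : ℝ) (F g : ℕ) : ℝ :=
  ∑ w ∈ BadS q1 P L V F, wwt 1 W w * muG (wend q1 w ::ₘ {q2}) (F - wvol w) g

noncomputable def B2 (q1 q2 P : ℕ) (L V : ℝ) (F g : ℕ) : ℝ :=
  ∑ w ∈ FHS q1 P V F, wwt 1 W w * ∑ w' ∈ BadS q2 P L V (F - wvol w), wwt 1 W w' *
    muG (wend q2 w' ::ₘ {P}) (F - wvol w - wvol w') g

noncomputable def AA2 (q1 q2 P : ℕ) (V : ℝ) (F g : ℕ) : ℝ :=
  ∑ w ∈ FHS q1 P V F, wwt 1 W w * ∑ w' ∈ FHS q2 P V (F - wvol w), wwt 1 W w' *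
    muG {P, P} (F - wvol w - wvol w') g

end SYS.UP
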