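import Pool.Agent.SYS.UP.Stop
import Pool.Agent.SYS.UP.EvD

/-!
# SYS-UP-St2G: stage 2 in a triangulation

PLAN.  Run 1 from `z` (`run_stop` with `ρ = lrule t.1`, `h = []`, `Stop w := wend t.1 w = P ∨ L ≤ lay t.1 w ∨ V ≤ wvol w`), `S0.Typ [z, z'] [t.1, t.2.1] .. 1`, `1 < g`.
* `NPl` at `w`: `lay t.1 w < L`, so `lay t.1 w + 1 ≤ ⌈L⌉₊ + 1 = r`: `topu_run1` (`S0.per z = t.1`).
* stopped at `w`: if `L ≤ lay ∨ V ≤ wvol`: `BadW` (`fh_or`): second case.  Otherwise `wend = P` and all proper prefixes have perimeter `≠ P`: `FH`; `lay t.1 w < L`, `wvol w < V`.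
  Run 2 from `z'` in `S1` (`rch_typ`: `S1.Typ [x1, z'] [P, t.2.1] F1 1`, `typ_perm`: `[z', x1]`, perimeters `t.2.1`, `P` by `rch_other`: `S1.hw z' = S0.hw z'`), `T ∈ S1.Ext g`, `S1.HConn T`:
  `NPl`: `topu_run2` with the same `r`; stopped: third or fourth case.
-/

namespace SYS.UP

open SST Part Num

theorem st2g {n g : ℕ} (hn : 1 ≤ n) (hg : 3 ≤ g) {T : Tri (Fin (6 * n))} (hT : T ∈ Trn n g) {t : Et} {S0 : Part (Fin (6 * n))}
    {z z' : Fin (6 * n)} (hR : Reg t S0 z z') (hL : S0.Le T) (hh : S0.HConn T) {P : ℕ} (h1 : t.1 < P) (h2 : t.2.1 < P) {L V : ℝ} :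
    T.HasSep (4 * ((⌈L⌉₊ + 1 : ℕ) : ℝ) + 8 * S0.R.ncard) ∨
    (∃ w S1 x1, BadW t.1 P L V w ∧ Rch (lrule t.1) [] S0 z w S1 x1 ∧ S1.Le T ∧ S1.HConn T) ∨
    (∃ w S1 x1, FHV t.1 P V w ∧ Rch (lrule t.1) [] S0 z w S1 x1 ∧ S1.Le T ∧ S1.HConn T ∧
      ∃ w' S2 x2, BadW t.2.1 P L V w' ∧ Rch (lrule t.2.1) [] S1 z' w' S2 x2 ∧ S2.Le T ∧ S2.HConn T) ∨
    (∃ w S1 x1, FHV t.1 P V w ∧ Rch (lrule t.1) [] S0 z w S1 x1 ∧ S1.Le T ∧ S1.HConn T ∧
      ∃ w' S2 x2, FHV t.2.1 P V w' ∧ Rch (lrule t.2.1) [] S1 z' w' S2 x2 ∧ S2.Le T ∧ S2.HConn T) := by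
  classical
  have hT0 : T ∈ S0.Ext g := ⟨hT, hL⟩
  have hper := hR.typ.per
  have hpz : S0.per z = t.1 := by
    rw [List.map_cons] at hper
    exact (List.cons.inj hper).1
  have hpz' : S0.per z' = t.2.1 := by
    rw [List.map_cons, List.map_cons] at hper
    exact (List.cons.inj (List.cons.inj hper).2).1
  have hz : z ∈ S0.B := hR.typ.hl.1 z (by simp)
  have hz' : z' ∈ S0.B := hR.typ.hl.1 z' (by simp)
  have hns : ¬ S0.s.SameCycle z z' := by
    have h3 := hR.typ.hl.2.1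
    rw [List.pairwise_cons] at h3
    exact h3.1 z' (by simp)
  have hceil : ∀ {q : ℕ} {w : List Stp}, ¬ (L ≤ GR.lay q w ∨ V ≤ wvol w) → GR.lay q w + 1 ≤ ⌈L⌉₊ + 1 := by
    intro q w hb
    have h3 : (GR.lay q w : ℝ) < L := not_le.1 fun h => hb (Or.inl h)
    have h4 : (GR.lay q w : ℝ) ≤ (⌈L⌉₊ : ℝ) := h3.le.trans (Nat.le_ceil L)
    have h5 : GR.lay q w ≤ ⌈L⌉₊ := by exact_mod_cast h4
    omega
  rcases run_stop (ρ := lrule t.1) _ _ _ [] (fun w => wend t.1 w = P ∨ L ≤ GR.lay t.1 w ∨ V ≤ wvol w) le_rfl hR.typ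
    hT0 hh (Or.inr (by simp)) with ⟨w, S1, x1, hw, hL1, hc1, hs, hp⟩ | ⟨w, S1, x1, hw, hL1, hc1, hp, hn1⟩
  · obtain ⟨hok, F1, hF1, hS1⟩ := rch_typ hR.typ hw
    have hlt : ∀ u, u <+: w → u ≠ w → wend t.1 u < P := fh_or hok h1 fun u hu hne e => hp u hu hne (Or.inl e)
    by_cases hb : L ≤ GR.lay t.1 w ∨ V ≤ wvol w
    · right
      left
      exact ⟨w, S1, x1, ⟨hok, hb, fun u hu hne => ⟨hlt u hu hne, fun h => hp u hu hne (Or.inr h)⟩⟩, hw, hL1, hc1⟩
    · have hP : wend t.1 w = P := hs.resolve_right hb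
      have hF : FHV t.1 P V w := ⟨⟨hok, hP, fun u hu hne e => absurd e (hlt u hu hne).ne⟩,
        not_le.1 fun h => hb (Or.inr h)⟩
      have hwx : Rch (lrule (S0.per z)) [] S0 z w S1 x1 := by
        rw [hpz]
        exact hw
      obtain ⟨hzB, hzw, hzn⟩ := rch_other hw hz' hns
      have hpz1 : S1.per z' = t.2.1 := by
        rw [← hw_length S1 hzB, hzw, hw_length S0 hz', hpz']
      have hS1' : S1.Typ [z', x1] [t.2.1, P] F1 1 := by
        have h3 := typ_perm hS1 (List.Perm.swap z' x1 [])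
        have h4 := hS1.per
        rw [List.map_cons] at h4
        have h5 : S1.per x1 = P := by
          rw [(List.cons.inj h4).1, hP]
        have h6 : [z', x1].map S1.per = [t.2.1, P] := by
          rw [List.map_cons, List.map_cons, List.map_nil, hpz1, h5]
        rw [h6] at h3
        exact h3
      rcases run_stop (ρ := lrule t.2.1) _ _ _ [] (fun w => wend t.2.1 w = P ∨ L ≤ GR.lay t.2.1 w ∨ V ≤ wvol w) le_rfl
        hS1' ⟨hT, hL1⟩ hc1 (Or.inr (by simp)) with ⟨w', S2, x2, hw', hL2, hc2, hs', hp'⟩ | ⟨w', S2, x2, hw', hL2, hc2, hp', hn2⟩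
      · obtain ⟨hok', F2, hF2, hS2⟩ := rch_typ hS1' hw'
        have hlt' : ∀ u, u <+: w' → u ≠ w' → wend t.2.1 u < P :=
          fh_or hok' h2 fun u hu hne e => hp' u hu hne (Or.inl e)
        by_cases hb' : L ≤ GR.lay t.2.1 w' ∨ V ≤ wvol w'
        · right
          right
          left
          exact ⟨w, S1, x1, hF, hw, hL1, hc1, w', S2, x2, ⟨hok', hb', fun u hu hne =>
            ⟨hlt' u hu hne, fun h => hp' u hu hne (Or.inr h)⟩⟩, hw', hL2, hc2⟩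
        · have hP' : wend t.2.1 w' = P := hs'.resolve_right hb'
          right
          right
          right
          exact ⟨w, S1, x1, hF, hw, hL1, hc1, w', S2, x2, ⟨⟨hok', hP', fun u hu hne e => absurd e (hlt' u hu hne).ne⟩,
            not_le.1 fun h => hb' (Or.inr h)⟩, hw', hL2, hc2⟩
      · left
        have hwx' : Rch (lrule (S0.per z')) [] S1 z' w' S2 x2 := by
          rw [hpz']
          exact hw'
        refine topu_run2 hn hg hT hR.con hR.typ.hl hh hwx hwx' hL2 hn2 (r := ⌈L⌉₊ + 1) ?_ ?_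
        · rw [hpz]
          exact hceil hb
        · rw [hpz']
          exact hceil fun h => hp' w' List.prefix_rfl (Or.inr h)
  · left
    have hwx : Rch (lrule (S0.per z)) [] S0 z w S1 x1 := by
      rw [hpz]
      exact hw
    refine topu_run1 hn hg hT hR.con hR.typ.hl hh hwx hL1 hn1 (r := ⌈L⌉₊ + 1) ?_
    rw [hpz]
    exact hceil fun h => hp w List.prefix_rfl (Or.inr h)

end SYS.UP
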