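import Pool.Agent.SYS.UP.St2D

/-!
# SYS-UP-Stop: a run continues until it stops or meets a non-planar event

PLAN.  Induction on `2 F + p`: if `Stop []`: first case with `w = []`.  Otherwise `alt` at the gate: `NSt`, `Sep` or `Mrg`: second case with `w = []` (see the definition of `NPl` in `UT/Run.lean`).  A planar step `s`: `S₁`, `z` (`st_typ`: type with
`F₁ + s.vol = F`, perimeter `s.nx p`; `2 F₁ + s.nx p < 2 F + p`), gate `(S₁.nx ^ ρ (h ++ [s])) z` (`typ_repl`, `nx_pow_same`), `T ∈ S₁.Ext g` (`S₁.Le T`), `HConn`; induction with the history `h ++ [s]` and the property `u ↦ Stop (s :: u)`.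
The prefixes of `s :: w` are `[]` and `s :: u`, `u <+: w`.
`fh_or`: the perimeter grows by at most one in a step: `WOk s w`, `s < P`, all prefixes have perimeter `≠ P`: all are `< P`.
-/

namespace SYS.UP

open SST Part Num

theorem run_stop {n g : ℕ} {T : Tri (Fin (6 * n))} {ρ : List Stp → ℕ} :
    ∀ (N F p : ℕ) (h : List Stp) (Stop : List Stp → Prop) {S : Part (Fin (6 * n))} {x : Fin (6 * n)} {l : List (Fin (6 * n))}
      {P : List ℕ} {κ : ℕ}, 2 * F + p ≤ N → S.Typ (x :: l) (p :: P) F κ → T ∈ S.Ext g → S.HConn T → (κ < g ∨ l ≠ []) →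
    (∃ w S' x', Rch ρ h S x w S' x' ∧ S'.Le T ∧ S'.HConn T ∧ Stop w ∧ ∀ u, u <+: w → u ≠ w → ¬ Stop u) ∨
    (∃ w S' x', Rch ρ h S x w S' x' ∧ S'.Le T ∧ S'.HConn T ∧ (∀ u, u <+: w → ¬ Stop u) ∧ NPl S' T x') := by
  classical
  intro N
  induction N with
  | zero =>
    intro F p h Stop S x l P κ hN hS hT hc ho
    exfalso
    have hx : x ∈ S.B := hS.hl.1 x List.mem_cons_self
    have hper : S.per x = p := by
      have h3 := hS.per
      rw [List.map_cons] at h3
      exact (List.cons.inj h3).1
    have := S.per_pos hx
    omega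
  | succ N ih =>
    intro F p h Stop S x l P κ hN hS hT hc ho
    by_cases hst : Stop []
    · left
      exact ⟨[], S, x, ⟨rfl, rfl⟩, hT.2, hc, hst, fun u hu hne => absurd (List.prefix_nil.1 hu) hne⟩
    · have hnil : ∀ u : List Stp, u <+: [] → ¬ Stop u := fun u hu => by
        rw [List.prefix_nil.1 hu]
        exact hst
      rcases alt hS hT hc ho with ⟨s, S', z, hst', hL', hc'⟩ | hns | hsep | hm
      · obtain ⟨hok, F', hF', hS'⟩ := st_typ hS hst'
        have hz : z ∈ S'.B := (st_sub hst').2.2
        have hg1 := nx_pow_same S' hz (ρ (h ++ [s]))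
        have hS2 := typ_repl hS' hg1.1 hg1.2
        have hmeas : 2 * F' + s.nx p ≤ N := by
          cases s with
          | T =>
            have e1 : Stp.vol .T = 1 := rfl
            have e2 : Stp.nx p .T = p + 1 := rfl
            rw [e1] at hF'
            rw [e2]
            omega
          | L k a =>
            have e1 : Stp.vol (.L k a) = a := rfl
            have e2 : Stp.nx p (.L k a) = p - (k + 2) := rfl
            have e3 : k + 3 ≤ p := hok
            rw [e1] at hF'
            rw [e2]
            omega
          | R k a =>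
            have e1 : Stp.vol (.R k a) = a := rfl
            have e2 : Stp.nx p (.R k a) = p - (k + 2) := rfl
            have e3 : k + 3 ≤ p := hok
            rw [e1] at hF'
            rw [e2]
            omega
        rcases ih F' (s.nx p) (h ++ [s]) (fun u => Stop (s :: u)) hmeas hS2 ⟨hT.1, hL'⟩ hc' ho with
          ⟨w, S2, x2, hr, hL2, hc2, hs2, hp2⟩ | ⟨w, S2, x2, hr, hL2, hc2, hp2, hn⟩
        · left
          refine ⟨s :: w, S2, x2, ⟨S', z, hst', hr⟩, hL2, hc2, hs2, ?_⟩
          intro u hu hne
          cases u with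
          | nil => exact hst
          | cons s' u =>
            rw [List.cons_prefix_cons] at hu
            obtain ⟨rfl, hu⟩ := hu
            exact hp2 u hu (fun e => hne (by rw [e]))
        · right
          refine ⟨s :: w, S2, x2, ⟨S', z, hst', hr⟩, hL2, hc2, ?_, hn⟩
          intro u hu
          cases u with
          | nil => exact hst
          | cons s' u =>
            rw [List.cons_prefix_cons] at hu
            obtain ⟨rfl, hu⟩ := hu
            exact hp2 u hu
      · right
        exact ⟨[], S, x, ⟨rfl, rfl⟩, hT.2, hc, hnil, Or.inl hns⟩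
      · right
        exact ⟨[], S, x, ⟨rfl, rfl⟩, hT.2, hc, hnil, Or.inr (Or.inl hsep)⟩
      · right
        exact ⟨[], S, x, ⟨rfl, rfl⟩, hT.2, hc, hnil, Or.inr (Or.inr hm)⟩

theorem fh_or {s P : ℕ} {w : List Stp} (h : WOk s w) (hs : s < P) (hn : ∀ u, u <+: w → u ≠ w → wend s u ≠ P) :
    ∀ u, u <+: w → u ≠ w → wend s u < P := by
  intro u
  induction u using List.reverseRecOn with
  | nil => exact fun _ _ => hs
  | append_singleton u t ih =>
    intro hu hne
    have hu' : u <+: w := (List.prefix_append u [t]).trans hu
    have hne' : u ≠ w := by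
      rintro rfl
      have h1 := hu.length_le
      rw [List.length_append, List.length_singleton] at h1
      omega
    have h1 := ih hu' hne'
    have h2 := hn _ hu hne
    have h3 : wend s (u ++ [t]) ≤ wend s u + 1 := by
      rw [wend_append]
      show Stp.nx (wend s u) t ≤ _
      cases t with
      | T => exact le_rfl
      | L k a =>
        show wend s u - (k + 2) ≤ _
        omega
      | R k a =>
        show wend s u - (k + 2) ≤ _
        omega
    omega

end SYS.UP
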