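import Pool.Agent.SYS.UP.Sec
import Pool.Agent.SYS.UP.PairC
import Pool.Agent.SYS.UP.SrcC

/-!
# SYS-UP-SysU: an event of stage 1 happens with high probability

PLAN.
* `cs_zero` (Cauchy-Schwarz): `∑ Z = ∑_{Z ≠ 0} Z`, `(∑_{Z≠0} 1 * Z)² ≤ #{Z ≠ 0} * ∑ Z²` (`Finset.sum_mul_sq_le_sq_mul_sq` or `Finset.inner_mul_le_norm_mul_norm`).
* `sys_u`: `C0, c, C` from `second`; `K ≥ 1`; `α = {T // T ∈ Trn n g}` (finite), `Z T = ∑_{i<K} #{y | EvX (ES C0 i) T y} / (sc i)²`.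
  `∑_T Z = (6n)! ∑_i X1 (ES C0 i) (n,g) / (sc i)²` (`src_card`; `t ∈ ES C0 i`: `GoodE t`, `vE t ≤ 1 + C0 * sc i ≤ 2n` eventually: `mem_EvF`), `∑_T Z² = ∑_{i,j} #{(T,y,y') ..} / ((sc i)² (sc j)²)`, and
  `#{(T, y, y') | EvX (ES C0 i) T y, EvX (ES C0 j) T y'} ≤ (6n)! PB (ES C0 (min i j)) (ES C0 (max i j)) (WdA 3 (C0 * sc (max i j))) (n, g)`: `pair_le` (`2 ≤ sc i ≤ t.1`; a prefix of `t.2.2` is in `WdA`: `mem_WdA`), for `j < i` exchange the two coordinates.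
  With `A = ∑ X1/sc²`, `B` = the sum of `PB`, `N0 = #{Z = 0}`, `N = #Trn = (6n)! nu`: `((6n)! A)² ≤ (N - N0) (6n)! B`, `B nu ≤ A² + C K nu²`, `A ≥ c K nu`.  So `(N - N0) (A² + C K nu²) ≥ (6n)! A² nu = N A²`, `N0 A² ≤ N0 (A² + C K nu²) ≤ N C K nu²`, `N0 c² K² nu² ≤ N C K nu²`, `K N0 ≤ (C/c²) N`
  (`nu > 0` eventually, otherwise `N = 0`).
  `Z T = 0` iff no event happens.
-/

namespace SYS.UP

open SST Part Num Filter Topology

theorem cs_zero {α : Type} [Fintype α] [DecidableEq α] (Z : α → ℝ) (s : Finset α) (hs : ∀ a, a ∉ s → Z a = 0) :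
    (∑ a, Z a) ^ 2 ≤ s.card * ∑ a, Z a ^ 2 := by
  have h1 : ∑ a, Z a = ∑ a ∈ s, Z a :=
    (Finset.sum_subset (Finset.subset_univ s) fun a _ ha => hs a ha).symm
  have h2 : ∑ a ∈ s, Z a ^ 2 ≤ ∑ a, Z a ^ 2 :=
    Finset.sum_le_sum_of_subset_of_nonneg (Finset.subset_univ s) fun a _ _ => sq_nonneg _
  rw [h1]
  refine (sq_sum_le_card_mul_sum_sq (s := s) (f := Z)).trans ?_
  exact mul_le_mul_of_nonneg_left h2 (by positivity)

open Classical in
private theorem su_nc {β : Type} [Fintype β] (P : β → Prop) :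
    (({y | P y}.ncard : ℕ) : ℝ) = ∑ y, if P y then (1 : ℝ) else 0 := by
  rw [Set.ncard_eq_toFinset_card', Set.toFinset_ofPred, Finset.card_filter]
  push_cast
  rfl

open Classical in
/-- The second moment method in a finite set. -/
private theorem su_mom {α β : Type} [Finite α] [Finite β] (R : α → Prop) (E : ℕ → α → β → Prop) (K : ℕ) (s : ℕ → ℝ)
    {f A B : ℝ} (hA : ∑ i ∈ Finset.range K, (({q : α × β | R q.1 ∧ E i q.1 q.2}.ncard : ℕ) : ℝ) / s i = f * A)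
    (hB : ∑ i ∈ Finset.range K, ∑ j ∈ Finset.range K,
      (({q : α × β × β | R q.1 ∧ E i q.1 q.2.1 ∧ E j q.1 q.2.2}.ncard : ℕ) : ℝ) / (s i * s j) ≤ f * B) :
    (f * A) ^ 2 ≤ (({a | R a}.ncard : ℕ) - ({a | R a ∧ ∀ i < K, ∀ y, ¬ E i a y}.ncard : ℕ) : ℝ) * (f * B) := by
  have := Fintype.ofFinite α
  have := Fintype.ofFinite β
  set I : ℕ → α → β → ℝ := fun i a y => if R a ∧ E i a y then 1 else 0 with hI
  set Z : α → ℝ := fun a => ∑ i ∈ Finset.range K, (∑ y, I i a y) / s i with hZ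
  have h1 : ∑ a, Z a = f * A := by
    rw [← hA, hZ, Finset.sum_comm]
    refine Finset.sum_congr rfl fun i _ => ?_
    rw [← Finset.sum_div, su_nc, Fintype.sum_prod_type]
    congr 1
    refine Finset.sum_congr rfl fun a _ => Finset.sum_congr rfl fun y _ => ?_
    rw [hI]
    dsimp only
    by_cases hR : R a <;> by_cases h3 : E i a y <;> simp [hR, h3]
  have h2 : ∑ a, Z a ^ 2 ≤ f * B := by
    refine le_trans (le_of_eq ?_) hB
    have e1 : ∀ a, Z a ^ 2 = ∑ i ∈ Finset.range K, ∑ j ∈ Finset.range K,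
        (∑ y, ∑ y', I i a y * I j a y') / (s i * s j) := by
      intro a
      rw [hZ, sq, Finset.sum_mul_sum]
      refine Finset.sum_congr rfl fun i _ => Finset.sum_congr rfl fun j _ => ?_
      rw [div_mul_div_comm, Finset.sum_mul_sum]
    rw [Finset.sum_congr rfl fun a _ => e1 a, Finset.sum_comm]
    refine Finset.sum_congr rfl fun i _ => ?_
    rw [Finset.sum_comm]
    refine Finset.sum_congr rfl fun j _ => ?_
    rw [← Finset.sum_div, su_nc, Fintype.sum_prod_type]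
    congr 1
    refine Finset.sum_congr rfl fun a _ => ?_
    rw [Fintype.sum_prod_type]
    refine Finset.sum_congr rfl fun y _ => Finset.sum_congr rfl fun y' _ => ?_
    rw [hI]
    dsimp only
    by_cases hR : R a <;> by_cases h3 : E i a y <;> by_cases h4 : E j a y' <;> simp [hR, h3, h4]
  set S : Finset α := Finset.univ.filter fun a => R a ∧ ∃ i < K, ∃ y, E i a y with hS
  have h3 : ∀ a, a ∉ S → Z a = 0 := by
    intro a ha
    rw [hS, Finset.mem_filter] at ha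
    rw [hZ]
    refine Finset.sum_eq_zero fun i hi => ?_
    rw [Finset.sum_eq_zero, zero_div]
    intro y _
    rw [hI]
    dsimp only
    rw [if_neg]
    rintro ⟨h5, h6⟩
    exact ha ⟨Finset.mem_univ _, h5, i, Finset.mem_range.1 hi, y, h6⟩
  have h4 := cs_zero Z S h3
  rw [h1] at h4
  have h5 : (S.card : ℝ) = ({a | R a}.ncard : ℕ) - ({a | R a ∧ ∀ i < K, ∀ y, ¬ E i a y}.ncard : ℕ) := by
    rw [su_nc, su_nc, ← Finset.sum_sub_distrib, hS, Finset.card_filter]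
    push_cast
    refine Finset.sum_congr rfl fun a _ => ?_
    by_cases hR : R a
    · by_cases hE : ∃ i < K, ∃ y, E i a y
      · have hn : ¬ ∀ i < K, ∀ y, ¬ E i a y := by push Not; exact hE
        rw [if_pos ⟨hR, hE⟩, if_pos hR, if_neg (fun h => hn h.2), sub_zero]
      · have hn : ∀ i < K, ∀ y, ¬ E i a y := by push Not at hE; exact hE
        rw [if_neg (fun h => hE h.2), if_pos hR, if_pos ⟨hR, hn⟩, sub_self]
    · rw [if_neg (fun h => hR h.1), if_neg hR, if_neg (fun h => hR h.1), sub_self]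
  rw [← h5]
  exact h4.trans (mul_le_mul_of_nonneg_left h2 (by positivity))

/-- The algebra of the second moment method. -/
private theorem su_alg {f A B ν N N0 c C K : ℝ} (hf : 0 < f) (hν : 0 < ν) (hc : 0 < c) (hC : 0 < C) (hK : 0 < K)
    (hN : N = f * ν) (hN0 : 0 ≤ N0) (hNN : N0 ≤ N) (h1 : (f * A) ^ 2 ≤ (N - N0) * (f * B))
    (h2 : B * ν ≤ A ^ 2 + C * K * ν ^ 2) (h3 : c * K * ν ≤ A) : K * N0 ≤ C / c ^ 2 * N := by
  have h4 : f * A ^ 2 ≤ (N - N0) * B := by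
    have : f * (f * A ^ 2) ≤ f * ((N - N0) * B) := by nlinarith [h1]
    exact le_of_mul_le_mul_left this hf
  have h5 : N * A ^ 2 ≤ (N - N0) * (A ^ 2 + C * K * ν ^ 2) := by
    calc N * A ^ 2 = (f * A ^ 2) * ν := by rw [hN]; ring
      _ ≤ ((N - N0) * B) * ν := mul_le_mul_of_nonneg_right h4 hν.le
      _ = (N - N0) * (B * ν) := by ring
      _ ≤ _ := mul_le_mul_of_nonneg_left h2 (by linarith)
  have h6 : N0 * A ^ 2 ≤ N * (C * K * ν ^ 2) := by
    have h7 : 0 ≤ N0 * (C * K * ν ^ 2) := by positivity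
    nlinarith [h5]
  have h8 : (c * K * ν) ^ 2 ≤ A ^ 2 := pow_le_pow_left₀ (by positivity) h3 2
  have h9 : N0 * (c * K * ν) ^ 2 ≤ N * (C * K * ν ^ 2) := (mul_le_mul_of_nonneg_left h8 hN0).trans h6
  have h10 : (K * ν ^ 2) * (c ^ 2 * (K * N0)) ≤ (K * ν ^ 2) * (C * N) := by nlinarith [h9]
  have h11 : c ^ 2 * (K * N0) ≤ C * N := le_of_mul_le_mul_left h10 (by positivity)
  rw [div_mul_eq_mul_div, le_div_iff₀ (by positivity)]
  linarith

private theorem su_sc (i : ℕ) : 2 ≤ sc i := by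
  unfold sc
  have : 1 ≤ 4 ^ i := Nat.one_le_pow _ _ (by norm_num)
  omega

private theorem su_sc_mono {i j : ℕ} (h : i ≤ j) : sc i ≤ sc j := by
  unfold sc
  exact Nat.mul_le_mul_left 2 (Nat.pow_le_pow_right (by norm_num) h)

private theorem su_good {C0 i : ℕ} {t : Et} (ht : t ∈ ES C0 i) :
    GoodE t ∧ 2 ≤ t.1 ∧ 2 ≤ t.2.1 ∧ wvol t.2.2 ≤ C0 * sc i := by
  unfold ES at ht
  rw [mem_EvF] at ht
  have := su_sc i
  exact ⟨ht.1, by omega, by omega, ht.2.2.2.2.2⟩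

/-- Bound for the number of pairs. -/
private theorem su_pair {n g C0 K : ℕ} (hn : 1 ≤ n) (hg : 2 ≤ g) (hnK : 1 + C0 * sc K ≤ 2 * n) {i j : ℕ} (hi : i < K) :
    (({q : Tri (Fin (6 * n)) × Fin (6 * n) × Fin (6 * n) | q.1 ∈ Trn n g ∧ EvX (ES C0 i) q.1 q.2.1 ∧
      EvX (ES C0 j) q.1 q.2.2}.ncard : ℕ) : ℝ) ≤
      ((6 * n).factorial : ℝ) * PB (ES C0 i) (ES C0 j) (WdA 3 (C0 * sc j)) (n, g) := by
  refine pair_le hn hg (fun t ht => ?_) (fun t ht => (su_good ht).1) (fun t ht w hw => ?_)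
  · obtain ⟨h1, h2, h3, h4⟩ := su_good ht
    refine ⟨h1, h2, h3, ?_⟩
    have h5 : C0 * sc i ≤ C0 * sc K := Nat.mul_le_mul_left _ (su_sc_mono hi.le)
    unfold vE
    omega
  · obtain ⟨h1, h2, h3, h4⟩ := su_good ht
    obtain ⟨v, hv⟩ := hw
    rw [mem_WdA]
    have h5 := h1.2.2.1
    rw [← hv, WOk_append] at h5
    rw [← hv, wvol_append] at h4
    exact ⟨h5.1, by omega⟩

theorem sys_u {θ x : ℝ} (h : Par θ x) : ∃ (C0 : ℕ) (C : ℝ), 0 < C ∧ ∀ K : ℕ, 1 ≤ K → ∀ᶠ p in Num.Fth θ,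
    (K : ℝ) * ({T : Tri (Fin (6 * p.1)) | T ∈ Trn p.1 p.2 ∧ ∀ i < K, ∀ y, ¬ EvX (ES C0 i) T y}.ncard : ℕ) ≤
      C * ((Trn p.1 p.2).ncard : ℕ) := by
  obtain ⟨C0, c, C, hc, hC, hsec⟩ := second h
  refine ⟨C0, C / c ^ 2, by positivity, ?_⟩
  intro K hK
  have e1 : ∀ᶠ p in Num.Fth θ, 1 + C0 * sc K ≤ (p : ℕ × ℕ).1 := RB.ge_ev θ _
  have e2 : ∀ᶠ p in Num.Fth θ, 2 ≤ (p : ℕ × ℕ).2 := RB.ge_ev' h.1 2
  filter_upwards [hsec K hK, nu_pos_ev h, e1, e2] with p hp hν hp1 hp2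
  obtain ⟨hp3, hp4⟩ := hp
  obtain ⟨n, g⟩ := p
  dsimp only at hp1 hp2 hp3 hp4 hν ⊢
  have hf : (0 : ℝ) < ((6 * n).factorial : ℝ) := by exact_mod_cast Nat.factorial_pos _
  have hN : (((Trn n g).ncard : ℕ) : ℝ) = ((6 * n).factorial : ℝ) * SST.nu n g := by
    unfold SST.nu
    field_simp
  have hvE : ∀ i < K, ∀ t ∈ ES C0 i, GoodE t ∧ vE t ≤ 2 * n := by
    intro i hi t ht
    obtain ⟨h1, h2, h3, h4⟩ := su_good ht
    refine ⟨h1, ?_⟩
    have h5 : C0 * sc i ≤ C0 * sc K := Nat.mul_le_mul_left _ (su_sc_mono hi.le)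
    unfold vE
    omega
  have hmom := su_mom (α := Tri (Fin (6 * n))) (β := Fin (6 * n)) (fun T => T ∈ Trn n g)
    (fun i T y => EvX (ES C0 i) T y) K (fun i => (sc i : ℝ) ^ 2) (f := ((6 * n).factorial : ℝ))
    (A := ∑ i ∈ Finset.range K, X1 (ES C0 i) (n, g) / (sc i : ℝ) ^ 2)
    (B := ∑ i ∈ Finset.range K, ∑ j ∈ Finset.range K, PB (ES C0 (min i j)) (ES C0 (max i j))
        (WdA 3 (C0 * sc (max i j))) (n, g) / ((sc i : ℝ) ^ 2 * (sc j : ℝ) ^ 2)) ?_ ?_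
  · refine su_alg hf hν hc hC (by exact_mod_cast hK) hN (by positivity) ?_ hmom hp4 hp3
    have hsub : {T : Tri (Fin (6 * n)) | T ∈ Trn n g ∧ ∀ i < K, ∀ y, ¬ EvX (ES C0 i) T y} ⊆ Trn n g := fun T hT => hT.1
    exact_mod_cast Set.ncard_le_ncard hsub (Set.toFinite _)
  · rw [Finset.mul_sum]
    refine Finset.sum_congr rfl fun i hi => ?_
    rw [src_card (by omega) (by omega) (hvE i (Finset.mem_range.1 hi))]
    ring
  · rw [Finset.mul_sum]
    refine Finset.sum_le_sum fun i hi => ?_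
    rw [Finset.mul_sum]
    refine Finset.sum_le_sum fun j hj => ?_
    rw [Finset.mem_range] at hi hj
    have hs1 : (0 : ℝ) < (sc i : ℝ) := by have := su_sc i; positivity
    have hs2 : (0 : ℝ) < (sc j : ℝ) := by have := su_sc j; positivity
    rw [← mul_div_assoc]
    refine div_le_div_of_nonneg_right ?_ (by positivity)
    rcases le_total i j with hij | hij
    · rw [min_eq_left hij, max_eq_right hij]
      exact su_pair (by omega) hp2 (by omega) hi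
    · rw [min_eq_right hij, max_eq_left hij]
      refine le_trans (le_of_eq ?_) (su_pair (by omega) hp2 (by omega) hj)
      congr 1
      refine Set.ncard_congr (fun q _ => (q.1, q.2.2, q.2.1)) ?_ ?_ ?_
      · rintro ⟨T, y, y'⟩ ⟨h1, h2, h3⟩
        exact ⟨h1, h3, h2⟩
      · rintro ⟨T, y, y'⟩ ⟨T', z, z'⟩ _ _ he
        simp only [Prod.mk.injEq] at he ⊢
        tauto
      · rintro ⟨T, y, y'⟩ ⟨h1, h2, h3⟩
        exact ⟨(T, y', y), ⟨h1, h3, h2⟩, rfl⟩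

end SYS.UP
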